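import Pool.Agent.H56T.Raag

/-!
# Proper actions on contractible spaces

The map on the cone of the flag complex for a proper action on a contractible space (in `CONE.lean` for absolute
extensors): the maps are extended from the boundary of a cube to the cube with the help of a contraction.
-/

set_option autoImplicit false
set_option linter.unusedSectionVars false

namespace Pool.Agent.H56T.CTR

open CONE Pool.Agent.R782.Bal Pool.Agent.W907.SG

open scoped Classical

section Ext

variable {V Q M : Type} [Fintype V] [Group Q] [TopologicalSpace M] [MulAction Q M] {G : SimpleGraph V} {g : V → Q}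

/-- the skeleton -/
def Sk (G : SimpleGraph V) (k : ℕ) : Set (V → ℝ) := {x | x ∈ Cb G ∧ ∃ T : Finset V, T.card ≤ k ∧ ∀ u ∉ T, x u = 0}

/-- the cube of a set -/
def cube (T : Finset V) : Set (V → ℝ) := {x | (∀ v, 0 ≤ x v ∧ x v ≤ 1) ∧ ∀ v, v ∉ T → x v = 0}

theorem isClosed_cube (T : Finset V) : IsClosed (cube T) := by
  refine IsClosed.inter ?_ ?_
  · have h : {x : V → ℝ | ∀ v, 0 ≤ x v ∧ x v ≤ 1} = ⋂ v, ({x : V → ℝ | 0 ≤ x v} ∩ {x | x v ≤ 1}) := by
      ext x
      simp
    change IsClosed {x : V → ℝ | ∀ v, 0 ≤ x v ∧ x v ≤ 1}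
    rw [h]
    exact isClosed_iInter fun v => (isClosed_le continuous_const (continuous_apply v)).inter
      (isClosed_le (continuous_apply v) continuous_const)
  · have h : {x : V → ℝ | ∀ v, v ∉ T → x v = 0} = ⋂ (v : V) (_ : v ∉ T), {x : V → ℝ | x v = 0} := by
      ext x
      simp
    change IsClosed {x : V → ℝ | ∀ v, v ∉ T → x v = 0}
    rw [h]
    exact isClosed_iInter fun v => isClosed_iInter fun _ => isClosed_eq (continuous_apply v) continuous_const

/-- twice the distance from the centre of the cube, as a vector -/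
noncomputable def off (T : Finset V) (x : V → ℝ) : V → ℝ := fun v => if v ∈ T then 2 * x v - 1 else 0

/-- the gauge of the cube -/
noncomputable def rho (T : Finset V) (x : V → ℝ) : ℝ := ‖off T x‖

/-- the radial projection to the boundary -/
noncomputable def rad (T : Finset V) (x : V → ℝ) : V → ℝ := fun v => if v ∈ T then (1 + (2 * x v - 1) / rho T x) / 2 else 0

theorem off_cont (T : Finset V) : Continuous (off T) := by
  refine continuous_pi fun v => ?_
  unfold off
  by_cases h : v ∈ T
  · simp only [h, if_true]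
    fun_prop
  · simp only [h, if_false]
    exact continuous_const

theorem rho_cont (T : Finset V) : Continuous (rho T) := (off_cont T).norm

theorem rad_cont (T : Finset V) : ContinuousOn (rad T) {x | 1 / 2 ≤ rho T x} := by
  refine continuousOn_pi.2 fun v => ?_
  unfold rad
  by_cases h : v ∈ T
  · simp only [h, if_true]
    refine ContinuousOn.div_const (continuousOn_const.add ?_) 2
    refine ContinuousOn.div (by fun_prop) (rho_cont T).continuousOn fun x hx => ?_
    have : (1 : ℝ) / 2 ≤ rho T x := hx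
    linarith
  · simp only [h, if_false]
    exact continuousOn_const

theorem rho_le {T : Finset V} {x : V → ℝ} (hx : x ∈ cube T) : rho T x ≤ 1 := by
  unfold rho
  rw [pi_norm_le_iff_of_nonneg zero_le_one]
  intro v
  unfold off
  have := hx.1 v
  split_ifs
  · rw [Real.norm_eq_abs, abs_le]
    constructor <;> linarith
  · rw [norm_zero]
    exact zero_le_one

theorem le_rho {T : Finset V} {x : V → ℝ} {v : V} (hv : v ∈ T) : |2 * x v - 1| ≤ rho T x := by
  have h := norm_le_pi_norm (off T x) v
  unfold off at h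
  rw [if_pos hv] at h
  exact h

theorem off_rad {T : Finset V} {x : V → ℝ} (h : 0 < rho T x) : off T (rad T x) = (rho T x)⁻¹ • off T x := by
  funext v
  rw [Pi.smul_apply, smul_eq_mul]
  unfold off rad
  split_ifs
  · field_simp
    ring
  · rw [mul_zero]

theorem rho_rad {T : Finset V} {x : V → ℝ} (h : 0 < rho T x) : rho T (rad T x) = 1 := by
  have h1 : ‖off T (rad T x)‖ = 1 := by
    rw [off_rad h, norm_smul, norm_inv, Real.norm_of_nonneg h.le]
    exact inv_mul_cancel₀ h.ne'
  exact h1

theorem rad_cube {T : Finset V} {x : V → ℝ} (h : 0 < rho T x) : rad T x ∈ cube T := by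
  refine ⟨fun v => ?_, fun v hv => if_neg hv⟩
  by_cases hv : v ∈ T
  · have h1 := le_rho (x := x) hv
    have h2 : rad T x v = (1 + (2 * x v - 1) / rho T x) / 2 := if_pos hv
    rw [h2]
    have h3 : |(2 * x v - 1) / rho T x| ≤ 1 := by
      rw [abs_div, abs_of_pos h, div_le_one h]
      exact h1
    rw [abs_le] at h3
    constructor <;> linarith
  · have h2 : rad T x v = 0 := if_neg hv
    rw [h2]
    exact ⟨le_rfl, zero_le_one⟩

theorem rad_self {T : Finset V} {x : V → ℝ} (hx : x ∈ cube T) (h : rho T x = 1) : rad T x = x := by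
  funext v
  unfold rad
  split_ifs with hv
  · rw [h, div_one]
    ring
  · exact (hx.2 v hv).symm

/-- boundary points have a coordinate zero or one -/
theorem bdry {T : Finset V} {x : V → ℝ} (hx : x ∈ cube T) (h : rho T x = 1) : ∃ v ∈ T, x v = 0 ∨ x v = 1 := by
  by_contra hcon
  push Not at hcon
  have h1 : rho T x < 1 := by
    unfold rho
    rw [pi_norm_lt_iff zero_lt_one]
    intro v
    unfold off
    split_ifs with hv
    · obtain ⟨h2, h3⟩ := hcon v hv
      obtain ⟨h4, h5⟩ := hx.1 v
      rw [Real.norm_eq_abs, abs_lt]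
      have h6 := lt_of_le_of_ne h4 (Ne.symm h2)
      have h7 := lt_of_le_of_ne h5 h3
      constructor <;> linarith
    · rw [norm_zero]
      exact zero_lt_one
  linarith

theorem rho_bdry {T : Finset V} {x : V → ℝ} (hx : x ∈ cube T) {v : V} (hv : v ∈ T) (h : x v = 0 ∨ x v = 1) :
    rho T x = 1 := by
  refine le_antisymm (rho_le hx) ?_
  refine le_trans ?_ (le_rho (x := x) hv)
  rcases h with h | h
  · rw [h]
    norm_num
  · rw [h]
    norm_num

theorem cube_Cb {T : Finset V} (hT : G.IsClique (T : Set V)) {x : V → ℝ} (hx : x ∈ cube T) : x ∈ Cb G := by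
  refine ⟨hx.1, hT.subset fun v hv => ?_⟩
  by_contra h
  exact hv (hx.2 v h)

theorem mem_AS {T : Finset V} (hT : G.IsClique (T : Set V)) {x : V → ℝ} (hx : x ∈ cube T) {v : V} (hv : v ∈ T)
    (h : x v = 0 ∨ x v = 1) : ∃ p : Finset V × Finset V, p.2.card + 1 = T.card ∧ x ∈ AS G p := by
  rcases h with h | h
  · refine ⟨(∅, T.erase v), Finset.card_erase_add_one hv, cube_Cb hT hx, by simp, fun u _ hu => ?_⟩
    by_cases huv : u = v
    · rw [huv, h]
    · exact hx.2 u fun h => hu (Finset.mem_erase.2 ⟨huv, h⟩)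
  · refine ⟨({v}, T.erase v), Finset.card_erase_add_one hv, cube_Cb hT hx, fun u hu => ?_, fun u hu1 hu2 => ?_⟩
    · rw [Finset.mem_singleton] at hu
      rw [hu, h]
    · rw [Finset.mem_singleton] at hu1
      exact hx.2 u fun h => hu2 (Finset.mem_erase.2 ⟨hu1, h⟩)

/-- The extension to the next skeleton -/
theorem extend [ContractibleSpace M] {k : ℕ} {A : Set (V → ℝ)} (hA : A = ⋃ p : {p : Finset V × Finset V // p.2.card ≤ k},
    AS G p.1) (hAcl : IsClosed A) {β : (V → ℝ) → M} (hβ : ContinuousOn β A) :
    ∃ ψ : (V → ℝ) → M, ContinuousOn ψ (Sk G (k + 1)) ∧ ∀ x ∈ A, ψ x = β x := by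
  obtain ⟨y, ⟨F⟩⟩ := id_nullhomotopic M
  let Hc : ℝ × M → M := fun z => F (Set.projIcc 0 1 zero_le_one z.1, z.2)
  have hHc : Continuous Hc := by
    refine F.continuous.comp ?_
    exact (continuous_projIcc.comp continuous_fst).prodMk continuous_snd
  have hH0 : ∀ m, Hc (0, m) = m := by
    intro m
    show F (Set.projIcc 0 1 zero_le_one 0, m) = m
    rw [Set.projIcc_left]
    exact F.apply_zero m
  have hH1 : ∀ m, Hc (1, m) = y := by
    intro m
    show F (Set.projIcc 0 1 zero_le_one 1, m) = y
    rw [Set.projIcc_right]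
    exact F.apply_one m
  -- the formula on the cube
  let form : Finset V → (V → ℝ) → M := fun T x => if rho T x ≤ 1 / 2 then y else Hc (2 - 2 * rho T x, β (rad T x))
  have hradA : ∀ T : Finset V, G.IsClique (T : Set V) → T.card = k + 1 → ∀ x, 0 < rho T x → rad T x ∈ A := by
    intro T hT hTk x hx
    obtain ⟨v, hv, hv'⟩ := bdry (rad_cube hx) (rho_rad hx)
    obtain ⟨p, hp, hpx⟩ := mem_AS hT (rad_cube hx) hv hv'
    rw [hA]
    exact Set.mem_iUnion.2 ⟨⟨p, by omega⟩, hpx⟩
  have hform : ∀ T : Finset V, G.IsClique (T : Set V) → T.card = k + 1 → ContinuousOn (form T) (cube T) := by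
    intro T hT hTk
    have h1 : ContinuousOn (fun x => Hc (2 - 2 * rho T x, β (rad T x))) {x | 1 / 2 ≤ rho T x} := by
      refine hHc.comp_continuousOn (ContinuousOn.prodMk ?_ ?_)
      · exact (continuous_const.sub (continuous_const.mul (rho_cont T))).continuousOn
      · refine hβ.comp (rad_cont T) fun x hx => hradA T hT hTk x ?_
        have : (1 : ℝ) / 2 ≤ rho T x := hx
        linarith
    have h2 : ContinuousOn (form T) ({x | rho T x ≤ 1 / 2} ∪ {x | 1 / 2 ≤ rho T x}) := by
      refine ContinuousOn.union_of_isClosed ?_ ?_ (isClosed_le (rho_cont T) continuous_const)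
        (isClosed_le continuous_const (rho_cont T))
      · exact continuousOn_const.congr fun x hx => if_pos hx
      · refine h1.congr fun x hx => ?_
        by_cases h3 : rho T x ≤ 1 / 2
        · have h4 : rho T x = 1 / 2 := le_antisymm h3 hx
          have h5 : form T x = y := if_pos h3
          rw [h5]
          show y = Hc (2 - 2 * rho T x, β (rad T x))
          rw [h4, show (2 : ℝ) - 2 * (1 / 2) = 1 by norm_num, hH1]
        · exact if_neg h3
    exact h2.mono fun x _ => le_total (rho T x) (1 / 2)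
  -- the map
  let ψ : (V → ℝ) → M := fun x => if x ∈ A then β x else form (Finset.univ.filter fun v => x v ≠ 0) x
  have hψ1 : ∀ x ∈ A, ψ x = β x := fun x hx => if_pos hx
  have hψ2 : ∀ T : Finset V, G.IsClique (T : Set V) → T.card = k + 1 → ∀ x ∈ cube T, ψ x = form T x := by
    intro T hT hTk x hx
    by_cases hxA : x ∈ A
    · rw [hψ1 x hxA]
      have h1 : rho T x = 1 := by
        by_contra hne
        have h2 : ∀ v ∈ T, x v ≠ 0 ∧ x v ≠ 1 := by
          intro v hv
          rw [← not_or]
          exact fun h => hne (rho_bdry hx hv h)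
        rw [hA] at hxA
        obtain ⟨⟨p, hp⟩, hxp⟩ := Set.mem_iUnion.1 hxA
        have h3 : T ⊆ p.2 := by
          intro v hv
          by_contra hv2
          by_cases hv1 : v ∈ p.1
          · exact (h2 v hv).2 (hxp.2.1 v hv1)
          · exact (h2 v hv).1 (hxp.2.2 v hv1 hv2)
        have h4 := Finset.card_le_card h3
        omega
      show β x = if rho T x ≤ 1 / 2 then y else Hc (2 - 2 * rho T x, β (rad T x))
      rw [rad_self hx h1, h1, if_neg (by norm_num), mul_one, sub_self, hH0]
    · have h1 : (Finset.univ.filter fun v => x v ≠ 0) = T := by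
        ext v
        rw [Finset.mem_filter]
        constructor
        · rintro ⟨-, hv⟩
          by_contra h
          exact hv (hx.2 v h)
        · intro hv
          refine ⟨Finset.mem_univ v, fun h => hxA ?_⟩
          obtain ⟨p, hp, hpx⟩ := mem_AS hT hx hv (Or.inl h)
          rw [hA]
          exact Set.mem_iUnion.2 ⟨⟨p, by omega⟩, hpx⟩
      show (if x ∈ A then β x else form (Finset.univ.filter fun v => x v ≠ 0) x) = form T x
      rw [if_neg hxA, h1]
  refine ⟨ψ, ?_, hψ1⟩
  let ι := Option {T : Finset V // G.IsClique (T : Set V) ∧ T.card = k + 1}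
  let P : ι → Set (V → ℝ) := fun o => o.elim A fun T => cube T.1
  have hlf : LocallyFinite P := locallyFinite_of_finite _
  have h1 : ContinuousOn ψ (⋃ o, P o) := by
    refine hlf.continuousOn_iUnion ?_ ?_
    · rintro (_ | T)
      · exact hAcl
      · exact isClosed_cube T.1
    · rintro (_ | T)
      · exact hβ.congr hψ1
      · exact (hform T.1 T.2.1 T.2.2).congr (hψ2 T.1 T.2.1 T.2.2)
  refine h1.mono ?_
  rintro x ⟨hx, T, hT, hxT⟩
  -- the support
  obtain ⟨S, hS⟩ : ∃ S : Finset V, S = Finset.univ.filter fun v => x v ≠ 0 := ⟨_, rfl⟩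
  have hmem : ∀ v, v ∈ S ↔ x v ≠ 0 := by
    intro v
    rw [hS]
    simp
  have hST : S ⊆ T := by
    intro v hv
    by_contra h
    exact (hmem v).1 hv (hxT v h)
  have hScl : G.IsClique (S : Set V) := by
    refine hx.2.subset fun v hv => ?_
    exact (hmem v).1 hv
  have hxS : x ∈ cube S := ⟨hx.1, fun v hv => by
    by_contra h
    exact hv ((hmem v).2 h)⟩
  by_cases hc : S.card ≤ k
  · refine Set.mem_iUnion.2 ⟨none, ?_⟩
    show x ∈ A
    rw [hA]
    exact Set.mem_iUnion.2 ⟨⟨(∅, S), hc⟩, hx, by simp, fun v _ hv => hxS.2 v hv⟩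
  · refine Set.mem_iUnion.2 ⟨some ⟨S, hScl, ?_⟩, hxS⟩
    have := Finset.card_le_card hST
    omega

theorem exists_phi [ContractibleSpace M] (hcont : ∀ q : Q, Continuous fun x : M => q • x)
    (hg : ∀ u v, G.Adj u v → Commute (g u) (g v)) (k : ℕ) :
    ∃ φ : (V → ℝ) → M, ContinuousOn φ (Sk G k) ∧ Rel G g φ k := by
  induction k with
  | zero =>
    refine ⟨fun _ => Classical.arbitrary M, continuousOn_const, ?_⟩
    intro x _ v _ T hT _ hvT
    rw [Nat.le_zero, Finset.card_eq_zero] at hT
    rw [hT] at hvT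
    exact absurd hvT (Finset.notMem_empty v)
  | succ k ih =>
    obtain ⟨φ, hφc, hφ⟩ := ih
    let ι := {p : Finset V × Finset V // p.2.card ≤ k}
    obtain ⟨A, hA⟩ : ∃ A : Set (V → ℝ), A = ⋃ p : ι, AS G p.1 := ⟨_, rfl⟩
    have hlf : LocallyFinite fun p : ι => AS G p.1 := locallyFinite_of_finite _
    have hAcl : IsClosed A := by
      rw [hA]
      exact hlf.isClosed_iUnion fun p => isClosed_AS G p.1
    have hβ : ContinuousOn (beta g φ) A := by
      rw [hA]
      refine hlf.continuousOn_iUnion (fun p => isClosed_AS G p.1) fun p => ?_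
      have h1 : ContinuousOn (fun x : V → ℝ => gp g (ind p.1.1) • φ (fun u => x u - (ind p.1.1 u : ℝ))) (AS G p.1) := by
        refine (hcont _).comp_continuousOn (hφc.comp ?_ ?_)
        · exact (continuous_pi fun u => (continuous_apply u).sub continuous_const).continuousOn
        · rintro x ⟨hx, hx1, hx2⟩
          have hval : ∀ u, x u - (ind p.1.1 u : ℝ) = if u ∈ p.1.1 then 0 else x u := by
            intro u
            by_cases hu : u ∈ p.1.1
            · simp [ind, hu, hx1 u hu]
            · simp [ind, hu]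
          refine ⟨⟨fun u => ?_, hx.2.subset fun u hu => ?_⟩, p.1.2, p.2, fun u hu => ?_⟩
          · beta_reduce
            rw [hval]
            split_ifs
            · exact ⟨le_rfl, zero_le_one⟩
            · exact hx.1 u
          · have hu : x u - (ind p.1.1 u : ℝ) ≠ 0 := hu
            rw [hval] at hu
            by_cases h : u ∈ p.1.1
            · rw [if_pos h] at hu
              exact absurd rfl hu
            · rw [if_neg h] at hu
              exact hu
          · show x u - (ind p.1.1 u : ℝ) = 0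
            rw [hval]
            split_ifs with h
            · rfl
            · exact hx2 u h hu
      exact h1.congr fun x hx => beta_eq hg hφ p.2 hx
    obtain ⟨ψ, hψc, hψA⟩ := extend hA hAcl hβ
    refine ⟨ψ, hψc, ?_⟩
    intro x hx v hxv T hT hxT hvT hcl
    -- the point `x`
    have hcard : (T.erase v).card ≤ k := by
      rw [Finset.card_erase_of_mem hvT]
      omega
    have hx0 : x ∈ AS G ((∅ : Finset V), T.erase v) := by
      refine ⟨hx, by simp, fun u _ hu => ?_⟩
      by_cases huv : u = v
      · rw [huv, hxv]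
      · exact hxT u fun h => hu (Finset.mem_erase.2 ⟨huv, h⟩)
    have hxA : x ∈ A := by
      rw [hA]
      exact Set.mem_iUnion.2 ⟨⟨(∅, T.erase v), hcard⟩, hx0⟩
    have h1 : ψ x = φ x := by
      rw [hψA x hxA, beta_eq hg hφ (p := (∅, T.erase v)) hcard hx0]
      have h2 : (ind (∅ : Finset V)) = fun _ => 0 := by
        funext v
        simp [ind]
      rw [h2, gp_zero, one_smul]
      simp
    -- the point `x + e_v`
    obtain ⟨y, hy⟩ : ∃ y : V → ℝ, y = fun u => x u + if u = v then 1 else 0 := ⟨_, rfl⟩
    have hysupp : {u | y u ≠ 0} ⊆ insert v {u | x u ≠ 0} := by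
      intro u hu
      by_cases huv : u = v
      · exact Or.inl huv
      · refine Or.inr ?_
        have hu : y u ≠ 0 := hu
        rw [hy] at hu
        simpa [huv] using hu
    have hyv : ∀ u, y u = if u = v then 1 else x u := by
      intro u
      rw [hy]
      by_cases huv : u = v
      · simp [huv, hxv]
      · simp [huv]
    have hy0 : y ∈ AS G (({v} : Finset V), T.erase v) := by
      refine ⟨⟨fun u => ?_, hcl.subset hysupp⟩, ?_, ?_⟩
      · rw [hyv]
        by_cases huv : u = v
        · simp [huv]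
        · simpa [huv] using hx.1 u
      · intro u hu
        rw [Finset.mem_singleton] at hu
        rw [hyv, if_pos hu]
      · intro u hu1 hu2
        rw [Finset.mem_singleton] at hu1
        rw [hyv, if_neg hu1]
        exact hxT u fun h => hu2 (Finset.mem_erase.2 ⟨hu1, h⟩)
    have hyA : y ∈ A := by
      rw [hA]
      exact Set.mem_iUnion.2 ⟨⟨({v}, T.erase v), hcard⟩, hy0⟩
    rw [← hy, hψA y hyA, beta_eq hg hφ (p := ({v}, T.erase v)) hcard hy0, h1]
    have h3 : ind ({v} : Finset V) = fun u => if u = v then 1 else 0 := by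
      funext u
      simp [ind]
    have h4 : (fun u => y u - (ind ({v} : Finset V) u : ℝ)) = x := by
      funext u
      rw [hyv, h3]
      by_cases huv : u = v
      · simp [huv, hxv]
      · simp [huv]
    show gp g (ind {v}) • φ (fun u => y u - (ind ({v} : Finset V) u : ℝ)) = _
    rw [h4, h3, gp_single]

/-- the map on the cone given by a proper action -/
theorem fe_act [ContractibleSpace M] (hP : PropAct Q M) (hg : ∀ u v, G.Adj u v → Commute (g u) (g v))
    (hF : ∀ q : Q, (Pairs G g q).Finite) : FE G M := by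
  obtain ⟨φ, hφc0, hφ⟩ := exists_phi (M := M) hP.1 hg (Fintype.card V)
  have hφc : ContinuousOn φ (Cb G) := hφc0.mono fun x hx => ⟨hx, Finset.univ, le_of_eq Finset.card_univ,
    fun u hu => absurd (Finset.mem_univ u) hu⟩
  set f : (V → ℝ) → M := fun x => gp g (fun v => ⌊x v⌋₊) • φ (fun v => x v - ⌊x v⌋₊) with hfdef
  have hfc : ContinuousOn f (Cone G) := by
    have h1 : Cone G ⊆ ⋃ a : V → ℕ, (Cone G ∩ {x : V → ℝ | ∀ v, (a v : ℝ) ≤ x v ∧ x v ≤ a v + 1}) := by
      intro x hx
      refine Set.mem_iUnion.2 ⟨fun v => ⌊x v⌋₊, hx, fun v => ⟨Nat.floor_le (hx.1 v), ?_⟩⟩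
      exact (Nat.lt_floor_add_one (x v)).le
    have hcone : IsClosed (Cone G) := by
      refine IsClosed.inter ?_ (isClosed_clique G)
      have h : {x : V → ℝ | ∀ v, 0 ≤ x v} = ⋂ v, {x : V → ℝ | 0 ≤ x v} := by
        ext x
        simp
      change IsClosed {x : V → ℝ | ∀ v, 0 ≤ x v}
      rw [h]
      exact isClosed_iInter fun v => isClosed_le continuous_const (continuous_apply v)
    refine ContinuousOn.mono ?_ h1
    refine LocallyFinite.continuousOn_iUnion ((locFin V).subset fun a => Set.inter_subset_right) ?_ ?_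
    · intro a
      refine hcone.inter ?_
      have h : {x : V → ℝ | ∀ v, (a v : ℝ) ≤ x v ∧ x v ≤ a v + 1} =
          ⋂ v, ({x : V → ℝ | (a v : ℝ) ≤ x v} ∩ {x | x v ≤ a v + 1}) := by
        ext x
        simp
      rw [h]
      exact isClosed_iInter fun v => (isClosed_le continuous_const (continuous_apply v)).inter
        (isClosed_le (continuous_apply v) continuous_const)
    · intro a
      have h2 : ContinuousOn (fun x : V → ℝ => gp g a • φ (fun v => x v - a v))
          (Cone G ∩ {x : V → ℝ | ∀ v, (a v : ℝ) ≤ x v ∧ x v ≤ a v + 1}) := by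
        refine (hP.1 _).comp_continuousOn (hφc.comp ?_ ?_)
        · exact (continuous_pi fun u => (continuous_apply u).sub continuous_const).continuousOn
        · rintro x ⟨hx, hxa⟩
          refine ⟨fun v => ?_, hx.2.subset (show {v | x v - a v ≠ 0} ⊆ {v | x v ≠ 0} from fun v hv hv0 => hv ?_)⟩
          · obtain ⟨h3, h4⟩ := hxa v
            constructor
            · show 0 ≤ x v - a v
              linarith
            · show x v - a v ≤ 1
              linarith
          · show x v - a v = 0
            have h3 := (hxa v).1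
            have h4 : (0 : ℝ) ≤ a v := Nat.cast_nonneg _
            rw [hv0] at h3 ⊢
            linarith
      exact h2.congr fun x hx => floor_piece hg hφ a hx.1 hx.2
  have hf : ∀ x ∈ Cone G, ∃ k ∈ φ '' (Cb G), f x = gp g (fun v => ⌊x v⌋₊) • k := by
    intro x hx
    refine ⟨φ (fun v => x v - ⌊x v⌋₊), ⟨_, ⟨fun v => ⟨?_, ?_⟩, hx.2.subset
      (show {v | x v - ⌊x v⌋₊ ≠ 0} ⊆ {v | x v ≠ 0} from fun v hv hv0 => hv ?_)⟩, rfl⟩, rfl⟩
    · have := Nat.floor_le (hx.1 v)
      simpa using this
    · have := Nat.lt_floor_add_one (x v)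
      show x v - ⌊x v⌋₊ ≤ 1
      linarith
    · show x v - ⌊x v⌋₊ = 0
      rw [hv0]
      simp
  have hK : IsCompact (φ '' (Cb G)) := by
    refine IsCompact.image_of_continuousOn ?_ hφc
    refine (isCompact_Icc (a := (0 : V → ℝ)) (b := 1)).of_isClosed_subset (isClosed_Cb G) ?_
    exact fun x hx => ⟨fun v => (hx.1 v).1, fun v => (hx.1 v).2⟩
  obtain ⟨B, hB⟩ := bounded_pairs G g hP hF f _ hK hf
  exact ⟨f, hfc, B, hB⟩

/-- **Theorem.** A proper action on a contractible space of stable embedding dimension `n`. -/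
theorem obs_of_action {n : ℕ} [ContractibleSpace M] (hM : StInj n M) (hP : PropAct Q M)
    (hg : ∀ u v, G.Adj u v → Commute (g u) (g v)) (hF : ∀ q : Q, (Pairs G g q).Finite)
    {i : ℕ} (hi : n < 2 * i) : Obs G (2 * i) := by
  obtain ⟨k, h, hc, hinj⟩ := hM
  refine fe_st k V G M n k i h hc hinj (fe_act hP hg hF) ?_
  have h1 : k < 2 ^ k := Nat.lt_two_pow_self
  have h2 : 2 ^ k * (n + 1) ≤ 2 ^ k * (2 * i) := Nat.mul_le_mul_left _ hi
  rw [Nat.mul_add, Nat.mul_one] at h2
  omega

end Ext

/-- **Theorem.** Right-angled Coxeter groups with twins. -/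
theorem twins_l2 {V : Type} [Fintype V] [LinearOrder V] {G : SimpleGraph V} (hT : Twins G) {n : ℕ} {M : Type}
    [TopologicalSpace M] [ContractibleSpace M] (hM : StInj n M) {H : Subgroup (W G)} (hH : H.FiniteIndex)
    [MulAction H M] (hP : PropAct H M) {i : ℕ} (hi : n < 2 * i) : L2Van G i := by
  obtain ⟨g, hg, hF⟩ := t_GRP V G hT H hH
  exact twin dbl_l2 V G hT (2 * i) (obs_of_action hM hP hg hF hi) i le_rfl

/-- **Theorem.** The obstructor theorem. -/
theorem exa_of_action {V : Type} [Fintype V] [DecidableEq V] {G : SimpleGraph V} {n : ℕ} {M : Type} [TopologicalSpace M]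
    [ContractibleSpace M] (hM : StInj n M) {Q : Type} [Group Q] [MulAction Q M] (hP : PropAct Q M)
    {g : V × Bool → Q} (hg : ∀ x y, (dbl G).Adj x y → Commute (g x) (g y))
    (hF : ∀ q : Q, (Pairs (dbl G) g q).Finite) {i : ℕ} (hi : n < 2 * i) : Exa G i :=
  exa_of_obs (obs_of_action hM hP hg hF hi) i le_rfl

/-- **Theorem.** Right-angled Artin groups. -/
theorem raag_exa {V : Type} [Fintype V] [DecidableEq V] {G : SimpleGraph V} {n : ℕ} {M : Type} [TopologicalSpace M]
    [ContractibleSpace M] (hM : StInj n M) {H : Subgroup (AG G)} (hH : H.FiniteIndex) [MulAction H M]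
    (hP : PropAct H M) {i : ℕ} (hi : n < 2 * i) : Exa G i := by
  obtain ⟨g, hg, hF⟩ := raag_grp H hH
  exact exa_of_action hM hP hg hF hi

end Pool.Agent.H56T.CTR
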