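import Pool.Agent.H56T.Stm3

/-!
# Project TW, piece COP: coprimality of the operators
-/

set_option autoImplicit false
set_option linter.unusedSectionVars false

namespace Pool.Agent.H56T.COP

open Finset Pool.Agent.W907.SG

/-- the double centralizer of a commuting set is commutative -/
theorem cc_comm {R : Type} [Ring R] {S : Set R} (hS : ∀ a ∈ S, ∀ b ∈ S, a * b = b * a)
    (a b : Subring.centralizer ((Subring.centralizer S : Subring R) : Set R)) : a * b = b * a := by
  apply Subtype.ext
  have ha := Subring.mem_centralizer_iff.1 a.2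
  have hb := Subring.mem_centralizer_iff.1 b.2
  have h1 : (b : R) ∈ Subring.centralizer S := by
    rw [Subring.mem_centralizer_iff]
    intro s hs
    refine hb s ?_
    rw [SetLike.mem_coe, Subring.mem_centralizer_iff]
    exact fun t ht => hS t ht s hs
  exact (ha b h1).symm

theorem cc_inv {R : Type} [Ring R] {S : Set R} {a b : R} (h1 : a * b = 1) (h2 : b * a = 1)
    (ha : a ∈ Subring.centralizer ((Subring.centralizer S : Subring R) : Set R)) :
    b ∈ Subring.centralizer ((Subring.centralizer S : Subring R) : Set R) := by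
  rw [Subring.mem_centralizer_iff] at ha ⊢
  intro g hg
  have h3 := ha g hg
  calc g * b = b * a * (g * b) := by rw [h2, one_mul]
    _ = b * (a * g) * b := by noncomm_ring
    _ = b * (g * a) * b := by rw [h3]
    _ = b * g * (a * b) := by noncomm_ring
    _ = b * g := by rw [h1, mul_one]

theorem cc_mem {R : Type} [Ring R] {S : Set R} {a : R} (ha : a ∈ S) :
    a ∈ Subring.centralizer ((Subring.centralizer S : Subring R) : Set R) := by
  rw [Subring.mem_centralizer_iff]
  intro g hg
  exact ((Subring.mem_centralizer_iff.1 hg) a ha).symm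

section main

variable {V : Type} [Fintype V] {G : SimpleGraph V} {X : Type} [AddCommGroup X] [Module ℚ X]

theorem closure_comm {T : Finset V} (hT : G.IsClique (T : Set V)) (x y : AG G)
    (hx : x ∈ Subgroup.closure (agen G '' (T : Set V))) (hy : y ∈ Subgroup.closure (agen G '' (T : Set V))) :
    x * y = y * x := by
  have key : ∀ a ∈ agen G '' (T : Set V), ∀ b ∈ agen G '' (T : Set V), a * b = b * a := by
    rintro _ ⟨a, ha, rfl⟩ _ ⟨b, hb, rfl⟩
    by_cases hab : a = b
    · rw [hab]
    · exact agen_comm (hT ha hb hab)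
  have := (Subgroup.closure_le_centralizer_centralizer (agen G '' (T : Set V))) hx
  rw [Subgroup.mem_centralizer_iff] at this
  refine (this y ?_).symm
  have h2 : Subgroup.closure (agen G '' (T : Set V)) ≤ Subgroup.centralizer (agen G '' (T : Set V)) := by
    rw [Subgroup.closure_le]
    intro b hb
    rw [SetLike.mem_coe, Subgroup.mem_centralizer_iff]
    exact fun a ha => key a ha b hb
  exact h2 hy

theorem cop (χ : AG G →* Multiplicative ℤ) (τ : AG G →* Module.End ℚ X)
    (hb : ∀ x, χ x = 1 → (∃ w, ex G w x ≠ 1) → Function.Bijective (1 - τ x : Module.End ℚ X)) :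
    Cop G {v | χ (agen G v) ≠ 1} (fun v => 1 - τ (agen G v)⁻¹) := by
  classical
  intro T hT
  set Γ := Subgroup.closure (agen G '' (T : Set V)) with hΓ
  set S : Set (Module.End ℚ X) := {a | ∃ x ∈ Γ, a = τ x} with hS
  have hSc : ∀ a ∈ S, ∀ b ∈ S, a * b = b * a := by
    rintro _ ⟨x, hx, rfl⟩ _ ⟨y, hy, rfl⟩
    rw [← map_mul, ← map_mul, closure_comm hT x y hx hy]
  set A := Subring.centralizer ((Subring.centralizer S : Subring (Module.End ℚ X)) : Set (Module.End ℚ X)) with hA
  let _ : CommRing A := { (inferInstance : Ring A) with mul_comm := cc_comm hSc }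
  have hmem : ∀ x ∈ Γ, τ x ∈ A := fun x hx => cc_mem ⟨x, hx, rfl⟩
  have hgen : ∀ v ∈ T, agen G v ∈ Γ := fun v hv => Subgroup.subset_closure ⟨v, hv, rfl⟩
  let θ : Γ →* A :=
    { toFun := fun x => ⟨τ x, hmem x x.2⟩
      map_one' := Subtype.ext (by simp)
      map_mul' := fun x y => Subtype.ext (by simp) }
  have hθ : ∀ x : Γ, ((θ x : A) : Module.End ℚ X) = τ x := fun _ => rfl
  let p : V → A := fun v => if h : v ∈ T then 1 - θ ⟨agen G v, hgen v h⟩⁻¹ else 1
  refine ⟨A, inferInstance, A.subtype, p, fun v hv => ?_, fun v hv w hw hvw hvD hwD => ?_⟩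
  · have h1 : p v = 1 - θ ⟨agen G v, hgen v hv⟩⁻¹ := dif_pos hv
    rw [h1, map_sub, map_one]
    rfl
  · have h1 : p v = 1 - θ ⟨agen G v, hgen v hv⟩⁻¹ := dif_pos hv
    have h2 : p w = 1 - θ ⟨agen G w, hgen w hw⟩⁻¹ := dif_pos hw
    set a : ℤ := Multiplicative.toAdd (χ (agen G v)) with ha
    set b : ℤ := Multiplicative.toAdd (χ (agen G w)) with hbb
    have ha0 : a ≠ 0 := fun h => hvD (Multiplicative.toAdd.injective h)
    have hb0 : b ≠ 0 := fun h => hwD (Multiplicative.toAdd.injective h)
    set gv : Γ := ⟨agen G v, hgen v hv⟩ with hgv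
    set gw : Γ := ⟨agen G w, hgen w hw⟩ with hgw
    set x : Γ := gv ^ b * (gw ^ a)⁻¹ with hx
    have hx1 : χ (x : AG G) = 1 := by
      apply Multiplicative.toAdd.injective
      rw [hx]
      push_cast
      rw [map_mul, map_inv, map_zpow, map_zpow, toAdd_mul, toAdd_inv, toAdd_zpow, toAdd_zpow, ← ha, ← hbb, toAdd_one,
        smul_eq_mul, smul_eq_mul]
      ring
    have hx2 : ∃ w, ex G w (x : AG G) ≠ 1 := by
      refine ⟨v, fun h => hb0 ?_⟩
      have h3 := congrArg Multiplicative.toAdd h
      rw [hx] at h3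
      push_cast at h3
      rw [map_mul, map_inv, map_zpow, map_zpow, toAdd_mul, toAdd_inv, toAdd_zpow, toAdd_zpow, ex_agen, ex_agen,
        if_pos rfl, if_neg (fun h => hvw h.symm), toAdd_ofAdd, toAdd_one, smul_eq_mul, smul_eq_mul] at h3
      simpa using h3
    have hbij := hb x hx1 hx2
    have hu := (Module.End.isUnit_iff _).2 hbij
    obtain ⟨⟨e, f, hef, hfe⟩, he⟩ := hu
    simp only at he
    have heA : e ∈ A := by
      rw [he]
      exact Subring.sub_mem _ (Subring.one_mem _) (hmem x x.2)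
    have hfA : f ∈ A := cc_inv hef hfe heA
    have huA : IsUnit (1 - θ x) := by
      refine ⟨⟨⟨e, heA⟩, ⟨f, hfA⟩, Subtype.ext hef, Subtype.ext hfe⟩, Subtype.ext ?_⟩
      show e = _
      rw [he]
      rfl
    -- the quotient
    set I : Ideal A := Ideal.span {p v, p w} with hI
    have hq : ∀ (y : V) (hy : y ∈ T), p y ∈ I → (Ideal.Quotient.mk I) (θ ⟨agen G y, hgen y hy⟩) = 1 := by
      intro y hy hyI
      have h3 : p y = 1 - θ ⟨agen G y, hgen y hy⟩⁻¹ := dif_pos hy
      have h4 := Ideal.Quotient.eq_zero_iff_mem.2 hyI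
      rw [h3, map_sub, map_one, sub_eq_zero] at h4
      calc (Ideal.Quotient.mk I) (θ ⟨agen G y, hgen y hy⟩)
          = (Ideal.Quotient.mk I) (θ ⟨agen G y, hgen y hy⟩) * (Ideal.Quotient.mk I) (θ ⟨agen G y, hgen y hy⟩⁻¹) := by
            rw [← h4, mul_one]
        _ = 1 := by rw [← map_mul, ← map_mul, mul_inv_cancel, map_one, map_one]
    let Θ : Γ →* (A ⧸ I)ˣ := MonoidHom.toHomUnits (((Ideal.Quotient.mk I) : A →* A ⧸ I).comp θ)
    have hΘ : ∀ g : Γ, ((Θ g : (A ⧸ I)ˣ) : A ⧸ I) = (Ideal.Quotient.mk I) (θ g) := fun _ => rfl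
    have hv1 : Θ gv = 1 := Units.ext (by
      rw [hΘ, Units.val_one]
      exact hq v hv (Ideal.subset_span (by simp)))
    have hw1 : Θ gw = 1 := Units.ext (by
      rw [hΘ, Units.val_one]
      exact hq w hw (Ideal.subset_span (by simp)))
    have hxI : (1 - θ x) ∈ I := by
      rw [← Ideal.Quotient.eq_zero_iff_mem, map_sub, map_one, ← hΘ, hx, map_mul, map_inv, map_zpow, map_zpow, hv1, hw1]
      simp
    have htop := Ideal.eq_top_of_isUnit_mem I hxI huA
    have h1m : (1 : A) ∈ I := by rw [htop]; exact Submodule.mem_top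
    rw [hI, Ideal.mem_span_pair] at h1m
    exact h1m

end main

end Pool.Agent.H56T.COP
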