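import Pool.Agent.H56T.Stm3

/-!
# Project TW, piece PAT: the links of the living vertices in the kernel of a character
-/

set_option autoImplicit false
set_option linter.unusedSectionVars false

namespace Pool.Agent.H56T.PAT

open Finset Pool.Agent.W907.SG

/-- finiteness of the pairs from homomorphisms to the integers -/
theorem pairs_fin {V : Type} [Fintype V] [DecidableEq V] {G : SimpleGraph V} {Q : Type} [Group Q] (g : V × Bool → Q)
    (E : V → Q →* Multiplicative ℤ) (c : V → ℤ) (hc : ∀ v, c v ≠ 0)
    (hE : ∀ (v : V) (x : V × Bool), Multiplicative.toAdd (E v (g x)) =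
      if x.1 = v then (if x.2 = true then - c v else c v) else 0) (q : Q) :
    (Pairs (dbl G) g q).Finite := by
  have key0 : ∀ (v : V) (a : V × Bool → ℕ), Multiplicative.toAdd (E v (gp g a)) =
      c v * ((a (v, false) : ℤ) - a (v, true)) := by
    intro v a
    have key : ∀ l : List (V × Bool), Multiplicative.toAdd (E v ((l.map (fun x => g x ^ a x)).prod)) =
        (l.map (fun x : V × Bool => (a x : ℤ) * (if x.1 = v then (if x.2 = true then - c v else c v) else 0))).sum := by
      intro l
      induction l with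
      | nil => simp
      | cons x l ih =>
        rw [List.map_cons, List.prod_cons, List.map_cons, List.sum_cons, map_mul, toAdd_mul, ih, map_pow, toAdd_pow, hE,
          nsmul_eq_mul]
    unfold gp
    rw [key, Finset.sum_map_toList, Fintype.sum_prod_type]
    rw [Finset.sum_eq_single v]
    · simp
      ring
    · intro w _ hw
      simp [hw]
    · intro h
      exact absurd (Finset.mem_univ _) h
  let B : V → ℕ := fun v => (Multiplicative.toAdd (E v q)).natAbs
  have hfin : (Set.univ.pi fun x : V × Bool => Set.Iic (B x.1)).Finite :=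
    Set.Finite.pi' (fun _ => Set.finite_Iic _) |>.subset (fun x hx v => hx v trivial)
  refine (hfin.prod hfin).subset ?_
  rintro ⟨a, b⟩ ⟨ha, hb, hd, heq⟩
  simp only at ha hb hd heq
  have key : ∀ v : V, ∀ d : Bool, a (v, d) ≤ B v ∧ b (v, d) ≤ B v := by
    intro v
    have h1 := congrArg (fun x : Q => Multiplicative.toAdd (E v x)) heq
    simp only [map_mul, toAdd_mul, key0] at h1
    have hna : ¬ (dbl G).Adj (v, false) (v, true) := fun h => G.loopless.irrefl v h
    have h2 : a (v, false) = 0 ∨ a (v, true) = 0 := by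
      by_contra hcon
      rw [not_or] at hcon
      exact hna (ha hcon.1 hcon.2 (by simp))
    have h3 : b (v, false) = 0 ∨ b (v, true) = 0 := by
      by_contra hcon
      rw [not_or] at hcon
      exact hna (hb hcon.1 hcon.2 (by simp))
    have h4 := hd (v, false)
    have h5 := hd (v, true)
    set t := Multiplicative.toAdd (E v q) with ht
    have h6 : t = c v * (((b (v, false) : ℤ) - b (v, true)) - (a (v, false) - a (v, true))) := by
      rw [mul_sub, ← h1]
      ring
    set y : ℤ := ((b (v, false) : ℤ) - b (v, true)) - (a (v, false) - a (v, true)) with hy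
    have h7 : y.natAbs ≤ B v := by
      show y.natAbs ≤ t.natAbs
      rw [h6, Int.natAbs_mul]
      exact Nat.le_mul_of_pos_left _ (Int.natAbs_pos.2 (hc v))
    have h8 : ∀ d : Bool, a (v, d) ≤ y.natAbs ∧ b (v, d) ≤ y.natAbs := by
      intro d
      cases d <;> omega
    exact fun d => ⟨(h8 d).1.trans h7, (h8 d).2.trans h7⟩
  exact ⟨fun x _ => (key x.1 x.2).1, fun x _ => (key x.1 x.2).2⟩

theorem exists_exp {Γ : Type} [Group Γ] {K L : Subgroup Γ} (h : K.relIndex L ≠ 0) :
    ∃ N : ℕ, 0 < N ∧ ∀ x ∈ L, x ^ N ∈ K := by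
  refine ⟨(K.relIndex L).factorial, Nat.factorial_pos _, fun x hx => ?_⟩
  obtain ⟨k, hk0, hk1, hk⟩ := Subgroup.exists_pow_mem_of_index_ne_zero (H := K.subgroupOf L) h ⟨x, hx⟩
  obtain ⟨t, ht⟩ := Nat.dvd_factorial hk0 hk1
  have h1 : x ^ k ∈ K := by
    have := hk
    rw [Subgroup.mem_subgroupOf] at this
    simpa using this
  have h2 : (K.relIndex L).factorial = k * t := ht
  rw [h2, pow_mul]
  exact K.pow_mem h1 t

/-- the elements -/
theorem pat {V : Type} [Fintype V] {G : SimpleGraph V} {χ : AG G →* Multiplicative ℤ} {K : Subgroup (AG G)}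
    (hK : K.relIndex χ.ker ≠ 0) {v : V} (hv : χ (agen G v) ≠ 1) [Fintype (G.neighborSet v)] :
    ∃ g : (G.neighborSet v) × Bool → K, (∀ x y, (dbl (G.induce (G.neighborSet v))).Adj x y → Commute (g x) (g y)) ∧
      ∀ q : K, (Pairs (dbl (G.induce (G.neighborSet v))) g q).Finite := by
  classical
  obtain ⟨N, hN, hNK⟩ := exists_exp hK
  set a : ℤ := Multiplicative.toAdd (χ (agen G v)) with ha
  have ha0 : a ≠ 0 := fun h => hv (Multiplicative.toAdd.injective h)
  let b : V → ℤ := fun w => Multiplicative.toAdd (χ (agen G w))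
  let y : V → AG G := fun w => agen G w ^ a * (agen G v ^ b w)⁻¹
  have hy : ∀ w, y w ∈ χ.ker := by
    intro w
    rw [MonoidHom.mem_ker]
    apply Multiplicative.toAdd.injective
    show Multiplicative.toAdd (χ (agen G w ^ a * (agen G v ^ b w)⁻¹)) = _
    rw [map_mul, map_inv, map_zpow, map_zpow, toAdd_mul, toAdd_inv, toAdd_zpow, toAdd_zpow, toAdd_one,
      smul_eq_mul, smul_eq_mul]
    show a * b w + -(b w * a) = 0
    ring
  have hyc : ∀ w ∈ G.neighborSet v, ∀ w' ∈ G.neighborSet v, G.Adj w w' → Commute (y w) (y w') := by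
    intro w hw w' hw' hww
    have h1 : Commute (agen G w) (agen G w') := agen_comm hww
    have h2 : Commute (agen G w) (agen G v) := (agen_comm hw).symm
    have h3 : Commute (agen G w') (agen G v) := (agen_comm hw').symm
    refine Commute.mul_left (Commute.mul_right (h1.zpow_zpow _ _) ((h2.zpow_zpow _ _).inv_right))
      (Commute.inv_left (Commute.mul_right ((h3.symm).zpow_zpow _ _) ((Commute.refl _).zpow_zpow _ _).inv_right))
  let g : (G.neighborSet v) × Bool → K := fun x => if x.2 = true then ⟨y x.1 ^ N, hNK _ (hy _)⟩⁻¹ else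
    ⟨y x.1 ^ N, hNK _ (hy _)⟩
  refine ⟨g, ?_, pairs_fin g (fun w => (ex G (w : V)).comp K.subtype) (fun _ => N * a) (fun _ => ?_) ?_⟩
  · intro x x' hxx
    have h1 : Commute (⟨y x.1 ^ N, hNK _ (hy _)⟩ : K) ⟨y x'.1 ^ N, hNK _ (hy _)⟩ := by
      apply Subtype.ext
      exact (hyc _ x.1.2 _ x'.1.2 hxx).pow_pow N N
    show Commute (if x.2 = true then _ else _) (if x'.2 = true then _ else _)
    split_ifs
    · exact h1.inv_inv
    · exact h1.inv_left
    · exact h1.inv_right
    · exact h1
  · exact mul_ne_zero (by exact_mod_cast hN.ne') ha0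
  · intro w x
    have h0 : ∀ u : V, u ∈ G.neighborSet v → Multiplicative.toAdd (ex G (w : V) (y u)) = if u = w then a else 0 := by
      intro u hu
      show Multiplicative.toAdd (ex G (w : V) (agen G u ^ a * (agen G v ^ b u)⁻¹)) = _
      have hvw : ¬ v = (w : V) := fun h => G.loopless.irrefl v (by
        have := w.2
        rw [← h] at this
        exact this)
      rw [map_mul, map_inv, map_zpow, map_zpow, ex_agen, ex_agen, if_neg hvw, one_zpow, inv_one, mul_one]
      split_ifs
      · rw [toAdd_zpow, toAdd_ofAdd, smul_eq_mul, mul_one]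
      · rw [one_zpow, toAdd_one]
    have h1 : Multiplicative.toAdd (ex G (w : V) (y x.1 ^ N)) = if x.1 = w then N * a else 0 := by
      rw [map_pow, toAdd_pow, h0 _ x.1.2]
      by_cases h : x.1 = w
      · rw [if_pos h, if_pos (congrArg Subtype.val h), nsmul_eq_mul]
      · rw [if_neg h, if_neg (fun h' => h (Subtype.ext h')), smul_zero]
    show Multiplicative.toAdd (ex G (w : V) ((if x.2 = true then (⟨y x.1 ^ N, hNK _ (hy _)⟩ : K)⁻¹ else
      ⟨y x.1 ^ N, hNK _ (hy _)⟩ : K) : AG G)) = _
    by_cases h2 : x.2 = true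
    · rw [if_pos h2, if_pos h2, Subgroup.coe_inv, map_inv, toAdd_inv, h1]
      split_ifs
      · rfl
      · rw [neg_zero]
    · rw [if_neg h2, if_neg h2, h1]

end Pool.Agent.H56T.PAT
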