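import Pool.Agent.H56T.ALG
import Pool.Agent.H56T.CTR
import Pool.Agent.H56T.COP
import Pool.Agent.H56T.PAT
import Pool.Agent.N496.CV.L2Pf
import Pool.Agent.N496.CV.P_RU
import Pool.Agent.RK.LocEx

/-!
# Project TW, assembly of the third part: kernels of characters of right-angled Artin groups
-/

set_option autoImplicit false
set_option linter.unusedSectionVars false

noncomputable section

namespace Pool.Agent.H56T.KER

open Finset Pool.Agent.W907.SG Pool.Agent.N496.LT Pool.Agent.Helper655.VN Pool.Agent.RK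

/-- common denominators for a finite family -/
theorem common_den {R U : Type} [Ring R] [Ring U] {ι : R →+* U} (hι : Loc ι)
    (hmul : ∀ a b : R, Nz a → Nz b → Nz (a * b)) {α : Type} (S : Finset α) (y : α → U) :
    ∃ s : R, Nz s ∧ ∀ a ∈ S, ∃ x : R, ι s * y a = ι x := by
  classical
  induction S using Finset.induction_on with
  | empty => exact ⟨1, fun x hx => by simpa using hx, fun a ha => absurd ha (Finset.notMem_empty a)⟩
  | insert b S hb ih =>
    obtain ⟨s, hs, h⟩ := ih
    obtain ⟨t, x, ht, hx⟩ := hι.left (ι s * y b)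
    refine ⟨t * s, hmul t s ht hs, fun a ha => ?_⟩
    rcases Finset.mem_insert.1 ha with rfl | ha
    · exact ⟨x, by rw [map_mul, mul_assoc, hx]⟩
    · obtain ⟨x', hx'⟩ := h a ha
      exact ⟨t * x', by rw [map_mul, mul_assoc, hx', map_mul]⟩

/-- central elements remain central -/
theorem central {R U : Type} [Ring R] [Ring U] {ι : R →+* U} (hι : Loc ι) {c : R} (hc : ∀ x, c * x = x * c) (y : U) :
    ι c * y = y * ι c := by
  obtain ⟨s, x, hs, hx⟩ := hι.left y
  have hu := hι.unit s hs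
  apply hu.mul_left_cancel
  rw [← mul_assoc, ← map_mul, ← hc, map_mul, mul_assoc, hx, ← map_mul, hc, map_mul, ← hx, mul_assoc]

section sub

variable {Γ R : Type} [Group Γ] [Ring R] [Algebra ℚ R] (K : Subgroup Γ) (u : K →* R)

/-- the coefficients -/
def Xs : Submodule ℚ (Γ → R) where
  carrier := {f | FK K u f}
  add_mem' := by
    classical
    rintro v w ⟨h1, T1, h2⟩ ⟨h3, T2, h4⟩
    refine ⟨fun h g => ?_, T1 ∪ T2, fun g hg => ?_⟩
    · rw [Pi.add_apply, Pi.add_apply, h1, h3, add_mul]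
    · by_cases h5 : v g = 0
      · have h6 : w g ≠ 0 := fun h6 => hg (by rw [Pi.add_apply, h5, h6, add_zero])
        obtain ⟨h, x, hx, e⟩ := h4 g h6
        exact ⟨h, x, Finset.mem_union_right _ hx, e⟩
      · obtain ⟨h, x, hx, e⟩ := h2 g h5
        exact ⟨h, x, Finset.mem_union_left _ hx, e⟩
  zero_mem' := ⟨fun h g => by simp, ∅, fun g hg => absurd rfl hg⟩
  smul_mem' := by
    rintro s v ⟨h1, T1, h2⟩
    refine ⟨fun h g => ?_, T1, fun g hg => h2 g fun h3 => hg ?_⟩
    · rw [Pi.smul_apply, Pi.smul_apply, h1, smul_mul_assoc]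
    · rw [Pi.smul_apply, h3, smul_zero]

theorem fk_trl {f : Γ → R} (hf : FK K u f) (x : Γ) : FK K u (fun g => f (g * x)) := by
  classical
  obtain ⟨h1, T, h2⟩ := hf
  refine ⟨fun h g => ?_, T.image fun y => y * x⁻¹, fun g hg => ?_⟩
  · rw [mul_assoc]
    exact h1 _ _
  · obtain ⟨h, y, hy, e⟩ := h2 _ hg
    exact ⟨h, y * x⁻¹, Finset.mem_image_of_mem _ hy, by rw [← mul_assoc, ← e, mul_inv_cancel_right]⟩

/-- the action by right translation -/
def tau : Γ →* Module.End ℚ (Xs K u) where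
  toFun x :=
    { toFun := fun f => ⟨fun g => f.1 (g * x), fk_trl K u f.2 x⟩
      map_add' := fun _ _ => rfl
      map_smul' := fun _ _ => rfl }
  map_one' := by
    ext f g
    show f.1 (g * 1) = f.1 g
    rw [mul_one]
  map_mul' x y := by
    ext f g
    show f.1 (g * (x * y)) = f.1 (g * x * y)
    rw [mul_assoc]

theorem tau_apply (x : Γ) (f : Xs K u) (g : Γ) : (tau K u x f).1 g = f.1 (g * x) := rfl

theorem one_sub_tau (x : Γ) (f : Xs K u) (g : Γ) : ((1 - tau K u x : Module.End ℚ (Xs K u)) f).1 g = f.1 g - f.1 (g * x) :=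
  rfl

end sub

section main

variable {V : Type} [Fintype V] [LinearOrder V] {G : SimpleGraph V}

theorem ex_pow_inj {K : Subgroup (AG G)} {h : K} (hw : ∃ w, ex G w h ≠ 1) :
    Function.Injective (fun n : ℕ => h ^ n) := by
  obtain ⟨w, hw⟩ := hw
  intro a b hab
  have h1 := congrArg (fun x : K => Multiplicative.toAdd (ex G w (x : AG G))) hab
  simp only [Subgroup.coe_pow, map_pow, toAdd_pow, nsmul_eq_mul] at h1
  have h2 : Multiplicative.toAdd (ex G w (h : AG G)) ≠ 0 := fun h0 => hw (Multiplicative.toAdd.injective h0)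
  have h3 := mul_right_cancel₀ h2 h1
  exact_mod_cast h3

theorem bij_of {χ : AG G →* Multiplicative ℤ} {K : Subgroup (AG G)} {U : Type} [Ring U] [Algebra ℚ U] {u : K →* U}
    (h : (∀ x : AG G, χ x = 1 → (∃ w, ex G w x ≠ 1) →
      (∀ f, FK K u f → ∃ k, FK K u k ∧ ∀ g, k g - k (g * x⁻¹) = f g) ∧
      (∀ f, FK K u f → (∀ g, f g - f (g * x⁻¹) = 0) → f = 0))) (x : AG G) (hx : χ x = 1) (hw : ∃ w, ex G w x ≠ 1) :
    Function.Bijective (1 - tau K u x : Module.End ℚ (Xs K u)) := by
  obtain ⟨h1, h2⟩ := h x⁻¹ (by rw [map_inv, hx, inv_one]) (by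
    obtain ⟨w, hw⟩ := hw
    exact ⟨w, fun h => hw (by rw [← inv_inv (ex G w x), ← map_inv, h, inv_one])⟩)
  simp only [inv_inv] at h1 h2
  constructor
  · rw [← LinearMap.ker_eq_bot, LinearMap.ker_eq_bot']
    intro f hf
    refine Subtype.ext (h2 f.1 f.2 fun g => ?_)
    exact congrFun (congrArg Subtype.val hf) g
  · intro f
    obtain ⟨k, hk, hk'⟩ := h1 f.1 f.2
    exact ⟨⟨k, hk⟩, Subtype.ext (funext hk')⟩

theorem ker_l2 (hF : S_FIN') (hL : S_LNKT) (hKIN : S_KIN) (χ : AG G →* Multiplicative ℤ) (K : Subgroup (AG G))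
    (hK : K ≤ χ.ker) (hKi : K.relIndex χ.ker ≠ 0) {i : ℕ} (hi : 0 < i) (hR : Rex G i)
    [∀ v, Fintype (G.neighborSet v)] (hRD : ∀ v, χ (agen G v) ≠ 1 → Rex (G.induce (G.neighborSet v)) i) :
    VN831.l2Betti K i = 0 := by
  classical
  obtain ⟨n, rfl⟩ : ∃ n, i = n + 1 := ⟨i - 1, by omega⟩
  refine hF V G K n fun c hc hc0 => ?_
  obtain ⟨U, hU, ι, hloc⟩ := Pool.Agent.RK.LocEx.loc_exists (vn_NG (G := K))
  obtain ⟨u, hu⟩ : ∃ u : K →* U, ∀ h, u h = ι (canL h) := ⟨(ι : NG K →* U).comp canL, fun h => rfl⟩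
  have hunit : ∀ h : K, (∃ w, ex G w h ≠ 1) → IsUnit (1 - u h) := by
    intro h hw
    have h1 : ι (1 - canL h) = 1 - u h := by rw [map_sub, map_one, hu]
    rw [← h1]
    exact hloc.unit _ (Pool.Agent.N496.CV.P_RU_nz h (ex_pow_inj hw))
  -- the rational structure
  let f : ℚ →+* U := ι.comp ((algebraMap ℂ (NG K)).comp (algebraMap ℚ ℂ))
  have hfc : ∀ q x, f q * x = x * f q := fun q x =>
    central hloc (fun y => Algebra.commutes (algebraMap ℚ ℂ q) y) x
  let _ : Algebra ℚ U := f.toAlgebra' hfc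
  obtain ⟨hk1, hk2⟩ := hKIN V G χ K U u hK hKi hunit
  have hbij := bij_of hk1
  have hgen : ∀ v, ex G v (agen G v) ≠ 1 := by
    intro v h
    rw [ex_agen, if_pos rfl] at h
    have h1 := congrArg Multiplicative.toAdd h
    rw [toAdd_ofAdd, toAdd_one] at h1
    exact one_ne_zero h1
  have hbij' : ∀ v, χ (agen G v) = 1 → Function.Bijective (1 - tau K u (agen G v)⁻¹ : Module.End ℚ (Xs K u)) := by
    intro v hv
    refine hbij _ (by rw [map_inv, hv, inv_one]) ⟨v, fun h => hgen v ?_⟩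
    rw [← inv_inv (ex G v (agen G v)), ← map_inv, h, inv_one]
  -- the cycle
  have hzm : ∀ T, FK K u (fun g => ι (c T g)) := by
    intro T
    obtain ⟨h1, S, h2⟩ := hc.mem T
    refine ⟨fun h g => ?_, S, fun g hg => h2 g fun h3 => hg (by rw [h3, map_zero])⟩
    rw [h1, map_mul, hu]
  obtain ⟨y, hy1, hy2⟩ := ALG.t_alg hL V G {v | χ (agen G v) ≠ 1} (Xs K u) (fun v => 1 - tau K u (agen G v)⁻¹) (n + 1)
    (COP.cop χ (tau K u) hbij) (fun v => by
      by_cases hv : χ (agen G v) = 1
      · exact (hbij' v hv).1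
      · rw [← LinearMap.ker_eq_bot, LinearMap.ker_eq_bot']
        intro f hf
        refine Subtype.ext (hk2 (agen G v) hv f.1 f.2 fun g => ?_)
        exact congrFun (congrArg Subtype.val hf) g) (fun v hv => (hbij' v (not_not.1 hv)).2) hR (fun v hv => hRD v hv)
    (fun T => ⟨fun g => ι (c T g), hzm T⟩) (fun T hT => Subtype.ext (funext fun g => by
      show ι (c T g) = 0
      rw [hc.supp T hT]
      exact map_zero ι)) (fun T => Subtype.ext (funext fun g => by
      have h1 := congrArg ι (congrFun (congrFun hc0 T) g)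
      rw [AddSubmonoidClass.coe_finsetSum, Finset.sum_apply]
      refine Eq.trans (Eq.symm ?_) (h1.trans (map_zero ι))
      unfold bda
      rw [map_sum]
      refine Finset.sum_congr rfl fun v _ => ?_
      rw [map_zsmul, map_sub]
      rfl))
  -- the denominators
  have hfin := fun T => (y T).2.fin
  choose S hS using hfin
  obtain ⟨s, hs, hx⟩ := common_den hloc (fun a b ha hb => Pool.Agent.RK.Nz.nz_mul a b ha hb)
    (Finset.univ.sigma S : Finset (Σ _ : Finset V, AG G)) (fun a => (y a.1).1 a.2)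
  have hall : ∀ T g, ∃ x : NG K, ι s * (y T).1 g = ι x := by
    intro T g
    by_cases h0 : (y T).1 g = 0
    · exact ⟨0, by rw [h0, mul_zero, map_zero]⟩
    · obtain ⟨h, x, hxS, hgx⟩ := hS T g h0
      obtain ⟨y', hy'⟩ := hx ⟨T, x⟩ (Finset.mem_sigma.2 ⟨Finset.mem_univ _, hxS⟩)
      refine ⟨y' * canL h⁻¹, ?_⟩
      rw [hgx, (y T).2.eq h x, ← mul_assoc, hy', map_mul, hu]
  choose e he using hall
  refine ⟨s, hs, e, ⟨fun T hT => ?_, fun T => ⟨fun h g => ?_, S T, fun g hg => hS T g fun h0 => hg ?_⟩⟩, ?_⟩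
  · funext g
    apply hloc.inj
    rw [← he, hy1 T hT]
    show ι s * 0 = ι 0
    rw [mul_zero, map_zero]
  · apply hloc.inj
    rw [← he, (y T).2.eq h g, ← mul_assoc, he, map_mul, hu]
  · apply hloc.inj
    rw [← he, h0, mul_zero, map_zero]
  · funext T g
    apply hloc.inj
    have h1 := congrFun (congrArg Subtype.val (hy2 T)) g
    rw [AddSubmonoidClass.coe_finsetSum, Finset.sum_apply] at h1
    rw [map_mul]
    have h2 : ι (c T g) = _ := h1.symm
    rw [h2, Finset.mul_sum]
    unfold bda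
    rw [map_sum]
    refine Finset.sum_congr rfl fun v _ => ?_
    rw [map_zsmul, map_sub, ← he, ← he, ← mul_sub]
    show _ = ι s * (sg v T • ((y (insert v T)).1 g - (y (insert v T)).1 (g * (agen G v)⁻¹)))
    rw [mul_smul_comm]

theorem rex_of_exa {i : ℕ} (h : Exa G i) : Rex G i := fun z hz hb => exa_rat h z hz hb

/-- **Theorem.** `L²`-Betti numbers of the finite index subgroups of the kernels of characters of right-angled Artin
groups above half the dimension of a proper action. -/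
theorem kernels (hF : S_FIN') (hL : S_LNKT) (hKIN : S_KIN) (χ : AG G →* Multiplicative ℤ) (K : Subgroup (AG G))
    (hK : K ≤ χ.ker) (hKi : K.relIndex χ.ker ≠ 0) {n : ℕ} {M : Type} [TopologicalSpace M]
    [ContractibleSpace M] (hM : StInj n M) [MulAction K M] (hP : PropAct K M) {i : ℕ} (hi : n < 2 * i)
    (hR : χ ≠ 1 → Rex G i) : VN831.l2Betti K i = 0 := by
  classical
  refine ker_l2 hF hL hKIN χ K hK hKi (by omega) ?_ fun v hv => ?_
  · by_cases hχ : χ = 1
    · subst hχ
      have h1 : K.FiniteIndex := by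
        refine ⟨fun h => hKi ?_⟩
        rw [show (1 : AG G →* Multiplicative ℤ).ker = ⊤ from MonoidHom.ker_one, Subgroup.relIndex_top_right]
        exact h
      exact rex_of_exa (CTR.raag_exa hM h1 hP hi)
    · exact hR hχ
  · obtain ⟨g, hg, hg'⟩ := PAT.pat hKi hv
    exact rex_of_exa (CTR.exa_of_action hM hP hg hg' hi)

end main

end Pool.Agent.H56T.KER
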