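import Pool.Agent.H56T.Stm3
import Pool.Agent.N496.CV.P_RES
import Pool.Agent.N496.CV.P_FINAL

/-!
# Project KER, piece FINA (helper69): the homology of the subgroups of right-angled Artin groups

The chain complex of the universal cover of the Salvetti complex is a free resolution (adaptation of
`Pool.Agent.N496.CV` `P_RES.lean`), and it computes the `L²`-Betti numbers of all subgroups (adaptation of
`P_FINAL.lean`).
-/

set_option autoImplicit false

noncomputable section

namespace Pool.Agent.H56T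

open Pool.Agent.W907.SG Pool.Agent.N496.LT Pool.Agent.Helper655.VN Pool.Agent.RK

namespace FINA

section complex

variable {V : Type} [Fintype V] [LinearOrder V] (G : SimpleGraph V)

/-- `1 - t` -/
def dl (t : V) : MonoidAlgebra ℤ (AG G) := 1 - MonoidAlgebra.single (agen G t) 1

/-- the cells -/
abbrev Cl : Type := {T : Finset V // G.IsClique (T : Set V)}

instance clFin : Fintype (Cl G) := Fintype.ofFinite _

/-- the entries of the boundary -/
def DD (T T' : Cl G) : MonoidAlgebra ℤ (AG G) :=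
  ∑ t ∈ T.1, if T'.1 = T.1.erase t then ((sg t T'.1 : ℤ) : MonoidAlgebra ℤ (AG G)) * dl G t else 0

variable {G}

/-- a face -/
def fc (T : Cl G) (t : V) : Cl G := ⟨T.1.erase t, T.2.subset (by
  rw [Finset.coe_subset]; exact Finset.erase_subset _ _)⟩

theorem dl_comm {s t : V} (h : s = t ∨ G.Adj s t) : dl G s * dl G t = dl G t * dl G s := by
  rcases h with h | h
  · rw [h]
  · unfold dl
    have h1 : (MonoidAlgebra.single (agen G s) 1 : MonoidAlgebra ℤ (AG G)) * MonoidAlgebra.single (agen G t) 1 =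
        MonoidAlgebra.single (agen G t) 1 * MonoidAlgebra.single (agen G s) 1 := by
      rw [MonoidAlgebra.single_mul_single, MonoidAlgebra.single_mul_single, (agen_comm h).eq]
    rw [sub_mul, mul_sub, mul_sub, sub_mul, mul_sub, mul_sub, h1]
    simp only [one_mul, mul_one]
    abel

theorem DD_mul (T T'' : Cl G) : ∑ T', DD G T T' * DD G T' T'' =
    ∑ t ∈ T.1, ((sg t (T.1.erase t) : ℤ) : MonoidAlgebra ℤ (AG G)) * dl G t * DD G (fc T t) T'' := by
  classical
  unfold DD
  have h1 : ∀ T' : Cl G, (∑ t ∈ T.1, if T'.1 = T.1.erase t then ((sg t T'.1 : ℤ) : MonoidAlgebra ℤ (AG G)) * dl G t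
      else 0) * (∑ s ∈ T'.1, if T''.1 = T'.1.erase s then ((sg s T''.1 : ℤ) : MonoidAlgebra ℤ (AG G)) * dl G s else 0) =
      ∑ t ∈ T.1, if T' = fc T t then ((sg t (T.1.erase t) : ℤ) : MonoidAlgebra ℤ (AG G)) * dl G t *
        (∑ s ∈ (fc T t).1, if T''.1 = (fc T t).1.erase s then ((sg s T''.1 : ℤ) : MonoidAlgebra ℤ (AG G)) * dl G s
          else 0) else 0 := by
    intro T'
    rw [Finset.sum_mul]
    refine Finset.sum_congr rfl fun t ht => ?_
    by_cases h : T' = fc T t
    · subst h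
      rw [if_pos rfl]
      have h3 : (fc T t).1 = T.1.erase t := rfl
      rw [if_pos h3]
      rfl
    · have h3 : ¬ T'.1 = T.1.erase t := fun h2 => h (Subtype.ext h2)
      rw [if_neg h, if_neg h3, zero_mul]
  rw [Finset.sum_congr rfl fun T' _ => h1 T', Finset.sum_comm]
  refine Finset.sum_congr rfl fun t ht => ?_
  rw [Finset.sum_eq_single (fc T t)]
  · rw [if_pos rfl]
  · intro T' _ h
    exact if_neg h
  · intro h
    exact absurd (Finset.mem_univ _) h

theorem DD_sq (T T'' : Cl G) : ∑ T', DD G T T' * DD G T' T'' = 0 := by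
  classical
  rw [DD_mul]
  unfold DD
  have h1 : ∀ t ∈ T.1, ((sg t (T.1.erase t) : ℤ) : MonoidAlgebra ℤ (AG G)) * dl G t *
      (∑ s ∈ (fc T t).1, if T''.1 = (fc T t).1.erase s then ((sg s T''.1 : ℤ) : MonoidAlgebra ℤ (AG G)) * dl G s else 0) =
      ∑ s ∈ T.1.erase t, if T''.1 = (T.1.erase t).erase s then
        ((sg t (T.1.erase t) * sg s ((T.1.erase t).erase s) : ℤ) : MonoidAlgebra ℤ (AG G)) * (dl G t * dl G s) else 0 := by
    intro t ht
    rw [Finset.mul_sum]
    refine Finset.sum_congr rfl fun s hs => ?_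
    by_cases h : T''.1 = (T.1.erase t).erase s
    · rw [if_pos h]
      have h' : T''.1 = (fc T t).1.erase s := h
      rw [if_pos h', h, Int.cast_mul]
      have := Int.cast_commute (sg s ((T.1.erase t).erase s)) (dl G t)
      rw [mul_assoc, mul_assoc, ← mul_assoc (dl G t), ← this.eq, mul_assoc]
    · have h' : ¬ T''.1 = (fc T t).1.erase s := h
      rw [if_neg h, if_neg h', mul_zero]
  rw [Finset.sum_congr rfl h1, Finset.sum_sigma']
  refine Finset.sum_involution (fun (x : Σ _ : V, V) _ => ⟨x.2, x.1⟩) ?_ ?_ ?_ ?_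
  · rintro ⟨t, s⟩ h
    simp only [Finset.mem_sigma, Finset.mem_erase] at h
    obtain ⟨ht, hst, hs⟩ := h
    simp only
    rw [Finset.erase_right_comm (a := s) (b := t)]
    by_cases h2 : T''.1 = (T.1.erase t).erase s
    · rw [if_pos h2, if_pos h2]
      have hadj : G.Adj t s := T.2 ht hs (Ne.symm hst)
      rw [dl_comm (Or.inr hadj), ← add_mul, ← Int.cast_add]
      have h3 : sg t (T.1.erase t) * sg s ((T.1.erase t).erase s) + sg s (T.1.erase s) * sg t ((T.1.erase t).erase s) = 0 := by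
        set R := (T.1.erase t).erase s with hR
        have hs' : s ∉ R := Finset.notMem_erase _ _
        have ht' : t ∉ R := fun h => Finset.notMem_erase t T.1 (Finset.mem_of_mem_erase h)
        have e1 : T.1.erase t = insert s R := by
          rw [hR, Finset.insert_erase (Finset.mem_erase.2 ⟨hst, hs⟩)]
        have e2 : T.1.erase s = insert t R := by
          rw [hR, Finset.erase_right_comm, Finset.insert_erase (Finset.mem_erase.2 ⟨Ne.symm hst, ht⟩)]
        rw [e1, e2]
        have := sg_swap t s R (Ne.symm hst) ht' hs'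
        linarith
      rw [h3, Int.cast_zero, zero_mul]
    · rw [if_neg h2, if_neg h2, add_zero]
  · rintro ⟨t, s⟩ h _ h3
    simp only [Finset.mem_sigma, Finset.mem_erase] at h
    simp only [Sigma.mk.injEq, heq_eq_eq] at h3
    exact h.2.1 h3.1
  · rintro ⟨t, s⟩ h
    simp only [Finset.mem_sigma, Finset.mem_erase] at h ⊢
    exact ⟨h.2.2, fun e => h.2.1 e.symm, h.1⟩
  · rintro ⟨t, s⟩ _
    rfl

variable (G)

open Classical in
/-- the chain complex of the universal cover of the Salvetti complex -/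
def sal : GCx (AG G) where
  ι := Cl G
  deg T := T.1.card
  D := Matrix.of fun T T' => DD G T T'
  D_deg T T' h := by
    rw [Matrix.of_apply] at h
    obtain ⟨t, ht, h1⟩ := Finset.exists_ne_zero_of_sum_ne_zero h
    have h2 : T'.1 = T.1.erase t := by
      by_contra h2
      exact h1 (if_neg h2)
    rw [h2, Finset.card_erase_of_mem ht]
    have : 0 < T.1.card := Finset.card_pos.2 ⟨t, ht⟩
    omega
  D_sq := by
    ext1 T T''
    exact DD_sq T T''

end complex

section key

variable {V : Type} [Fintype V] [LinearOrder V] {G : SimpleGraph V}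

open Classical in
/-- extension by zero -/
def ext {R : Type} [Zero R] (f : Cl G → AG G → R) (T : Finset V) (g : AG G) : R :=
  if h : G.IsClique (T : Set V) then f ⟨T, h⟩ g else 0

theorem ext_of {R : Type} [Zero R] (f : Cl G → AG G → R) (T : Cl G) : ext f T.1 = f T := by
  funext g
  unfold ext
  rw [dif_pos T.2]

theorem ext_not {R : Type} [Zero R] (f : Cl G → AG G → R) (T : Finset V) (h : ¬ G.IsClique (T : Set V)) :
    ext f T = 0 := by
  funext g
  unfold ext
  rw [dif_neg h]
  rfl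

theorem ext_add {R : Type} [AddCommGroup R] (f f' : Cl G → AG G → R) : ext (f + f') = ext f + ext f' := by
  funext T g
  rw [Pi.add_apply, Pi.add_apply]
  by_cases h : G.IsClique (T : Set V)
  · rw [ext_of _ ⟨T, h⟩, ext_of _ ⟨T, h⟩, ext_of _ ⟨T, h⟩]
    rfl
  · rw [ext_not _ T h, ext_not _ T h, ext_not _ T h, Pi.zero_apply, add_zero]

theorem ext_inj {R : Type} [Zero R] {f f' : Cl G → AG G → R} (h : ext f = ext f') : f = f' := by
  funext T
  rw [← ext_of f T, ← ext_of f' T, h]

/-- the action of an element of the group ring on a function -/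
def av {R : Type} [AddCommGroup R] (f : AG G → R) (g : AG G) : MonoidAlgebra ℤ (AG G) →+ R :=
  AddMonoidHom.mk' (fun a => a.coeff.sum fun γ n => n • f (g * γ⁻¹)) (fun a b => by
    rw [MonoidAlgebra.coeff_add]
    exact Finsupp.sum_add_index' (fun _ => zero_smul _ _) (fun _ _ _ => add_smul _ _ _))

theorem av_apply {R : Type} [AddCommGroup R] (f : AG G → R) (g : AG G) (a : MonoidAlgebra ℤ (AG G)) :
    av f g a = a.coeff.sum fun γ n => n • f (g * γ⁻¹) := rfl

theorem av_single {R : Type} [AddCommGroup R] (f : AG G → R) (g γ : AG G) (n : ℤ) :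
    av f g (MonoidAlgebra.single γ n) = n • f (g * γ⁻¹) := by
  rw [av_apply, MonoidAlgebra.coeff_single]
  exact Finsupp.sum_single_index (zero_smul _ _)

theorem av_dl {R : Type} [AddCommGroup R] (f : AG G → R) (g : AG G) (n : ℤ) (t : V) :
    av f g ((n : MonoidAlgebra ℤ (AG G)) * dl G t) = n • (f g - f (g * (agen G t)⁻¹)) := by
  have h1 : (n : MonoidAlgebra ℤ (AG G)) * dl G t = n • dl G t := (zsmul_eq_mul _ _).symm
  rw [h1, map_zsmul]
  unfold dl
  rw [map_sub, MonoidAlgebra.one_def, av_single, av_single, inv_one, mul_one, one_smul, one_smul]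

/-- The boundary of the complex `sal G` on functions. -/
theorem key {R : Type} [AddCommGroup R] (f : Cl G → AG G → R) (j : Cl G) (g : AG G) :
    ∑ i, (DD G i j).coeff.sum (fun γ a => a • f i (g * γ⁻¹)) = bda G (ext f) j.1 g := by
  classical
  have h1 : ∀ i : Cl G, (DD G i j).coeff.sum (fun γ a => a • f i (g * γ⁻¹)) =
      ∑ t, if t ∉ j.1 ∧ i.1 = insert t j.1 then sg t j.1 • (f i g - f i (g * (agen G t)⁻¹)) else 0 := by
    intro i
    rw [← av_apply]
    unfold DD
    rw [map_sum, ← Finset.sum_filter_add_sum_filter_not Finset.univ (fun t => t ∈ i.1)]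
    have e1 : ∑ t ∈ Finset.univ.filter (fun t => ¬ t ∈ i.1),
        (if t ∉ j.1 ∧ i.1 = insert t j.1 then sg t j.1 • (f i g - f i (g * (agen G t)⁻¹)) else 0) = 0 := by
      refine Finset.sum_eq_zero fun t ht => ?_
      rw [Finset.mem_filter] at ht
      refine if_neg ?_
      rintro ⟨-, h⟩
      exact ht.2 (by rw [h]; exact Finset.mem_insert_self _ _)
    have e2 : Finset.univ.filter (fun t => t ∈ i.1) = i.1 := by
      ext t; simp
    rw [e1, add_zero, e2]
    refine Finset.sum_congr rfl fun t ht => ?_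
    have e3 : (j.1 = i.1.erase t) ↔ (t ∉ j.1 ∧ i.1 = insert t j.1) := by
      constructor
      · intro h
        rw [h]
        exact ⟨Finset.notMem_erase _ _, (Finset.insert_erase ht).symm⟩
      · rintro ⟨h, h'⟩
        rw [h', Finset.erase_insert h]
    by_cases h : j.1 = i.1.erase t
    · rw [if_pos h, if_pos (e3.1 h), av_dl]
    · rw [if_neg h, if_neg (fun h' => h (e3.2 h')), map_zero]
  rw [Finset.sum_congr rfl fun i _ => h1 i, Finset.sum_comm]
  unfold bda
  rw [← Finset.sum_filter_add_sum_filter_not Finset.univ (fun t => t ∈ j.1ᶜ)]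
  have e1 : ∑ t ∈ Finset.univ.filter (fun t => ¬ t ∈ j.1ᶜ), (∑ i : Cl G,
      (if t ∉ j.1 ∧ i.1 = insert t j.1 then sg t j.1 • (f i g - f i (g * (agen G t)⁻¹)) else 0)) = 0 := by
    refine Finset.sum_eq_zero fun t ht => Finset.sum_eq_zero fun i _ => ?_
    rw [Finset.mem_filter, Finset.mem_compl, not_not] at ht
    exact if_neg fun h => h.1 ht.2
  have e2 : Finset.univ.filter (fun t => t ∈ j.1ᶜ) = j.1ᶜ := by
    ext t; simp
  rw [e1, add_zero, e2]
  refine Finset.sum_congr rfl fun t ht => ?_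
  rw [Finset.mem_compl] at ht
  by_cases h : G.IsClique ((insert t j.1 : Finset V) : Set V)
  · rw [ext_of f ⟨insert t j.1, h⟩, Finset.sum_eq_single ⟨insert t j.1, h⟩]
    · rw [if_pos ⟨ht, rfl⟩]
    · intro i _ hi
      refine if_neg ?_
      rintro ⟨-, h'⟩
      exact hi (Subtype.ext h')
    · intro h'
      exact absurd (Finset.mem_univ _) h'
  · rw [ext_not f _ h]
    simp only [Pi.zero_apply, sub_self, smul_zero]
    refine Finset.sum_eq_zero fun i _ => if_neg ?_
    rintro ⟨-, h'⟩
    exact h (h' ▸ i.2)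

/-- the boundary vanishes outside of the cliques -/
theorem bda_not {R : Type} [AddCommGroup R] (f : Cl G → AG G → R) (T : Finset V) (h : ¬ G.IsClique (T : Set V)) :
    bda G (ext f) T = 0 := by
  funext g
  unfold bda
  refine Finset.sum_eq_zero fun v _ => ?_
  rw [ext_not f (insert v T) fun h' => h (h'.subset (by
    rw [Finset.coe_subset]; exact Finset.subset_insert _ _))]
  simp

theorem key' {R : Type} [AddCommGroup R] (f : Cl G → AG G → R) :
    bda G (ext f) = ext fun j g => ∑ i, (DD G i j).coeff.sum (fun γ a => a • f i (g * γ⁻¹)) := by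
  funext T g
  by_cases h : G.IsClique (T : Set V)
  · rw [ext_of _ ⟨T, h⟩, key]
  · rw [bda_not f T h, ext_not _ T h]

end key

section res

variable {V : Type} [Fintype V] [LinearOrder V] {G : SimpleGraph V}

open Pool.Agent.N496.CV.PRES

/-- the chain of functions of a vector -/
def Ps (n : ℕ) (v : Fin ((sal G).toFree.rank n) → MonoidAlgebra ℤ (AG G)) : Finset V → AG G → ℤ :=
  ext (emb (sal G) n v)

theorem Ps_isC (n : ℕ) (v : Fin ((sal G).toFree.rank n) → MonoidAlgebra ℤ (AG G)) :
    IsC G (fun f => (Function.support f).Finite) n (Ps n v) := by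
  obtain ⟨S, hS⟩ := emb_fin (sal G) n v
  refine ⟨fun T hT => ?_, fun T => ?_⟩
  · by_cases h : G.IsClique (T : Set V)
    · have h1 : (sal G).deg (⟨T, h⟩ : Cl G) ≠ n := fun h2 => hT ⟨h, h2⟩
      show ext _ T = 0
      rw [ext_of _ ⟨T, h⟩]
      exact emb_not (sal G) n v _ h1
    · exact ext_not _ T h
  · by_cases h : G.IsClique (T : Set V)
    · refine S.finite_toSet.subset fun g hg => ?_
      have h1 : Ps n v T = emb (sal G) n v (⟨T, h⟩ : Cl G) := ext_of _ ⟨T, h⟩
      rw [Function.mem_support, h1] at hg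
      exact hS _ g hg
    · have h1 : Ps n v T = 0 := ext_not _ T h
      rw [h1]
      simp

theorem Ps_surj (n : ℕ) (c : Finset V → AG G → ℤ) (hc : IsC G (fun f => (Function.support f).Finite) n c) :
    ∃ v, Ps n v = c := by
  classical
  obtain ⟨v, hv⟩ := emb_surj (sal G) n (fun T : Cl G => c T.1) (fun T hT => hc.supp T.1 fun h => hT h.2)
    (Finset.univ.biUnion fun T : Cl G => (hc.mem T.1).toFinset) (fun T g hg => Finset.mem_biUnion.2
      ⟨T, Finset.mem_univ _, (hc.mem T.1).mem_toFinset.2 hg⟩)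
  refine ⟨v, ?_⟩
  funext T
  by_cases h : G.IsClique (T : Set V)
  · have h1 : Ps n v T = emb (sal G) n v (⟨T, h⟩ : Cl G) := ext_of _ ⟨T, h⟩
    rw [h1, hv]
  · have h1 : Ps n v T = 0 := ext_not _ T h
    rw [h1, hc.supp T fun h2 => h h2.1]

theorem Ps_inj (n : ℕ) (v w : Fin ((sal G).toFree.rank n) → MonoidAlgebra ℤ (AG G)) (h : Ps n v = Ps n w) : v = w :=
  emb_inj _ n v w (ext_inj h)

theorem Ps_add (n : ℕ) (v w : Fin ((sal G).toFree.rank n) → MonoidAlgebra ℤ (AG G)) :
    Ps n (v + w) = Ps n v + Ps n w := by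
  unfold Ps
  rw [emb_add]
  exact ext_add _ _

theorem Ps_d (n : ℕ) (v : Fin ((sal G).toFree.rank (n + 1)) → MonoidAlgebra ℤ (AG G)) :
    bda G (Ps (n + 1) v) = Ps n (Matrix.vecMul v ((sal G).toFree.d n)) := by
  unfold Ps
  rw [key']
  congr 1
  funext j g
  exact mul_emb (sal G) n v j g

/-- the augmentation of the boundaries -/
theorem aug_dl (t : V) : aug (AG G) (dl G t) = 0 := by
  unfold dl
  rw [map_sub, map_one, aug_single, sub_self]

theorem aug_D (i j : (sal G).ι) : aug (AG G) ((sal G).D i j) = 0 := by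
  show aug (AG G) (DD G i j) = 0
  unfold DD
  rw [map_sum]
  refine Finset.sum_eq_zero fun t _ => ?_
  split_ifs
  · rw [map_mul, aug_dl, mul_zero]
  · exact map_zero _

theorem aug_d (w : Fin ((sal G).toFree.rank 1) → MonoidAlgebra ℤ (AG G)) :
    ∑ j, aug (AG G) (Matrix.vecMul w ((sal G).toFree.d 0) j) = 0 := by
  refine Finset.sum_eq_zero fun j _ => ?_
  show aug (AG G) (∑ a, w a * (sal G).toFree.d 0 a j) = 0
  rw [map_sum]
  refine Finset.sum_eq_zero fun a _ => ?_
  rw [map_mul]
  have : aug (AG G) ((sal G).toFree.d 0 a j) = 0 := aug_D _ _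
  rw [this, mul_zero]

/-- a chain of dimension zero is a cycle -/
theorem bda_zero (c : Finset V → AG G → ℤ)
    (h : IsC G (fun f => (Function.support f).Finite) 0 c) : bda G c = 0 := by
  funext T w
  unfold bda
  refine Finset.sum_eq_zero fun v hv => ?_
  rw [h.supp (insert v T) fun h1 => ?_]
  · simp
  · have := h1.2
    rw [Finset.card_eq_zero] at this
    exact Finset.insert_ne_empty v T this

/-- **The complex `sal G` is a free resolution of the trivial module.** -/
theorem res (h1 : S_SALV) (G : SimpleGraph V) :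
    ∃ ε : (Fin ((sal G).toFree.rank 0) → MonoidAlgebra ℤ (AG G)) →+ ℤ,
      (∀ (g : AG G) v, ε (fun i => MonoidAlgebra.single g (1 : ℤ) * v i) = ε v) ∧
      Function.Surjective ε ∧ (∀ v, ε v = 0 ↔ ∃ w, v = Matrix.vecMul w ((sal G).toFree.d 0)) ∧
      ∀ n v, Matrix.vecMul v ((sal G).toFree.d n) = 0 ↔ ∃ w, v = Matrix.vecMul w ((sal G).toFree.d (n + 1)) := by
  have b0 : ∀ n, Ps n (0 : Fin ((sal G).toFree.rank n) → MonoidAlgebra ℤ (AG G)) = 0 := fun n => by
    have := Ps_add n (0 : Fin ((sal G).toFree.rank n) → MonoidAlgebra ℤ (AG G)) 0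
    rw [add_zero] at this
    exact left_eq_add.1 this
  have b6 : ∀ n (v : Fin ((sal G).toFree.rank n) → MonoidAlgebra ℤ (AG G)), bda G (Ps n v) = 0 →
      (n = 0 → ∑ᶠ w, Ps n v ∅ w = 0) →
      ∃ w, v = Matrix.vecMul w ((sal G).toFree.d n) := by
    intro n v hv h0
    obtain ⟨e, he, he'⟩ := h1 V G n (Ps n v) (Ps_isC n v) hv h0
    obtain ⟨w, rfl⟩ := Ps_surj (n + 1) e he
    refine ⟨w, Ps_inj n _ _ ?_⟩
    rw [← Ps_d, he']
  -- the sum of the values
  obtain ⟨η, hη⟩ : ∃ η : (Fin ((sal G).toFree.rank 0) → MonoidAlgebra ℤ (AG G)) →+ ℤ,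
      ∀ v, η v = ∑ᶠ w, Ps 0 v ∅ w :=
    ⟨AddMonoidHom.mk' (fun v => ∑ᶠ w, Ps 0 v ∅ w) (fun v w => by
      show ∑ᶠ x, Ps 0 (v + w) ∅ x = _
      rw [Ps_add]
      exact finsum_add_distrib ((Ps_isC 0 v).mem ∅) ((Ps_isC 0 w).mem ∅)), fun v => rfl⟩
  have b7 : ∀ v, η v = 0 → ∃ w, v = Matrix.vecMul w ((sal G).toFree.d 0) := fun v hv =>
    b6 0 v (bda_zero _ (Ps_isC 0 v)) fun _ => by rw [← hη, hv]
  -- the augmentation
  obtain ⟨ε, hε⟩ : ∃ ε : (Fin ((sal G).toFree.rank 0) → MonoidAlgebra ℤ (AG G)) →+ ℤ,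
      ∀ v, ε v = ∑ j, aug (AG G) (v j) :=
    ⟨AddMonoidHom.mk' (fun v => ∑ j, aug (AG G) (v j)) (fun v w => by
      show ∑ j, aug (AG G) (v j + w j) = _
      rw [← Finset.sum_add_distrib]
      exact Finset.sum_congr rfl fun j _ => map_add _ _ _), fun v => rfl⟩
  have hs : Function.Surjective ε := fun n => by
    obtain ⟨a⟩ : Nonempty (Fin ((sal G).toFree.rank 0)) := ⟨nb (sal G) 0
      ⟨(⟨∅, by simp⟩ : Cl G), (Finset.card_empty : (∅ : Finset V).card = 0)⟩⟩
    refine ⟨Pi.single a (MonoidAlgebra.single 1 n), ?_⟩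
    rw [hε, Finset.sum_eq_single a]
    · rw [Pi.single_eq_same, aug_single]
    · intro b _ hb
      rw [Pi.single_eq_of_ne hb, map_zero]
    · intro h
      exact absurd (Finset.mem_univ a) h
  refine ⟨ε, fun g v => ?_, hs, fun v => ⟨fun hv => ?_, ?_⟩, fun n v => ⟨fun hv => ?_, ?_⟩⟩
  · rw [hε, hε]
    refine Finset.sum_congr rfl fun j _ => ?_
    rw [map_mul, aug_single, one_mul]
  · obtain ⟨v₀, hv₀⟩ := hs 1
    obtain ⟨w, hw⟩ := b7 (η v₀ • v - η v • v₀) (by
      rw [map_sub, map_zsmul, map_zsmul, smul_eq_mul, smul_eq_mul, mul_comm, sub_self])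
    have h3 : ε (η v₀ • v - η v • v₀) = 0 := by
      rw [hw, hε]
      exact aug_d w
    rw [map_sub, map_zsmul, map_zsmul, hv, hv₀, smul_zero, smul_eq_mul, mul_one, zero_sub, neg_eq_zero] at h3
    exact b7 v h3
  · rintro ⟨w, rfl⟩
    rw [hε]
    exact aug_d w
  · refine b6 (n + 1) v ?_ fun h => absurd h (Nat.succ_ne_zero n)
    rw [Ps_d, hv, b0]
  · rintro ⟨w, rfl⟩
    rw [Matrix.vecMul_vecMul, (sal G).toFree.d_comp_d, Matrix.vecMul_zero]

end res

end FINA

attribute [local instance] VN831.bcFunctor_additive VN831.viaAdd VN831.viaMod V7N.bcF_additive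
  V7N.rmAdd V7N.rmMod

open FINA Pool.Agent.N496.CV.FinAux in
/-- **FINA** -/
theorem fina : S_FINA := by
  classical
  intro hres V _ _ G K n H
  obtain ⟨ε, h1, h2, h3, h4⟩ := res hres G
  let C : V7N.FreeRes (AG G) := ⟨(sal G).toFree.rank, (sal G).toFree.d, ε, h1, h2, h3, h4⟩
  let i : K →* AG G := K.subtype
  have hi : Function.Injective i := K.subtype_injective
  let j := Pool.Agent.Helper277.VN5.jN K
  let cW : AG G →* NG (AG G) := canL
  have hc : ∀ k : K, j (canL k) = cW (i k) := fun k => Pool.Agent.Helper277.VN5.jN_canL K k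
  have hind : VN831.CosetIndep j cW i.range := by
    intro s hs x hx g hg
    refine Pool.Agent.Helper277.VN5.jN_indep K s x (fun y hy y' hy' hne hmem => ?_) hx g hg
    exact hs y hy y' hy' hne ⟨⟨_, hmem⟩, rfl⟩
  obtain ⟨f⟩ := V7N.v7_succ C n i hi (canL : K →* NG K) cW j hc hind
  have f' : VN831.homN K (n + 1) ≃ₗ[NG K] VN831.HR j cW (((sal G).toFree.d (n + 1)).map (V7N.evM cW))
    (((sal G).toFree.d n).map (V7N.evM cW)) := f
  show VN831.luckDim K (VN831.homN K (n + 1)) = 0
  rw [VN831.luckDim_congr f']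
  refine luck_zero (tors hi hc hind _ _ Nz fun v hv => ?_)
  let v' : Cl G → AG G → NG K := fun x => if h : ∃ k, cell (sal G) (n + 1) k = x then (v h.choose).1
    else 0
  have hv1 : ∀ k, v' (cell (sal G) (n + 1) k) = (v k).1 := by
    intro k
    have h : ∃ k', cell (sal G) (n + 1) k' = cell (sal G) (n + 1) k := ⟨k, rfl⟩
    have h5 : v' (cell (sal G) (n + 1) k) = (v h.choose).1 := dif_pos h
    rw [h5, cell_inj _ _ h.choose_spec]
  have hv0 : ∀ x : Cl G, (sal G).deg x ≠ n + 1 → v' x = 0 := by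
    intro x hx
    refine dif_neg ?_
    rintro ⟨k, rfl⟩
    exact hx (cell_deg _ _ k)
  have hFK0 : FK K (canL : K →* NG K) (0 : AG G → NG K) :=
    ⟨fun h g => (zero_mul _).symm, ∅, fun g hg => absurd rfl hg⟩
  have hFV : IsC G (FK K (canL : K →* NG K)) (n + 1) (ext v') := by
    refine ⟨fun T hT => ?_, fun T => ?_⟩
    · by_cases h : G.IsClique (T : Set V)
      · rw [ext_of v' ⟨T, h⟩]
        exact hv0 ⟨T, h⟩ fun h2 => hT ⟨h, h2⟩
      · exact ext_not v' T h
    · by_cases h : G.IsClique (T : Set V)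
      · rw [ext_of v' ⟨T, h⟩]
        by_cases hx : (sal G).deg (⟨T, h⟩ : Cl G) = n + 1
        · obtain ⟨k, hk⟩ := exists_cell (sal G) hx
          rw [← hk, hv1]
          exact ⟨(v k).2.eq, (v k).2.fin⟩
        · rw [hv0 _ hx]
          exact hFK0
      · rw [ext_not v' T h]
        exact hFK0
  have hcyc : bda G (ext v') = 0 := by
    rw [key']
    funext T g
    by_cases h : G.IsClique (T : Set V)
    · rw [ext_of _ ⟨T, h⟩]
      by_cases hy : (sal G).deg (⟨T, h⟩ : Cl G) = n
      · obtain ⟨l, hl⟩ := exists_cell (sal G) hy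
        have h5 := congrFun (congrArg Subtype.val (hv l)) g
        rw [Submodule.coe_sum, Finset.sum_apply] at h5
        refine Eq.trans ?_ h5
        refine Eq.trans (sum_cell (sal G) (n + 1) (fun x : Cl G => (DD G x ⟨T, h⟩).coeff.sum
          (fun γ a => a • v' x (g * γ⁻¹))) ?_).symm ?_
        · intro x hx
          rw [hv0 x hx]
          simp
        · refine Finset.sum_congr rfl fun k _ => ?_
          rw [act_apply, hv1, d_apply, hl]
          rfl
      · refine Finset.sum_eq_zero fun x _ => ?_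
        by_cases hx : (sal G).deg x = n + 1
        · have h5 : DD G x ⟨T, h⟩ = 0 := by
            by_contra h5
            have := (sal G).D_deg x (⟨T, h⟩ : Cl G) h5
            omega
          rw [h5]
          simp
        · rw [hv0 x hx]
          simp
    · rw [ext_not _ T h]
      rfl
  obtain ⟨s, hs, e, he, hse⟩ := H (ext v') hFV hcyc
  refine ⟨s, hs, fun m => ⟨e (cell (sal G) (n + 1 + 1) m : Cl G).1, ?_⟩, fun k => ?_⟩
  · exact ⟨(he.mem _).eq, (he.mem _).fin⟩
  · apply Subtype.ext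
    funext g
    rw [Submodule.coe_sum, Finset.sum_apply]
    have h5 := congrFun (congrFun hse (cell (sal G) (n + 1) k : Cl G).1) g
    have h6 : s * ext v' (cell (sal G) (n + 1) k : Cl G).1 g = (s • v k).1 g := by
      rw [ext_of v' (cell (sal G) (n + 1) k : Cl G), hv1]
      rfl
    refine Eq.trans ?_ (h5.trans h6)
    have h7 : e = ext fun x : Cl G => e x.1 := by
      funext T
      by_cases h : G.IsClique (T : Set V)
      · rw [ext_of _ ⟨T, h⟩]
      · rw [ext_not _ T h, he.supp T fun h2 => h h2.1]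
    have h8 := congrFun (congrFun (congrArg (bda G) h7) (cell (sal G) (n + 1) k : Cl G).1) g
    refine Eq.trans ?_ h8.symm
    rw [← key (fun x : Cl G => e x.1) (cell (sal G) (n + 1) k : Cl G) g]
    refine Eq.trans ?_ (sum_cell (sal G) (n + 1 + 1) (fun x : Cl G => (DD G x (cell (sal G) (n + 1) k)).coeff.sum
          (fun γ a => a • e x.1 (g * γ⁻¹))) ?_)
    · refine Finset.sum_congr rfl fun m _ => ?_
      rw [act_apply, d_apply]
      rfl
    · intro x hx
      rw [he.supp x.1 fun h => hx h.2]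
      simp

end Pool.Agent.H56T
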