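import Pool.Agent.H56T.Stm3

/-!
# Piece SALV: the universal cover of the Salvetti complex is acyclic
-/

set_option autoImplicit false
set_option linter.unusedSectionVars false

namespace Pool.Agent.H56T.SALV

open Pool.Agent.W907.SG Pool.Agent.H56T

section hnn

variable {V : Type} [Fintype V] [LinearOrder V] {G : SimpleGraph V}

/-- right multiplication -/
noncomputable def rt (x : AG G) : (AG G →₀ ℤ) →+ (AG G →₀ ℤ) := Finsupp.mapDomain.addMonoidHom (fun g => g * x)

/-- `λ - λ · v` -/
noncomputable def DD (v : V) : (AG G →₀ ℤ) →+ (AG G →₀ ℤ) := AddMonoidHom.id _ - rt (agen G v)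

theorem DD_single (v : V) (g : AG G) (a : ℤ) :
    DD v (Finsupp.single g a) = Finsupp.single g a - Finsupp.single (g * agen G v) a := by
  unfold DD rt
  rw [AddMonoidHom.sub_apply, AddMonoidHom.id_apply, Finsupp.mapDomain.addMonoidHom_apply, Finsupp.mapDomain_single]

theorem DD_apply (v : V) (f : AG G →₀ ℤ) (g : AG G) : DD v f g = f g - f (g * (agen G v)⁻¹) := by
  unfold DD rt
  rw [AddMonoidHom.sub_apply, AddMonoidHom.id_apply, Finsupp.mapDomain.addMonoidHom_apply, Finsupp.sub_apply]
  congr 1
  have h1 := Finsupp.mapDomain_apply (mul_left_injective (agen G v)) f (g * (agen G v)⁻¹)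
  beta_reduce at h1
  rw [inv_mul_cancel_right] at h1
  exact h1

/-- the sums `∑ (f_u - f_u · u)` -/
def JJ (G : SimpleGraph V) (U : Finset V) : AddSubgroup (AG G →₀ ℤ) where
  carrier := {x | ∃ f : V → AG G →₀ ℤ, x = ∑ u ∈ U, DD u (f u)}
  add_mem' := by
    rintro x y ⟨f, rfl⟩ ⟨g, rfl⟩
    refine ⟨fun u => f u + g u, ?_⟩
    rw [← Finset.sum_add_distrib]
    exact Finset.sum_congr rfl fun u _ => (map_add _ _ _).symm
  zero_mem' := ⟨0, by simp⟩
  neg_mem' := by
    rintro x ⟨f, rfl⟩
    refine ⟨fun u => - f u, ?_⟩
    rw [← Finset.sum_neg_distrib]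
    exact Finset.sum_congr rfl fun u _ => (map_neg _ _).symm

theorem DD_mem {U : Finset V} {u : V} (hu : u ∈ U) (x : AG G →₀ ℤ) : DD u x ∈ JJ G U := by
  classical
  refine ⟨fun w => if w = u then x else 0, ?_⟩
  rw [Finset.sum_eq_single u]
  · simp
  · intro w _ hw
    simp [hw]
  · intro h
    exact absurd hu h

/-- the subgroup generated by the generators in `U` -/
def Sb (G : SimpleGraph V) (U : Finset V) : Subgroup (AG G) := Subgroup.closure (agen G '' (U : Set V))

theorem agen_mem {U : Finset V} {u : V} (hu : u ∈ U) : agen G u ∈ Sb G U :=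
  Subgroup.subset_closure ⟨u, hu, rfl⟩

theorem single_mem {U : Finset V} {h : AG G} (hh : h ∈ Sb G U) : ∀ g : AG G,
    Finsupp.single g (1 : ℤ) - Finsupp.single (g * h) 1 ∈ JJ G U := by
  unfold Sb at hh
  induction hh using Subgroup.closure_induction with
  | mem x hx =>
    obtain ⟨u, hu, rfl⟩ := hx
    intro g
    rw [← DD_single]
    exact DD_mem hu _
  | one =>
    intro g
    rw [mul_one, sub_self]
    exact (JJ G U).zero_mem
  | mul x y _ _ hx hy =>
    intro g
    have := (JJ G U).add_mem (hx g) (hy (g * x))
    rw [sub_add_sub_cancel, mul_assoc] at this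
    exact this
  | inv x _ hx =>
    intro g
    have := (JJ G U).neg_mem (hx (g * x⁻¹))
    rw [neg_sub, inv_mul_cancel_right] at this
    exact this

/-- the kernel of the map to the functions on the cosets -/
theorem ker_mk {U : Finset V} (x : AG G →₀ ℤ)
    (h : Finsupp.mapDomain (fun g : AG G => (g : AG G ⧸ Sb G U)) x = 0) : x ∈ JJ G U := by
  have key : ∀ y : AG G →₀ ℤ, y - Finsupp.mapDomain (fun q : AG G ⧸ Sb G U => q.out)
      (Finsupp.mapDomain (fun g : AG G => (g : AG G ⧸ Sb G U)) y) ∈ JJ G U := by
    intro y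
    induction y using Finsupp.induction_linear with
    | zero =>
      simp only [Finsupp.mapDomain_zero, sub_zero]
      exact (JJ G U).zero_mem
    | add f g hf hg =>
      have := (JJ G U).add_mem hf hg
      rw [Finsupp.mapDomain_add, Finsupp.mapDomain_add]
      convert this using 1
      abel
    | single g a =>
      rw [Finsupp.mapDomain_single, Finsupp.mapDomain_single]
      obtain ⟨k, hk⟩ := QuotientGroup.mk_out_eq_mul (Sb G U) g
      rw [hk]
      have h1 := (JJ G U).zsmul_mem (single_mem k.2 g) a
      rw [smul_sub, Finsupp.smul_single, Finsupp.smul_single, smul_eq_mul, mul_one] at h1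
      exact h1
  have := key x
  rwa [h, Finsupp.mapDomain_zero, sub_zero] at this

/-! ### the action on the functions on the cosets -/

section act

variable (L : Finset V)

/-- the module -/
abbrev NN (G : SimpleGraph V) (L : Finset V) : Type := (AG G ⧸ Sb G L) →₀ ℤ

/-- left translation -/
noncomputable def act (g : AG G) : NN G L →+ NN G L := Finsupp.mapDomain.addMonoidHom (fun q => g • q)

theorem act_one (n : NN G L) : act L 1 n = n := by
  unfold act
  rw [Finsupp.mapDomain.addMonoidHom_apply]
  have : (fun q : AG G ⧸ Sb G L => (1 : AG G) • q) = id := by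
    funext q
    rw [one_smul]
    rfl
  rw [this, Finsupp.mapDomain_id]

theorem act_mul (g h : AG G) (n : NN G L) : act L (g * h) n = act L g (act L h n) := by
  unfold act
  rw [Finsupp.mapDomain.addMonoidHom_apply, Finsupp.mapDomain.addMonoidHom_apply,
    Finsupp.mapDomain.addMonoidHom_apply, ← Finsupp.mapDomain_comp]
  congr 1
  funext q
  exact mul_smul g h q

/-- the class of `g` -/
noncomputable def cl (g : AG G) : NN G L := Finsupp.single (g : AG G ⧸ Sb G L) 1

theorem act_cl (g h : AG G) : act L g (cl L h) = cl L (g * h) := by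
  unfold act cl
  rw [Finsupp.mapDomain.addMonoidHom_apply, Finsupp.mapDomain_single]
  rfl

theorem cl_eq {g h : AG G} (hh : h ∈ Sb G L) : cl L (g * h) = cl L g := by
  unfold cl
  rw [QuotientGroup.mk_mul_of_mem g hh]

/-- the permutation `n ↦ g n` -/
noncomputable def pu (g : AG G) : Equiv.Perm (NN G L) where
  toFun n := act L g n
  invFun n := act L g⁻¹ n
  left_inv n := by
    show act L g⁻¹ (act L g n) = n
    rw [← act_mul, inv_mul_cancel, act_one]
  right_inv n := by
    show act L g (act L g⁻¹ n) = n
    rw [← act_mul, mul_inv_cancel, act_one]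

/-- the permutation `n ↦ g n - [1]` -/
noncomputable def pv (g : AG G) : Equiv.Perm (NN G L) where
  toFun n := act L g n - cl L 1
  invFun n := act L g⁻¹ (n + cl L 1)
  left_inv n := by
    show act L g⁻¹ (act L g n - cl L 1 + cl L 1) = n
    rw [sub_add_cancel, ← act_mul, inv_mul_cancel, act_one]
  right_inv n := by
    show act L g (act L g⁻¹ (n + cl L 1)) - cl L 1 = n
    rw [← act_mul, mul_inv_cancel, act_one, add_sub_cancel_right]

end act

section theta

variable (U : Finset V) (v : V)

open Classical in
/-- the link -/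
noncomputable def lk (G : SimpleGraph V) (U : Finset V) (v : V) : Finset V := U.filter fun u => G.Adj v u

variable {U v} in
theorem mem_lk {u : V} : u ∈ lk G U v ↔ u ∈ U ∧ G.Adj v u := by
  classical
  exact Finset.mem_filter

/-- the images of the generators -/
noncomputable def gn (w : V) : Equiv.Perm (NN G (lk G U v)) := by
  classical exact if w ∈ U then pu _ (agen G w) else if w = v then pv _ (agen G v) else 1

theorem gn_comm (hv : v ∉ U) {a b : V} (h : G.Adj a b) : Commute (gn (G := G) U v a) (gn U v b) := by
  classical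
  have hc : Commute (agen G a) (agen G b) := agen_comm h
  have h1 : ∀ a b : V, G.Adj a b → a ∈ U → b = v → Commute (gn (G := G) U v a) (gn U v b) := by
    intro a b h ha hb
    have hc : Commute (agen G a) (agen G b) := agen_comm h
    subst hb
    unfold gn
    rw [if_pos ha, if_neg hv, if_pos rfl]
    apply Equiv.ext
    intro n
    show act _ (agen G a) (act _ (agen G b) n - cl _ 1) = act _ (agen G b) (act _ (agen G a) n) - cl _ 1
    rw [map_sub, ← act_mul, ← act_mul, hc.eq, act_cl, mul_one]
    congr 1
    have h2 := cl_eq (G := G) (lk G U b) (g := 1) (h := agen G a) (agen_mem (mem_lk.2 ⟨ha, h.symm⟩))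
    rw [one_mul] at h2
    exact h2
  by_cases ha : a ∈ U
  · by_cases hb : b ∈ U
    · unfold gn
      rw [if_pos ha, if_pos hb]
      apply Equiv.ext
      intro n
      show act _ (agen G a) (act _ (agen G b) n) = act _ (agen G b) (act _ (agen G a) n)
      rw [← act_mul, ← act_mul, hc.eq]
    · by_cases hbv : b = v
      · exact h1 a b h ha hbv
      · have : gn (G := G) U v b = 1 := by
          unfold gn
          rw [if_neg hb, if_neg hbv]
        rw [this]
        exact Commute.one_right _
  · by_cases hav : a = v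
    · by_cases hb : b ∈ U
      · exact (h1 b a h.symm hb hav).symm
      · have : gn (G := G) U v b = 1 := by
          unfold gn
          rw [if_neg hb, if_neg]
          rintro rfl
          exact h.ne hav
        rw [this]
        exact Commute.one_right _
    · have : gn (G := G) U v a = 1 := by
        unfold gn
        rw [if_neg ha, if_neg hav]
      rw [this]
      exact Commute.one_left _

/-- the affine action -/
noncomputable def Th (hv : v ∉ U) : AG G →* Equiv.Perm (NN G (lk G U v)) :=
  PresentedGroup.toGroup (f := gn U v) (by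
    rintro r ⟨a, b, h, rfl⟩
    have hc := gn_comm U v hv h
    simp only [map_mul, map_inv, FreeGroup.lift_apply_of]
    rw [mul_inv_eq_one, mul_inv_eq_iff_eq_mul]
    exact hc)

theorem Th_agen (hv : v ∉ U) (w : V) : Th (G := G) U v hv (agen G w) = gn U v w := PresentedGroup.toGroup.of _

variable {U v}

theorem Th_u (hv : v ∉ U) {u : V} (hu : u ∈ U) (n : NN G (lk G U v)) :
    Th U v hv (agen G u) n = act _ (agen G u) n := by
  rw [Th_agen]
  unfold gn
  rw [if_pos hu]
  rfl

theorem Th_v (hv : v ∉ U) (n : NN G (lk G U v)) : Th U v hv (agen G v) n = act _ (agen G v) n - cl _ 1 := by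
  rw [Th_agen]
  unfold gn
  rw [if_neg hv, if_pos rfl]
  rfl

/-- the derivation -/
noncomputable def dd (hv : v ∉ U) (g : AG G) : NN G (lk G U v) := Th U v hv g 0

theorem Th_eq (hv : v ∉ U) {h : AG G} (hh : h ∈ Sb G (insert v U)) : ∀ n : NN G (lk G U v),
    Th U v hv h n = act _ h n + Th U v hv h 0 := by
  unfold Sb at hh
  induction hh using Subgroup.closure_induction with
  | mem x hx =>
    obtain ⟨u, hu, rfl⟩ := hx
    intro n
    rw [Finset.coe_insert, Set.mem_insert_iff, Finset.mem_coe] at hu
    rcases hu with rfl | hu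
    · rw [Th_v, Th_v, map_zero, zero_sub, sub_eq_add_neg]
    · rw [Th_u hv hu, Th_u hv hu, map_zero, add_zero]
  | one =>
    intro n
    rw [map_one, act_one]
    simp
  | mul x y _ _ hx hy =>
    intro n
    rw [map_mul, Equiv.Perm.mul_apply, Equiv.Perm.mul_apply, hx, hy, hx (Th U v hv y 0), map_add, act_mul]
    abel
  | inv x _ hx =>
    intro n
    have h1 : ∀ m, Th U v hv x⁻¹ m = act _ x⁻¹ (m - Th U v hv x 0) := by
      intro m
      rw [map_inv, Equiv.Perm.inv_eq_iff_eq, hx, ← act_mul, mul_inv_cancel, act_one, sub_add_cancel]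
    rw [h1, h1, zero_sub, sub_eq_add_neg, map_add]

theorem dd_u (hv : v ∉ U) {u : V} (hu : u ∈ U) (h : AG G) : dd hv (h * agen G u) = dd hv h := by
  unfold dd
  rw [map_mul, Equiv.Perm.mul_apply, Th_u hv hu, map_zero]

theorem dd_v (hv : v ∉ U) {h : AG G} (hh : h ∈ Sb G (insert v U)) :
    dd hv (h * agen G v) = dd hv h - cl _ h := by
  unfold dd
  rw [map_mul, Equiv.Perm.mul_apply, Th_v, map_zero, zero_sub, Th_eq hv hh, map_neg, act_cl, mul_one]
  abel

/-- the representative of the coset of `g` -/
noncomputable def rp (W : Finset V) (g : AG G) : AG G := (g : AG G ⧸ Sb G W).out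

theorem rp_mem (W : Finset V) (g : AG G) : (rp W g)⁻¹ * g ∈ Sb G W := by
  unfold rp
  exact QuotientGroup.eq.1 (Quotient.out_eq' (g : AG G ⧸ Sb G W))

theorem rp_mul (W : Finset V) (g : AG G) {h : AG G} (hh : h ∈ Sb G W) : rp W (g * h) = rp W g := by
  unfold rp
  rw [QuotientGroup.mk_mul_of_mem g hh]

/-- the map `φ` -/
noncomputable def ph (hv : v ∉ U) (g : AG G) : NN G (lk G U v) :=
  act _ (rp (insert v U) g) (dd hv ((rp (insert v U) g)⁻¹ * g))

theorem ph_u (hv : v ∉ U) {u : V} (hu : u ∈ U) (g : AG G) : ph hv (g * agen G u) = ph hv g := by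
  unfold ph
  rw [rp_mul _ g (agen_mem (Finset.mem_insert_of_mem hu)), ← mul_assoc, dd_u hv hu]

theorem ph_v (hv : v ∉ U) (g : AG G) : ph hv (g * agen G v) = ph hv g - cl _ g := by
  unfold ph
  rw [rp_mul _ g (agen_mem (Finset.mem_insert_self v U)), ← mul_assoc, dd_v hv (rp_mem _ _), map_sub, act_cl,
    mul_inv_cancel_left]

/-- the additive extension of `φ` -/
noncomputable def Ph (hv : v ∉ U) : (AG G →₀ ℤ) →+ NN G (lk G U v) :=
  Finsupp.liftAddHom fun g => (zmultiplesHom _ (ph hv g))

theorem Ph_single (hv : v ∉ U) (g : AG G) (a : ℤ) : Ph hv (Finsupp.single g a) = a • ph hv g := by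
  unfold Ph
  rw [Finsupp.liftAddHom_apply_single]
  rfl

theorem Ph_u (hv : v ∉ U) {u : V} (hu : u ∈ U) (x : AG G →₀ ℤ) : Ph hv (DD u x) = 0 := by
  induction x using Finsupp.induction_linear with
  | zero => rw [map_zero, map_zero]
  | add f g hf hg => rw [map_add, map_add, hf, hg, add_zero]
  | single g a => rw [DD_single, map_sub, Ph_single, Ph_single, ph_u hv hu, sub_self]

theorem Ph_v (hv : v ∉ U) (x : AG G →₀ ℤ) :
    Ph hv (DD v x) = Finsupp.mapDomain (fun g : AG G => (g : AG G ⧸ Sb G (lk G U v))) x := by
  induction x using Finsupp.induction_linear with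
  | zero => rw [map_zero, map_zero, Finsupp.mapDomain_zero]
  | add f g hf hg => rw [map_add, map_add, hf, hg, Finsupp.mapDomain_add]
  | single g a =>
    rw [DD_single, map_sub, Ph_single, Ph_single, ph_v, Finsupp.mapDomain_single, smul_sub, sub_sub_cancel]
    unfold cl
    rw [Finsupp.smul_single, smul_eq_mul, mul_one]

/-- **HNN** -/
theorem hnn (hv : v ∉ U) (x : AG G →₀ ℤ) (h : DD v x ∈ JJ G U) : x ∈ JJ G (lk G U v) := by
  apply ker_mk
  rw [← Ph_v hv]
  obtain ⟨f, hf⟩ := h
  rw [hf, map_sum]
  exact Finset.sum_eq_zero fun u hu => Ph_u hv hu _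

end theta

end hnn

section ind

variable {V : Type} [Fintype V] [LinearOrder V] {G : SimpleGraph V}

/-- the difference operator on functions -/
noncomputable def dv (v : V) : (AG G → ℤ) →+ (AG G → ℤ) where
  toFun f g := f g - f (g * (agen G v)⁻¹)
  map_zero' := by
    funext g
    simp
  map_add' a b := by
    funext g
    simp only [Pi.add_apply]
    ring

theorem dv_apply (v : V) (f : AG G → ℤ) (g : AG G) : dv v f g = f g - f (g * (agen G v)⁻¹) := rfl

theorem bda_eq (c : Finset V → AG G → ℤ) (T : Finset V) :
    bda G c T = ∑ v ∈ Tᶜ, sg v T • dv v (c (insert v T)) := by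
  funext g
  rw [Finset.sum_apply]
  rfl

theorem bda_add (c d : Finset V → AG G → ℤ) : bda G (c + d) = bda G c + bda G d := by
  funext T
  rw [Pi.add_apply, bda_eq, bda_eq, bda_eq, ← Finset.sum_add_distrib]
  refine Finset.sum_congr rfl fun v _ => ?_
  rw [Pi.add_apply, map_add, smul_add]

theorem bda_sub (c d : Finset V → AG G → ℤ) : bda G (c - d) = bda G c - bda G d := by
  funext T
  rw [Pi.sub_apply, bda_eq, bda_eq, bda_eq, ← Finset.sum_sub_distrib]
  refine Finset.sum_congr rfl fun v _ => ?_
  rw [Pi.sub_apply, map_sub, smul_sub]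

theorem dv_comm {u v : V} (h : G.Adj u v) (f : AG G → ℤ) : dv u (dv v f) = dv v (dv u f) := by
  funext g
  simp only [dv_apply]
  have h1 : g * (agen G u)⁻¹ * (agen G v)⁻¹ = g * (agen G v)⁻¹ * (agen G u)⁻¹ := by
    rw [mul_assoc, mul_assoc, (agen_comm h).inv_inv.eq]
  rw [h1]
  ring

theorem dv_fin (v : V) {f : AG G → ℤ} (hf : (Function.support f).Finite) : (Function.support (dv v f)).Finite := by
  refine (hf.union (hf.preimage (f := fun g => g * (agen G v)⁻¹) ?_)).subset ?_
  · exact (mul_left_injective _).injOn
  · intro g hg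
    rw [Function.mem_support, dv_apply] at hg
    by_contra hcon
    rw [Set.mem_union, not_or, Set.mem_preimage, Function.mem_support, Function.mem_support, not_not, not_not] at hcon
    rw [hcon.1, hcon.2, sub_zero] at hg
    exact hg rfl

theorem bda_fin {c : Finset V → AG G → ℤ} (hc : ∀ T, (Function.support (c T)).Finite) (T : Finset V) :
    (Function.support (bda G c T)).Finite := by
  rw [bda_eq]
  have : ∀ S : Finset V, (Function.support (∑ v ∈ S, sg v T • dv v (c (insert v T)))).Finite := by
    intro S
    induction S using Finset.induction_on with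
    | empty => simp
    | insert a S ha ih =>
      rw [Finset.sum_insert ha]
      refine (((dv_fin a (hc (insert a T))).subset ?_).union ih).subset (Function.support_add _ _)
      exact Function.support_const_smul_subset _ _
  exact this _

theorem bda_bda (c : Finset V → AG G → ℤ) (hc : ∀ T : Finset V, ¬ G.IsClique (T : Set V) → c T = 0) :
    bda G (bda G c) = 0 := by
  classical
  funext T
  rw [bda_eq]
  have h1 : ∀ v ∈ Tᶜ, sg v T • dv v (bda G c (insert v T))
      = ∑ u ∈ Tᶜ.erase v, (sg v T * sg u (insert v T)) • dv v (dv u (c (insert u (insert v T)))) := by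
    intro v hv
    rw [bda_eq, map_sum, Finset.smul_sum]
    have : (insert v T)ᶜ = Tᶜ.erase v := by
      ext u; simp
    rw [this]
    exact Finset.sum_congr rfl fun u _ => by rw [map_zsmul, smul_smul]
  rw [Finset.sum_congr rfl h1]
  rw [Finset.sum_sigma']
  refine Finset.sum_involution (fun (x : Σ _ : V, V) _ => ⟨x.2, x.1⟩) ?_ ?_ ?_ ?_
  · rintro ⟨v, u⟩ h
    simp only [Finset.mem_sigma, Finset.mem_compl, Finset.mem_erase] at h
    obtain ⟨hv, huv, hu⟩ := h
    simp only
    rw [Finset.insert_comm v u T]
    by_cases hcl : G.IsClique ((insert u (insert v T) : Finset V) : Set V)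
    · have hadj : G.Adj u v := hcl (by simp) (by simp) huv
      rw [dv_comm hadj, ← add_smul]
      have := sg_swap u v T huv hu hv
      have h0 : sg v T * sg u (insert v T) + sg u T * sg v (insert u T) = 0 := by
        rw [mul_comm (sg v T), this]; ring
      rw [h0, zero_smul]
    · rw [hc _ hcl]
      simp
  · rintro ⟨v, u⟩ h _ h3
    simp only [Finset.mem_sigma, Finset.mem_compl, Finset.mem_erase] at h
    simp only [Sigma.mk.injEq, heq_eq_eq] at h3
    exact h.2.1 h3.1
  · rintro ⟨v, u⟩ h
    simp only [Finset.mem_sigma, Finset.mem_compl, Finset.mem_erase] at h ⊢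
    exact ⟨h.2.2, fun e => h.2.1 e.symm, h.1⟩
  · rintro ⟨v, u⟩ _
    rfl

/-- chains on the cliques in `U` -/
def Ch (G : SimpleGraph V) (U : Finset V) (i : ℕ) (c : Finset V → AG G → ℤ) : Prop :=
  (∀ T : Finset V, ¬ (G.IsClique (T : Set V) ∧ T.card = i ∧ T ⊆ U) → c T = 0) ∧
    ∀ T, (Function.support (c T)).Finite

theorem bda_Ch {U : Finset V} {i : ℕ} {c : Finset V → AG G → ℤ} (h : Ch G U (i + 1) c) : Ch G U i (bda G c) := by
  refine ⟨fun T hT => ?_, bda_fin h.2⟩
  rw [bda_eq]
  refine Finset.sum_eq_zero fun v hv => ?_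
  rw [Finset.mem_compl] at hv
  rw [h.1 (insert v T), map_zero, smul_zero]
  rintro ⟨h1, h2, h3⟩
  refine hT ⟨h1.subset (by simp), ?_, (Finset.subset_insert _ _).trans h3⟩
  rw [Finset.card_insert_of_notMem hv] at h2
  omega

theorem Ch_add {U : Finset V} {i : ℕ} {c d : Finset V → AG G → ℤ} (h : Ch G U i c) (h' : Ch G U i d) :
    Ch G U i (c + d) := by
  refine ⟨fun T hT => ?_, fun T => ?_⟩
  · rw [Pi.add_apply, h.1 T hT, h'.1 T hT, add_zero]
  · exact ((h.2 T).union (h'.2 T)).subset (Function.support_add _ _)

theorem Ch_sub {U : Finset V} {i : ℕ} {c d : Finset V → AG G → ℤ} (h : Ch G U i c) (h' : Ch G U i d) :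
    Ch G U i (c - d) := by
  refine ⟨fun T hT => ?_, fun T => ?_⟩
  · rw [Pi.sub_apply, h.1 T hT, h'.1 T hT, sub_zero]
  · exact ((h.2 T).union (h'.2 T)).subset (Function.support_sub _ _)

theorem Ch_mono {U U' : Finset V} (hU : U ⊆ U') {i : ℕ} {c : Finset V → AG G → ℤ} (h : Ch G U i c) : Ch G U' i c :=
  ⟨fun T hT => h.1 T fun h1 => hT ⟨h1.1, h1.2.1, h1.2.2.trans hU⟩, h.2⟩

theorem DD_dv (v : V) (x : AG G →₀ ℤ) : (DD v x : AG G → ℤ) = dv v x := by
  funext g
  rw [DD_apply, dv_apply]

/-- from the subgroup to the chains -/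
theorem of_JJ {U : Finset V} {x : AG G →₀ ℤ} (hx : x ∈ JJ G U) :
    ∃ e, Ch G U 1 e ∧ bda G e = fun T => if T = ∅ then (x : AG G → ℤ) else 0 := by
  classical
  obtain ⟨f, hf⟩ := hx
  refine ⟨fun T => if h : ∃ u ∈ U, T = {u} then f h.choose else 0, ⟨fun T hT => ?_, fun T => ?_⟩, ?_⟩
  · beta_reduce
    rw [dif_neg]
    rintro ⟨u, hu, rfl⟩
    refine hT ⟨by simp, by simp, by simpa using hu⟩
  · beta_reduce
    split_ifs
    · exact (f _).hasFiniteSupport
    · simp
  · funext T
    rw [bda_eq]
    by_cases hT : T = ∅
    · subst hT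
      rw [if_pos rfl, hf, Finsupp.coe_finsetSum, Finset.compl_empty]
      have h1 : ∀ v : V, sg v ∅ • dv v (if h : ∃ u ∈ U, (insert v ∅ : Finset V) = {u} then
          ((f h.choose : AG G →₀ ℤ) : AG G → ℤ) else 0) =
          if v ∈ U then ((DD v (f v) : AG G →₀ ℤ) : AG G → ℤ) else 0 := by
        intro v
        have hs : sg v (∅ : Finset V) = 1 := by simp [sg]
        rw [hs, one_smul]
        split_ifs with h2 h3 h3
        · have h4 := h2.choose_spec.2
          have h5 : v = h2.choose :=
            Finset.singleton_injective ((LawfulSingleton.insert_empty_eq v).symm.trans h4)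
          rw [← h5, DD_dv]
        · exfalso
          obtain ⟨u, hu, h4⟩ := h2
          rw [insert_empty_eq] at h4
          rw [Finset.singleton_injective h4] at h3
          exact h3 hu
        · exfalso
          exact h2 ⟨v, h3, by simp⟩
        · rw [map_zero]
      rw [Finset.sum_congr rfl fun v _ => h1 v, Finset.sum_ite_mem, Finset.univ_inter]
    · rw [if_neg hT]
      refine Finset.sum_eq_zero fun v hv => ?_
      rw [Finset.mem_compl] at hv
      rw [dif_neg, map_zero, smul_zero]
      rintro ⟨u, _, h⟩
      have h1 := congrArg Finset.card h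
      rw [Finset.card_insert_of_notMem hv, Finset.card_singleton] at h1
      have h2 : T.card = 0 := by omega
      exact hT (Finset.card_eq_zero.1 h2)

/-- the part at `v` -/
theorem part {U : Finset V} {v : V} (hv : v ∉ U) {i : ℕ} {c : Finset V → AG G → ℤ} (hc : Ch G (insert v U) (i + 1) c)
    (hb : bda G c = 0) :
    Ch G (lk G U v) i (fun R => if R ⊆ lk G U v then sg v R • c (insert v R) else 0) ∧
      bda G (fun R => if R ⊆ lk G U v then sg v R • c (insert v R) else 0) = 0 := by
  have hvl : v ∉ lk G U v := fun h => hv (mem_lk.1 h).1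
  have hcv : ∀ R : Finset V, v ∉ R → ¬ R ⊆ lk G U v → c (insert v R) = 0 := by
    intro R hvR hR
    refine hc.1 _ ?_
    rintro ⟨h1, _, h3⟩
    refine hR fun r hr => mem_lk.2 ⟨?_, ?_⟩
    · have h4 := h3 (Finset.mem_insert_of_mem hr)
      rw [Finset.mem_insert] at h4
      rcases h4 with rfl | h4
      · exact absurd hr hvR
      · exact h4
    · refine h1 (by simp) (by simp [hr]) ?_
      rintro rfl
      exact hvR hr
  refine ⟨⟨fun T hT => ?_, fun T => ?_⟩, ?_⟩
  · beta_reduce
    split_ifs with h
    · rw [hc.1 (insert v T), smul_zero]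
      rintro ⟨h1, h2, h3⟩
      refine hT ⟨h1.subset (by simp), ?_, h⟩
      rw [Finset.card_insert_of_notMem fun h' => hvl (h h')] at h2
      omega
    · rfl
  · beta_reduce
    split_ifs
    · exact (hc.2 _).subset (Function.support_const_smul_subset _ _)
    · simp
  · funext R
    by_cases hR : R ⊆ lk G U v
    · have hvR : v ∉ R := fun h' => hvl (hR h')
      have h1 := congrFun hb (insert v R)
      rw [bda_eq] at h1
      rw [bda_eq]
      have hcomp : (Rᶜ : Finset V) = insert v (insert v R)ᶜ := by
        ext x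
        simp only [Finset.mem_compl, Finset.mem_insert, not_or]
        constructor
        · intro h
          by_cases hx : x = v
          · exact Or.inl hx
          · exact Or.inr ⟨hx, h⟩
        · rintro (rfl | h)
          · exact hvR
          · exact h.2
      rw [hcomp, Finset.sum_insert (by simp)]
      have h2 : ¬ insert v R ⊆ lk G U v := fun h => hvl (h (Finset.mem_insert_self _ _))
      rw [if_neg h2, map_zero, smul_zero, zero_add]
      have h3 : ∀ w ∈ (insert v R)ᶜ, sg w R • dv w (if insert w R ⊆ lk G U v then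
          sg v (insert w R) • c (insert v (insert w R)) else 0) =
          - (sg v R) • (sg w (insert v R) • dv w (c (insert w (insert v R)))) := by
        intro w hw
        rw [Finset.mem_compl, Finset.mem_insert, not_or] at hw
        have h4 : (if insert w R ⊆ lk G U v then sg v (insert w R) • c (insert v (insert w R)) else 0) =
            sg v (insert w R) • c (insert v (insert w R)) := by
          split_ifs with h5
          · rfl
          · rw [hcv _ _ h5, smul_zero]
            rw [Finset.mem_insert, not_or]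
            exact ⟨fun h => hw.1 h.symm, hvR⟩
        rw [h4, map_zsmul, smul_smul, smul_smul, Finset.insert_comm]
        congr 1
        have h6 := sg_swap w v R hw.1 hw.2 hvR
        linarith
      rw [Finset.sum_congr rfl h3, ← Finset.smul_sum, h1]
      simp
    · rw [bda_eq]
      refine Finset.sum_eq_zero fun w _ => ?_
      rw [if_neg, map_zero, smul_zero]
      exact fun h => hR ((Finset.subset_insert _ _).trans h)

/-- the cone -/
theorem cone {U : Finset V} {v : V} (hv : v ∉ U) {i : ℕ} {e' : Finset V → AG G → ℤ} (he : Ch G (lk G U v) i e') :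
    ∃ e, Ch G (insert v U) (i + 1) e ∧ ∀ R : Finset V, v ∉ R → bda G e (insert v R) = sg v R • bda G e' R := by
  classical
  have hvl : v ∉ lk G U v := fun h => hv (mem_lk.1 h).1
  refine ⟨fun R => if v ∈ R then - sg v (R.erase v) • e' (R.erase v) else 0, ⟨fun T hT => ?_, fun T => ?_⟩, ?_⟩
  · beta_reduce
    split_ifs with h
    · rw [he.1 (T.erase v), smul_zero]
      rintro ⟨h1, h2, h3⟩
      refine hT ⟨?_, ?_, ?_⟩
      · intro a ha b hb hab
        by_cases hav : a = v
        · subst hav
          have : b ∈ T.erase a := Finset.mem_erase.2 ⟨fun h => hab h.symm, hb⟩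
          exact (mem_lk.1 (h3 this)).2
        · by_cases hbv : b = v
          · subst hbv
            have : a ∈ T.erase b := Finset.mem_erase.2 ⟨fun h => hab h, ha⟩
            exact (mem_lk.1 (h3 this)).2.symm
          · exact h1 (Finset.mem_coe.2 (Finset.mem_erase.2 ⟨hav, ha⟩))
              (Finset.mem_coe.2 (Finset.mem_erase.2 ⟨hbv, hb⟩)) hab
      · rw [Finset.card_erase_of_mem h] at h2
        have := Finset.card_pos.2 ⟨v, h⟩
        omega
      · intro t ht
        by_cases htv : t = v
        · rw [htv]
          exact Finset.mem_insert_self _ _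
        · exact Finset.mem_insert_of_mem (mem_lk.1 (h3 (Finset.mem_erase.2 ⟨htv, ht⟩))).1
    · rfl
  · beta_reduce
    split_ifs
    · exact (he.2 _).subset (Function.support_const_smul_subset _ _)
    · simp
  · intro R hvR
    rw [bda_eq, bda_eq]
    have hcomp : (Rᶜ : Finset V) = insert v (insert v R)ᶜ := by
      ext x
      simp only [Finset.mem_compl, Finset.mem_insert, not_or]
      constructor
      · intro h
        by_cases hx : x = v
        · exact Or.inl hx
        · exact Or.inr ⟨hx, h⟩
      · rintro (rfl | h)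
        · exact hvR
        · exact h.2
    rw [hcomp, Finset.sum_insert (by simp)]
    have h2 : e' (insert v R) = 0 := he.1 _ fun h => hvl (h.2.2 (Finset.mem_insert_self _ _))
    rw [h2, map_zero, smul_zero, zero_add, Finset.smul_sum]
    refine Finset.sum_congr rfl fun w hw => ?_
    rw [Finset.mem_compl, Finset.mem_insert, not_or] at hw
    have h3 : (insert w (insert v R)).erase v = insert w R := by
      rw [Finset.insert_comm, Finset.erase_insert]
      rw [Finset.mem_insert, not_or]
      exact ⟨fun h => hw.1 h.symm, hvR⟩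
    rw [if_pos (by simp), h3, map_zsmul, smul_smul, smul_smul]
    congr 1
    have h6 := sg_swap w v R hw.1 hw.2 hvR
    have h7 := sg_mul_self v R
    have h8 := sg_mul_self v (insert w R)
    have h9 : sg w (insert v R) = - (sg v (insert w R) * sg w R) * sg v R := by
      rw [← h6, mul_assoc, h7, mul_one]
    rw [h9]
    linear_combination (sg w R * sg v R) * h8

theorem main (U : Finset V) : ∀ (i : ℕ) (c : Finset V → AG G → ℤ), Ch G U (i + 1) c → bda G c = 0 →
    ∃ e, Ch G U (i + 2) e ∧ bda G e = c := by
  classical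
  induction U using Finset.strongInduction with
  | H U ih =>
    intro i c hc hb
    rcases U.eq_empty_or_nonempty with rfl | ⟨v, hvU⟩
    · refine ⟨0, ⟨fun _ _ => rfl, fun _ => by simp⟩, ?_⟩
      funext T
      rw [hc.1 T, bda_eq]
      · refine Finset.sum_eq_zero fun v _ => ?_
        rw [Pi.zero_apply, map_zero, smul_zero]
      · rintro ⟨_, h2, h3⟩
        rw [Finset.subset_empty.1 h3, Finset.card_empty] at h2
        omega
    · obtain ⟨U', hv, rfl⟩ : ∃ U', v ∉ U' ∧ insert v U' = U := ⟨U.erase v, by simp, Finset.insert_erase hvU⟩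
      have hss : U' ⊂ insert v U' := Finset.ssubset_insert hv
      have hlk : lk G U' v ⊆ U' := fun x hx => (mem_lk.1 hx).1
      have hvl : v ∉ lk G U' v := fun h => hv (mem_lk.1 h).1
      obtain ⟨h1, h2⟩ := part hv hc hb
      have h3 : ∃ e', Ch G (lk G U' v) (i + 1) e' ∧
          bda G e' = (fun R => if R ⊆ lk G U' v then sg v R • c (insert v R) else 0) := by
        rcases i with _ | i
        · -- HNN
          let F : V → AG G →₀ ℤ := fun w => Finsupp.ofSupportFinite (c {w}) (hc.2 _)
          have hF : ∀ w, ((F w : AG G →₀ ℤ) : AG G → ℤ) = c {w} := fun w => rfl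
          have h4 : F v ∈ JJ G (lk G U' v) := by
            apply hnn hv
            refine ⟨fun w => - F w, ?_⟩
            apply DFunLike.coe_injective
            rw [Finsupp.coe_finsetSum]
            have h5 := congrFun hb ∅
            have hs : ∀ w : V, sg w (∅ : Finset V) = 1 := fun w => by simp [sg]
            rw [bda_eq, Finset.compl_empty] at h5
            have h6 : ∀ w : V, sg w ∅ • dv w (c (insert w ∅)) = if w ∈ insert v U' then dv w (c {w}) else 0 := by
              intro w
              rw [hs, one_smul, LawfulSingleton.insert_empty_eq]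
              split_ifs with hw
              · rfl
              · rw [hc.1 {w} fun h => hw (h.2.2 (Finset.mem_singleton_self w)), map_zero]
            rw [Finset.sum_congr rfl fun w _ => h6 w, Finset.sum_ite_mem, Finset.univ_inter, Finset.sum_insert hv] at h5
            rw [DD_dv, hF]
            have h7 : ∀ u ∈ U', ((DD u (- F u) : AG G →₀ ℤ) : AG G → ℤ) = - dv u (c {u}) := by
              intro u _
              rw [map_neg, Finsupp.coe_neg, DD_dv, hF]
            rw [Finset.sum_congr rfl h7, Finset.sum_neg_distrib]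
            exact eq_neg_of_add_eq_zero_left h5
          obtain ⟨e, he1, he2⟩ := of_JJ h4
          refine ⟨e, he1, ?_⟩
          rw [he2]
          funext T
          by_cases hT : T = ∅
          · subst hT
            rw [if_pos rfl, if_pos (by simp), hF]
            simp [sg]
          · rw [if_neg hT]
            symm
            exact h1.1 T fun h => hT (Finset.card_eq_zero.1 h.2.1)
        · exact ih _ (lt_of_le_of_lt hlk hss) i _ h1 h2
      obtain ⟨e', he1, he2⟩ := h3
      obtain ⟨e, he3, he4⟩ := cone hv he1
      have h5 : Ch G U' (i + 1) (c - bda G e) := by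
        have h6 := Ch_sub hc (bda_Ch he3)
        refine ⟨fun T hT => ?_, h6.2⟩
        by_cases hvT : v ∈ T
        · obtain ⟨R, hvR, rfl⟩ : ∃ R, v ∉ R ∧ insert v R = T := ⟨T.erase v, by simp, Finset.insert_erase hvT⟩
          rw [Pi.sub_apply, he4 R hvR, he2]
          beta_reduce
          split_ifs with h7
          · rw [smul_smul, sg_mul_self, one_smul, sub_self]
          · rw [smul_zero, sub_zero]
            refine hc.1 _ ?_
            rintro ⟨h1, _, h3⟩
            refine h7 fun r hr => mem_lk.2 ⟨?_, ?_⟩
            · have h4 := h3 (Finset.mem_insert_of_mem hr)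
              rw [Finset.mem_insert] at h4
              rcases h4 with rfl | h4
              · exact absurd hr hvR
              · exact h4
            · refine h1 (by simp) (by simp [hr]) ?_
              rintro rfl
              exact hvR hr
        · refine h6.1 T ?_
          rintro ⟨h7, h8, h9⟩
          refine hT ⟨h7, h8, fun t ht => ?_⟩
          have := h9 ht
          rw [Finset.mem_insert] at this
          rcases this with rfl | h
          · exact absurd ht hvT
          · exact h
      have h6 : bda G (c - bda G e) = 0 := by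
        rw [bda_sub, hb, bda_bda e fun T hT => he3.1 T fun h => hT h.1, sub_zero]
      obtain ⟨e2, he5, he6⟩ := ih U' hss i _ h5 h6
      refine ⟨e2 + e, Ch_add (Ch_mono (Finset.subset_insert _ _) he5) he3, ?_⟩
      rw [bda_add, he6, sub_add_cancel]

theorem top_mem (h : AG G) : h ∈ Sb G Finset.univ := by
  unfold Sb
  rw [Finset.coe_univ, Set.image_univ]
  have : Subgroup.closure (Set.range (PresentedGroup.of (rels := ragRel G))) = ⊤ :=
    PresentedGroup.closure_range_of (ragRel G)
  show h ∈ Subgroup.closure (Set.range (PresentedGroup.of (rels := ragRel G)))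
  rw [this]
  exact Subgroup.mem_top _

/-- the functions with sum zero -/
theorem aug (x : AG G →₀ ℤ) (h : x.sum (fun _ a => a) = 0) : x ∈ JJ G Finset.univ := by
  have key : ∀ y : AG G →₀ ℤ, y - Finsupp.single 1 (y.sum (fun _ a => a)) ∈ JJ G Finset.univ := by
    intro y
    induction y using Finsupp.induction_linear with
    | zero => simp
    | add f g hf hg =>
      have h1 := (JJ G Finset.univ).add_mem hf hg
      rw [Finsupp.sum_add_index' (fun _ => rfl) (fun _ _ _ => rfl), Finsupp.single_add]
      convert h1 using 1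
      abel
    | single g a =>
      rw [Finsupp.sum_single_index rfl]
      have h1 := (JJ G Finset.univ).neg_mem ((JJ G Finset.univ).zsmul_mem (single_mem (top_mem g) 1) a)
      rw [one_mul, smul_sub, Finsupp.smul_single, Finsupp.smul_single, smul_eq_mul, mul_one, neg_sub] at h1
      exact h1
  have := key x
  rwa [h, Finsupp.single_zero, sub_zero] at this

end ind

/-- **SALV** -/
theorem salv : S_SALV := by
  intro V _ _ G i c hc hb haug
  rcases i with _ | i
  · have h0 := haug rfl
    let x : AG G →₀ ℤ := Finsupp.ofSupportFinite (c ∅) (hc.mem _)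
    have hx : x.sum (fun _ a => a) = 0 := by
      rw [← h0]
      exact (finsum_eq_sum_of_support_subset _ (by
        intro g hg
        rw [Finset.mem_coe, Finsupp.mem_support_iff]
        exact hg)).symm
    obtain ⟨e, he1, he2⟩ := of_JJ (aug x hx)
    refine ⟨e, ⟨fun T hT => he1.1 T fun h => hT ⟨h.1, h.2.1⟩, he1.2⟩, ?_⟩
    rw [he2]
    funext T
    by_cases hT : T = ∅
    · subst hT
      rw [if_pos rfl]
      rfl
    · rw [if_neg hT]
      symm
      exact hc.supp T fun h => hT (Finset.card_eq_zero.1 h.2)
  · obtain ⟨e, he1, he2⟩ := main Finset.univ i c ⟨fun T hT => hc.supp T fun h => hT ⟨h.1, h.2, Finset.subset_univ _⟩,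
      hc.mem⟩ hb
    exact ⟨e, ⟨fun T hT => he1.1 T fun h => hT ⟨h.1, h.2.1⟩, he1.2⟩, he2⟩

end Pool.Agent.H56T.SALV

/-- **SALV**, in the namespace of the project -/
theorem Pool.Agent.H56T.salv : Pool.Agent.H56T.S_SALV := Pool.Agent.H56T.SALV.salv
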