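import Pool.Agent.H56T.Stm3

/-!
# Project TW, piece ALG: exactness from coprime operators
-/

set_option autoImplicit false
set_option linter.unusedSectionVars false

namespace Pool.Agent.H56T.ALG

open Finset Pool.Agent.W907.SG

section Pi

variable {V : Type} [Fintype V] [LinearOrder V] {G : SimpleGraph V} {X : Type} [AddCommGroup X] [Module ℚ X]

/-- the product of the operators -/
noncomputable def pr (P : V → Module.End ℚ X) (T : Finset V) : Module.End ℚ X := (T.toList.map P).prod

theorem pr_eq {P : V → Module.End ℚ X} {R T : Finset V} {A : Type} [CommRing A] {φ : A →+* Module.End ℚ X}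
    {p : V → A} (h : ∀ v ∈ R, φ (p v) = P v) (hT : T ⊆ R) : pr P T = φ (∏ v ∈ T, p v) := by
  unfold pr
  rw [← Finset.prod_map_toList, map_list_prod, List.map_map]
  congr 1
  refine List.map_congr_left fun v hv => ?_
  rw [Finset.mem_toList] at hv
  exact (h v (hT hv)).symm

theorem pr_insert {D : Set V} {P : V → Module.End ℚ X} (hC : Cop G D P) {T : Finset V} {v : V} (hv : v ∉ T)
    (hT : G.IsClique ((insert v T : Finset V) : Set V)) (x : X) :
    pr P (insert v T) x = pr P T (P v x) ∧ pr P (insert v T) x = P v (pr P T x) := by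
  obtain ⟨A, _, φ, p, h1, -⟩ := hC _ hT
  rw [pr_eq h1 (Finset.Subset.refl _), pr_eq h1 (Finset.subset_insert v T), ← h1 v (Finset.mem_insert_self v T),
    Finset.prod_insert hv]
  constructor
  · rw [mul_comm, map_mul]
    rfl
  · rw [map_mul]
    rfl

theorem pr_inj {P : V → Module.End ℚ X} (hi : ∀ v, Function.Injective (P v)) (T : Finset V) :
    Function.Injective (pr P T) := by
  unfold pr
  induction T.toList with
  | nil => exact fun x y h => h
  | cons a l ih =>
    rw [List.map_cons, List.prod_cons]
    exact (hi a).comp ih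

theorem pr_surj {P : V → Module.End ℚ X} {T : Finset V} (hi : ∀ v ∈ T, Function.Surjective (P v)) :
    Function.Surjective (pr P T) := by
  unfold pr
  have : ∀ v ∈ T.toList, Function.Surjective (P v) := fun v hv => hi v (Finset.mem_toList.1 hv)
  revert this
  induction T.toList with
  | nil => exact fun _ x => ⟨x, rfl⟩
  | cons a l ih =>
    intro this
    rw [List.map_cons, List.prod_cons]
    exact (this a List.mem_cons_self).comp (ih fun v hv => this v (List.mem_cons_of_mem _ hv))

/-- intersection of the ranges -/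
theorem range_prod {A : Type} [CommRing A] {φ : A →+* Module.End ℚ X} {p : V → A} (Q : Finset V)
    (h : ∀ v ∈ Q, ∀ w ∈ Q, v ≠ w → IsCoprime (p v) (p w)) (x : X) (hx : ∀ v ∈ Q, ∃ y, φ (p v) y = x) :
    ∃ y, φ (∏ v ∈ Q, p v) y = x := by
  classical
  induction Q using Finset.induction_on with
  | empty => exact ⟨x, by simp⟩
  | insert v Q hv ih =>
    obtain ⟨y1, hy1⟩ := ih (fun a ha b hb => h a (mem_insert_of_mem ha) b (mem_insert_of_mem hb))
      fun a ha => hx a (mem_insert_of_mem ha)
    obtain ⟨y2, hy2⟩ := hx v (mem_insert_self _ _)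
    have hc : IsCoprime (p v) (∏ v ∈ Q, p v) := by
      refine IsCoprime.prod_right fun w hw => h v (mem_insert_self _ _) w (mem_insert_of_mem hw) ?_
      rintro rfl
      exact hv hw
    obtain ⟨α, β, hab⟩ := hc
    refine ⟨φ α y1 + φ β y2, ?_⟩
    rw [prod_insert hv]
    set M := ∏ v ∈ Q, p v
    have e1 : φ (p v * M) (φ α y1) = φ (α * p v) x := by
      rw [← hy1, ← Module.End.mul_apply, ← Module.End.mul_apply, ← map_mul, ← map_mul]
      congr 2
      ring
    have e2 : φ (p v * M) (φ β y2) = φ (β * M) x := by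
      rw [← hy2, ← Module.End.mul_apply, ← Module.End.mul_apply, ← map_mul, ← map_mul]
      congr 2
      ring
    rw [map_add, e1, e2, ← LinearMap.add_apply, ← map_add, hab, map_one, Module.End.one_apply]

/-- Chinese remainder theorem -/
theorem crt {A : Type} [CommRing A] {φ : A →+* Module.End ℚ X} {p : V → A} (Q : Finset V)
    (h : ∀ v ∈ Q, ∀ w ∈ Q, v ≠ w → IsCoprime (p v) (p w)) (t : V → X) :
    ∃ x, ∀ v ∈ Q, ∃ y, φ (p v) y = x - t v := by
  classical
  have h1 : ∀ v ∈ Q, ∃ β : A, (∃ α, α * p v + β * ∏ w ∈ Q.erase v, p w = 1) := by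
    intro v hv
    have hc : IsCoprime (p v) (∏ w ∈ Q.erase v, p w) := by
      refine IsCoprime.prod_right fun w hw => h v hv w (mem_of_mem_erase hw) (ne_of_mem_erase hw).symm
    obtain ⟨α, β, hab⟩ := hc
    exact ⟨β, α, hab⟩
  choose! β hβ using h1
  refine ⟨∑ v ∈ Q, φ (β v * ∏ w ∈ Q.erase v, p w) (t v), fun v hv => ?_⟩
  obtain ⟨α, hα⟩ := hβ v hv
  have key : ∀ w ∈ Q.erase v, ∃ y, φ (p v) y = φ (β w * ∏ u ∈ Q.erase w, p u) (t w) := by
    intro w hw
    have hv' : v ∈ Q.erase w := mem_erase.2 ⟨(ne_of_mem_erase hw).symm, hv⟩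
    rw [← mul_prod_erase _ _ hv']
    refine ⟨φ (β w * ∏ u ∈ (Q.erase w).erase v, p u) (t w), ?_⟩
    rw [← Module.End.mul_apply, ← map_mul]
    congr 2
    ring
  choose! y hy using key
  refine ⟨∑ w ∈ Q.erase v, y w - φ α (t v), ?_⟩
  rw [← add_sum_erase _ _ hv, map_sub, map_sum, sum_congr rfl hy]
  have e1 : φ (p v) (φ α (t v)) = φ (α * p v) (t v) := by
    rw [← Module.End.mul_apply, ← map_mul, mul_comm]
  have e2 : φ (β v * ∏ w ∈ Q.erase v, p w) (t v) = t v - φ (α * p v) (t v) := by
    rw [eq_sub_iff_add_eq, ← LinearMap.add_apply, ← map_add, add_comm, hα, map_one, Module.End.one_apply]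
  rw [e1, e2]
  abel

end Pi

/-- exactness over rational vector spaces -/
theorem rex_mod {V : Type} [Fintype V] [LinearOrder V] {G : SimpleGraph V} {E : Type} [AddCommGroup E] [Module ℚ E]
    {i : ℕ} (hE : Rex G i) (x : Finset V → E) (hx : Chn G i x)
    (hb : ∀ T, sb x T = 0) : ∃ y : Finset V → E, Chn G (i + 1) y ∧ ∀ T, sb y T = x T := by
  classical
  let B := Module.Basis.ofVectorSpace ℚ E
  have hex : ∀ j, ∃ y : Finset V → ℚ, Chn G (i + 1) y ∧ ∀ T, sb y T = B.repr (x T) j := by
    intro j
    refine hE (fun T => B.repr (x T) j) ?_ ?_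
    · intro T hT
      beta_reduce
      rw [hx T hT]
      simp
    · intro T
      have h1 := sb_map ((Finsupp.applyAddHom j).comp (B.repr.toLinearMap.toAddMonoidHom)) x T
      rw [hb T, map_zero] at h1
      exact h1
  choose Y hY1 hY2 using hex
  let J := (univ : Finset (Finset V)).biUnion fun T => (B.repr (x T)).support
  refine ⟨fun T => ∑ j ∈ J, Y j T • B j, ?_, ?_⟩
  · intro T hT
    refine sum_eq_zero fun j _ => ?_
    rw [hY1 j T hT, zero_smul]
  · intro T
    unfold sb
    rw [sum_congr rfl fun v _ => smul_sum, sum_comm]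
    have h1 : ∀ j ∈ J, ∑ v ∈ Tᶜ, sg v T • Y j (insert v T) • B j = B.repr (x T) j • B j := by
      intro j _
      rw [← hY2 j T]
      unfold sb
      rw [sum_smul]
      exact sum_congr rfl fun v _ => (smul_assoc _ _ _).symm
    rw [sum_congr rfl h1]
    conv_rhs => rw [← B.linearCombination_repr (x T), Finsupp.linearCombination_apply, Finsupp.sum]
    symm
    refine sum_subset ?_ ?_
    · intro j hj
      exact mem_biUnion.2 ⟨T, mem_univ _, hj⟩
    · intro j _ hj
      rw [Finsupp.notMem_support_iff.1 hj, zero_smul]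

section main

variable {V : Type} [Fintype V] [LinearOrder V] {G : SimpleGraph V} {X : Type} [AddCommGroup X]

/-- the `v`-part of a chain -/
noncomputable def part (v : V) (b : Finset V → X) (S : Finset V) : X := if v ∈ S then 0 else sg v S • b (insert v S)

theorem sb_part (v : V) (b : Finset V → X) (S : Finset V) (hS : v ∉ S) :
    sb (part v b) S = - (sg v S • sb b (insert v S)) := by
  classical
  unfold sb
  have h1 : v ∈ Sᶜ := by simpa using hS
  rw [← add_sum_erase _ _ h1]
  have h2 : (insert v S)ᶜ = Sᶜ.erase v := by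
    ext u
    simp
  have h3 : part v b (insert v S) = 0 := by
    unfold part
    rw [if_pos (mem_insert_self v S)]
  rw [h3, smul_zero, zero_add, h2, smul_sum, ← sum_neg_distrib]
  refine sum_congr rfl fun w hw => ?_
  rw [mem_erase, mem_compl] at hw
  unfold part
  rw [if_neg (by rw [mem_insert]; exact fun h => h.elim (fun h => hw.1 h.symm) hS), smul_smul, smul_smul, ← neg_smul,
    insert_comm]
  congr 1
  have := sg_swap w v S hw.1 hw.2 hS
  rw [mul_comm (sg v S), this]
  ring

theorem sb_part' (v : V) (b : Finset V → X) (S : Finset V) (hS : v ∈ S) : sb (part v b) S = 0 := by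
  unfold sb
  refine sum_eq_zero fun w _ => ?_
  unfold part
  rw [if_pos (mem_insert_of_mem hS), smul_zero]

theorem t_alg (hL : S_LNKT) : S_ALG := by
  classical
  intro V _ _ G D _ X _ _ P i hC hinj hsurj hR hRD z hz hcyc
  -- the chain `a`
  set a : Finset V → X := fun T => pr P T (z T) with ha
  have haC : Chn G i a := by
    intro T hT
    rw [ha]
    beta_reduce
    rw [hz T hT, map_zero]
  have hab : ∀ T, sb a T = 0 := by
    intro T
    have h1 : sb a T = pr P T (∑ v ∈ Tᶜ, sg v T • P v (z (insert v T))) := by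
      unfold sb
      rw [map_sum]
      refine sum_congr rfl fun v hv => ?_
      rw [mem_compl] at hv
      rw [map_zsmul]
      congr 1
      rw [ha]
      beta_reduce
      by_cases h2 : G.IsClique ((insert v T : Finset V) : Set V)
      · exact (pr_insert hC hv h2 _).1
      · rw [hz (insert v T) (fun h => h2 h.1), map_zero, map_zero, map_zero]
    rw [h1, hcyc, map_zero]
  obtain ⟨b, hb1, hb2⟩ := rex_mod hR a haC hab
  -- the links
  have hlink : ∀ v ∈ D, ∃ e : Finset V → X ⧸ LinearMap.range (P v), Chn G (i + 1) e ∧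
      (∀ T : Finset V, ¬ (T : Set V) ⊆ G.neighborSet v → e T = 0) ∧
      ∀ T, sb e T = part v (fun S => (LinearMap.range (P v)).mkQ (b S)) T := by
    intro v hv
    set q := (LinearMap.range (P v)).mkQ with hq
    refine hL V G (G.neighborSet v) i (hRD v hv) _ (part v (fun S => q (b S))) ?_ ?_ ?_
    · intro T hT
      unfold part
      split_ifs with h1
      · rfl
      · beta_reduce
        rw [hb1 (insert v T), map_zero, smul_zero]
        rintro ⟨h2, h3⟩
        refine hT ⟨h2.subset (by simp), ?_⟩
        rw [card_insert_of_notMem h1] at h3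
        omega
    · intro T hT
      unfold part
      split_ifs with h1
      · rfl
      · beta_reduce
        rw [hb1 (insert v T), map_zero, smul_zero]
        rintro ⟨h2, h3⟩
        refine hT fun w hw => ?_
        exact h2 (by simp) (by simp [mem_coe.1 hw]) fun h => h1 (h ▸ mem_coe.1 hw)
    · intro T
      by_cases h1 : v ∈ T
      · exact sb_part' v _ T h1
      · rw [sb_part v _ T h1]
        have h2 : sb (fun S => q (b S)) (insert v T) = q (a (insert v T)) := by
          rw [← hb2]
          exact sb_map q.toAddMonoidHom b (insert v T)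
        rw [h2]
        have h3 : q (a (insert v T)) = 0 := by
          rw [ha]
          beta_reduce
          by_cases h4 : G.IsClique ((insert v T : Finset V) : Set V)
          · rw [(pr_insert hC h1 h4 _).2, hq, Submodule.mkQ_apply, Submodule.Quotient.mk_eq_zero]
            exact LinearMap.mem_range_self _ _
          · rw [hz (insert v T) (fun h => h4 h.1), map_zero, map_zero]
        rw [h3, smul_zero, neg_zero]
  choose! e he1 he2 he3 using hlink
  -- lifts
  have hlift : ∀ v (x : X ⧸ LinearMap.range (P v)), ∃ y, (LinearMap.range (P v)).mkQ y = x :=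
    fun v x => Submodule.mkQ_surjective _ x
  choose l hl using hlift
  have hcrt : ∀ R : Finset V, G.IsClique (R : Set V) → ∃ x : X, ∀ v ∈ R, v ∈ D →
      (LinearMap.range (P v)).mkQ x = - (sg v (R.erase v) • e v (R.erase v)) := by
    intro R hRc
    obtain ⟨A, _, φ, p, h1, h2⟩ := hC R hRc
    obtain ⟨x, hx⟩ := crt (φ := φ) (p := p) (R.filter (· ∈ D)) (by
      intro v hv w hw hvw
      rw [mem_filter] at hv hw
      exact h2 v hv.1 w hw.1 hvw hv.2 hw.2) fun v => l v (- (sg v (R.erase v) • e v (R.erase v)))
    refine ⟨x, fun v hv hvD => ?_⟩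
    obtain ⟨y, hy⟩ := hx v (mem_filter.2 ⟨hv, hvD⟩)
    rw [← hl v (- (sg v (R.erase v) • e v (R.erase v))), ← sub_eq_zero, ← map_sub, ← hy, h1 v hv,
      Submodule.mkQ_apply, Submodule.Quotient.mk_eq_zero]
    exact LinearMap.mem_range_self _ _
  choose! ê hê using hcrt
  set E : Finset V → X := fun R => if G.IsClique (R : Set V) ∧ R.card = i + 1 + 1 then ê R else 0 with hE
  have hEC : Chn G (i + 1 + 1) E := fun R hR => if_neg hR
  have hEv : ∀ v ∈ D, ∀ S, part v (fun S => (LinearMap.range (P v)).mkQ (E S)) S = - e v S := by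
    intro v hv S
    unfold part
    split_ifs with h1
    · rw [he2 v hv S, neg_zero]
      intro h
      exact G.loopless.irrefl v (h (mem_coe.2 h1))
    · rw [hE]
      beta_reduce
      split_ifs with h2
      · rw [hê (insert v S) h2.1 v (mem_insert_self v S) hv, erase_insert h1, smul_neg, smul_smul, sg_mul_self, one_smul]
      · rw [map_zero, smul_zero]
        by_cases h3 : G.IsClique (S : Set V) ∧ S.card = i + 1
        · rw [he2 v hv S, neg_zero]
          intro h4
          refine h2 ⟨?_, ?_⟩
          · rw [coe_insert, SimpleGraph.isClique_insert]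
            exact ⟨h3.1, fun w hw _ => h4 hw⟩
          · rw [card_insert_of_notMem h1, h3.2]
        · rw [he1 v hv S h3, neg_zero]
  -- the corrected chain
  set b' : Finset V → X := fun S => b S - sb E S with hb'
  have hb'C : Chn G (i + 1) b' := by
    intro S hS
    rw [hb']
    beta_reduce
    rw [hb1 S hS, sb_chn hEC S hS, sub_zero]
  have hb'b : ∀ T, sb b' T = a T := by
    intro T
    rw [hb', sb_sub b (sb E), sb_sb, sub_zero, hb2]
  have hdiv : ∀ S, ∀ v ∈ S, v ∈ D → ∃ y, P v y = b' S := by
    intro S v hvS hvD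
    have h1 : v ∉ S.erase v := notMem_erase v S
    have h2 : (LinearMap.range (P v)).mkQ (b' S) = 0 := by
      have h3 : part v (fun S => (LinearMap.range (P v)).mkQ (b S)) (S.erase v) =
          sg v (S.erase v) • (LinearMap.range (P v)).mkQ (b S) := by
        unfold part
        rw [if_neg h1, insert_erase hvS]
      have h4 := he3 v hvD (S.erase v)
      rw [h3] at h4
      have h5 : sb (part v (fun S => (LinearMap.range (P v)).mkQ (E S))) (S.erase v) = - sb (e v) (S.erase v) := by
        have h6 : part v (fun S => (LinearMap.range (P v)).mkQ (E S)) = fun S => (negAddMonoidHom : _ →+ _) (e v S) :=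
          funext fun S => hEv v hvD S
        rw [h6, sb_map]
        rfl
      rw [sb_part v _ _ h1, insert_erase hvS, neg_inj] at h5
      have h7 : sb (fun S => (LinearMap.range (P v)).mkQ (E S)) S = (LinearMap.range (P v)).mkQ (sb E S) :=
        sb_map (LinearMap.range (P v)).mkQ.toAddMonoidHom E S
      rw [h7, h4] at h5
      rw [hb']
      beta_reduce
      rw [map_sub, sub_eq_zero]
      have h8 := congrArg (fun x => sg v (S.erase v) • x) h5
      simp only [smul_smul, sg_mul_self, one_smul] at h8
      exact h8.symm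
    rw [Submodule.mkQ_apply, Submodule.Quotient.mk_eq_zero] at h2
    exact h2
  have hy : ∀ S : Finset V, G.IsClique (S : Set V) → ∃ y, pr P S y = b' S := by
    intro S hS
    obtain ⟨A, _, φ, p, h1, h2⟩ := hC S hS
    obtain ⟨y1, hy1⟩ := range_prod (φ := φ) (p := p) (S.filter (· ∈ D)) (by
      intro v hv w hw hvw
      rw [mem_filter] at hv hw
      exact h2 v hv.1 w hw.1 hvw hv.2 hw.2) (b' S) (by
      intro v hv
      rw [mem_filter] at hv
      rw [h1 v hv.1]
      exact hdiv S v hv.1 hv.2)
    obtain ⟨y2, hy2⟩ := pr_surj (P := P) (T := S.filter (· ∉ D)) (fun v hv => hsurj v (mem_filter.1 hv).2) y1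
    refine ⟨y2, ?_⟩
    rw [← hy1, ← hy2, pr_eq h1 (Finset.Subset.refl _), pr_eq h1 (filter_subset _ _), ← Module.End.mul_apply, ← map_mul,
      prod_filter_mul_prod_filter_not]
  choose! y hy using hy
  refine ⟨fun S => if G.IsClique (S : Set V) ∧ S.card = i + 1 then y S else 0, fun S hS => if_neg hS, fun T => ?_⟩
  by_cases hT : G.IsClique (T : Set V) ∧ T.card = i
  · apply pr_inj hinj T
    rw [map_sum]
    have h1 : pr P T (z T) = a T := rfl
    rw [h1, ← hb'b]
    unfold sb
    refine sum_congr rfl fun v hv => ?_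
    rw [mem_compl] at hv
    rw [map_zsmul]
    congr 1
    beta_reduce
    split_ifs with h2
    · rw [← (pr_insert hC hv h2.1 _).1, hy _ h2.1]
    · rw [map_zero, map_zero, hb'C _ h2]
  · rw [hz T hT]
    refine sum_eq_zero fun v hv => ?_
    rw [mem_compl] at hv
    beta_reduce
    rw [if_neg, map_zero, smul_zero]
    rintro ⟨h2, h3⟩
    refine hT ⟨h2.subset (by simp), ?_⟩
    rw [card_insert_of_notMem hv] at h3
    omega

end main

end Pool.Agent.H56T.ALG
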