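import Pool.Agent.H56T.Stm2

/-!
# Piece AW: the Davis complex of `W (dbl G)` and the universal cover of the Salvetti complex of `AG G`

`W D` acts on the set `AG G × (V → ℤˣ)` (from the right) by `(a, ε) s_x = (a * v^(± 1), ε')`, where `x = (v, b)`, the
sign is `(-1)^b * ε v` and `ε'` is `ε` with the sign of `v` changed. `Phi w = (1, 1) w`. This gives a bijection from
`W D` to `AG G`.
-/

set_option autoImplicit false
set_option linter.all false

namespace Pool.Agent.H56T.AW

open Pool.Agent.W907.SG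

/-! ### Signs -/

def sb (b : Bool) : ℤˣ := if b = true then -1 else 1

def bs (u : ℤˣ) : Bool := decide (u = -1)

theorem sb_bs (u : ℤˣ) : sb (bs u) = u := by
  rcases Int.units_eq_one_or u with rfl | rfl <;> rfl

theorem bs_sb (b : Bool) : bs (sb b) = b := by
  cases b <;> rfl

theorem usq (u : ℤˣ) : u * u = 1 := by
  rcases Int.units_eq_one_or u with rfl | rfl <;> rfl

section Fl

variable {V : Type} [LinearOrder V]

/-- change the sign at `v` -/
def fl (v : V) (ε : V → ℤˣ) : V → ℤˣ := fun u => if u = v then -ε u else ε u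

theorem fl_self (v : V) (ε : V → ℤˣ) : fl v ε v = -ε v := if_pos rfl

theorem fl_ne {v u : V} (h : u ≠ v) (ε : V → ℤˣ) : fl v ε u = ε u := if_neg h

theorem fl_fl (v : V) (ε : V → ℤˣ) : fl v (fl v ε) = ε := by
  funext u
  by_cases h : u = v
  · subst h
    rw [fl_self, fl_self, neg_neg]
  · rw [fl_ne h, fl_ne h]

theorem fl_comm (u v : V) (ε : V → ℤˣ) : fl u (fl v ε) = fl v (fl u ε) := by
  funext w
  unfold fl
  split_ifs <;> rfl

end Fl

section Main

variable {V : Type} [Fintype V] [LinearOrder V] {G : SimpleGraph V}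
variable {U : Type} [Fintype U] [LinearOrder U] {D : SimpleGraph U} {e : U ≃ V × Bool}

/-- the sign of `x` for `ε` -/
def sv (e : U ≃ V × Bool) (ε : V → ℤˣ) (x : U) : ℤˣ := sb (e x).2 * ε (e x).1

theorem sv_fl_self (ε : V → ℤˣ) (x : U) : sv e (fl (e x).1 ε) x = - sv e ε x := by
  unfold sv
  rw [fl_self, mul_neg]

theorem sv_fl_ne (ε : V → ℤˣ) {x : U} {v : V} (h : (e x).1 ≠ v) : sv e (fl v ε) x = sv e ε x := by
  unfold sv
  rw [fl_ne h]

/-- the action on pairs -/
noncomputable def ac (G : SimpleGraph V) (e : U ≃ V × Bool) (x : U) (p : AG G × (V → ℤˣ)) : AG G × (V → ℤˣ) :=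
  (p.1 * agen G (e x).1 ^ ((sv e p.2 x : ℤˣ) : ℤ), fl (e x).1 p.2)

theorem ac_ac (x : U) (p : AG G × (V → ℤˣ)) : ac G e x (ac G e x p) = p := by
  unfold ac
  refine Prod.ext ?_ (fl_fl _ _)
  show p.1 * agen G (e x).1 ^ ((sv e p.2 x : ℤˣ) : ℤ) *
    agen G (e x).1 ^ ((sv e (fl (e x).1 p.2) x : ℤˣ) : ℤ) = p.1
  rw [sv_fl_self, Units.val_neg, zpow_neg, mul_inv_cancel_right]

theorem ac_comm {x y : U} (h : G.Adj (e x).1 (e y).1) (p : AG G × (V → ℤˣ)) :
    ac G e x (ac G e y p) = ac G e y (ac G e x p) := by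
  have h1 : (e x).1 ≠ (e y).1 := h.ne
  unfold ac
  refine Prod.ext ?_ (fl_comm _ _ _)
  show p.1 * agen G (e y).1 ^ ((sv e p.2 y : ℤˣ) : ℤ) *
    agen G (e x).1 ^ ((sv e (fl (e y).1 p.2) x : ℤˣ) : ℤ) =
    p.1 * agen G (e x).1 ^ ((sv e p.2 x : ℤˣ) : ℤ) *
    agen G (e y).1 ^ ((sv e (fl (e x).1 p.2) y : ℤˣ) : ℤ)
  rw [sv_fl_ne _ h1, sv_fl_ne _ h1.symm, mul_assoc, mul_assoc]
  congr 1
  exact ((agen_comm h).zpow_zpow _ _).symm

noncomputable def acP (G : SimpleGraph V) (e : U ≃ V × Bool) (x : U) : Equiv.Perm (AG G × (V → ℤˣ)) :=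
  ⟨ac G e x, ac G e x, ac_ac x, ac_ac x⟩

theorem acP_apply (x : U) (p : AG G × (V → ℤˣ)) : acP G e x p = ac G e x p := rfl

theorem cox_adj {u v : U} (h : D.Adj u v) : (cox D) u v = 2 := by
  show (cox D).M u v = 2
  unfold cox
  simp [h.ne, h]

theorem cox_nadj {u v : U} (h1 : u ≠ v) (h : ¬ D.Adj u v) : (cox D) u v = 0 := by
  show (cox D).M u v = 0
  unfold cox
  simp [h1, h]

theorem liftable (hD : ∀ x y, D.Adj x y → G.Adj (e x).1 (e y).1) : (cox D).IsLiftable (acP G e) := by
  intro x y
  by_cases h1 : x = y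
  · subst h1
    have : acP G e x * acP G e x = 1 := Equiv.ext fun p => ac_ac x p
    rw [this, one_pow]
  · by_cases h2 : D.Adj x y
    · rw [cox_adj h2, pow_two]
      refine Equiv.ext fun p => ?_
      show ac G e x (ac G e y (ac G e x (ac G e y p))) = p
      rw [ac_comm (hD _ _ h2) p, ac_ac y, ac_ac x]
    · rw [cox_nadj h1 h2, pow_zero]

noncomputable def rho (hD : ∀ x y, D.Adj x y → G.Adj (e x).1 (e y).1) :
    W D →* Equiv.Perm (AG G × (V → ℤˣ)) :=
  (cox D).toCoxeterSystem.lift ⟨acP G e, liftable hD⟩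

theorem rho_simple (hD : ∀ x y, D.Adj x y → G.Adj (e x).1 (e y).1) (x : U) :
    rho hD ((cox D).simple x) = acP G e x := by
  have h := (cox D).toCoxeterSystem.lift_apply_simple (liftable (G := G) (e := e) hD) x
  rw [CoxeterMatrix.toCoxeterSystem_simple] at h
  exact h

theorem simple_sq (x : U) : (cox D).simple x * (cox D).simple x = 1 := by
  have h := (cox D).toCoxeterSystem.simple_mul_simple_self x
  rwa [CoxeterMatrix.toCoxeterSystem_simple] at h

theorem simple_inv (x : U) : ((cox D).simple x)⁻¹ = (cox D).simple x :=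
  inv_eq_of_mul_eq_one_left (simple_sq x)

theorem simple_comm {x y : U} (h : D.Adj x y) : Commute ((cox D).simple x) ((cox D).simple y) := by
  have h1 := (cox D).toCoxeterSystem.simple_mul_simple_pow x y
  rw [CoxeterMatrix.toCoxeterSystem_simple] at h1
  rw [cox_adj h, pow_two] at h1
  have h2 : (cox D).simple x * (cox D).simple y = ((cox D).simple x * (cox D).simple y)⁻¹ :=
    eq_inv_of_mul_eq_one_left h1
  rw [mul_inv_rev, simple_inv, simple_inv] at h2
  exact h2

/-- the map from `W D` -/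
noncomputable def Phi (hD : ∀ x y, D.Adj x y → G.Adj (e x).1 (e y).1) (w : W D) : AG G × (V → ℤˣ) :=
  rho hD w⁻¹ (1, 1)

theorem Phi_one (hD : ∀ x y, D.Adj x y → G.Adj (e x).1 (e y).1) : Phi hD (1 : W D) = (1, 1) := by
  unfold Phi
  rw [inv_one, map_one]
  rfl

theorem Phi_simple (hD : ∀ x y, D.Adj x y → G.Adj (e x).1 (e y).1) (w : W D) (x : U) :
    Phi hD (w * (cox D).simple x) = ac G e x (Phi hD w) := by
  unfold Phi
  rw [mul_inv_rev, simple_inv, map_mul, rho_simple]
  rfl

/-! ### The inverse -/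

/-- the action of the generator `v` of the Artin group -/
noncomputable def bc (D : SimpleGraph U) (e : U ≃ V × Bool) (v : V) (p : W D × (V → ℤˣ)) : W D × (V → ℤˣ) :=
  (p.1 * (cox D).simple (e.symm (v, bs (p.2 v))), fl v p.2)

/-- its inverse -/
noncomputable def bd' (D : SimpleGraph U) (e : U ≃ V × Bool) (v : V) (p : W D × (V → ℤˣ)) : W D × (V → ℤˣ) :=
  (p.1 * (cox D).simple (e.symm (v, bs (- p.2 v))), fl v p.2)

theorem bc_bd (v : V) (p : W D × (V → ℤˣ)) : bc D e v (bd' D e v p) = p := by
  unfold bc bd'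
  refine Prod.ext ?_ (fl_fl _ _)
  show p.1 * (cox D).simple (e.symm (v, bs (- p.2 v))) *
    (cox D).simple (e.symm (v, bs (fl v p.2 v))) = p.1
  rw [fl_self, mul_assoc, simple_sq, mul_one]

theorem bd_bc (v : V) (p : W D × (V → ℤˣ)) : bd' D e v (bc D e v p) = p := by
  unfold bc bd'
  refine Prod.ext ?_ (fl_fl _ _)
  show p.1 * (cox D).simple (e.symm (v, bs (p.2 v))) *
    (cox D).simple (e.symm (v, bs (- fl v p.2 v))) = p.1
  rw [fl_self, neg_neg, mul_assoc, simple_sq, mul_one]

theorem bc_comm (hD : ∀ x y, G.Adj (e x).1 (e y).1 → D.Adj x y) {u v : V} (h : G.Adj u v)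
    (p : W D × (V → ℤˣ)) : bc D e u (bc D e v p) = bc D e v (bc D e u p) := by
  unfold bc
  refine Prod.ext ?_ (fl_comm _ _ _)
  show p.1 * (cox D).simple (e.symm (v, bs (p.2 v))) * (cox D).simple (e.symm (u, bs (fl v p.2 u))) =
    p.1 * (cox D).simple (e.symm (u, bs (p.2 u))) * (cox D).simple (e.symm (v, bs (fl u p.2 v)))
  rw [fl_ne h.ne, fl_ne h.ne.symm, mul_assoc, mul_assoc]
  congr 1
  refine simple_comm (hD _ _ ?_)
  rw [Equiv.apply_symm_apply, Equiv.apply_symm_apply]
  exact h.symm

noncomputable def bcP (D : SimpleGraph U) (e : U ≃ V × Bool) (v : V) : Equiv.Perm (W D × (V → ℤˣ)) :=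
  ⟨bc D e v, bd' D e v, bd_bc v, bc_bd v⟩

noncomputable def sig (hD : ∀ x y, G.Adj (e x).1 (e y).1 → D.Adj x y) :
    AG G →* Equiv.Perm (W D × (V → ℤˣ)) :=
  PresentedGroup.toGroup (f := fun v => (bcP D e v)⁻¹) (by
    rintro r ⟨u, v, h, rfl⟩
    rw [map_mul, map_mul, map_mul, map_inv, map_inv, FreeGroup.lift_apply_of, FreeGroup.lift_apply_of]
    have h1 : Commute (bcP D e u) (bcP D e v) := Equiv.ext fun p => bc_comm hD h p
    have h2 := (h1.inv_inv).eq
    rw [h2]
    group)

theorem sig_agen (hD : ∀ x y, G.Adj (e x).1 (e y).1 → D.Adj x y) (v : V) :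
    sig hD (agen G v) = (bcP D e v)⁻¹ := PresentedGroup.toGroup.of _

/-- the map from the Artin group -/
noncomputable def Psi (hD : ∀ x y, G.Adj (e x).1 (e y).1 → D.Adj x y) (a : AG G) : W D × (V → ℤˣ) :=
  sig hD a⁻¹ (1, 1)

theorem Psi_one (hD : ∀ x y, G.Adj (e x).1 (e y).1 → D.Adj x y) : Psi hD (1 : AG G) = (1, 1) := by
  unfold Psi
  rw [inv_one, map_one]
  rfl

theorem Psi_mul (hD : ∀ x y, G.Adj (e x).1 (e y).1 → D.Adj x y) (a : AG G) (v : V) :
    Psi hD (a * agen G v) = bc D e v (Psi hD a) := by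
  unfold Psi
  rw [mul_inv_rev, map_mul, map_inv, sig_agen, inv_inv]
  rfl

theorem Psi_mul_inv (hD : ∀ x y, G.Adj (e x).1 (e y).1 → D.Adj x y) (a : AG G) (v : V) :
    Psi hD (a * (agen G v)⁻¹) = bd' D e v (Psi hD a) := by
  unfold Psi
  rw [mul_inv_rev, inv_inv, map_mul, sig_agen]
  rfl

theorem Psi_Phi (hD : ∀ x y, D.Adj x y ↔ G.Adj (e x).1 (e y).1) (w : W D) :
    Psi (fun x y h => (hD x y).2 h) (Phi (fun x y h => (hD x y).1 h) w).1 =
      (w, (Phi (fun x y h => (hD x y).1 h) w).2) := by
  refine (cox D).toCoxeterSystem.simple_induction_right (p := fun w =>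
    Psi (fun x y h => (hD x y).2 h) (Phi (fun x y h => (hD x y).1 h) w).1 =
      (w, (Phi (fun x y h => (hD x y).1 h) w).2)) w ?_ ?_
  · rw [Phi_one]
    exact Psi_one _
  · intro w x ih
    rw [CoxeterMatrix.toCoxeterSystem_simple, Phi_simple]
    set p := Phi (fun x y h => (hD x y).1 h) w with hp
    have hx : e.symm ((e x).1, (e x).2) = x := e.symm_apply_apply x
    rcases Int.units_eq_one_or (sv e p.2 x) with h | h
    · have h1 : (ac G e x p).1 = p.1 * agen G (e x).1 := by
        show p.1 * agen G (e x).1 ^ ((sv e p.2 x : ℤˣ) : ℤ) = _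
        rw [h, Units.val_one, zpow_one]
      have h2 : p.2 (e x).1 = sb (e x).2 := by
        have h3 : sb (e x).2 * p.2 (e x).1 = 1 := h
        have h4 := usq (sb (e x).2)
        exact mul_left_cancel (h3.trans h4.symm)
      rw [h1, Psi_mul, ih]
      unfold bc
      simp only [h2, bs_sb, hx]
      rfl
    · have h1 : (ac G e x p).1 = p.1 * (agen G (e x).1)⁻¹ := by
        show p.1 * agen G (e x).1 ^ ((sv e p.2 x : ℤˣ) : ℤ) = _
        rw [h, Units.val_neg, Units.val_one, zpow_neg, zpow_one]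
      have h2 : - p.2 (e x).1 = sb (e x).2 := by
        have h3 : sb (e x).2 * p.2 (e x).1 = -1 := h
        have h4 := usq (sb (e x).2)
        refine mul_left_cancel (a := sb (e x).2) ?_
        rw [mul_neg, h3, neg_neg, h4]
      rw [h1, Psi_mul_inv, ih]
      unfold bd'
      simp only [h2, bs_sb, hx]
      rfl

theorem Phi_inj (hD : ∀ x y, D.Adj x y ↔ G.Adj (e x).1 (e y).1) :
    Function.Injective fun w : W D => (Phi (fun x y h => (hD x y).1 h) w).1 := by
  intro w w' h
  have h1 := Psi_Phi hD w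
  have h2 := Psi_Phi hD w'
  simp only at h
  rw [h, h2] at h1
  exact (congrArg Prod.fst h1).symm

theorem Phi_Psi (hD : ∀ x y, D.Adj x y ↔ G.Adj (e x).1 (e y).1) (a : AG G) :
    Phi (fun x y h => (hD x y).1 h) (Psi (fun x y h => (hD x y).2 h) a).1 =
      (a, (Psi (fun x y h => (hD x y).2 h) a).2) := by
  have ha : a ∈ Subgroup.closure (Set.range (PresentedGroup.of : V → AG G)) := by
    rw [PresentedGroup.closure_range_of]
    exact Subgroup.mem_top _
  induction ha using Subgroup.closure_induction_right with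
  | one =>
    rw [Psi_one]
    exact Phi_one _
  | mul_right a _ y hy ih =>
    obtain ⟨v, rfl⟩ := hy
    show Phi _ (Psi _ (a * agen G v)).1 = (a * agen G v, (Psi _ (a * agen G v)).2)
    rw [Psi_mul]
    set p := Psi (fun x y h => (hD x y).2 h) a with hp
    show Phi _ (p.1 * (cox D).simple (e.symm (v, bs (p.2 v)))) = (a * agen G v, fl v p.2)
    rw [Phi_simple, ih]
    unfold ac
    have h1 : (((sv e (a, p.2).2 (e.symm (v, bs (p.2 v))) : ℤˣ)) : ℤ) = 1 := by
      unfold sv
      rw [Equiv.apply_symm_apply]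
      simp only
      rw [sb_bs, usq, Units.val_one]
    rw [h1, Equiv.apply_symm_apply, zpow_one]
  | mul_inv_cancel a _ y hy ih =>
    obtain ⟨v, rfl⟩ := hy
    show Phi _ (Psi _ (a * (agen G v)⁻¹)).1 = (a * (agen G v)⁻¹, (Psi _ (a * (agen G v)⁻¹)).2)
    rw [Psi_mul_inv]
    set p := Psi (fun x y h => (hD x y).2 h) a with hp
    show Phi _ (p.1 * (cox D).simple (e.symm (v, bs (- p.2 v)))) = (a * (agen G v)⁻¹, fl v p.2)
    rw [Phi_simple, ih]
    unfold ac
    have h1 : (((sv e (a, p.2).2 (e.symm (v, bs (- p.2 v))) : ℤˣ)) : ℤ) = -1 := by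
      unfold sv
      rw [Equiv.apply_symm_apply]
      simp only
      rw [sb_bs, neg_mul, usq, Units.val_neg, Units.val_one]
    rw [h1, Equiv.apply_symm_apply, zpow_neg, zpow_one]

/-! ### Products over cliques -/

open Classical in
/-- the product of the generators in `P` -/
noncomputable def pr (G : SimpleGraph V) (P : Finset V) : AG G :=
  if h : (P : Set V).Pairwise (Function.onFun Commute (agen G)) then P.noncommProd (agen G) h else 1

theorem pr_empty : pr G (∅ : Finset V) = 1 := by
  unfold pr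
  rw [dif_pos (by simp)]
  exact Finset.noncommProd_empty _ _

theorem clique_comm {P : Finset V} (h : G.IsClique (P : Set V)) :
    (P : Set V).Pairwise (Function.onFun Commute (agen G)) := by
  intro u hu v hv huv
  exact agen_comm (h hu hv huv)

theorem pr_insert {P : Finset V} {v : V} (hv : v ∉ P) (h : G.IsClique ((insert v P : Finset V) : Set V)) :
    pr G (insert v P) = agen G v * pr G P := by
  have h1 : G.IsClique (P : Set V) := h.subset (by simp)
  unfold pr
  rw [dif_pos (clique_comm h), dif_pos (clique_comm h1)]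
  exact Finset.noncommProd_insert_of_notMem _ _ _ _ hv

theorem pr_comm {P : Finset V} {v : V} (h : G.IsClique ((insert v P : Finset V) : Set V)) :
    Commute (agen G v) (pr G P) := by
  have h1 : G.IsClique (P : Set V) := h.subset (by simp)
  unfold pr
  rw [dif_pos (clique_comm h1)]
  refine Finset.noncommProd_commute _ _ _ _ fun u hu => ?_
  by_cases huv : v = u
  · subst huv
    exact Commute.refl _
  · exact agen_comm (h (by simp) (by simp [hu]) huv)

theorem pr_inv_insert {P : Finset V} {v : V} (hv : v ∉ P)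
    (h : G.IsClique ((insert v P : Finset V) : Set V)) :
    (pr G (insert v P))⁻¹ = (pr G P)⁻¹ * (agen G v)⁻¹ := by
  rw [pr_insert hv h, mul_inv_rev]

theorem pr_inv_insert' {P : Finset V} {v : V} (hv : v ∉ P)
    (h : G.IsClique ((insert v P : Finset V) : Set V)) :
    (pr G (insert v P))⁻¹ = (agen G v)⁻¹ * (pr G P)⁻¹ := by
  rw [pr_insert hv h, (pr_comm h).eq, mul_inv_rev]

/-! ### The cliques of `D` -/

/-- the projection of a clique -/
noncomputable def pj (e : U ≃ V × Bool) (T : Finset U) : Finset V := T.image fun x => (e x).1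

theorem mem_pj {T : Finset U} {v : V} : v ∈ pj e T ↔ ∃ x ∈ T, (e x).1 = v := Finset.mem_image

theorem pj_insert {T : Finset U} {x : U} : pj e (insert x T) = insert (e x).1 (pj e T) :=
  Finset.image_insert _ _ _

theorem pj_empty : pj e (∅ : Finset U) = ∅ := Finset.image_empty _

/-- the elements of `T` with the sign `-1`, projected -/
noncomputable def ng (e : U ≃ V × Bool) (ε : V → ℤˣ) (T : Finset U) : Finset V :=
  pj e (T.filter fun x => sv e ε x = -1)

theorem ng_subset (ε : V → ℤˣ) (T : Finset U) : ng e ε T ⊆ pj e T :=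
  Finset.image_subset_image (Finset.filter_subset _ _)

theorem ng_insert_pos (ε : V → ℤˣ) {T : Finset U} {x : U} (h : sv e ε x = 1) :
    ng e ε (insert x T) = ng e ε T := by
  unfold ng
  rw [Finset.filter_insert, if_neg]
  rw [h]
  decide

theorem ng_insert_neg (ε : V → ℤˣ) {T : Finset U} {x : U} (h : sv e ε x = -1) :
    ng e ε (insert x T) = insert (e x).1 (ng e ε T) := by
  unfold ng
  rw [Finset.filter_insert, if_pos h, pj_insert]

theorem ng_fl (ε : V → ℤˣ) {T : Finset U} {v : V} (h : v ∉ pj e T) : ng e (fl v ε) T = ng e ε T := by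
  unfold ng
  congr 1
  refine Finset.filter_congr fun x hx => ?_
  rw [sv_fl_ne]
  rintro h1
  exact h (mem_pj.2 ⟨x, hx, h1⟩)

theorem notMem_ng (ε : V → ℤˣ) {T : Finset U} {v : V} (h : v ∉ pj e T) : v ∉ ng e ε T :=
  fun h1 => h (ng_subset _ _ h1)

/-- the product of the signs -/
noncomputable def ps (e : U ≃ V × Bool) (ε : V → ℤˣ) (T : Finset U) : ℤˣ := ∏ x ∈ T, sv e ε x

theorem ps_insert (ε : V → ℤˣ) {T : Finset U} {x : U} (h : x ∉ T) :
    ps e ε (insert x T) = sv e ε x * ps e ε T := Finset.prod_insert h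

theorem ps_fl (ε : V → ℤˣ) {T : Finset U} {v : V} (h : v ∉ pj e T) : ps e (fl v ε) T = ps e ε T := by
  refine Finset.prod_congr rfl fun x hx => ?_
  rw [sv_fl_ne]
  rintro h1
  exact h (mem_pj.2 ⟨x, hx, h1⟩)

/-- the value of `c` on a cube, seen from the corner `p` -/
noncomputable def vl (e : U ≃ V × Bool) (c : AG G → Finset V → ℝ) (p : AG G × (V → ℤˣ)) (T : Finset U) : ℝ :=
  (((ps e p.2 T : ℤˣ) : ℤ) : ℝ) * c (p.1 * (pr G (ng e p.2 T))⁻¹) (pj e T)

section Clique

variable (hD : ∀ x y, D.Adj x y ↔ G.Adj (e x).1 (e y).1)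

include hD in
theorem clique_pj {T : Finset U} (h : D.IsClique (T : Set U)) : G.IsClique (pj e T : Set V) := by
  intro u hu v hv huv
  rw [Finset.mem_coe, mem_pj] at hu hv
  obtain ⟨x, hx, rfl⟩ := hu
  obtain ⟨y, hy, rfl⟩ := hv
  refine (hD _ _).1 (h hx hy ?_)
  rintro rfl
  exact huv rfl

include hD in
theorem clique_inj {T : Finset U} (h : D.IsClique (T : Set U)) {x y : U} (hx : x ∈ T) (hy : y ∈ T)
    (hxy : (e x).1 = (e y).1) : x = y := by
  by_contra hne
  have h1 := (hD _ _).1 (h hx hy hne)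
  rw [hxy] at h1
  exact G.loopless.irrefl _ h1

include hD in
theorem card_pj {T : Finset U} (h : D.IsClique (T : Set U)) : (pj e T).card = T.card :=
  Finset.card_image_of_injOn fun _ hx _ hy hxy => clique_inj hD h hx hy hxy

include hD in
theorem notMem_pj {T : Finset U} {x : U} (h : D.IsClique ((insert x T : Finset U) : Set U)) (hx : x ∉ T) :
    (e x).1 ∉ pj e T := by
  intro h1
  obtain ⟨y, hy, hyx⟩ := mem_pj.1 h1
  have h2 : y = x := clique_inj hD h (by simp [hy]) (by simp) hyx
  rw [h2] at hy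
  exact hx hy

include hD in
theorem clique_iff {T : Finset U} (h : D.IsClique (T : Set U)) {x : U} (hx : (e x).1 ∉ pj e T) :
    D.IsClique ((insert x T : Finset U) : Set U) ↔
      G.IsClique ((insert (e x).1 (pj e T) : Finset V) : Set V) := by
  constructor
  · intro h1
    rw [← pj_insert]
    exact clique_pj hD h1
  · intro h1
    have h2 : ∀ y ∈ T, D.Adj x y := by
      intro y hy
      have h3 : (e x).1 ≠ (e y).1 := by
        intro h4
        exact hx (mem_pj.2 ⟨y, hy, h4.symm⟩)
      exact (hD _ _).2 (h1 (by simp) (by simp [mem_pj]; exact Or.inr ⟨y, hy, rfl⟩) h3)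
    rw [Finset.coe_insert]
    intro u hu w hw huw
    rcases hu with rfl | hu
    · rcases hw with rfl | hw
      · exact absurd rfl huw
      · exact h2 w hw
    · rcases hw with rfl | hw
      · exact (h2 u hu).symm
      · exact h hu hw huw

variable (hlex : ∀ x y : U, (e x).1 ≠ (e y).1 → (x < y ↔ (e x).1 < (e y).1))

include hD hlex in
theorem sg_pj {T : Finset U} (h : D.IsClique (T : Set U)) {x : U} (hx : (e x).1 ∉ pj e T) :
    sg x T = sg (e x).1 (pj e T) := by
  unfold sg
  congr 1
  have h1 : (pj e T).filter (fun u => u < (e x).1) = pj e (T.filter fun u => u < x) := by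
    ext v
    rw [Finset.mem_filter, mem_pj, mem_pj]
    constructor
    · rintro ⟨⟨y, hy, rfl⟩, hlt⟩
      refine ⟨y, Finset.mem_filter.2 ⟨hy, ?_⟩, rfl⟩
      exact (hlex y x hlt.ne).2 hlt
    · rintro ⟨y, hy, rfl⟩
      obtain ⟨hy, hlt⟩ := Finset.mem_filter.1 hy
      refine ⟨⟨y, hy, rfl⟩, (hlex y x ?_).1 hlt⟩
      intro h2
      exact hx (mem_pj.2 ⟨y, hy, h2⟩)
  rw [h1]
  exact (card_pj hD (h.subset (by rw [Finset.coe_subset]; exact Finset.filter_subset _ _))).symm

include hD in
/-- moving the corner -/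
theorem vl_anti (c : AG G → Finset V → ℝ) (p : AG G × (V → ℤˣ)) {T : Finset U} {x : U}
    (h : D.IsClique ((insert x T : Finset U) : Set U)) (hx : x ∉ T) :
    vl e c (ac G e x p) (insert x T) = - vl e c p (insert x T) := by
  have hn := notMem_pj hD h hx
  have hc : G.IsClique ((insert (e x).1 (pj e T) : Finset V) : Set V) := by
    rw [← pj_insert]
    exact clique_pj hD h
  have key : ∀ p : AG G × (V → ℤˣ), sv e p.2 x = 1 →
      vl e c (ac G e x p) (insert x T) = - vl e c p (insert x T) := by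
    intro p hp
    have hp' : sv e (fl (e x).1 p.2) x = -1 := by rw [sv_fl_self, hp]
    have hq : (ac G e x p).2 = fl (e x).1 p.2 := rfl
    have hq1 : (ac G e x p).1 = p.1 * agen G (e x).1 := by
      show p.1 * agen G (e x).1 ^ ((sv e p.2 x : ℤˣ) : ℤ) = _
      rw [hp, Units.val_one, zpow_one]
    have hc2 : G.IsClique ((insert (e x).1 (ng e p.2 T) : Finset V) : Set V) :=
      hc.subset (by
        rw [Finset.coe_subset]
        exact Finset.insert_subset_insert _ (ng_subset _ _))
    unfold vl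
    rw [hq, hq1, ng_insert_neg _ hp', ng_fl _ hn, ng_insert_pos _ hp,
      pr_inv_insert' (notMem_ng _ hn) hc2, ← mul_assoc, mul_inv_cancel_right, ps_insert _ hx,
      ps_insert _ hx, ps_fl _ hn, hp, hp']
    push_cast
    ring
  rcases Int.units_eq_one_or (sv e p.2 x) with hp | hp
  · exact key p hp
  · have hp' : sv e (ac G e x p).2 x = 1 := by
      show sv e (fl (e x).1 p.2) x = 1
      rw [sv_fl_self, hp, neg_neg]
    have h1 := key (ac G e x p) hp'
    rw [ac_ac] at h1
    rw [h1, neg_neg]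

include hD in
/-- the two cubes in the direction `x` -/
theorem vl_insert (c : AG G → Finset V → ℝ) (p : AG G × (V → ℤˣ)) {T : Finset U} {x : U}
    (h : D.IsClique ((insert x T : Finset U) : Set U)) (hx : x ∉ T) :
    vl e c p (insert x T) = if sv e p.2 x = 1 then
      (((ps e p.2 T : ℤˣ) : ℤ) : ℝ) * c (p.1 * (pr G (ng e p.2 T))⁻¹) (insert (e x).1 (pj e T)) else
      - ((((ps e p.2 T : ℤˣ) : ℤ) : ℝ) *
        c (p.1 * (pr G (ng e p.2 T))⁻¹ * (agen G (e x).1)⁻¹) (insert (e x).1 (pj e T))) := by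
  have hn := notMem_pj hD h hx
  have hc : G.IsClique ((insert (e x).1 (pj e T) : Finset V) : Set V) := by
    rw [← pj_insert]
    exact clique_pj hD h
  have hc2 : G.IsClique ((insert (e x).1 (ng e p.2 T) : Finset V) : Set V) :=
    hc.subset (by
      rw [Finset.coe_subset]
      exact Finset.insert_subset_insert _ (ng_subset _ _))
  split_ifs with hp
  · unfold vl
    rw [ng_insert_pos _ hp, pj_insert, ps_insert _ hx, hp, one_mul]
  · have hp' : sv e p.2 x = -1 := by
      rcases Int.units_eq_one_or (sv e p.2 x) with h1 | h1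
      · exact absurd h1 hp
      · exact h1
    unfold vl
    rw [ng_insert_neg _ hp', pj_insert, ps_insert _ hx, hp', pr_inv_insert (notMem_ng _ hn) hc2,
      ← mul_assoc]
    push_cast
    ring

include hD in
/-- the two faces in the direction `x` -/
theorem vl_face (c : AG G → Finset V → ℝ) (p : AG G × (V → ℤˣ)) {T : Finset U} {x : U}
    (h : D.IsClique ((insert x T : Finset U) : Set U)) (hx : x ∉ T) :
    vl e c p T - vl e c (ac G e x p) T = (((ps e p.2 (insert x T) : ℤˣ) : ℤ) : ℝ) *
      (c (p.1 * (pr G (ng e p.2 (insert x T)))⁻¹) (pj e T) -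
        c (p.1 * (pr G (ng e p.2 (insert x T)))⁻¹ * agen G (e x).1) (pj e T)) := by
  have hn := notMem_pj hD h hx
  have hc : G.IsClique ((insert (e x).1 (pj e T) : Finset V) : Set V) := by
    rw [← pj_insert]
    exact clique_pj hD h
  have hc2 : G.IsClique ((insert (e x).1 (ng e p.2 T) : Finset V) : Set V) :=
    hc.subset (by
      rw [Finset.coe_subset]
      exact Finset.insert_subset_insert _ (ng_subset _ _))
  have hcm := (pr_comm hc2).inv_right
  have hq : (ac G e x p).2 = fl (e x).1 p.2 := rfl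
  unfold vl
  rw [hq, ps_fl _ hn, ng_fl _ hn]
  rcases Int.units_eq_one_or (sv e p.2 x) with hp | hp
  · have hq1 : (ac G e x p).1 = p.1 * agen G (e x).1 := by
      show p.1 * agen G (e x).1 ^ ((sv e p.2 x : ℤˣ) : ℤ) = _
      rw [hp, Units.val_one, zpow_one]
    rw [hq1, ng_insert_pos _ hp, ps_insert _ hx, hp, one_mul, mul_assoc p.1 (agen G (e x).1), hcm.eq,
      ← mul_assoc p.1]
    ring
  · have hq1 : (ac G e x p).1 = p.1 * (agen G (e x).1)⁻¹ := by
      show p.1 * agen G (e x).1 ^ ((sv e p.2 x : ℤˣ) : ℤ) = _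
      rw [hp, Units.val_neg, Units.val_one, zpow_neg, zpow_one]
    rw [hq1, ng_insert_neg _ hp, ps_insert _ hx, hp, pr_inv_insert' (notMem_ng _ hn) hc2,
      mul_assoc p.1 ((agen G (e x).1)⁻¹), mul_assoc p.1 ((agen G (e x).1)⁻¹ * _), mul_assoc ((agen G (e x).1)⁻¹),
      ← hcm.eq, inv_mul_cancel_left]
    push_cast
    ring

open Classical in
/-- the transported chain -/
noncomputable def tr (hD : ∀ x y, D.Adj x y ↔ G.Adj (e x).1 (e y).1) (c : AG G → Finset V → ℝ)
    (w : W D) (T : Finset U) : ℝ :=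
  if D.IsClique (T : Set U) then vl e c (Phi (fun x y h => (hD x y).1 h) w) T else 0

theorem tr_pos (c : AG G → Finset V → ℝ) (w : W D) {T : Finset U} (h : D.IsClique (T : Set U)) :
    tr hD c w T = vl e c (Phi (fun x y h => (hD x y).1 h) w) T := if_pos h

theorem tr_neg (c : AG G → Finset V → ℝ) (w : W D) {T : Finset U} (h : ¬ D.IsClique (T : Set U)) :
    tr hD c w T = 0 := if_neg h

theorem tr_summable {c : AG G → Finset V → ℝ}
    (hc : Summable fun x : AG G × Finset V => (c x.1 x.2) ^ 2) :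
    Summable fun x : W D × Finset U => (tr hD c x.1 x.2) ^ 2 := by
  have h1 : ∀ P : Finset V, Summable fun x : W D × Finset U =>
      (c ((Phi (fun x y h => (hD x y).1 h) x.1).1 * (pr G P)⁻¹) (pj e x.2)) ^ 2 := by
    intro P
    have h2 : Summable fun y : (AG G × Finset V) × Finset U => (c y.1.1 y.1.2) ^ 2 * (1 : ℝ) := by
      refine Summable.mul_of_nonneg (f := fun z : AG G × Finset V => (c z.1 z.2) ^ 2)
        (g := fun _ : Finset U => (1 : ℝ)) hc (Summable.of_finite) ?_ ?_
      · intro z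
        exact sq_nonneg _
      · intro z
        exact zero_le_one
    have h3 : Function.Injective fun x : W D × Finset U =>
        (((Phi (fun x y h => (hD x y).1 h) x.1).1 * (pr G P)⁻¹, pj e x.2), x.2) := by
      rintro ⟨w, T⟩ ⟨w', T'⟩ h
      simp only [Prod.mk.injEq, mul_left_inj] at h
      exact Prod.ext (Phi_inj hD h.1.1) h.2
    refine (h2.comp_injective h3).congr fun x => ?_
    simp only [Function.comp_apply, mul_one]
  refine Summable.of_nonneg_of_le (fun x => sq_nonneg _) (fun x => ?_)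
    (summable_sum (s := (Finset.univ : Finset (Finset V))) fun P _ => h1 P)
  by_cases h : D.IsClique (x.2 : Set U)
  · rw [tr_pos hD c _ h]
    set p := Phi (fun x y h => (hD x y).1 h) x.1 with hp
    refine le_trans (le_of_eq ?_) (Finset.single_le_sum
      (f := fun P : Finset V => (c (p.1 * (pr G P)⁻¹) (pj e x.2)) ^ 2)
      (fun P _ => sq_nonneg _) (Finset.mem_univ (ng e p.2 x.2)))
    unfold vl
    rw [mul_pow]
    rcases Int.units_eq_one_or (ps e p.2 x.2) with h4 | h4 <;> rw [h4] <;> simp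
  · rw [tr_neg hD c _ h]
    rw [zero_pow two_ne_zero]
    exact Finset.sum_nonneg fun P _ => sq_nonneg _

include hlex in
theorem tr_cycle {i : ℕ} {c : AG G → Finset V → ℝ} (hc : IsHarmA G i c) (w : W D) (T : Finset U) :
    ∑ x ∈ Tᶜ, (sg x T : ℝ) * tr hD c w (insert x T) = 0 := by
  by_cases h : D.IsClique (T : Set U)
  · set p := Phi (fun x y h => (hD x y).1 h) w with hp
    have hz := hc.cycle (p.1 * (pr G (ng e p.2 T))⁻¹) (pj e T)
    set a := p.1 * (pr G (ng e p.2 T))⁻¹ with ha
    have h1 : ∑ x ∈ Tᶜ, (sg x T : ℝ) * tr hD c w (insert x T) =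
        ∑ x : U, if (e x).1 ∈ pj e T then 0 else (sg x T : ℝ) * tr hD c w (insert x T) := by
      rw [← Finset.sum_subset (Finset.subset_univ Tᶜ)]
      · refine Finset.sum_congr rfl fun x hx => ?_
        split_ifs with h2
        · rw [tr_neg, mul_zero]
          intro h3
          exact notMem_pj hD h3 (by simpa using hx) h2
        · rfl
      · intro x _ hx
        rw [if_pos]
        exact mem_pj.2 ⟨x, by simpa using hx, rfl⟩
    have h2 : (∑ x : U, if (e x).1 ∈ pj e T then 0 else (sg x T : ℝ) * tr hD c w (insert x T)) =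
        ∑ y : V × Bool, if y.1 ∈ pj e T then 0 else
          (sg (e.symm y) T : ℝ) * tr hD c w (insert (e.symm y) T) := by
      refine Fintype.sum_equiv e _ _ fun x => ?_
      rw [Equiv.symm_apply_apply]
    rw [h1, h2, Fintype.sum_prod_type]
    have h3 : ∀ v : V, (∑ b : Bool, if (v, b).1 ∈ pj e T then (0 : ℝ) else
          (sg (e.symm (v, b)) T : ℝ) * tr hD c w (insert (e.symm (v, b)) T)) =
        if v ∈ pj e T then 0 else - (((ps e p.2 T : ℤˣ) : ℤ) : ℝ) *
          ((sg v (pj e T) : ℝ) * (c (a * (agen G v)⁻¹) (insert v (pj e T)) - c a (insert v (pj e T)))) := by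
      intro v
      by_cases hv : v ∈ pj e T
      · simp only [if_pos hv, Finset.sum_const_zero]
      · simp only [if_neg hv]
        have he : ∀ b, (e (e.symm (v, b))).1 = v := fun b => by rw [Equiv.apply_symm_apply]
        by_cases hcl : G.IsClique ((insert v (pj e T) : Finset V) : Set V)
        · have h4 : ∀ b, D.IsClique ((insert (e.symm (v, b)) T : Finset U) : Set U) := by
            intro b
            rw [clique_iff hD h (by rw [he b]; exact hv), he b]
            exact hcl
          have h5 : ∀ b, e.symm (v, b) ∉ T := by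
            intro b hb
            exact hv (mem_pj.2 ⟨_, hb, he b⟩)
          have h6 : ∀ b, sg (e.symm (v, b)) T = sg v (pj e T) := by
            intro b
            rw [sg_pj hD hlex h (by rw [he b]; exact hv), he b]
          have h7 : ∀ b, tr hD c w (insert (e.symm (v, b)) T) = if sb b * p.2 v = 1 then
              (((ps e p.2 T : ℤˣ) : ℤ) : ℝ) * c a (insert v (pj e T)) else
              - ((((ps e p.2 T : ℤˣ) : ℤ) : ℝ) * c (a * (agen G v)⁻¹) (insert v (pj e T))) := by
            intro b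
            rw [tr_pos hD c _ (h4 b), vl_insert hD c _ (h4 b) (h5 b)]
            rw [← hp, ← ha, he b]
            unfold sv
            rw [Equiv.apply_symm_apply]
          rw [Fintype.sum_bool, h6, h6, h7, h7]
          rcases Int.units_eq_one_or (p.2 v) with h8 | h8
          · rw [h8, if_neg (by decide), if_pos (by decide)]
            ring
          · rw [h8, if_pos (by decide), if_neg (by decide)]
            ring
        · have h4 : ∀ b, tr hD c w (insert (e.symm (v, b)) T) = 0 := by
            intro b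
            refine tr_neg hD c w fun h5 => ?_
            rw [clique_iff hD h (by rw [he b]; exact hv), he b] at h5
            exact hcl h5
          have h5 : ∀ a, c a (insert v (pj e T)) = 0 := fun a => hc.supp a _ fun h6 => hcl h6.1
          simp only [h4, h5, mul_zero, Finset.sum_const_zero, sub_zero]
    rw [Finset.sum_congr rfl fun v _ => h3 v]
    have h4 : (∑ v : V, if v ∈ pj e T then (0 : ℝ) else - (((ps e p.2 T : ℤˣ) : ℤ) : ℝ) *
          ((sg v (pj e T) : ℝ) * (c (a * (agen G v)⁻¹) (insert v (pj e T)) - c a (insert v (pj e T))))) =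
        ∑ v ∈ (pj e T)ᶜ, - (((ps e p.2 T : ℤˣ) : ℤ) : ℝ) *
          ((sg v (pj e T) : ℝ) * (c (a * (agen G v)⁻¹) (insert v (pj e T)) - c a (insert v (pj e T)))) := by
      rw [← Finset.sum_subset (Finset.subset_univ (pj e T)ᶜ)]
      · refine Finset.sum_congr rfl fun v hv => ?_
        rw [if_neg (by simpa using hv)]
      · intro v _ hv
        rw [if_pos (by simpa using hv)]
    rw [h4, ← Finset.mul_sum, hz, mul_zero]
  · refine Finset.sum_eq_zero fun x _ => ?_
    rw [tr_neg, mul_zero]
    intro h1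
    exact h (h1.subset (by simp))

include hlex in
theorem tr_cocycle {i : ℕ} {c : AG G → Finset V → ℝ} (hc : IsHarmA G i c) (w : W D) (T : Finset U)
    (h : D.IsClique (T : Set U)) :
    ∑ t ∈ T, (sg t (T.erase t) : ℝ) *
      (tr hD c w (T.erase t) - tr hD c (w * (cox D).simple t) (T.erase t)) = 0 := by
  set p := Phi (fun x y h => (hD x y).1 h) w with hp
  have hz := hc.cocycle (p.1 * (pr G (ng e p.2 T))⁻¹) (pj e T) (clique_pj hD h)
  set a := p.1 * (pr G (ng e p.2 T))⁻¹ with ha
  have hinj : Set.InjOn (fun x => (e x).1) (T : Set U) := fun _ hx _ hy hxy => clique_inj hD h hx hy hxy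
  unfold pj at hz
  rw [Finset.sum_image hinj] at hz
  have h1 : ∀ t ∈ T, (sg t (T.erase t) : ℝ) *
      (tr hD c w (T.erase t) - tr hD c (w * (cox D).simple t) (T.erase t)) =
      - (((ps e p.2 T : ℤˣ) : ℤ) : ℝ) * ((sg (e t).1 ((T.image fun x => (e x).1).erase (e t).1) : ℝ) *
        (c (a * agen G (e t).1) ((T.image fun x => (e x).1).erase (e t).1) -
          c a ((T.image fun x => (e x).1).erase (e t).1))) := by
    intro t ht
    have h2 : insert t (T.erase t) = T := Finset.insert_erase ht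
    have hcl : D.IsClique ((T.erase t : Finset U) : Set U) := h.subset (by simp)
    have hcl2 : D.IsClique ((insert t (T.erase t) : Finset U) : Set U) := by rw [h2]; exact h
    have hn := notMem_pj hD hcl2 (Finset.notMem_erase t T)
    have h3 : (T.image fun x => (e x).1).erase (e t).1 = pj e (T.erase t) := by
      have h4 : (T.image fun x => (e x).1) = insert (e t).1 (pj e (T.erase t)) := by
        rw [← pj_insert, h2]
        rfl
      rw [h4, Finset.erase_insert hn]
    rw [h3, tr_pos hD c _ hcl, tr_pos hD c _ hcl, Phi_simple, vl_face hD c _ hcl2 (Finset.notMem_erase t T),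
      h2, sg_pj hD hlex hcl hn, ← hp, ← ha]
    ring
  rw [Finset.sum_congr rfl h1, ← Finset.mul_sum, hz, mul_zero]

include hlex in
theorem tr_harm {i : ℕ} {c : AG G → Finset V → ℝ} (hc : IsHarmA G i c) : IsHarm D i (tr hD c) := by
  refine ⟨?_, ?_, tr_summable hD hc.summable, tr_cycle hD hlex hc, tr_cocycle hD hlex hc⟩
  · intro w T hT
    by_cases h : D.IsClique (T : Set U)
    · rw [tr_pos hD c w h]
      unfold vl
      rw [hc.supp, mul_zero]
      rintro ⟨h1, h2⟩
      exact hT ⟨h, by rw [← card_pj hD h, h2]⟩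
    · exact tr_neg hD c w h
  · intro w T t ht
    by_cases h : D.IsClique (T : Set U)
    · rw [tr_pos hD c _ h, tr_pos hD c _ h, Phi_simple]
      have h1 : insert t (T.erase t) = T := Finset.insert_erase ht
      have h2 := vl_anti hD c (Phi (fun x y h => (hD x y).1 h) w) (T := T.erase t) (x := t)
        (by rw [h1]; exact h) (Finset.notMem_erase _ _)
      rw [h1] at h2
      exact h2
    · rw [tr_neg hD c _ h, tr_neg hD c _ h, neg_zero]

include hD hlex in
theorem van {i : ℕ} (h : L2Van D i) : L2VanA G i := by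
  intro c hc
  have h1 := h _ (tr_harm hD hlex hc)
  funext a T
  by_cases hT : G.IsClique (T : Set V) ∧ T.card = i
  · have hq := Phi_Psi hD a
    set q := Psi (fun x y h => (hD x y).2 h) a with hq'
    have he : ∀ v, (e (e.symm (v, bs (q.2 v)))).1 = v := fun v => by rw [Equiv.apply_symm_apply]
    obtain ⟨T', hT'⟩ : ∃ T' : Finset U, T' = T.image (fun v => e.symm (v, bs (q.2 v))) := ⟨_, rfl⟩
    have hmem : ∀ x ∈ T', ∃ v ∈ T, e.symm (v, bs (q.2 v)) = x := by
      intro x hx
      rw [hT'] at hx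
      exact Finset.mem_image.1 hx
    have hsv : ∀ x ∈ T', sv e q.2 x = 1 := by
      intro x hx
      obtain ⟨v, _, rfl⟩ := hmem x hx
      unfold sv
      rw [Equiv.apply_symm_apply]
      simp only
      rw [sb_bs, usq]
    have hcl : D.IsClique (T' : Set U) := by
      intro x hx y hy hxy
      obtain ⟨v, hv, rfl⟩ := hmem x hx
      obtain ⟨u, hu, rfl⟩ := hmem y hy
      rw [hD, he, he]
      refine hT.1 hv hu ?_
      rintro rfl
      exact hxy rfl
    have hpj : pj e T' = T := by
      ext v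
      rw [mem_pj]
      constructor
      · rintro ⟨x, hx, rfl⟩
        obtain ⟨u, hu, rfl⟩ := hmem x hx
        rw [he]
        exact hu
      · intro hv
        refine ⟨e.symm (v, bs (q.2 v)), ?_, he v⟩
        rw [hT']
        exact Finset.mem_image_of_mem _ hv
    have hng : ng e q.2 T' = ∅ := by
      unfold ng
      rw [Finset.filter_eq_empty_iff.2, pj_empty]
      intro x hx h2
      rw [hsv x hx] at h2
      exact absurd h2 (by decide)
    have hps : ps e q.2 T' = 1 := Finset.prod_eq_one hsv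
    have h2 := congrFun (congrFun h1 q.1) T'
    rw [tr_pos hD c _ hcl, hq] at h2
    unfold vl at h2
    simp only at h2
    rw [hps, hng, hpj, pr_empty, inv_one, mul_one, Units.val_one, Int.cast_one, one_mul] at h2
    exact h2
  · exact hc.supp a T hT

end Clique

end Main

end Pool.Agent.H56T.AW

namespace Pool.Agent.H56T

open Pool.Agent.W907.SG

/-- **Piece AW.** -/
theorem aw : S_AW := by
  intro V _ _ G i h
  let l : LinearOrder (V × Bool) := LinearOrder.lift' (toLex : V × Bool → V ×ₗ Bool) toLex.injective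
  refine @AW.van V _ _ G (V × Bool) _ l (dbl G) (Equiv.refl _) (fun x y => Iff.rfl) ?_ i (@h l)
  intro x y hxy
  show toLex x < toLex y ↔ x.1 < y.1
  rw [Prod.Lex.toLex_lt_toLex]
  constructor
  · rintro (h1 | h1)
    · exact h1
    · exact absurd h1.1 hxy
  · intro h1
    exact Or.inl h1

end Pool.Agent.H56T
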