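import Pool.Agent.H56T.AW
import Pool.Agent.H56T.CTR

/-!
# `ℓ²`-homology above half the dimension, for right-angled Artin groups

For every finite graph `G`: if a subgroup of finite index of the right-angled Artin group `AG G` acts properly on the
`n`-dimensional manifold `M`, then the reduced `ℓ²`-homology of the universal cover of the Salvetti complex of `AG G`
vanishes in the degrees `i > n / 2`. The action need not be cocompact. About `M` we only use that it is contractible
and that `M × ℝ^k` can be mapped continuously and injectively to `ℝ^n × ℝ^k` for some `k`. All contractible
`n`-manifolds with or without boundary have the second property: after adding an open collar `M × ℝ` is homeomorphic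
to `ℝ^(n+1)` (Stallings).

Ideas of the proof. (1) The flats of a finite index subgroup give a map of the cone of the octahedralization `OL` of
the flag complex `L` of `G` to `M` which is an embedding far away in the sense that points with disjoint supports and
the same image are bounded. Hence the mod 2 van Kampen obstruction of `OL` vanishes in the degree `2 i`. (2) The main
point: if the reduced homology of `L` with coefficients in `F_2` is not zero in the degree `i - 1` (and `i` is maximal
with this property) then this obstruction is not zero. It is detected by an explicit symmetric cycle in the deleted
join of `OL`, whose coefficients are given by a function on the simplices of `L` which is invariant under the zeta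
transform. This was known in the top degree `i - 1 = dim L` only. (3) So `L` has no homology over `F_2` in the degrees
`≥ i - 1`, and this implies the vanishing of the `ℓ²`-homology of the right-angled Coxeter group of the 1-skeleton of
`OL`. (4) Its Davis complex is, as a cube complex, the universal cover of the Salvetti complex of `AG G`, and the
harmonic chains correspond to each other by an explicit crossed bijection of the two groups.
-/

set_option autoImplicit false

namespace Pool.Agent.H56T.ArtinGroupsL2

open Pool.Agent.W907.SG Pool.Agent.H56T

/-- Let a subgroup `H` of finite index of the right-angled Artin group `AG G` act properly on a contractible space `M`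
such that `M × ℝ^k` can be mapped continuously and injectively to `ℝ^n × ℝ^k` for some `k` (for example on a
contractible `n`-manifold with or without boundary). Then there are no nonzero `ℓ²` harmonic `i`-chains on the
universal cover of the Salvetti complex of `AG G` for `i > n / 2`. -/
theorem raag_harmonic : ∀ (V : Type) [Fintype V] [LinearOrder V] (G : SimpleGraph V)
    (n : ℕ) (M : Type) [TopologicalSpace M] [ContractibleSpace M], StInj n M →
    ∀ (H : Subgroup (AG G)) [MulAction H M], H.FiniteIndex → PropAct H M →
    ∀ i : ℕ, n < 2 * i → L2VanA G i :=
  fun V _ _ G _ _ _ _ hM _ _ hH hP i hi =>
    aw V G i fun [LinearOrder (V × Bool)] => exa_l2 (CTR.raag_exa hM hH hP hi)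

end Pool.Agent.H56T.ArtinGroupsL2
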