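import Pool.Agent.H56T.Stm

/-!
# CONE (helper24): the equivariant map on the cone of the flag complex
-/

set_option autoImplicit false
set_option linter.all false

namespace Pool.Agent.H56T

namespace CONE

open scoped Classical

section Group

variable {V Q : Type} [Fintype V] [Group Q] {G : SimpleGraph V} {g : V → Q}

theorem comm_pow (hg : ∀ u v, G.Adj u v → Commute (g u) (g v)) {a b : V → ℕ}
    (h : G.IsClique ({v | a v ≠ 0} ∪ {v | b v ≠ 0})) (u v : V) : Commute (g u ^ a u) (g v ^ b v) := by
  by_cases hu : a u = 0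
  · rw [hu, pow_zero]
    exact Commute.one_left _
  by_cases hv : b v = 0
  · rw [hv, pow_zero]
    exact Commute.one_right _
  by_cases huv : u = v
  · subst huv
    exact (Commute.refl (g u)).pow_pow _ _
  · exact (hg u v (h (Or.inl hu) (Or.inr hv) huv)).pow_pow _ _

theorem gp_add (hg : ∀ u v, G.Adj u v → Commute (g u) (g v)) {a b : V → ℕ}
    (h : G.IsClique ({v | a v ≠ 0} ∪ {v | b v ≠ 0})) : gp g (fun v => a v + b v) = gp g a * gp g b := by
  have hc := comm_pow hg h
  unfold gp
  induction (Finset.univ : Finset V).toList with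
  | nil => simp
  | cons v l ih =>
    rw [List.map_cons, List.map_cons, List.map_cons, List.prod_cons, List.prod_cons, List.prod_cons, ih,
      pow_add]
    have h1 : Commute (g v ^ b v) ((l.map fun v => g v ^ a v).prod) := by
      refine Commute.list_prod_right _ _ fun x hx => ?_
      obtain ⟨u, -, rfl⟩ := List.mem_map.1 hx
      exact (hc u v).symm
    calc g v ^ a v * g v ^ b v * ((l.map fun v => g v ^ a v).prod * (l.map fun v => g v ^ b v).prod)
        = g v ^ a v * (g v ^ b v * (l.map fun v => g v ^ a v).prod) * (l.map fun v => g v ^ b v).prod := by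
          group
      _ = g v ^ a v * ((l.map fun v => g v ^ a v).prod * g v ^ b v) * (l.map fun v => g v ^ b v).prod := by
          rw [h1.eq]
      _ = _ := by group

theorem gp_zero : gp g (fun _ => 0) = 1 := by
  unfold gp
  simp

theorem gp_single (v : V) : gp g (fun u => if u = v then 1 else 0) = g v := by
  unfold gp
  have h : ∀ l : List V, l.Nodup → (l.map fun u => g u ^ (if u = v then 1 else 0)).prod =
      if v ∈ l then g v else 1 := by
    intro l hl
    induction l with
    | nil => simp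
    | cons u l ih =>
      rw [List.nodup_cons] at hl
      rw [List.map_cons, List.prod_cons, ih hl.2]
      by_cases huv : u = v
      · subst huv
        simp [hl.1]
      · have : v ≠ u := fun h => huv h.symm
        simp [huv, this]
  rw [h _ (Finset.nodup_toList _)]
  simp

/-- the indicator function of a finset -/
noncomputable def ind (S : Finset V) : V → ℕ := fun v => if v ∈ S then 1 else 0

theorem ind_ne {S : Finset V} : {v | ind S v ≠ 0} = (S : Set V) := by
  ext v
  simp [ind]

end Group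

section Rel

variable {V Q M : Type} [Fintype V] [Group Q] [MulAction Q M] {G : SimpleGraph V} {g : V → Q}

/-- the cube points whose support is a clique -/
def Cb (G : SimpleGraph V) : Set (V → ℝ) := {x | (∀ v, 0 ≤ x v ∧ x v ≤ 1) ∧ G.IsClique {v | x v ≠ 0}}

/-- the relation for supports of size at most `k` -/
def Rel (G : SimpleGraph V) (g : V → Q) (φ : (V → ℝ) → M) (k : ℕ) : Prop :=
  ∀ x ∈ Cb G, ∀ v, x v = 0 → ∀ T : Finset V, T.card ≤ k → (∀ u ∉ T, x u = 0) → v ∈ T →
    G.IsClique (insert v {u | x u ≠ 0}) → φ (fun u => x u + if u = v then 1 else 0) = g v • φ x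

theorem rel_add (hg : ∀ u v, G.Adj u v → Commute (g u) (g v)) {φ : (V → ℝ) → M} {k : ℕ}
    (hφ : Rel G g φ k) {T : Finset V} (hT : T.card ≤ k) {x : V → ℝ} (hx : x ∈ Cb G)
    (hxT : ∀ u ∉ T, x u = 0) (S : Finset V) (hST : S ⊆ T) (hS : ∀ v ∈ S, x v = 0)
    (hcl : G.IsClique ({v | x v ≠ 0} ∪ (S : Set V))) :
    φ (fun u => x u + (ind S u : ℝ)) = gp g (ind S) • φ x := by
  induction S using Finset.induction_on with
  | empty =>
    have h1 : (ind (∅ : Finset V)) = fun _ => 0 := by
      funext v
      simp [ind]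
    rw [h1, gp_zero, one_smul]
    simp
  | insert v S hv ih =>
    have hcl' : G.IsClique ({v | x v ≠ 0} ∪ (S : Set V)) :=
      hcl.subset (Set.union_subset_union_right _ (by simp))
    have h1 := ih ((Finset.subset_insert _ _).trans hST) (fun u hu => hS u (Finset.mem_insert_of_mem hu)) hcl'
    have hsupp : {u | x u + (ind S u : ℝ) ≠ 0} = {v | x v ≠ 0} ∪ (S : Set V) := by
      ext u
      simp only [Set.mem_setOf_eq, Set.mem_union, Finset.mem_coe]
      by_cases hu : u ∈ S
      · have := hS u (Finset.mem_insert_of_mem hu)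
        simp [ind, hu, this]
      · simp [ind, hu]
    have hx' : (fun u => x u + (ind S u : ℝ)) ∈ Cb G := by
      refine ⟨fun u => ?_, ?_⟩
      · by_cases hu : u ∈ S
        · have := hS u (Finset.mem_insert_of_mem hu)
          simp [ind, hu, this]
        · simpa [ind, hu] using hx.1 u
      · rw [hsupp]
        exact hcl'
    have hxv : x v = 0 := hS v (Finset.mem_insert_self _ _)
    have h2 := hφ _ hx' v (by simp [ind, hv, hxv]) T hT (fun u hu => by
      have h3 : u ∉ S := fun h => hu (hST (Finset.mem_insert_of_mem h))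
      simp [ind, h3, hxT u hu]) (hST (Finset.mem_insert_self _ _)) (by
        rw [hsupp]
        refine hcl.subset ?_
        rw [Finset.coe_insert, Set.union_insert])
    rw [h1, smul_smul] at h2
    have h4 : gp g (ind (insert v S)) = g v * gp g (ind S) := by
      have h5 : ind (insert v S) = fun u => (if u = v then 1 else 0) + ind S u := by
        funext u
        unfold ind
        by_cases huv : u = v
        · subst huv
          simp [hv]
        · simp [huv]
      rw [h5, gp_add hg, gp_single]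
      refine hcl.subset ?_
      rw [Finset.coe_insert, Set.union_insert]
      intro u hu
      rcases hu with hu | hu
      · have : u = v := by
          by_contra h
          simp [h] at hu
        exact Or.inl this
      · refine Or.inr (Or.inr ?_)
        rw [ind_ne] at hu
        exact hu
    rw [h4, ← h2]
    congr 1
    funext u
    have h6 : (ind (insert v S) u : ℝ) = (ind S u : ℝ) + if u = v then 1 else 0 := by
      unfold ind
      by_cases huv : u = v
      · subst huv
        simp [hv]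
      · simp [huv]
    rw [h6]
    ring

end Rel

section Top

variable {V Q M : Type} [Fintype V] [Group Q] [TopologicalSpace M] [MulAction Q M]
  {G : SimpleGraph V} {g : V → Q}

theorem isClosed_clique (G : SimpleGraph V) : IsClosed {x : V → ℝ | G.IsClique {v | x v ≠ 0}} := by
  have h : {x : V → ℝ | G.IsClique {v | x v ≠ 0}} =
      ⋂ (u : V) (v : V) (_ : u ≠ v ∧ ¬ G.Adj u v), ({x : V → ℝ | x u = 0} ∪ {x | x v = 0}) := by
    ext x
    simp only [Set.mem_setOf_eq, Set.mem_iInter, Set.mem_union]
    constructor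
    · rintro h u v ⟨huv, hadj⟩
      by_contra hcon
      rw [not_or] at hcon
      exact hadj (h hcon.1 hcon.2 huv)
    · intro h u hu v hv huv
      by_contra hadj
      rcases h u v ⟨huv, hadj⟩ with h1 | h1
      · exact hu h1
      · exact hv h1
  rw [h]
  refine isClosed_iInter fun u => isClosed_iInter fun v => isClosed_iInter fun _ => ?_
  exact (isClosed_eq (continuous_apply u) continuous_const).union
    (isClosed_eq (continuous_apply v) continuous_const)

theorem isClosed_Cb (G : SimpleGraph V) : IsClosed (Cb G) := by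
  refine IsClosed.inter ?_ (isClosed_clique G)
  have h : {x : V → ℝ | ∀ v, 0 ≤ x v ∧ x v ≤ 1} = ⋂ v, ({x : V → ℝ | 0 ≤ x v} ∩ {x | x v ≤ 1}) := by
    ext x
    simp
  change IsClosed {x : V → ℝ | ∀ v, 0 ≤ x v ∧ x v ≤ 1}
  rw [h]
  exact isClosed_iInter fun v => (isClosed_le continuous_const (continuous_apply v)).inter
    (isClosed_le (continuous_apply v) continuous_const)

/-- the pieces -/
def AS (G : SimpleGraph V) (p : Finset V × Finset V) : Set (V → ℝ) :=
  {x | x ∈ Cb G ∧ (∀ v ∈ p.1, x v = 1) ∧ ∀ v, v ∉ p.1 → v ∉ p.2 → x v = 0}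

theorem isClosed_AS (G : SimpleGraph V) (p : Finset V × Finset V) : IsClosed (AS G p) := by
  refine (isClosed_Cb G).inter (IsClosed.inter ?_ ?_)
  · have h : {x : V → ℝ | ∀ v ∈ p.1, x v = 1} = ⋂ v ∈ p.1, {x : V → ℝ | x v = 1} := by
      ext x
      simp
    change IsClosed {x : V → ℝ | ∀ v ∈ p.1, x v = 1}
    rw [h]
    exact isClosed_biInter fun v _ => isClosed_eq (continuous_apply v) continuous_const
  · have h : {x : V → ℝ | ∀ v, v ∉ p.1 → v ∉ p.2 → x v = 0} =
        ⋂ (v : V) (_ : v ∉ p.1) (_ : v ∉ p.2), {x : V → ℝ | x v = 0} := by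
      ext x
      simp
    change IsClosed {x : V → ℝ | ∀ v, v ∉ p.1 → v ∉ p.2 → x v = 0}
    rw [h]
    exact isClosed_iInter fun v => isClosed_iInter fun _ => isClosed_iInter fun _ =>
      isClosed_eq (continuous_apply v) continuous_const

/-- the glued map -/
noncomputable def beta (g : V → Q) (φ : (V → ℝ) → M) (x : V → ℝ) : M :=
  gp g (ind (Finset.univ.filter fun v => x v = 1)) •
    φ (fun u => x u - (ind (Finset.univ.filter fun v => x v = 1) u : ℝ))

theorem beta_eq (hg : ∀ u v, G.Adj u v → Commute (g u) (g v)) {φ : (V → ℝ) → M} {k : ℕ}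
    (hφ : Rel G g φ k) {p : Finset V × Finset V} (hp : p.2.card ≤ k) {x : V → ℝ} (hx : x ∈ AS G p) :
    beta g φ x = gp g (ind p.1) • φ (fun u => x u - (ind p.1 u : ℝ)) := by
  obtain ⟨⟨hx1, hx2⟩, hx3, hx4⟩ := hx
  obtain ⟨B, hB⟩ : ∃ B : Finset V, B = Finset.univ.filter fun v => x v = 1 := ⟨_, rfl⟩
  have hmem : ∀ v, v ∈ B ↔ x v = 1 := by
    intro v
    rw [hB]
    simp
  unfold beta
  rw [← hB]
  have hsub : p.1 ⊆ B := fun v hv => (hmem v).2 (hx3 v hv)
  -- the part without the coordinates which are one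
  obtain ⟨x₀, hx₀⟩ : ∃ x₀ : V → ℝ, x₀ = fun u => x u - (ind B u : ℝ) := ⟨_, rfl⟩
  have hval : ∀ u, x₀ u = if u ∈ B then 0 else x u := by
    intro u
    rw [hx₀]
    by_cases hu : u ∈ B
    · have := (hmem u).1 hu
      simp [ind, hu, this]
    · simp [ind, hu]
  have hsupp : {u | x₀ u ≠ 0} ⊆ {u | x u ≠ 0} := by
    intro u hu
    rw [Set.mem_setOf_eq, hval] at hu
    by_cases huB : u ∈ B
    · simp [huB] at hu
    · simpa [huB] using hu
  have hx₀C : x₀ ∈ Cb G := by
    refine ⟨fun u => ?_, hx2.subset hsupp⟩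
    rw [hval]
    by_cases hu : u ∈ B
    · simp [hu]
    · simpa [hu] using hx1 u
  have h1 := rel_add hg hφ (T := p.2) hp hx₀C (fun u hu => by
    rw [hval]
    by_cases huB : u ∈ B
    · simp [huB]
    · simp only [huB, if_false]
      exact hx4 u (fun h => huB (hsub h)) hu) (B \ p.1) (by
      intro u hu
      rw [Finset.mem_sdiff] at hu
      by_contra hu2
      have h2 := hx4 u hu.2 hu2
      rw [(hmem u).1 hu.1] at h2
      exact one_ne_zero h2) (by
      intro u hu
      rw [Finset.mem_sdiff] at hu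
      rw [hval]
      simp [hu.1]) (by
      refine hx2.subset (Set.union_subset hsupp ?_)
      intro u hu
      rw [Finset.mem_coe, Finset.mem_sdiff] at hu
      rw [Set.mem_setOf_eq, (hmem u).1 hu.1]
      exact one_ne_zero)
  have h2 : (fun u => x₀ u + (ind (B \ p.1) u : ℝ)) = fun u => x u - (ind p.1 u : ℝ) := by
    funext u
    rw [hval]
    by_cases huB : u ∈ B
    · have h3 := (hmem u).1 huB
      by_cases hup : u ∈ p.1
      · simp [ind, huB, hup, h3]
      · simp [ind, huB, hup, h3]
    · have hup : u ∉ p.1 := fun h => huB (hsub h)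
      simp [ind, huB, hup]
  rw [h2] at h1
  rw [h1, smul_smul, ← hx₀]
  congr 1
  have h3 : ind B = fun u => ind p.1 u + ind (B \ p.1) u := by
    funext u
    by_cases huB : u ∈ B
    · by_cases hup : u ∈ p.1
      · simp [ind, huB, hup]
      · simp [ind, huB, hup]
    · have hup : u ∉ p.1 := fun h => huB (hsub h)
      simp [ind, huB, hup]
  rw [h3, gp_add hg]
  refine hx2.subset ?_
  rw [ind_ne, ind_ne]
  refine Set.union_subset ?_ ?_
  · intro u hu
    rw [Set.mem_setOf_eq, hx3 u hu]
    exact one_ne_zero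
  · intro u hu
    rw [Finset.mem_coe, Finset.mem_sdiff] at hu
    rw [Set.mem_setOf_eq, (hmem u).1 hu.1]
    exact one_ne_zero

theorem exists_phi [TietzeExtension.{0, 0} M] [Nonempty M]
    (hcont : ∀ q : Q, Continuous fun x : M => q • x)
    (hg : ∀ u v, G.Adj u v → Commute (g u) (g v)) (k : ℕ) :
    ∃ φ : (V → ℝ) → M, Continuous φ ∧ Rel G g φ k := by
  induction k with
  | zero =>
    refine ⟨fun _ => Classical.arbitrary M, continuous_const, ?_⟩
    intro x _ v _ T hT _ hvT
    rw [Nat.le_zero, Finset.card_eq_zero] at hT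
    rw [hT] at hvT
    exact absurd hvT (Finset.notMem_empty v)
  | succ k ih =>
    obtain ⟨φ, hφc, hφ⟩ := ih
    let ι := {p : Finset V × Finset V // p.2.card ≤ k}
    obtain ⟨A, hA⟩ : ∃ A : Set (V → ℝ), A = ⋃ p : ι, AS G p.1 := ⟨_, rfl⟩
    have hlf : LocallyFinite fun p : ι => AS G p.1 := locallyFinite_of_finite _
    have hAcl : IsClosed A := by
      rw [hA]
      exact hlf.isClosed_iUnion fun p => isClosed_AS G p.1
    have hβ : ContinuousOn (beta g φ) A := by
      rw [hA]
      refine hlf.continuousOn_iUnion (fun p => isClosed_AS G p.1) fun p => ?_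
      have h1 : Continuous fun x : V → ℝ => gp g (ind p.1.1) • φ (fun u => x u - (ind p.1.1 u : ℝ)) := by
        refine (hcont _).comp (hφc.comp ?_)
        exact continuous_pi fun u => (continuous_apply u).sub continuous_const
      exact h1.continuousOn.congr fun x hx => beta_eq hg hφ p.2 hx
    obtain ⟨ψ, hψ⟩ := ContinuousMap.exists_restrict_eq hAcl ⟨A.restrict (beta g φ), hβ.restrict⟩
    have hψA : ∀ x ∈ A, ψ x = beta g φ x := by
      intro x hx
      have := congrArg (fun F : C(A, M) => F ⟨x, hx⟩) hψ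
      exact this
    refine ⟨ψ, ψ.continuous, ?_⟩
    intro x hx v hxv T hT hxT hvT hcl
    -- the point `x`
    have hcard : (T.erase v).card ≤ k := by
      rw [Finset.card_erase_of_mem hvT]
      omega
    have hx0 : x ∈ AS G ((∅ : Finset V), T.erase v) := by
      refine ⟨hx, by simp, fun u _ hu => ?_⟩
      by_cases huv : u = v
      · rw [huv, hxv]
      · exact hxT u fun h => hu (Finset.mem_erase.2 ⟨huv, h⟩)
    have hxA : x ∈ A := by
      rw [hA]
      exact Set.mem_iUnion.2 ⟨⟨(∅, T.erase v), hcard⟩, hx0⟩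
    have h1 : ψ x = φ x := by
      rw [hψA x hxA, beta_eq hg hφ (p := (∅, T.erase v)) hcard hx0]
      have h2 : (ind (∅ : Finset V)) = fun _ => 0 := by
        funext v
        simp [ind]
      rw [h2, gp_zero, one_smul]
      simp
    -- the point `x + e_v`
    obtain ⟨y, hy⟩ : ∃ y : V → ℝ, y = fun u => x u + if u = v then 1 else 0 := ⟨_, rfl⟩
    have hysupp : {u | y u ≠ 0} ⊆ insert v {u | x u ≠ 0} := by
      intro u hu
      by_cases huv : u = v
      · exact Or.inl huv
      · refine Or.inr ?_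
        rw [Set.mem_setOf_eq, hy] at hu
        simpa [huv] using hu
    have hyv : ∀ u, y u = if u = v then 1 else x u := by
      intro u
      rw [hy]
      by_cases huv : u = v
      · simp [huv, hxv]
      · simp [huv]
    have hy0 : y ∈ AS G (({v} : Finset V), T.erase v) := by
      refine ⟨⟨fun u => ?_, hcl.subset hysupp⟩, ?_, ?_⟩
      · rw [hyv]
        by_cases huv : u = v
        · simp [huv]
        · simpa [huv] using hx.1 u
      · intro u hu
        rw [Finset.mem_singleton] at hu
        rw [hyv, if_pos hu]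
      · intro u hu1 hu2
        rw [Finset.mem_singleton] at hu1
        rw [hyv, if_neg hu1]
        exact hxT u fun h => hu2 (Finset.mem_erase.2 ⟨hu1, h⟩)
    have hyA : y ∈ A := by
      rw [hA]
      exact Set.mem_iUnion.2 ⟨⟨({v}, T.erase v), hcard⟩, hy0⟩
    rw [← hy, hψA y hyA, beta_eq hg hφ (p := ({v}, T.erase v)) hcard hy0, h1]
    have h3 : ind ({v} : Finset V) = fun u => if u = v then 1 else 0 := by
      funext u
      simp [ind]
    have h4 : (fun u => y u - (ind ({v} : Finset V) u : ℝ)) = x := by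
      funext u
      rw [hyv, h3]
      by_cases huv : u = v
      · simp [huv, hxv]
      · simp [huv]
    show gp g (ind {v}) • φ (fun u => y u - (ind ({v} : Finset V) u : ℝ)) = _
    rw [h4, h3, gp_single]

end Top

section Final

variable {V Q M : Type} [Fintype V] [Group Q] [TopologicalSpace M] [MulAction Q M]
  {G : SimpleGraph V} {g : V → Q}

theorem locFin (V : Type) [Fintype V] :
    LocallyFinite fun a : V → ℕ => {x : V → ℝ | ∀ v, (a v : ℝ) ≤ x v ∧ x v ≤ a v + 1} := by
  intro x
  refine ⟨{y | ∀ v, y v < x v + 1}, ?_, ?_⟩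
  · have h : {y : V → ℝ | ∀ v, y v < x v + 1} = ⋂ v, {y : V → ℝ | y v < x v + 1} := by
      ext y
      simp
    rw [h]
    refine (isOpen_iInter_of_finite fun v =>
      isOpen_lt (continuous_apply v) continuous_const).mem_nhds ?_
    simp
  · refine (Set.finite_Icc (0 : V → ℕ) (fun v => ⌈x v + 1⌉₊)).subset ?_
    rintro a ⟨y, hy1, hy2⟩
    refine ⟨fun v => Nat.zero_le _, fun v => ?_⟩
    have h1 := (hy1 v).1
    have h2 := hy2 v
    have h3 : (a v : ℝ) ≤ ⌈x v + 1⌉₊ := by
      have := Nat.le_ceil (x v + 1)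
      linarith
    exact_mod_cast h3

theorem floor_piece (hg : ∀ u v, G.Adj u v → Commute (g u) (g v)) {φ : (V → ℝ) → M}
    (hφ : Rel G g φ (Fintype.card V)) (a : V → ℕ) {x : V → ℝ} (hx : x ∈ Cone G)
    (hxa : ∀ v, (a v : ℝ) ≤ x v ∧ x v ≤ a v + 1) :
    gp g (fun v => ⌊x v⌋₊) • φ (fun v => x v - ⌊x v⌋₊) = gp g a • φ (fun v => x v - a v) := by
  obtain ⟨S, hS⟩ : ∃ S : Finset V, S = Finset.univ.filter fun v => x v = a v + 1 := ⟨_, rfl⟩
  have hmem : ∀ v, v ∈ S ↔ x v = a v + 1 := by
    intro v
    rw [hS]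
    simp
  have hfl : ∀ v, ⌊x v⌋₊ = a v + ind S v := by
    intro v
    by_cases hv : v ∈ S
    · have h1 := (hmem v).1 hv
      have h2 : ind S v = 1 := by simp [ind, hv]
      rw [h1, h2]
      have : (a v : ℝ) + 1 = ((a v + 1 : ℕ) : ℝ) := by push_cast; ring
      rw [this, Nat.floor_natCast]
    · have h2 : ind S v = 0 := by simp [ind, hv]
      rw [h2, add_zero, Nat.floor_eq_iff (hx.1 v)]
      refine ⟨(hxa v).1, lt_of_le_of_ne (hxa v).2 fun h => hv ((hmem v).2 h)⟩
  have hav : ∀ v, x v = 0 → a v = 0 := by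
    intro v hv
    have h1 := (hxa v).1
    rw [hv] at h1
    have h2 : (0 : ℝ) ≤ a v := Nat.cast_nonneg _
    have h3 : (a v : ℝ) = 0 := le_antisymm h1 h2
    exact_mod_cast h3
  obtain ⟨x₀, hx₀⟩ : ∃ x₀ : V → ℝ, x₀ = fun v => x v - ⌊x v⌋₊ := ⟨_, rfl⟩
  have hsupp : {v | x₀ v ≠ 0} ⊆ {v | x v ≠ 0} := by
    intro v hv hv0
    apply hv
    rw [hx₀]
    simp [hv0]
  have hx₀C : x₀ ∈ Cb G := by
    refine ⟨fun v => ?_, hx.2.subset hsupp⟩
    rw [hx₀]
    have h1 := Nat.floor_le (hx.1 v)
    have h2 := Nat.lt_floor_add_one (x v)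
    exact ⟨by simpa using h1, by
      show x v - ⌊x v⌋₊ ≤ 1
      linarith⟩
  have hSx : (S : Set V) ⊆ {v | x v ≠ 0} := by
    intro v hv
    have h1 := (hmem v).1 hv
    have h2 : (0 : ℝ) ≤ a v := Nat.cast_nonneg _
    rw [Set.mem_setOf_eq, h1]
    positivity
  have h1 := rel_add hg hφ (T := Finset.univ) (le_of_eq Finset.card_univ) hx₀C
    (fun u hu => absurd (Finset.mem_univ u) hu) S (Finset.subset_univ _) (by
      intro v hv
      rw [hx₀]
      show x v - ⌊x v⌋₊ = 0
      rw [hfl, (hmem v).1 hv]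
      simp [ind, hv]) (hx.2.subset (Set.union_subset hsupp hSx))
  have h2 : (fun u => x₀ u + (ind S u : ℝ)) = fun v => x v - a v := by
    funext u
    rw [hx₀]
    show x u - ⌊x u⌋₊ + (ind S u : ℝ) = x u - a u
    rw [hfl]
    push_cast
    ring
  rw [h2] at h1
  rw [h1, smul_smul, ← hx₀]
  congr 1
  have h3 : (fun v => ⌊x v⌋₊) = fun v => a v + ind S v := funext hfl
  rw [h3, gp_add hg]
  refine hx.2.subset (Set.union_subset ?_ ?_)
  · intro v hv hv0
    exact hv (hav v hv0)
  · rw [ind_ne]
    exact hSx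

end Final

end CONE

open CONE in
/-- **CONE.** -/
theorem cone : S_CONE := by
  intro V _ G m M _ ⟨e⟩ Q _ _ g hcont hg
  obtain ⟨m₀, -, -⟩ : M × M × ℝ := e.symm 0
  haveI : Nonempty M := ⟨m₀⟩
  haveI : TietzeExtension.{0, 0} M := by
    refine TietzeExtension.of_retract (Z := Fin m → ℝ) ⟨fun x => e (x, m₀, 0), ?_⟩
      ⟨fun y => (e.symm y).1, ?_⟩ ?_
    · exact e.continuous.comp (by fun_prop)
    · exact continuous_fst.comp e.symm.continuous
    · ext x
      simp
  obtain ⟨φ, hφc, hφ⟩ := exists_phi (M := M) hcont hg (Fintype.card V)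
  refine ⟨fun x => gp g (fun v => ⌊x v⌋₊) • φ (fun v => x v - ⌊x v⌋₊), φ '' (Set.Icc 0 1),
    (isCompact_Icc).image hφc, ?_, ?_⟩
  · have h1 : Cone G ⊆ ⋃ a : V → ℕ, (Cone G ∩ {x : V → ℝ | ∀ v, (a v : ℝ) ≤ x v ∧ x v ≤ a v + 1}) := by
      intro x hx
      refine Set.mem_iUnion.2 ⟨fun v => ⌊x v⌋₊, hx, fun v => ⟨Nat.floor_le (hx.1 v), ?_⟩⟩
      exact (Nat.lt_floor_add_one (x v)).le
    have hcone : IsClosed (Cone G) := by
      refine IsClosed.inter ?_ (isClosed_clique G)
      have h : {x : V → ℝ | ∀ v, 0 ≤ x v} = ⋂ v, {x : V → ℝ | 0 ≤ x v} := by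
        ext x
        simp
      change IsClosed {x : V → ℝ | ∀ v, 0 ≤ x v}
      rw [h]
      exact isClosed_iInter fun v => isClosed_le continuous_const (continuous_apply v)
    refine ContinuousOn.mono ?_ h1
    refine LocallyFinite.continuousOn_iUnion ((locFin V).subset fun a => Set.inter_subset_right) ?_ ?_
    · intro a
      refine hcone.inter ?_
      have h : {x : V → ℝ | ∀ v, (a v : ℝ) ≤ x v ∧ x v ≤ a v + 1} =
          ⋂ v, ({x : V → ℝ | (a v : ℝ) ≤ x v} ∩ {x | x v ≤ a v + 1}) := by
        ext x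
        simp
      rw [h]
      exact isClosed_iInter fun v => (isClosed_le continuous_const (continuous_apply v)).inter
        (isClosed_le (continuous_apply v) continuous_const)
    · intro a
      have h2 : Continuous fun x : V → ℝ => gp g a • φ (fun v => x v - a v) := by
        refine (hcont _).comp (hφc.comp ?_)
        exact continuous_pi fun u => (continuous_apply u).sub continuous_const
      exact h2.continuousOn.congr fun x hx => floor_piece hg hφ a hx.1 hx.2
  · intro x hx
    refine ⟨φ (fun v => x v - ⌊x v⌋₊), ⟨_, ⟨fun v => ?_, fun v => ?_⟩, rfl⟩, rfl⟩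
    · have := Nat.floor_le (hx.1 v)
      simpa using this
    · have := Nat.lt_floor_add_one (x v)
      show x v - ⌊x v⌋₊ ≤ 1
      linarith

end Pool.Agent.H56T
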