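import Pool.Agent.H56T.Phi

/-!
# The symmetric cycle on the deleted join of the octahedralization
-/

set_option autoImplicit false
set_option linter.unusedSectionVars false

namespace Pool.Agent.H56T

open Finset

section Cyc

variable {V : Type} [DecidableEq V]

open Classical in
/-- `FF φ A B = ∑_(S ⊆ A) φ (B ∪ S)` if `A ∪ B` is a clique -/
noncomputable def FF (G : SimpleGraph V) (φ : Finset V → ZMod 2) (A B : Finset V) : ZMod 2 :=
  if G.IsClique ((A ∪ B : Finset V) : Set V) then ∑ S ∈ A.powerset, φ (B ∪ S) else 0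

variable {G : SimpleGraph V} {φ : Finset V → ZMod 2}

theorem clique_ins {w : V} {C : Finset V} (h : ∀ u ∈ C, G.Adj w u) :
    G.IsClique ((insert w C : Finset V) : Set V) ↔ G.IsClique (C : Set V) := by
  rw [coe_insert, SimpleGraph.isClique_insert]
  constructor
  · exact fun h' => h'.1
  · exact fun h' => ⟨h', fun b hb _ => h b hb⟩

/-- the recursion -/
theorem FF_rec {w : V} {A B : Finset V} (hA : w ∉ A) (h : ∀ u ∈ A ∪ B, G.Adj w u) :
    FF G φ (insert w A) B + FF G φ A (insert w B) = FF G φ A B := by
  have h1 : insert w A ∪ B = insert w (A ∪ B) := insert_union _ _ _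
  have h2 : A ∪ insert w B = insert w (A ∪ B) := union_insert _ _ _
  unfold FF
  rw [h1, h2]
  by_cases hc : G.IsClique ((A ∪ B : Finset V) : Set V)
  · rw [if_pos ((clique_ins h).2 hc), if_pos ((clique_ins h).2 hc), if_pos hc, sum_powerset_insert hA]
    have h3 : ∀ S : Finset V, B ∪ insert w S = insert w B ∪ S := by
      intro S
      rw [union_insert, insert_union]
    simp only [h3]
    rw [add_assoc, z2, add_zero]
  · rw [if_neg (fun h' => hc ((clique_ins h).1 h')), if_neg (fun h' => hc ((clique_ins h).1 h')), if_neg hc,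
      add_zero]

/-- symmetry -/
theorem FF_symm (hφ : ∀ A : Finset V, G.IsClique (A : Set V) → ∑ S ∈ A.powerset, φ S = φ A) (A : Finset V) :
    ∀ B : Finset V, Disjoint A B → FF G φ A B = FF G φ B A := by
  induction A using Finset.induction_on with
  | empty =>
    intro B _
    unfold FF
    rw [empty_union, union_empty]
    by_cases hc : G.IsClique (B : Set V)
    · rw [if_pos hc, if_pos hc]
      simp only [empty_union, powerset_empty, sum_singleton, union_empty]
      exact (hφ B hc).symm
    · rw [if_neg hc, if_neg hc]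
  | insert w A hw ih =>
    intro B hd
    rw [disjoint_insert_left] at hd
    obtain ⟨hwB, hAB⟩ := hd
    by_cases hc : G.IsClique ((insert w (A ∪ B) : Finset V) : Set V)
    · have hadj : ∀ u ∈ A ∪ B, G.Adj w u := by
        intro u hu
        refine hc (by simp) (by exact_mod_cast mem_insert_of_mem hu) ?_
        rintro rfl
        rcases mem_union.mp hu with h | h
        · exact hw h
        · exact hwB h
      have e1 := FF_rec (φ := φ) hw hadj
      have e2 := FF_rec (φ := φ) (w := w) (A := B) (B := A) hwB (by rwa [union_comm])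
      have e3 := ih B hAB
      have e4 := ih (insert w B) (by rw [disjoint_insert_right]; exact ⟨hw, hAB⟩)
      have h5 : ∀ a b c d e f : ZMod 2, a + b = c → d + e = f → c = f → b = d → a = e := by decide
      exact h5 _ _ _ _ _ _ e1 e2 e3 e4
    · unfold FF
      rw [insert_union, union_insert, union_comm B A, if_neg hc, if_neg hc]

/-- the coefficients of the cycle -/
noncomputable def gg (G : SimpleGraph V) (φ : Finset V → ZMod 2) (U τ P : Finset V) : ZMod 2 :=
  ∑ D ∈ U.powerset, if P ⊆ D then FF G φ (D \ τ) (D ∩ τ) else 0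

theorem sub_ins {w : V} {P D : Finset V} (hP : w ∉ P) : P ⊆ insert w D ↔ P ⊆ D := by
  constructor
  · intro h x hx
    rcases mem_insert.mp (h hx) with rfl | h'
    · exact absurd hx hP
    · exact h'
  · intro h
    exact h.trans (subset_insert _ _)

theorem gg_ins {w : V} {U τ P : Finset V} (hU : w ∉ U) (hP : w ∉ P) :
    gg G φ (insert w U) τ P = ∑ D ∈ U.powerset, if P ⊆ D then
      FF G φ (D \ τ) (D ∩ τ) + FF G φ (insert w D \ τ) (insert w D ∩ τ) else 0 := by
  unfold gg
  rw [sum_powerset_insert hU, ← sum_add_distrib]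
  refine sum_congr rfl fun D _ => ?_
  by_cases hPD : P ⊆ D
  · rw [if_pos hPD, if_pos ((sub_ins hP).2 hPD), if_pos hPD]
  · rw [if_neg hPD, if_neg (fun h => hPD ((sub_ins hP).1 h)), if_neg hPD, add_zero]

theorem gg_ins' {w : V} {U τ P : Finset V} (hU : w ∉ U) (hP : w ∉ P) :
    gg G φ (insert w U) τ (insert w P) = ∑ D ∈ U.powerset, if P ⊆ D then
      FF G φ (insert w D \ τ) (insert w D ∩ τ) else 0 := by
  unfold gg
  rw [sum_powerset_insert hU, ← sum_add_distrib]
  refine sum_congr rfl fun D hD => ?_
  have hwD : w ∉ D := fun h => hU (mem_powerset.mp hD h)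
  rw [if_neg (fun h => hwD (h (mem_insert_self _ _))), zero_add]
  have this : insert w P ⊆ insert w D ↔ P ⊆ D := by
    rw [insert_subset_iff, sub_ins hP]
    simp
  by_cases hPD : P ⊆ D
  · rw [if_pos (this.2 hPD), if_pos hPD]
  · rw [if_neg (fun h => hPD (this.1 h)), if_neg hPD]

/-- summing over the two signs of a new vertex -/
theorem gg_two {w : V} {U τ P : Finset V} (hU : w ∉ U) (hP : w ∉ P) :
    gg G φ (insert w U) τ P + gg G φ (insert w U) τ (insert w P) = gg G φ U τ P := by
  rw [gg_ins hU hP, gg_ins' hU hP, ← sum_add_distrib]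
  unfold gg
  refine sum_congr rfl fun D _ => ?_
  split_ifs
  · rw [add_assoc, z2, add_zero]
  · rw [add_zero]

/-- moving a common vertex, first case -/
theorem gg_move {w : V} {U τ P : Finset V} (hU : w ∉ U) (hτ : w ∉ τ) (hP : w ∉ P) (h : ∀ u ∈ U, G.Adj w u) :
    gg G φ (insert w U) (insert w τ) P = gg G φ (insert w U) τ (insert w P) := by
  rw [gg_ins hU hP, gg_ins' hU hP]
  refine sum_congr rfl fun D hD => ?_
  have hDU := mem_powerset.mp hD
  have hwD : w ∉ D := fun h => hU (hDU h)
  split_ifs with hPD
  · have e1 : D \ insert w τ = D \ τ := by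
      ext x
      simp only [mem_sdiff, mem_insert, not_or]
      constructor
      · exact fun h => ⟨h.1, h.2.2⟩
      · exact fun h => ⟨h.1, fun e => hwD (e ▸ h.1), h.2⟩
    have e2 : D ∩ insert w τ = D ∩ τ := by
      ext x
      simp only [mem_inter, mem_insert]
      constructor
      · rintro ⟨h1, rfl | h2⟩
        · exact absurd h1 hwD
        · exact ⟨h1, h2⟩
      · exact fun h => ⟨h.1, Or.inr h.2⟩
    have e3 : insert w D \ insert w τ = D \ τ := by
      rw [insert_sdiff_insert, e1]
    have e4 : insert w D ∩ insert w τ = insert w (D ∩ τ) := by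
      rw [← insert_inter_distrib]
    have e5 : insert w D \ τ = insert w (D \ τ) := insert_sdiff_of_notMem _ hτ
    have e6 : insert w D ∩ τ = D ∩ τ := insert_inter_of_notMem hτ
    rw [e1, e2, e3, e4, e5, e6]
    have h7 := FF_rec (φ := φ) (w := w) (A := D \ τ) (B := D ∩ τ) (fun h' => hwD (mem_sdiff.mp h').1) (by
      intro u hu
      rw [sdiff_union_inter] at hu
      exact h u (hDU hu))
    have h8 : ∀ a b c : ZMod 2, a + b = c → c + b = a := by decide
    exact h8 _ _ _ h7
  · rfl

/-- moving a common vertex, second case -/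
theorem gg_move' {w : V} {U τ P : Finset V} (hU : w ∉ U) (hτ : w ∉ τ) (hP : w ∉ P) (h : ∀ u ∈ U, G.Adj w u) :
    gg G φ (insert w U) (insert w τ) (insert w P) = gg G φ (insert w U) τ P := by
  rw [gg_ins hU hP, gg_ins' hU hP]
  refine sum_congr rfl fun D hD => ?_
  have hDU := mem_powerset.mp hD
  have hwD : w ∉ D := fun h => hU (hDU h)
  split_ifs with hPD
  · have e1 : D \ insert w τ = D \ τ := by
      ext x
      simp only [mem_sdiff, mem_insert, not_or]
      constructor
      · exact fun h => ⟨h.1, h.2.2⟩
      · exact fun h => ⟨h.1, fun e => hwD (e ▸ h.1), h.2⟩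
    have e3 : insert w D \ insert w τ = D \ τ := by
      rw [insert_sdiff_insert, e1]
    have e4 : insert w D ∩ insert w τ = insert w (D ∩ τ) := by
      rw [← insert_inter_distrib]
    have e5 : insert w D \ τ = insert w (D \ τ) := insert_sdiff_of_notMem _ hτ
    have e6 : insert w D ∩ τ = D ∩ τ := insert_inter_of_notMem hτ
    rw [e3, e4, e5, e6]
    have h7 := FF_rec (φ := φ) (w := w) (A := D \ τ) (B := D ∩ τ) (fun h' => hwD (mem_sdiff.mp h').1) (by
      intro u hu
      rw [sdiff_union_inter] at hu
      exact h u (hDU hu))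
    have h8 : ∀ a b c : ZMod 2, a + b = c → b = c + a := by decide
    exact h8 _ _ _ h7
  · rfl

/-- the vertices in the set `I ⊆ U` are moved out of `τ`; the set `P` is changed by `I` -/
theorem gg_moves {U : Finset V} (I : Finset V) :
    ∀ τ P : Finset V, Disjoint I τ → I ⊆ U → (∀ w ∈ I, ∀ u ∈ U, u ≠ w → G.Adj w u) →
      gg G φ U (I ∪ τ) P = gg G φ U τ (symmDiff P I) := by
  induction I using Finset.induction_on with
  | empty =>
    intro τ P _ _ _
    rw [empty_union]
    congr 1
    ext x
    simp [mem_symmDiff]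
  | insert w I hw ih =>
    intro τ P hd hI hadj
    rw [disjoint_insert_left] at hd
    have hwU : w ∈ U := hI (mem_insert_self _ _)
    have hU : U = insert w (U.erase w) := (insert_erase hwU).symm
    have hadj' : ∀ u ∈ U.erase w, G.Adj w u := fun u hu =>
      hadj w (mem_insert_self _ _) u (mem_of_mem_erase hu) (ne_of_mem_erase hu)
    have e1 : insert w I ∪ τ = insert w (I ∪ τ) := insert_union _ _ _
    have hwτ : w ∉ I ∪ τ := by
      rw [mem_union]
      rintro (h | h)
      · exact hw h
      · exact hd.1 h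
    have ih' := fun P' => ih τ P' hd.2 ((subset_insert _ _).trans hI)
      (fun w' hw' => hadj w' (mem_insert_of_mem hw'))
    by_cases hP : w ∈ P
    · have e2 : P = insert w (P.erase w) := (insert_erase hP).symm
      have h1 : gg G φ U (insert w (I ∪ τ)) P = gg G φ U (I ∪ τ) (P.erase w) := by
        conv_lhs => rw [hU, e2]
        conv_rhs => rw [hU]
        exact gg_move' (notMem_erase _ _) hwτ (notMem_erase _ _) hadj'
      rw [e1, h1, ih']
      congr 1
      ext x
      simp only [mem_symmDiff, mem_erase, mem_insert]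
      by_cases hx : x = w
      · subst hx
        simp [hP, hw]
      · simp [hx]
    · have h1 : gg G φ U (insert w (I ∪ τ)) P = gg G φ U (I ∪ τ) (insert w P) := by
        conv_lhs => rw [hU]
        conv_rhs => rw [hU]
        exact gg_move (notMem_erase _ _) hwτ hP hadj'
      rw [e1, h1, ih']
      congr 1
      ext x
      simp only [mem_symmDiff, mem_insert]
      by_cases hx : x = w
      · subst hx
        simp [hP, hw]
      · simp [hx]

/-- symmetry of the coefficients -/
theorem gg_symm (hφ : ∀ A : Finset V, G.IsClique (A : Set V) → ∑ S ∈ A.powerset, φ S = φ A)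
    {σ τ P : Finset V} (hσ : G.IsClique (σ : Set V)) (hτ : G.IsClique (τ : Set V)) :
    gg G φ (σ ∪ τ) τ P = gg G φ (τ ∪ σ) σ (symmDiff P (σ ∩ τ)) := by
  have h1 : τ = (σ ∩ τ) ∪ (τ \ σ) := by
    ext x
    simp only [mem_union, mem_inter, mem_sdiff]
    tauto
  have h2 := gg_moves (G := G) (φ := φ) (U := σ ∪ τ) (σ ∩ τ) (τ \ σ) P (by
      rw [disjoint_left]
      intro x hx hx'
      exact (mem_sdiff.mp hx').2 (mem_inter.mp hx).1) (inter_subset_left.trans subset_union_left) (by
      intro w hw u hu huw
      rw [mem_inter] at hw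
      rcases mem_union.mp hu with h | h
      · exact hσ hw.1 h huw.symm
      · exact hτ hw.2 h huw.symm)
  rw [← h1] at h2
  rw [h2, union_comm τ σ]
  unfold gg
  refine sum_congr rfl fun D hD => ?_
  rw [mem_powerset] at hD
  split_ifs
  · have e1 : D \ (τ \ σ) = D ∩ σ := by
      ext x
      simp only [mem_sdiff, mem_inter, not_and, not_not]
      constructor
      · rintro ⟨h, h'⟩
        refine ⟨h, ?_⟩
        rcases mem_union.mp (hD h) with h3 | h3
        · exact h3
        · exact h' h3
      · exact fun h => ⟨h.1, fun _ => h.2⟩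
    have e2 : D ∩ (τ \ σ) = D \ σ := by
      ext x
      simp only [mem_sdiff, mem_inter]
      constructor
      · exact fun h => ⟨h.1, h.2.2⟩
      · rintro ⟨h, h'⟩
        refine ⟨h, ?_, h'⟩
        rcases mem_union.mp (hD h) with h3 | h3
        · exact absurd h3 h'
        · exact h3
    rw [e1, e2]
    refine FF_symm hφ _ _ ?_
    rw [disjoint_left]
    intro x hx hx'
    exact (mem_sdiff.mp hx').2 (mem_inter.mp hx).2
  · rfl

end Cyc

end Pool.Agent.H56T
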