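import Pool.Agent.H56T.ObsExa
import Pool.Agent.R782.Bal.Ex

/-!
# From exactness over `F_2` to generic exactness of the line complex of the octahedralization
-/

set_option autoImplicit false
set_option linter.unusedSectionVars false

namespace Pool.Agent.H56T

open Finset Pool.Agent.W907.SG Pool.Agent.W907.SM Pool.Agent.R782.Bal

section Ext

variable {V : Type} [Fintype V] [DecidableEq V] {G : SimpleGraph V}

/-- exactness over an extension of `F_2` -/
theorem exa_ext {K : Type} [Field K] [CharP K 2] {i : ℕ} (hE : Exa G i) (x : Finset V → K)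
    (hx : ∀ T : Finset V, ¬ (G.IsClique (T : Set V) ∧ T.card = i) → x T = 0)
    (hb : ∀ T : Finset V, ∑ v ∈ Tᶜ, x (insert v T) = 0) :
    ∃ y : Finset V → K, (∀ T : Finset V, ¬ (G.IsClique (T : Set V) ∧ T.card = i + 1) → y T = 0) ∧
      ∀ T : Finset V, ∑ v ∈ Tᶜ, y (insert v T) = x T := by
  classical
  let _ : Algebra (ZMod 2) K := ZMod.algebra K 2
  let B := Module.Basis.ofVectorSpace (ZMod 2) K
  have hex : ∀ j, ∃ y : Finset V → ZMod 2, Ch G (i + 1) y ∧ bb y = fun T => B.repr (x T) j := by
    intro j
    refine hE (fun T => B.repr (x T) j) ?_ ?_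
    · intro T hT
      beta_reduce
      rw [hx T hT]
      simp
    · funext T
      unfold bb
      have h1 := congrArg (fun a => B.repr a j) (hb T)
      simp only [map_sum, Finsupp.coe_finsetSum, Finset.sum_apply, map_zero, Finsupp.coe_zero,
        Pi.zero_apply] at h1
      exact h1
  choose Y hY1 hY2 using hex
  let J := (univ : Finset (Finset V)).biUnion fun T => (B.repr (x T)).support
  refine ⟨fun T => ∑ j ∈ J, Y j T • B j, ?_, ?_⟩
  · intro T hT
    refine sum_eq_zero fun j _ => ?_
    rw [hY1 j T hT, zero_smul]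
  · intro T
    rw [sum_comm]
    have h1 : ∀ j ∈ J, ∑ v ∈ Tᶜ, Y j (insert v T) • B j = B.repr (x T) j • B j := by
      intro j _
      rw [← sum_smul]
      have h2 := congrFun (hY2 j) T
      unfold bb at h2
      rw [h2]
    rw [sum_congr rfl h1]
    conv_rhs => rw [← B.linearCombination_repr (x T), Finsupp.linearCombination_apply, Finsupp.sum]
    symm
    refine sum_subset ?_ ?_
    · intro j hj
      exact mem_biUnion.2 ⟨T, mem_univ _, hj⟩
    · intro j _ hj
      rw [Finsupp.notMem_support_iff.1 hj, zero_smul]

end Ext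

section Hat

variable {V K : Type} [Fintype V] [DecidableEq V] [Field K] [CharP K 2] (τ : V × Bool → K)

/-- basis of `K²` -/
def be (v : V) (b ε : Bool) : K := if ε = true then τ (v, b) else 1

/-- dual basis -/
noncomputable def om (v : V) (b ε : Bool) : K := (if ε = true then 1 else τ (v, !b)) / (τ (v, true) + τ (v, false))

/-- coordinates -/
noncomputable def hat (a : (V → Bool) → K) (b : V → Bool) : K := ∑ ε, a ε * ∏ v, om τ v (b v) (ε v)

variable {τ}

theorem addself (a : K) : a + a = 0 := CharTwo.add_self_eq_zero a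

theorem om_be (hτ : ∀ v, τ (v, true) ≠ τ (v, false)) (v : V) (ε ε' : Bool) :
    ∑ c : Bool, om τ v c ε * be τ v c ε' = if ε = ε' then 1 else 0 := by
  have hΔ : τ (v, true) + τ (v, false) ≠ 0 := by
    intro h
    exact hτ v (CharTwo.add_eq_zero.1 h)
  rw [Fintype.sum_bool]
  unfold om be
  cases ε <;> cases ε'
  · simp only [Bool.false_eq_true, if_false, mul_one, if_true, Bool.not_true, Bool.not_false]
    rw [← add_div, add_comm, div_self hΔ]
  · simp only [Bool.false_eq_true, if_false, if_true, Bool.not_true, Bool.not_false]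
    rw [div_mul_eq_mul_div, div_mul_eq_mul_div, ← add_div, mul_comm, addself, zero_div]
  · simp only [if_true, Bool.false_eq_true, if_false, mul_one, Bool.true_eq_false]
    rw [addself]
  · simp only [if_true]
    rw [div_mul_eq_mul_div, div_mul_eq_mul_div, ← add_div, one_mul, one_mul, div_self hΔ]

theorem hat_inv (hτ : ∀ v, τ (v, true) ≠ τ (v, false)) (a : (V → Bool) → K) (ε' : V → Bool) :
    ∑ b, hat τ a b * ∏ v, be τ v (b v) (ε' v) = a ε' := by
  unfold hat
  have h1 : ∀ ε : V → Bool, ∑ b : V → Bool, (∏ v, om τ v (b v) (ε v)) * ∏ v, be τ v (b v) (ε' v) =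
      if ε = ε' then 1 else 0 := by
    intro ε
    rw [sum_congr rfl fun b _ => (prod_mul_distrib (f := fun v => om τ v (b v) (ε v))
      (g := fun v => be τ v (b v) (ε' v)) (s := univ)).symm]
    have h2 := prod_univ_sum (t := fun _ : V => (univ : Finset Bool))
      (f := fun v c => om τ v c (ε v) * be τ v c (ε' v))
    rw [Fintype.piFinset_univ] at h2
    rw [← h2, prod_congr rfl fun v _ => om_be hτ v (ε v) (ε' v)]
    by_cases h : ε = ε'
    · rw [if_pos h, h]
      simp
    · rw [if_neg h]
      obtain ⟨v, hv⟩ := Function.ne_iff.1 h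
      exact prod_eq_zero (mem_univ v) (if_neg hv)
  rw [sum_congr rfl fun b _ => sum_mul _ _ _, sum_comm]
  rw [sum_eq_single ε']
  · rw [sum_congr rfl fun b _ => mul_assoc _ _ _, ← mul_sum, h1, if_pos rfl, mul_one]
  · intro ε _ hε
    rw [sum_congr rfl fun b _ => mul_assoc _ _ _, ← mul_sum, h1, if_neg hε, mul_zero]
  · intro h
    exact absurd (mem_univ _) h

theorem hat_zero (b : V → Bool) : hat τ 0 b = 0 := by
  unfold hat
  simp

theorem hat_sum {ι : Type} (s : Finset ι) (f : ι → (V → Bool) → K) (b : V → Bool) :
    hat τ (∑ j ∈ s, f j) b = ∑ j ∈ s, hat τ (f j) b := by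
  unfold hat
  rw [sum_comm]
  refine sum_congr rfl fun ε _ => ?_
  rw [Finset.sum_apply, sum_mul]

/-- coordinates of elements on a line -/
theorem hat_line {a : (V → Bool) → K} {v : V} {c : Bool}
    (h : ∀ ε, a (Function.update ε v true) = τ (v, c) * a (Function.update ε v false)) {b : V → Bool}
    (hb : b v ≠ c) : hat τ a b = 0 := by
  unfold hat
  have hbc : b v = !c := by
    revert hb; cases b v <;> cases c <;> simp
  -- pairs of terms
  have key : ∀ ε : V → Bool, a (Function.update ε v true) * ∏ w, om τ w (b w) (Function.update ε v true w) +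
      a (Function.update ε v false) * ∏ w, om τ w (b w) (Function.update ε v false w) = 0 := by
    intro ε
    have h1 : ∀ d : Bool, ∏ w, om τ w (b w) (Function.update ε v d w) =
        om τ v (b v) d * ∏ w ∈ univ.erase v, om τ w (b w) (ε w) := by
      intro d
      rw [← mul_prod_erase univ _ (mem_univ v), Function.update_self]
      congr 1
      refine prod_congr rfl fun w hw => ?_
      rw [Function.update_of_ne (ne_of_mem_erase hw)]
    rw [h, h1, h1]
    set P := ∏ w ∈ univ.erase v, om τ w (b w) (ε w)
    have h2 : om τ v (b v) false = τ (v, c) * om τ v (b v) true := by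
      unfold om
      rw [hbc]
      simp [div_eq_mul_inv]
    rw [h2]
    have h3 : τ (v, c) * a (Function.update ε v false) * (om τ v (b v) true * P) =
        a (Function.update ε v false) * (τ (v, c) * om τ v (b v) true * P) := by ring
    rw [h3, addself]
  refine sum_involution (fun ε _ => Function.update ε v (!(ε v))) ?_ ?_ ?_ ?_
  · intro ε _
    have h1 := key ε
    rcases hε : ε v with _ | _
    · have h2 : Function.update ε v false = ε := by rw [← hε, Function.update_eq_self]
      rw [h2] at h1
      simp only [Bool.not_false]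
      rw [add_comm]
      exact h1
    · have h2 : Function.update ε v true = ε := by rw [← hε, Function.update_eq_self]
      rw [h2] at h1
      simp only [Bool.not_true]
      exact h1
  · intro ε _ _ h1
    have h2 := congrFun h1 v
    rw [Function.update_self] at h2
    revert h2
    cases ε v <;> simp
  · intro ε _
    exact mem_univ _
  · intro ε _
    simp only [Function.update_self, Bool.not_not, Function.update_idem, Function.update_eq_self]

end Hat

section DD

variable {V K : Type} [Fintype V] [DecidableEq V] [Field K] [CharP K 2] {G : SimpleGraph V} {τ : V × Bool → K}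

/-- the lift to the graph of `b` -/
def lif (b : V → Bool) (S : Finset V) : Finset (V × Bool) := S.image (fun v => (v, b v))

theorem mem_lif {b : V → Bool} {S : Finset V} {x : V × Bool} : x ∈ lif b S ↔ x.1 ∈ S ∧ x.2 = b x.1 := by
  unfold lif
  rw [mem_image]
  constructor
  · rintro ⟨v, hv, rfl⟩
    exact ⟨hv, rfl⟩
  · rintro ⟨h1, h2⟩
    exact ⟨x.1, h1, Prod.ext rfl h2.symm⟩

theorem lif_insert (b : V → Bool) (v : V) (S : Finset V) : lif b (insert v S) = insert (v, b v) (lif b S) :=
  image_insert _ _ _

theorem lif_card (b : V → Bool) (S : Finset V) : (lif b S).card = S.card :=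
  card_image_of_injective _ fun _ _ h => (Prod.ext_iff.1 h).1

theorem lif_clique (b : V → Bool) (S : Finset V) :
    (dbl G).IsClique (lif b S : Set (V × Bool)) ↔ G.IsClique (S : Set V) := by
  constructor
  · intro h u hu w hw huw
    have := h (mem_coe.2 (mem_lif.2 ⟨hu, rfl⟩ : (u, b u) ∈ lif b S)) (mem_coe.2 (mem_lif.2 ⟨hw, rfl⟩ : (w, b w) ∈ lif b S))
      (fun h' => huw (Prod.ext_iff.1 h').1)
    exact this
  · intro h x hx y hy hxy
    rw [mem_coe, mem_lif] at hx hy
    refine h (mem_coe.2 hx.1) (mem_coe.2 hy.1) fun h' => hxy (Prod.ext h' ?_)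
    rw [hx.2, hy.2, h']

variable [instF : Fintype (V × Bool)] [instL : LinearOrder (V × Bool)]

theorem bdd_eq (c : Finset (V × Bool) → (V → Bool) → K) (T : Finset (V × Bool)) :
    bdd c T = ∑ x ∈ Tᶜ, c (insert x T) := by
  rw [bdd]
  simp only [Pool.Agent.R782.Bal.sg_smul (K := K)]
  refine Finset.sum_congr ?_ fun x _ => ?_
  · ext x
    simp only [Finset.mem_compl]
  · congr 1
    ext y
    simp only [Finset.mem_insert]

/-- **generic exactness** -/
theorem ex_dbl {i : ℕ} (hE : Exa G i) (hτ : ∀ v, τ (v, true) ≠ τ (v, false)) :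
    EX (dbl G) Prod.fst Set.univ τ Set.univ i := by
  intro z hz hb
  have hbd : ∀ T : Finset (V × Bool), ∑ x ∈ Tᶜ, z (insert x T) = 0 := by
    intro T
    have h1 := congrFun hb T
    rw [bdd_eq] at h1
    exact h1
  -- the coordinates vanish unless `T` is in the graph
  have hv : ∀ (T : Finset (V × Bool)) (b : V → Bool), (∃ x ∈ T, x.2 ≠ b x.1) → hat τ (z T) b = 0 := by
    rintro T b ⟨x, hx, hxb⟩
    refine hat_line (v := x.1) (c := x.2) (fun ε => ?_) hxb.symm
    exact hz.line T x hx (Set.mem_univ _) ε
  have hex : ∀ b : V → Bool, ∃ y : Finset V → K,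
      (∀ T : Finset V, ¬ (G.IsClique (T : Set V) ∧ T.card = i + 1) → y T = 0) ∧
      ∀ T : Finset V, ∑ v ∈ Tᶜ, y (insert v T) = hat τ (z (lif b T)) b := by
    intro b
    refine exa_ext hE (fun T => hat τ (z (lif b T)) b) ?_ ?_
    · intro T hT
      rw [hz.supp (lif b T), hat_zero]
      rintro ⟨h1, _, h2⟩
      exact hT ⟨(lif_clique b T).1 h1, by rw [← lif_card b T, h2]⟩
    · intro T
      have h1 := congrArg (fun a => hat τ a b) (hbd (lif b T))
      simp only [hat_sum, hat_zero] at h1
      rw [← h1]
      refine sum_of_injOn (fun v => (v, b v)) ?_ ?_ ?_ ?_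
      · intro u _ w _ h
        exact (Prod.ext_iff.1 h).1
      · intro v hv'
        rw [mem_coe, mem_compl] at hv' ⊢
        rw [mem_lif]
        exact fun h => hv' h.1
      · intro x hx hx'
        refine hv _ _ ⟨x, mem_insert_self _ _, fun h => hx' ?_⟩
        refine ⟨x.1, ?_, Prod.ext rfl h.symm⟩
        rw [mem_coe, mem_compl]
        rw [mem_compl, mem_lif] at hx
        exact fun h' => hx ⟨h', h⟩
      · intro v _
        rw [lif_insert]
  choose y hy1 hy2 using hex
  classical
  refine ⟨fun T ε => ∑ b : V → Bool, if ∀ x ∈ T, x.2 = b x.1 then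
    y b (T.image Prod.fst) * ∏ v, be τ v (b v) (ε v) else 0, ⟨?_, ?_⟩, ?_⟩
  · intro T hT
    funext ε
    refine sum_eq_zero fun b _ => ?_
    split_ifs with h
    · rw [hy1 b, zero_mul]
      rintro ⟨h1, h2⟩
      have h3 : lif b (T.image Prod.fst) = T := by
        ext x
        rw [mem_lif, mem_image]
        constructor
        · rintro ⟨⟨x', hx', h4⟩, h5⟩
          have : x' = x := Prod.ext h4 (by rw [h x' hx', h4, h5])
          exact this ▸ hx'
        · intro hx
          exact ⟨⟨x, hx, rfl⟩, h x hx⟩
      apply hT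
      rw [← h3]
      exact ⟨(lif_clique b _).2 h1, Set.subset_univ _, by rw [lif_card, h2]⟩
    · rfl
  · intro T t ht _ ε
    beta_reduce
    rw [mul_sum]
    refine sum_congr rfl fun b _ => ?_
    split_ifs with h
    · have h1 : ∀ d : Bool, ∏ w, be τ w (b w) (Function.update ε t.1 d w) =
          be τ t.1 (b t.1) d * ∏ w ∈ univ.erase t.1, be τ w (b w) (ε w) := by
        intro d
        rw [← mul_prod_erase univ _ (mem_univ t.1), Function.update_self]
        congr 1
        refine prod_congr rfl fun w hw => ?_
        rw [Function.update_of_ne (ne_of_mem_erase hw)]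
      rw [h1, h1]
      have h2 : be τ t.1 (b t.1) true = τ t := by
        unfold be
        rw [if_pos rfl, ← h t ht]
      have h3 : be τ t.1 (b t.1) false = 1 := by
        unfold be
        rw [if_neg (by simp)]
      rw [h2, h3]
      ring
    · rw [mul_zero]
  · funext T ε
    rw [bdd_eq, Finset.sum_apply, sum_comm]
    conv_rhs => rw [← hat_inv hτ (z T) ε]
    refine sum_congr rfl fun b _ => ?_
    by_cases h : ∀ x ∈ T, x.2 = b x.1
    · have h3 : lif b (T.image Prod.fst) = T := by
        ext x
        rw [mem_lif, mem_image]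
        constructor
        · rintro ⟨⟨x', hx', h4⟩, h5⟩
          have : x' = x := Prod.ext h4 (by rw [h x' hx', h4, h5])
          exact this ▸ hx'
        · intro hx
          exact ⟨⟨x, hx, rfl⟩, h x hx⟩
      have h4 := hy2 b (T.image Prod.fst)
      rw [h3] at h4
      rw [← h4, sum_mul]
      symm
      refine sum_of_injOn (fun v => (v, b v)) ?_ ?_ ?_ ?_
      · intro u _ w _ h'
        exact (Prod.ext_iff.1 h').1
      · intro v hv'
        rw [mem_coe, mem_compl] at hv' ⊢
        exact fun h' => hv' (mem_image.2 ⟨_, h', rfl⟩)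
      · intro x hx hx'
        rw [if_neg]
        intro h5
        apply hx'
        refine ⟨x.1, ?_, Prod.ext rfl (h5 x (mem_insert_self _ _)).symm⟩
        rw [mem_coe, mem_compl]
        rw [mem_compl] at hx
        intro h6
        obtain ⟨x', hx1, hx2⟩ := mem_image.1 h6
        have : x' = x := Prod.ext hx2 (by rw [h x' hx1, hx2, h5 x (mem_insert_self _ _)])
        exact hx (this ▸ hx1)
      · intro v hv'
        rw [if_pos, image_insert]
        intro x hx
        rcases mem_insert.1 hx with rfl | hx
        · rfl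
        · exact h x hx
    · rw [hv T b (by push Not at h; exact h), zero_mul]
      refine sum_eq_zero fun x _ => ?_
      rw [if_neg]
      intro h5
      exact h fun x' hx' => h5 x' (mem_insert_of_mem hx')

end DD

/-- **DBL** -/
theorem dbl_l2 : S_DBL := by
  intro V _ G D hO _ _ i hi
  classical
  have : CharP (MvPolynomial (V × Bool) (ZMod 2)) 2 := inferInstance
  have : CharP (FractionRing (MvPolynomial (V × Bool) (ZMod 2))) 2 := inferInstance
  refine l2_of_ex t1 t2 t3 t4 t6 (V × Bool) V (dbl G) Prod.fst i ?_ ?_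
  · intro u w h h'
    have h1 : G.Adj u.1 w.1 := h
    rw [h'] at h1
    exact G.loopless.irrefl _ h1
  · refine ex_dbl (exa_of_obs hO i hi) fun v h => ?_
    have h1 := IsFractionRing.injective (MvPolynomial (V × Bool) (ZMod 2))
      (FractionRing (MvPolynomial (V × Bool) (ZMod 2))) h
    have h2 := MvPolynomial.X_injective h1
    simp at h2

end Pool.Agent.H56T
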