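import Pool.Agent.H56T.Cyc

/-!
# The symmetric cycle on the deleted join of the octahedralization, part 2: cycle condition and evaluation
-/

set_option autoImplicit false
set_option linter.unusedSectionVars false

namespace Pool.Agent.H56T

open Finset Pool.Agent.W555.KS Pool.Agent.Y131.KS Pool.Agent.R782.Bal

section ZZ

variable {V α : Type} [Fintype V] [DecidableEq V] [Fintype α] [DecidableEq α] (e : α ≃ V × Bool)
  (G : SimpleGraph V)

/-- labels -/
def im (S : Finset α) : Finset V := S.image (fun a => (e a).1)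

/-- labels of the negative elements -/
def ng (S : Finset α) : Finset V := univ.filter (fun v => e.symm (v, true) ∈ S)

/-- cliques of the octahedralization -/
def CQ (S : Finset α) : Prop := ∀ a ∈ S, ∀ b ∈ S, a ≠ b → G.Adj (e a).1 (e b).1

variable {e G}

theorem mem_im' {S : Finset α} {v : V} : v ∈ im e S ↔ ∃ a ∈ S, (e a).1 = v := mem_image

theorem mem_im {S : Finset α} {v : V} : v ∈ im e S ↔ e.symm (v, false) ∈ S ∨ e.symm (v, true) ∈ S := by
  rw [mem_im']
  constructor
  · rintro ⟨a, ha, h⟩
    rcases hb : (e a).2 with _ | _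
    · left
      have : (v, false) = e a := by rw [← h, ← hb]
      rw [this, e.symm_apply_apply]
      exact ha
    · right
      have : (v, true) = e a := by rw [← h, ← hb]
      rw [this, e.symm_apply_apply]
      exact ha
  · rintro (h | h)
    · exact ⟨_, h, by simp⟩
    · exact ⟨_, h, by simp⟩

theorem mem_ng {S : Finset α} {v : V} : v ∈ ng e S ↔ e.symm (v, true) ∈ S := by
  simp [ng]

theorem ng_sub {S : Finset α} : ng e S ⊆ im e S := fun _ h => mem_im.2 (Or.inr (mem_ng.1 h))

theorem CQ.sect {S : Finset α} (h : CQ e G S) {v : V} (h1 : e.symm (v, false) ∈ S)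
    (h2 : e.symm (v, true) ∈ S) : False := by
  have := h _ h1 _ h2 (fun h' => by simpa using congrArg e h')
  simp at this

theorem CQ.inj {S : Finset α} (h : CQ e G S) : Set.InjOn (fun a => (e a).1) (S : Set α) := by
  intro a ha b hb hab
  by_contra hne
  have h1 := h a ha b hb hne
  rw [show (e a).1 = (e b).1 from hab] at h1
  exact G.loopless.irrefl _ h1

theorem CQ.card {S : Finset α} (h : CQ e G S) : (im e S).card = S.card := card_image_of_injOn h.inj

theorem CQ.clique {S : Finset α} (h : CQ e G S) : G.IsClique (im e S : Set V) := by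
  intro x hx y hy hxy
  obtain ⟨a, ha, rfl⟩ := mem_im'.1 (mem_coe.1 hx)
  obtain ⟨b, hb, rfl⟩ := mem_im'.1 (mem_coe.1 hy)
  exact h a ha b hb (fun h' => hxy (by rw [h']))

theorem CQ.mono {S T : Finset α} (h : CQ e G T) (hST : S ⊆ T) : CQ e G S :=
  fun a ha b hb hab => h a (hST ha) b (hST hb) hab

theorem im_insert {S : Finset α} {x : α} : im e (insert x S) = insert (e x).1 (im e S) := image_insert _ _ _

theorem CQ_insert {S : Finset α} (h : CQ e G S) {x : α} (hx : (e x).1 ∉ im e S) :
    CQ e G (insert x S) ↔ G.IsClique ((insert (e x).1 (im e S) : Finset V) : Set V) := by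
  constructor
  · intro h'
    rw [← im_insert]
    exact h'.clique
  · intro h' a ha b hb hab
    rw [mem_insert] at ha hb
    rcases ha with rfl | ha
    · rcases hb with rfl | hb
      · exact absurd rfl hab
      · refine h' (by simp) (by simpa using Or.inr (mem_im'.2 ⟨b, hb, rfl⟩)) ?_
        intro h''
        exact hx (mem_im'.2 ⟨b, hb, h''.symm⟩)
    · rcases hb with rfl | hb
      · refine h' (by simpa using Or.inr (mem_im'.2 ⟨a, ha, rfl⟩)) (by simp) ?_
        intro h''
        exact hx (mem_im'.2 ⟨a, ha, h''⟩)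
      · exact h a ha b hb hab

theorem not_CQ_insert {S : Finset α} {x : α} (hx : x ∉ S) (hx' : (e x).1 ∈ im e S) :
    ¬ CQ e G (insert x S) := by
  intro h
  obtain ⟨a, ha, h1⟩ := mem_im'.1 hx'
  have := h.inj (mem_coe.2 (mem_insert_of_mem ha)) (mem_coe.2 (mem_insert_self _ _)) h1
  exact hx (this ▸ ha)

theorem mem_clF' {n : ℕ} {f : (V × Bool) ≃ Fin n} {σ : Finset (Fin n)} :
    σ ∈ clF (dbl G) f ↔ CQ f.symm G σ := by
  rw [mem_clF]
  constructor
  · intro h a ha b hb hab
    exact h (mem_coe.2 (mem_map_of_mem _ ha)) (mem_coe.2 (mem_map_of_mem _ hb)) (fun h' => hab (f.symm.injective h'))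
  · intro h x hx y hy hxy
    obtain ⟨a, ha, rfl⟩ := mem_map.1 (mem_coe.1 hx)
    obtain ⟨b, hb, rfl⟩ := mem_map.1 (mem_coe.1 hy)
    exact h a ha b hb (fun h' => hxy (by rw [h']))

variable (e G)

open Classical in
/-- the cycle -/
noncomputable def Z0 (z φ : Finset V → ZMod 2) (S T : Finset α) : ZMod 2 :=
  if CQ e G S ∧ CQ e G T ∧ Disjoint S T then
    z (im e S) * z (im e T) * gg G φ (im e S ∪ im e T) (im e T) (ng e T ∪ (ng e S \ im e T)) else 0

variable {e G}

theorem Z0_symm {z φ : Finset V → ZMod 2}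
    (hφ : ∀ A : Finset V, G.IsClique (A : Set V) → ∑ S ∈ A.powerset, φ S = φ A) (S T : Finset α) :
    Z0 e G z φ S T = Z0 e G z φ T S := by
  unfold Z0
  by_cases h : CQ e G S ∧ CQ e G T ∧ Disjoint S T
  · obtain ⟨hS, hT, hd⟩ := h
    rw [if_pos ⟨hS, hT, hd⟩, if_pos ⟨hT, hS, hd.symm⟩, gg_symm hφ hS.clique hT.clique,
      mul_comm (z (im e S))]
    congr 2
    ext v
    have h1 := mem_im (e := e) (S := S) (v := v)
    have h2 := mem_im (e := e) (S := T) (v := v)
    have h3 := mem_ng (e := e) (S := S) (v := v)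
    have h4 := mem_ng (e := e) (S := T) (v := v)
    have h5 := hS.sect (v := v)
    have h6 := hT.sect (v := v)
    have h7 : e.symm (v, true) ∈ S → e.symm (v, true) ∈ T → False := fun a b =>
      disjoint_left.1 hd a b
    have h8 : e.symm (v, false) ∈ S → e.symm (v, false) ∈ T → False := fun a b =>
      disjoint_left.1 hd a b
    rw [mem_symmDiff, mem_union, mem_union, mem_sdiff, mem_sdiff, mem_inter, h1, h2, h3, h4]
    tauto
  · rw [if_neg h, if_neg (fun h' => h ⟨h'.2.1, h'.1, h'.2.2.symm⟩)]

theorem Z0_half {z φ : Finset V → ZMod 2} {i : ℕ} (hz : Ch G i z) (hb : bb z = 0) (ρ T : Finset α)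
    (hd : Disjoint ρ T) : ∑ x ∈ (ρ ∪ T)ᶜ, Z0 e G z φ (insert x ρ) T = 0 := by
  classical
  by_cases hc : CQ e G ρ ∧ CQ e G T
  swap
  · refine sum_eq_zero fun x _ => ?_
    unfold Z0
    rw [if_neg]
    rintro ⟨h1, h2, _⟩
    exact hc ⟨h1.mono (subset_insert _ _), h2⟩
  obtain ⟨hρ, hT⟩ := hc
  set c := z (im e T) * gg G φ (im e ρ ∪ im e T) (im e T) (ng e T ∪ (ng e ρ \ im e T)) with hcdef
  have h1 : ∑ x ∈ (ρ ∪ T)ᶜ, Z0 e G z φ (insert x ρ) T =
      ∑ v : V, ∑ b : Bool, if e.symm (v, b) ∈ (ρ ∪ T)ᶜ then Z0 e G z φ (insert (e.symm (v, b)) ρ) T else 0 := by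
    rw [← Fintype.sum_prod_type (f := fun p : V × Bool => if e.symm p ∈ (ρ ∪ T)ᶜ then
      Z0 e G z φ (insert (e.symm p) ρ) T else 0)]
    rw [Equiv.sum_comp e.symm (fun x => if x ∈ (ρ ∪ T)ᶜ then Z0 e G z φ (insert x ρ) T else 0)]
    rw [← sum_filter]
    refine sum_congr ?_ fun _ _ => rfl
    ext x
    simp
  have h2 : ∀ v : V, (∑ b : Bool, if e.symm (v, b) ∈ (ρ ∪ T)ᶜ then
      Z0 e G z φ (insert (e.symm (v, b)) ρ) T else 0) = if v ∈ (im e ρ)ᶜ then z (insert v (im e ρ)) * c else 0 := by
    intro v
    by_cases hv : v ∈ im e ρ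
    · rw [if_neg (by simpa using hv)]
      refine sum_eq_zero fun b _ => ?_
      split_ifs with hm
      · unfold Z0
        rw [if_neg]
        rintro ⟨h3, _⟩
        rw [mem_compl, mem_union, not_or] at hm
        exact not_CQ_insert hm.1 (by simpa using hv) h3
      · rfl
    rw [if_pos (by simpa using hv)]
    have hvρ : ∀ b, e.symm (v, b) ∉ ρ := fun b hb' => hv (mem_im'.2 ⟨_, hb', by simp⟩)
    -- the value of the terms
    have hterm : ∀ b : Bool, e.symm (v, b) ∉ T → Z0 e G z φ (insert (e.symm (v, b)) ρ) T =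
        z (insert v (im e ρ)) * (z (im e T) * gg G φ (insert v (im e ρ) ∪ im e T) (im e T)
          (ng e T ∪ ((if b = true then insert v (ng e ρ) else ng e ρ) \ im e T))) := by
      intro b hbT
      have e1 : im e (insert (e.symm (v, b)) ρ) = insert v (im e ρ) := by
        rw [im_insert, e.apply_symm_apply]
      have e2 : ng e (insert (e.symm (v, b)) ρ) = if b = true then insert v (ng e ρ) else ng e ρ := by
        ext w
        rw [mem_ng, mem_insert]
        cases b
        · simp only [Bool.false_eq_true, if_false, mem_ng]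
          constructor
          · rintro (h | h)
            · have := e.symm.injective h
              simp at this
            · exact h
          · exact Or.inr
        · simp only [if_true, mem_insert, mem_ng]
          constructor
          · rintro (h | h)
            · left
              have := e.symm.injective h
              simpa using this
            · exact Or.inr h
          · rintro (rfl | h)
            · exact Or.inl rfl
            · exact Or.inr h
      by_cases hcl : CQ e G (insert (e.symm (v, b)) ρ)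
      · unfold Z0
        rw [if_pos ⟨hcl, hT, by rw [disjoint_insert_left]; exact ⟨hbT, hd⟩⟩, e1, e2, mul_assoc]
      · unfold Z0
        rw [if_neg (fun h => hcl h.1)]
        have h3 : z (insert v (im e ρ)) = 0 := by
          refine hz _ fun h => hcl ?_
          rw [CQ_insert hρ (by simpa using hv), e.apply_symm_apply]
          exact h.1
        rw [h3, zero_mul]
    rw [Fintype.sum_bool]
    by_cases hvT : v ∈ im e T
    · have e3 : insert v (im e ρ) ∪ im e T = im e ρ ∪ im e T := by
        rw [insert_union, insert_eq_of_mem (mem_union_right _ hvT)]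
      have e4 : ∀ b : Bool, (if b = true then insert v (ng e ρ) else ng e ρ) \ im e T = ng e ρ \ im e T := by
        intro b
        split_ifs
        · rw [insert_sdiff_of_mem _ hvT]
        · rfl
      have h5 : ∀ b : Bool, e.symm (v, b) ∉ T → Z0 e G z φ (insert (e.symm (v, b)) ρ) T =
          z (insert v (im e ρ)) * c := by
        intro b hbT
        rw [hterm b hbT, e3, e4]
      rcases mem_im.1 hvT with h | h
      · have h' : e.symm (v, true) ∉ T := fun h' => hT.sect h h'
        rw [if_pos (by rw [mem_compl, mem_union, not_or]; exact ⟨hvρ _, h'⟩),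
          if_neg (by rw [mem_compl, not_not]; exact mem_union_right _ h), h5 _ h', add_zero]
      · have h' : e.symm (v, false) ∉ T := fun h' => hT.sect h' h
        rw [if_neg (by rw [mem_compl, not_not]; exact mem_union_right _ h),
          if_pos (by rw [mem_compl, mem_union, not_or]; exact ⟨hvρ _, h'⟩), h5 _ h', zero_add]
    · have hvT' : ∀ b, e.symm (v, b) ∉ T := fun b hb' => hvT (mem_im'.2 ⟨_, hb', by simp⟩)
      rw [if_pos (by rw [mem_compl, mem_union, not_or]; exact ⟨hvρ _, hvT' _⟩),
        if_pos (by rw [mem_compl, mem_union, not_or]; exact ⟨hvρ _, hvT' _⟩), hterm _ (hvT' _), hterm _ (hvT' _),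
        ← mul_add, ← mul_add, if_pos rfl, if_neg (by simp), insert_union]
      have e5 : ng e T ∪ (insert v (ng e ρ) \ im e T) = insert v (ng e T ∪ (ng e ρ \ im e T)) := by
        rw [insert_sdiff_of_notMem _ hvT, union_insert]
      rw [e5, add_comm, gg_two]
      · intro h
        rcases mem_union.1 h with h | h
        · exact hv h
        · exact hvT h
      · intro h
        rcases mem_union.1 h with h | h
        · exact hvT (ng_sub h)
        · exact hv (ng_sub (mem_sdiff.1 h).1)
  rw [h1, sum_congr rfl fun v _ => h2 v, ← sum_filter]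
  have h3 : univ.filter (fun v => v ∈ (im e ρ)ᶜ) = (im e ρ)ᶜ := by
    ext v; simp
  rw [h3, ← sum_mul]
  have h4 : ∑ v ∈ (im e ρ)ᶜ, z (insert v (im e ρ)) = 0 := congrFun hb (im e ρ)
  rw [h4, zero_mul]

theorem Z0_cyc {z φ : Finset V → ZMod 2} {i : ℕ} (hz : Ch G i z) (hb : bb z = 0)
    (hφ : ∀ A : Finset V, G.IsClique (A : Set V) → ∑ S ∈ A.powerset, φ S = φ A) (ρ T : Finset α)
    (hd : Disjoint ρ T) : ∑ x ∈ (ρ ∪ T)ᶜ, (Z0 e G z φ (insert x ρ) T + Z0 e G z φ ρ (insert x T)) = 0 := by
  rw [sum_add_distrib, Z0_half hz hb ρ T hd, zero_add, union_comm]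
  rw [sum_congr rfl fun x _ => Z0_symm hφ ρ (insert x T)]
  exact Z0_half hz hb T ρ hd.symm

end ZZ

end Pool.Agent.H56T
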