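import Pool.Agent.H56T.Ev

/-!
# The symmetric cycle on the deleted join of the octahedralization, part 3: the value of the obstruction
-/

set_option autoImplicit false
set_option linter.unusedSectionVars false

namespace Pool.Agent.H56T

open Finset Pool.Agent.W555.KS Pool.Agent.Y131.KS Pool.Agent.R782.Bal

theorem filter_lt_image {n : ℕ} {U : Finset (Fin n)} {f : Fin n → Fin n} (hf : StrictMonoOn f (U : Set (Fin n)))
    {x : Fin n} (hx : x ∈ U) : ((U.image f).filter (fun w => w < f x)).card = (U.filter (fun w => w < x)).card := by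
  have h1 : (U.image f).filter (fun w => w < f x) = (U.filter (fun w => w < x)).image f := by
    ext y
    simp only [mem_filter, mem_image]
    constructor
    · rintro ⟨⟨w, hw, rfl⟩, h⟩
      exact ⟨w, ⟨hw, (hf.lt_iff_lt (mem_coe.2 hw) (mem_coe.2 hx)).1 h⟩, rfl⟩
    · rintro ⟨w, ⟨hw, h⟩, rfl⟩
      exact ⟨⟨w, hw, rfl⟩, hf (mem_coe.2 hw) (mem_coe.2 hx) h⟩
  rw [h1, card_image_of_injOn]
  exact hf.injOn.mono (by intro y hy; exact mem_coe.2 (mem_filter.1 (mem_coe.1 hy)).1)

theorem evenPart_image {n : ℕ} {U : Finset (Fin n)} {f : Fin n → Fin n} (hf : StrictMonoOn f (U : Set (Fin n))) :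
    evenPart (U.image f) = (evenPart U).image f := by
  ext y
  simp only [evenPart, mem_filter, mem_image]
  constructor
  · rintro ⟨⟨x, hx, rfl⟩, h⟩
    rw [filter_lt_image hf hx] at h
    exact ⟨x, ⟨hx, h⟩, rfl⟩
  · rintro ⟨x, ⟨hx, h⟩, rfl⟩
    refine ⟨⟨x, hx, rfl⟩, ?_⟩
    rw [filter_lt_image hf hx]
    exact h

theorem oddPart_image {n : ℕ} {U : Finset (Fin n)} {f : Fin n → Fin n} (hf : StrictMonoOn f (U : Set (Fin n))) :
    oddPart (U.image f) = (oddPart U).image f := by
  ext y
  simp only [oddPart, mem_filter, mem_image]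
  constructor
  · rintro ⟨⟨x, hx, rfl⟩, h⟩
    rw [filter_lt_image hf hx] at h
    exact ⟨x, ⟨hx, h⟩, rfl⟩
  · rintro ⟨x, ⟨hx, h⟩, rfl⟩
    refine ⟨⟨x, hx, rfl⟩, ?_⟩
    rw [filter_lt_image hf hx]
    exact h

section EE

variable {V : Type} [Fintype V] [DecidableEq V] {n : ℕ} {e : Fin n ≃ V × Bool} {G : SimpleGraph V}

/-- the order of `Fin n`: the two elements with the same label are adjacent -/
def Adjc (e : Fin n ≃ V × Bool) (q : V → ℕ) : Prop := Function.Injective q ∧
  ∀ a b : Fin n, a < b ↔ q (e a).1 < q (e b).1 ∨ ((e a).1 = (e b).1 ∧ (e a).2 = false ∧ (e b).2 = true)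

open Classical in
/-- change of the sign of the chosen element of `K` -/
noncomputable def fl (e : Fin n ≃ V × Bool) (K : Finset V) (a : Fin n) : Fin n :=
  if ∃ h : K.Nonempty, (e a).1 = h.choose then e.symm ((e a).1, !(e a).2) else a

theorem fl_fst (K : Finset V) (a : Fin n) : (e (fl e K a)).1 = (e a).1 := by
  unfold fl
  split_ifs
  · rw [e.apply_symm_apply]
  · rfl

theorem fl_fl (K : Finset V) (a : Fin n) : fl e K (fl e K a) = a := by
  by_cases h : ∃ h : K.Nonempty, (e a).1 = h.choose
  · have h1 : fl e K a = e.symm ((e a).1, !(e a).2) := by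
      unfold fl; rw [if_pos h]
    rw [h1]
    unfold fl
    rw [if_pos (by rw [e.apply_symm_apply]; exact h), e.apply_symm_apply]
    simp
  · have h1 : fl e K a = a := by
      unfold fl; rw [if_neg h]
    rw [h1, h1]

theorem fl_inj (K : Finset V) : Function.Injective (fl e K) := fun a b h => by
  rw [← fl_fl (e := e) K a, h, fl_fl]

theorem fl_mono {q : V → ℕ} (hq : Adjc e q) {K : Finset V} {U : Finset (Fin n)}
    (hU : ∀ h : K.Nonempty, ¬ (e.symm (h.choose, false) ∈ U ∧ e.symm (h.choose, true) ∈ U)) :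
    StrictMonoOn (fl e K) (U : Set (Fin n)) := by
  intro a ha b hb hab
  rw [hq.2] at hab ⊢
  rw [fl_fst, fl_fst]
  rcases hab with h | ⟨h1, h2, h3⟩
  · exact Or.inl h
  · right
    have hn : ¬ ∃ h : K.Nonempty, (e a).1 = h.choose := by
      rintro ⟨h, h4⟩
      refine hU h ⟨?_, ?_⟩
      · rw [← h4, ← h2]
        simpa using ha
      · rw [← h4, h1, ← h3]
        simpa using hb
    have e1 : fl e K a = a := by
      unfold fl; rw [if_neg hn]
    have e2 : fl e K b = b := by
      unfold fl; rw [if_neg (by rw [← h1]; exact hn)]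
    rw [e1, e2]
    exact ⟨h1, h2, h3⟩

theorem im_fl (K : Finset V) (S : Finset (Fin n)) : im e (S.image (fl e K)) = im e S := by
  unfold im
  rw [image_image]
  refine image_congr fun a _ => ?_
  exact fl_fst K a

theorem CQ_fl (K : Finset V) (S : Finset (Fin n)) : CQ e G (S.image (fl e K)) ↔ CQ e G S := by
  constructor
  · intro h a ha b hb hab
    have := h _ (mem_image_of_mem _ ha) _ (mem_image_of_mem _ hb) (fun h' => hab (fl_inj K h'))
    rwa [fl_fst, fl_fst] at this
  · intro h a ha b hb hab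
    obtain ⟨a', ha', rfl⟩ := mem_image.1 ha
    obtain ⟨b', hb', rfl⟩ := mem_image.1 hb
    rw [fl_fst, fl_fst]
    exact h _ ha' _ hb' (fun h' => hab (by rw [h']))

theorem ng_fl {K : Finset V} {v : V} (hv : v ∉ K) (S : Finset (Fin n)) :
    v ∈ ng e (S.image (fl e K)) ↔ v ∈ ng e S := by
  have h1 : fl e K (e.symm (v, true)) = e.symm (v, true) := by
    unfold fl
    rw [if_neg]
    rintro ⟨h, h2⟩
    rw [e.apply_symm_apply] at h2
    have h3 := h.choose_spec
    rw [← h2] at h3
    exact hv h3
  rw [mem_ng, mem_ng]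
  constructor
  · intro h
    obtain ⟨a, ha, h2⟩ := mem_image.1 h
    rw [← h1] at h2
    rwa [← fl_inj K h2]
  · intro h
    rw [← h1]
    exact mem_image_of_mem _ h

open Classical in
/-- the terms of the sum -/
noncomputable def tt (e : Fin n ≃ V × Bool) (G : SimpleGraph V) (z φ : Finset V → ZMod 2)
    (p : Finset (Fin n) × Finset V) : ZMod 2 :=
  if CQ e G (evenPart p.1) ∧ CQ e G (oddPart p.1) ∧ p.2 ⊆ im e (evenPart p.1) ∪ im e (oddPart p.1) ∧
    ng e (oddPart p.1) ∪ (ng e (evenPart p.1) \ im e (oddPart p.1)) ⊆ p.2 then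
    z (im e (evenPart p.1)) * z (im e (oddPart p.1)) *
      FF G φ (p.2 \ im e (oddPart p.1)) (p.2 ∩ im e (oddPart p.1)) else 0

/-- the labels in `D` which occur in one part only -/
def KK (e : Fin n ≃ V × Bool) (p : Finset (Fin n) × Finset V) : Finset V :=
  p.2 ∩ symmDiff (im e (evenPart p.1)) (im e (oddPart p.1))

theorem Z0_tt (z φ : Finset V → ZMod 2) (U : Finset (Fin n)) :
    Z0 e G z φ (evenPart U) (oddPart U) = ∑ D, tt e G z φ (U, D) := by
  unfold Z0
  by_cases h : CQ e G (evenPart U) ∧ CQ e G (oddPart U)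
  · rw [if_pos ⟨h.1, h.2, disj_parts U⟩]
    unfold gg
    rw [mul_sum, ← filter_subset_univ, sum_filter]
    refine sum_congr rfl fun D _ => ?_
    unfold tt
    by_cases h1 : D ⊆ im e (evenPart U) ∪ im e (oddPart U)
    · by_cases h2 : ng e (oddPart U) ∪ (ng e (evenPart U) \ im e (oddPart U)) ⊆ D
      · rw [if_pos h1, if_pos h2, if_pos ⟨h.1, h.2, h1, h2⟩]
      · rw [if_pos h1, if_neg h2, if_neg (fun h' => h2 h'.2.2.2), mul_zero]
    · rw [if_neg h1, if_neg (fun h' => h1 h'.2.2.1)]
  · rw [if_neg (fun h' => h ⟨h'.1, h'.2.1⟩)]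
    symm
    refine sum_eq_zero fun D _ => ?_
    unfold tt
    rw [if_neg (fun h' => h ⟨h'.1, h'.2.1⟩)]

theorem tt_zero_of_both {z φ : Finset V → ZMod 2} {p : Finset (Fin n) × Finset V} {v : V} (hv : v ∈ KK e p)
    (h1 : e.symm (v, false) ∈ p.1) (h2 : e.symm (v, true) ∈ p.1) : tt e G z φ p = 0 := by
  unfold tt
  rw [if_neg]
  rintro ⟨h3, h4, -, -⟩
  rw [← union_parts p.1, mem_union] at h1 h2
  unfold KK at hv
  rw [mem_inter, mem_symmDiff] at hv
  rcases hv.2 with ⟨h5, h6⟩ | ⟨h5, h6⟩
  · rcases h1 with h1 | h1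
    · rcases h2 with h2 | h2
      · exact h3.sect h1 h2
      · exact h6 (mem_im.2 (Or.inr h2))
    · exact h6 (mem_im.2 (Or.inl h1))
  · rcases h1 with h1 | h1
    · exact h6 (mem_im.2 (Or.inl h1))
    · rcases h2 with h2 | h2
      · exact h6 (mem_im.2 (Or.inr h2))
      · exact h4.sect h1 h2

/-- the involution -/
noncomputable def gi (e : Fin n ≃ V × Bool) (p : Finset (Fin n) × Finset V) : Finset (Fin n) × Finset V :=
  (p.1.image (fl e (KK e p)), p.2)

/-- both signs of the chosen label occur -/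
def Both (e : Fin n ≃ V × Bool) (p : Finset (Fin n) × Finset V) : Prop :=
  ∃ h : (KK e p).Nonempty, e.symm (h.choose, false) ∈ p.1 ∧ e.symm (h.choose, true) ∈ p.1

theorem gi_both {p : Finset (Fin n) × Finset V} (h : Both e p) : gi e p = p := by
  obtain ⟨h, h1, h2⟩ := h
  unfold gi
  refine Prod.ext ?_ rfl
  show p.1.image (fl e (KK e p)) = p.1
  have key : ∀ a ∈ p.1, fl e (KK e p) a ∈ p.1 := by
    intro a ha
    unfold fl
    split_ifs with h3
    · obtain ⟨h4, h5⟩ := h3
      rw [h5]
      cases (e a).2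
      · exact h2
      · exact h1
    · exact ha
  ext a
  constructor
  · intro ha
    obtain ⟨b, hb, rfl⟩ := mem_image.1 ha
    exact key b hb
  · intro ha
    rw [← fl_fl (e := e) (KK e p) a]
    exact mem_image_of_mem _ (key a ha)

theorem gi_parts {q : V → ℕ} (hq : Adjc e q) {p : Finset (Fin n) × Finset V} (h : ¬ Both e p) :
    evenPart (gi e p).1 = (evenPart p.1).image (fl e (KK e p)) ∧
      oddPart (gi e p).1 = (oddPart p.1).image (fl e (KK e p)) := by
  have hm : StrictMonoOn (fl e (KK e p)) (p.1 : Set (Fin n)) :=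
    fl_mono hq fun h1 h2 => h ⟨h1, h2⟩
  exact ⟨evenPart_image hm, oddPart_image hm⟩

theorem KK_gi {q : V → ℕ} (hq : Adjc e q) (p : Finset (Fin n) × Finset V) : KK e (gi e p) = KK e p := by
  by_cases h : Both e p
  · rw [gi_both h]
  · obtain ⟨h1, h2⟩ := gi_parts hq h
    conv_lhs => unfold KK
    rw [h1, h2, im_fl, im_fl]
    rfl

theorem tt_gi {q : V → ℕ} (hq : Adjc e q) (z φ : Finset V → ZMod 2) {p : Finset (Fin n) × Finset V}
    (hne : (KK e p).Nonempty) : tt e G z φ (gi e p) = tt e G z φ p := by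
  by_cases h : Both e p
  · rw [gi_both h]
  · obtain ⟨h1, h2⟩ := gi_parts hq h
    have h3 : (gi e p).2 = p.2 := rfl
    have hsub : KK e p ⊆ p.2 := inter_subset_left
    have h4 : ng e ((oddPart p.1).image (fl e (KK e p))) ∪
        (ng e ((evenPart p.1).image (fl e (KK e p))) \ im e (oddPart p.1)) ⊆ p.2 ↔
        ng e (oddPart p.1) ∪ (ng e (evenPart p.1) \ im e (oddPart p.1)) ⊆ p.2 := by
      constructor
      · intro h5 v hv
        by_cases hvK : v ∈ KK e p
        · exact hsub hvK
        · apply h5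
          rw [mem_union, mem_sdiff] at hv ⊢
          rwa [ng_fl hvK, ng_fl hvK]
      · intro h5 v hv
        by_cases hvK : v ∈ KK e p
        · exact hsub hvK
        · apply h5
          rw [mem_union, mem_sdiff] at hv ⊢
          rwa [ng_fl hvK, ng_fl hvK] at hv
    have h5 : (CQ e G (evenPart (gi e p).1) ∧ CQ e G (oddPart (gi e p).1) ∧
        (gi e p).2 ⊆ im e (evenPart (gi e p).1) ∪ im e (oddPart (gi e p).1) ∧
        ng e (oddPart (gi e p).1) ∪ (ng e (evenPart (gi e p).1) \ im e (oddPart (gi e p).1)) ⊆ (gi e p).2) ↔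
        (CQ e G (evenPart p.1) ∧ CQ e G (oddPart p.1) ∧ p.2 ⊆ im e (evenPart p.1) ∪ im e (oddPart p.1) ∧
        ng e (oddPart p.1) ∪ (ng e (evenPart p.1) \ im e (oddPart p.1)) ⊆ p.2) := by
      rw [h1, h2, h3, CQ_fl, CQ_fl, im_fl, im_fl, h4]
    unfold tt
    by_cases h6 : CQ e G (evenPart p.1) ∧ CQ e G (oddPart p.1) ∧ p.2 ⊆ im e (evenPart p.1) ∪ im e (oddPart p.1) ∧
        ng e (oddPart p.1) ∪ (ng e (evenPart p.1) \ im e (oddPart p.1)) ⊆ p.2
    · rw [if_pos (h5.2 h6), if_pos h6, h1, h2, h3, im_fl, im_fl]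
    · rw [if_neg (fun h' => h6 (h5.1 h')), if_neg h6]

theorem gi_ne {z φ : Finset V → ZMod 2} {p : Finset (Fin n) × Finset V}
    (hne : (KK e p).Nonempty) (ht : tt e G z φ p ≠ 0) : gi e p ≠ p := by
  intro h
  have h1 := hne.choose_spec
  set v := hne.choose with hv
  have h2 : ¬ (e.symm (v, false) ∈ p.1 ∧ e.symm (v, true) ∈ p.1) := fun h' =>
    ht (tt_zero_of_both h1 h'.1 h'.2)
  have h3 : ∀ b, e.symm (v, b) ∈ p.1 → e.symm (v, !b) ∈ p.1 := by
    intro b hb
    have h4 : fl e (KK e p) (e.symm (v, b)) = e.symm (v, !b) := by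
      unfold fl
      rw [if_pos ⟨hne, by rw [e.apply_symm_apply]⟩, e.apply_symm_apply]
    have h5 : (gi e p).1 = p.1 := by rw [h]
    rw [← h5]
    unfold gi
    simp only
    rw [← h4]
    exact mem_image_of_mem _ hb
  have h6 : ∃ b, e.symm (v, b) ∈ p.1 := by
    unfold KK at h1
    rw [mem_inter, mem_symmDiff] at h1
    rcases h1.2 with ⟨h5, _⟩ | ⟨h5, _⟩
    · rcases mem_im.1 h5 with h7 | h7
      · exact ⟨false, (mem_filter.1 h7).1⟩
      · exact ⟨true, (mem_filter.1 h7).1⟩
    · rcases mem_im.1 h5 with h7 | h7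
      · exact ⟨false, (mem_filter.1 h7).1⟩
      · exact ⟨true, (mem_filter.1 h7).1⟩
  obtain ⟨b, hb⟩ := h6
  have h7 := h3 b hb
  cases b
  · exact h2 ⟨hb, h7⟩
  · exact h2 ⟨h7, hb⟩

/-- the part of the sum with `KK` nonempty is zero -/
theorem sum_inv {q : V → ℕ} (hq : Adjc e q) (z φ : Finset V → ZMod 2) (m : ℕ) :
    ∑ p ∈ (powersetCard m (univ : Finset (Fin n)) ×ˢ (univ : Finset (Finset V))).filter
      (fun p => (KK e p).Nonempty), tt e G z φ p = 0 := by
  refine sum_involution (fun p _ => gi e p) ?_ ?_ ?_ ?_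
  · intro p hp
    rw [tt_gi hq z φ (mem_filter.1 hp).2, z2]
  · intro p hp ht
    exact gi_ne (mem_filter.1 hp).2 ht
  · intro p hp
    rw [mem_filter, mem_product, mem_powersetCard] at hp ⊢
    refine ⟨⟨⟨subset_univ _, ?_⟩, mem_univ _⟩, ?_⟩
    · unfold gi
      simp only
      rw [card_image_of_injective _ (fl_inj _)]
      exact hp.1.1.2
    · rw [KK_gi hq]
      exact hp.2
  · intro p _
    show (((p.1.image (fl e (KK e p))).image (fl e (KK e (gi e p))), p.2) : Finset (Fin n) × Finset V) = p
    rw [KK_gi hq]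
    refine Prod.ext ?_ rfl
    show (p.1.image (fl e (KK e p))).image (fl e (KK e p)) = p.1
    rw [image_image]
    have : (fl e (KK e p) ∘ fl e (KK e p)) = id := by
      funext a
      exact fl_fl _ a
    rw [this, image_id]

/-- the full preimage of `D` -/
def BB (e : Fin n ≃ V × Bool) (D : Finset V) : Finset (Fin n) := univ.filter (fun a => (e a).1 ∈ D)

theorem BB_even {q : V → ℕ} (hq : Adjc e q) (D : Finset V) (v : V) (b : Bool) :
    Even ((BB e D).filter (fun w => w < e.symm (v, b))).card ↔ (b = false ∨ v ∉ D) := by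
  classical
  have h1 : ((univ : Finset (Fin n)).filter (fun a => (e a).1 ∈ D ∧ q (e a).1 < q v)).card =
      2 * (D.filter (fun w => q w < q v)).card := by
    have h2 : ((univ : Finset (Fin n)).filter (fun a => (e a).1 ∈ D ∧ q (e a).1 < q v)) =
        ((D.filter (fun w => q w < q v)) ×ˢ (univ : Finset Bool)).map e.symm.toEmbedding := by
      ext a
      rw [mem_filter, mem_map]
      constructor
      · rintro ⟨_, h⟩
        refine ⟨e a, ?_, e.symm_apply_apply a⟩
        rw [mem_product, mem_filter]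
        exact ⟨h, mem_univ _⟩
      · rintro ⟨x, hx, rfl⟩
        rw [mem_product, mem_filter] at hx
        refine ⟨mem_univ _, ?_⟩
        show (e (e.symm x)).1 ∈ D ∧ q (e (e.symm x)).1 < q v
        rw [e.apply_symm_apply]
        exact hx.1
    rw [h2, card_map, card_product, card_univ, Fintype.card_bool, mul_comm]
  by_cases h : b = false ∨ v ∉ D
  · have h3 : (BB e D).filter (fun w => w < e.symm (v, b)) =
        (univ : Finset (Fin n)).filter (fun a => (e a).1 ∈ D ∧ q (e a).1 < q v) := by
      unfold BB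
      rw [filter_filter]
      refine filter_congr fun a _ => ?_
      rw [hq.2, e.apply_symm_apply]
      constructor
      · rintro ⟨h4, h5 | ⟨h5, h6, h7⟩⟩
        · exact ⟨h4, h5⟩
        · exfalso
          rcases h with h | h
          · simp only at h7
            rw [h] at h7
            exact absurd h7 (by simp)
          · simp only at h5
            rw [h5] at h4
            exact h h4
      · exact fun h4 => ⟨h4.1, Or.inl h4.2⟩
    rw [h3, h1]
    simp [h]
  · push Not at h
    obtain ⟨hb, hv⟩ := h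
    have hb' : b = true := by
      cases b
      · exact absurd rfl hb
      · rfl
    subst hb'
    have h3 : (BB e D).filter (fun w => w < e.symm (v, true)) =
        insert (e.symm (v, false)) ((univ : Finset (Fin n)).filter (fun a => (e a).1 ∈ D ∧ q (e a).1 < q v)) := by
      unfold BB
      rw [filter_filter]
      ext a
      rw [mem_filter, mem_insert, mem_filter, hq.2, e.apply_symm_apply]
      constructor
      · rintro ⟨_, h4, h5 | ⟨h5, h6, h7⟩⟩
        · exact Or.inr ⟨mem_univ _, h4, h5⟩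
        · left
          rw [Equiv.eq_symm_apply]
          exact Prod.ext h5 h6
      · rintro (rfl | h4)
        · refine ⟨mem_univ _, ?_, Or.inr ?_⟩
          · rw [e.apply_symm_apply]; exact hv
          · rw [e.apply_symm_apply]; exact ⟨rfl, rfl, rfl⟩
        · exact ⟨mem_univ _, h4.2.1, Or.inl h4.2.2⟩
    rw [h3, card_insert_of_notMem, h1]
    · simp only [Bool.true_eq_false, false_or]
      constructor
      · intro h4
        exfalso
        rw [Nat.even_add_one] at h4
        exact h4 (even_two_mul _)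
      · intro h4
        exact absurd hv h4
    · rw [mem_filter, e.apply_symm_apply]
      rintro ⟨_, _, h5⟩
      exact lt_irrefl _ h5

theorem mem_even_BB {q : V → ℕ} (hq : Adjc e q) (D : Finset V) (v : V) (b : Bool) :
    e.symm (v, b) ∈ evenPart (BB e D) ↔ v ∈ D ∧ b = false := by
  rw [evenPart, mem_filter, BB_even hq]
  have : e.symm (v, b) ∈ BB e D ↔ v ∈ D := by
    unfold BB
    rw [mem_filter, e.apply_symm_apply]
    simp
  rw [this]
  tauto

theorem mem_odd_BB {q : V → ℕ} (hq : Adjc e q) (D : Finset V) (v : V) (b : Bool) :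
    e.symm (v, b) ∈ oddPart (BB e D) ↔ v ∈ D ∧ b = true := by
  rw [oddPart, mem_filter, BB_even hq]
  have : e.symm (v, b) ∈ BB e D ↔ v ∈ D := by
    unfold BB
    rw [mem_filter, e.apply_symm_apply]
    simp
  rw [this]
  cases b <;> simp

theorem im_even_BB {q : V → ℕ} (hq : Adjc e q) (D : Finset V) : im e (evenPart (BB e D)) = D := by
  ext v
  rw [mem_im, mem_even_BB hq, mem_even_BB hq]
  simp

theorem im_odd_BB {q : V → ℕ} (hq : Adjc e q) (D : Finset V) : im e (oddPart (BB e D)) = D := by
  ext v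
  rw [mem_im, mem_odd_BB hq, mem_odd_BB hq]
  simp

theorem CQ_even_BB {q : V → ℕ} (hq : Adjc e q) {D : Finset V} (hD : G.IsClique (D : Set V)) :
    CQ e G (evenPart (BB e D)) := by
  intro a ha b hb hab
  have ha' : e.symm ((e a).1, (e a).2) ∈ evenPart (BB e D) := by simpa using ha
  have hb' : e.symm ((e b).1, (e b).2) ∈ evenPart (BB e D) := by simpa using hb
  rw [mem_even_BB hq] at ha' hb'
  refine hD (mem_coe.2 ha'.1) (mem_coe.2 hb'.1) fun h => hab ?_
  apply e.injective
  exact Prod.ext h (by rw [ha'.2, hb'.2])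

theorem CQ_odd_BB {q : V → ℕ} (hq : Adjc e q) {D : Finset V} (hD : G.IsClique (D : Set V)) :
    CQ e G (oddPart (BB e D)) := by
  intro a ha b hb hab
  have ha' : e.symm ((e a).1, (e a).2) ∈ oddPart (BB e D) := by simpa using ha
  have hb' : e.symm ((e b).1, (e b).2) ∈ oddPart (BB e D) := by simpa using hb
  rw [mem_odd_BB hq] at ha' hb'
  refine hD (mem_coe.2 ha'.1) (mem_coe.2 hb'.1) fun h => hab ?_
  apply e.injective
  exact Prod.ext h (by rw [ha'.2, hb'.2])

theorem card_BB (D : Finset V) : (BB e D).card = 2 * D.card := by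
  have h2 : BB e D = (D ×ˢ (univ : Finset Bool)).map e.symm.toEmbedding := by
    ext a
    unfold BB
    rw [mem_filter, mem_map]
    constructor
    · rintro ⟨_, h⟩
      refine ⟨e a, ?_, e.symm_apply_apply a⟩
      rw [mem_product]
      exact ⟨h, mem_univ _⟩
    · rintro ⟨x, hx, rfl⟩
      rw [mem_product] at hx
      refine ⟨mem_univ _, ?_⟩
      show (e (e.symm x)).1 ∈ D
      rw [e.apply_symm_apply]
      exact hx.1
  rw [h2, card_map, card_product, card_univ, Fintype.card_bool, mul_comm]

/-- the remaining part of the sum -/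
theorem sum_rest {q : V → ℕ} (hq : Adjc e q) {z φ : Finset V → ZMod 2} {i : ℕ} (hz : Ch G i z)
    (hφ0 : ∀ S : Finset V, S.card < i → φ S = 0) :
    ∑ p ∈ (powersetCard (2 * i) (univ : Finset (Fin n)) ×ˢ (univ : Finset (Finset V))).filter
      (fun p => ¬ (KK e p).Nonempty), tt e G z φ p = ∑ S, z S * φ S := by
  classical
  have hKK : ∀ D : Finset V, KK e (BB e D, D) = ∅ := by
    intro D
    unfold KK
    simp only
    rw [im_even_BB hq, im_odd_BB hq, symmDiff_self]
    simp
  have htt : ∀ D : Finset V, D.card = i → tt e G z φ (BB e D, D) = z D * φ D := by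
    intro D _
    by_cases hc : G.IsClique (D : Set V)
    · unfold tt
      simp only
      rw [if_pos, im_even_BB hq, im_odd_BB hq]
      · unfold FF
        rw [sdiff_self, inter_self]
        simp only [bot_eq_empty, empty_union, powerset_empty, sum_singleton, union_empty]
        rw [if_pos hc]
        have h2 : ∀ a : ZMod 2, a * a = a := by decide
        rw [h2]
      · refine ⟨CQ_even_BB hq hc, CQ_odd_BB hq hc, ?_, ?_⟩
        · rw [im_even_BB hq]
          exact subset_union_left
        · refine union_subset ?_ (sdiff_subset.trans ?_)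
          · have := ng_sub (e := e) (S := oddPart (BB e D))
            rwa [im_odd_BB hq] at this
          · have := ng_sub (e := e) (S := evenPart (BB e D))
            rwa [im_even_BB hq] at this
    · have hz0 : z D = 0 := hz D fun h => hc h.1
      rw [hz0, zero_mul]
      unfold tt
      simp only
      rw [im_even_BB hq, hz0]
      simp
  have hR : ∑ S, z S * φ S = ∑ D ∈ univ.filter (fun D : Finset V => D.card = i), z D * φ D := by
    rw [sum_filter]
    refine sum_congr rfl fun S _ => ?_
    split_ifs with h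
    · rfl
    · rw [hz S fun h' => h h'.2, zero_mul]
  rw [hR]
  symm
  rw [← sum_congr rfl fun D hD => htt D (mem_filter.1 hD).2]
  rw [← sum_image (f := tt e G z φ) (g := fun D => (BB e D, D)) (s := univ.filter (fun D : Finset V => D.card = i))
    (by
      intro a _ b _ hab
      exact (Prod.ext_iff.1 hab).2)]
  refine sum_subset ?_ ?_
  · intro p hp
    obtain ⟨D, hD, rfl⟩ := mem_image.1 hp
    rw [mem_filter, mem_product, mem_powersetCard]
    refine ⟨⟨⟨subset_univ _, ?_⟩, mem_univ _⟩, ?_⟩
    · simp only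
      rw [card_BB, (mem_filter.1 hD).2]
    · rw [hKK]
      simp
  · rintro ⟨U, D⟩ hp hn
    by_contra ht
    apply hn
    rw [mem_filter, mem_product, mem_powersetCard] at hp
    obtain ⟨⟨⟨_, hU⟩, _⟩, hK⟩ := hp
    simp only at hU
    have hK' : KK e (U, D) = ∅ := not_nonempty_iff_eq_empty.1 hK
    unfold tt at ht
    simp only at ht
    split_ifs at ht with hc
    · obtain ⟨h1, h2, h3, _⟩ := hc
      have hz1 : z (im e (evenPart U)) ≠ 0 := fun h => ht (by rw [h]; simp)
      have hz2 : z (im e (oddPart U)) ≠ 0 := fun h => ht (by rw [h]; simp)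
      have hF : FF G φ (D \ im e (oddPart U)) (D ∩ im e (oddPart U)) ≠ 0 := fun h => ht (by rw [h]; simp)
      have hc1 : (im e (evenPart U)).card = i := by
        by_contra h
        exact hz1 (hz _ fun h' => h h'.2)
      have hc2 : (im e (oddPart U)).card = i := by
        by_contra h
        exact hz2 (hz _ fun h' => h h'.2)
      have hDs : ∀ v ∈ D, v ∈ im e (evenPart U) ∧ v ∈ im e (oddPart U) := by
        intro v hv
        have h4 : v ∉ KK e (U, D) := by rw [hK']; exact notMem_empty _
        unfold KK at h4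
        rw [mem_inter, mem_symmDiff] at h4
        have h5 := mem_union.1 (h3 hv)
        have h6 : v ∈ (U, D).2 := hv
        simp only [h6, true_and] at h4
        tauto
      have e1 : D \ im e (oddPart U) = ∅ := sdiff_eq_empty_iff_subset.2 fun v hv => (hDs v hv).2
      have e2 : D ∩ im e (oddPart U) = D := inter_eq_left.2 fun v hv => (hDs v hv).2
      rw [e1, e2] at hF
      unfold FF at hF
      have h5 : φ D ≠ 0 := by
        intro h
        apply hF
        split_ifs
        · simp [h]
        · rfl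
      have h6 : i ≤ D.card := by
        by_contra h
        exact h5 (hφ0 D (by omega))
      have e3 : D = im e (evenPart U) := eq_of_subset_of_card_le (fun v hv => (hDs v hv).1) (by omega)
      have e4 : D = im e (oddPart U) := eq_of_subset_of_card_le (fun v hv => (hDs v hv).2) (by omega)
      have hDi : D.card = i := by rw [e3, hc1]
      rw [mem_image]
      refine ⟨D, ?_, ?_⟩
      · rw [mem_filter]
        exact ⟨mem_univ _, hDi⟩
      · refine Prod.ext ?_ rfl
        show BB e D = U
        symm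
        refine eq_of_subset_of_card_le ?_ ?_
        · intro a ha
          unfold BB
          rw [mem_filter]
          refine ⟨mem_univ _, ?_⟩
          rw [← union_parts U, mem_union] at ha
          rcases ha with ha | ha
          · rw [e3]; exact mem_im'.2 ⟨a, ha, rfl⟩
          · rw [e4]; exact mem_im'.2 ⟨a, ha, rfl⟩
        · rw [card_BB, hU, hDi]
    · exact (ht rfl).elim

/-- **the value of the obstruction** -/
theorem ev_Z0 {q : V → ℕ} (hq : Adjc e q) {z φ : Finset V → ZMod 2} {i : ℕ} (hz : Ch G i z)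
    (hφ0 : ∀ S : Finset V, S.card < i → φ S = 0) :
    ∑ U ∈ powersetCard (2 * i) univ, Z0 e G z φ (evenPart U) (oddPart U) = ∑ S, z S * φ S := by
  rw [← sum_rest hq hz hφ0, ← zero_add (∑ p ∈ _, tt e G z φ p), ← sum_inv (G := G) hq z φ (2 * i)]
  rw [sum_filter_add_sum_filter_not, sum_product]
  exact sum_congr rfl fun U _ => Z0_tt z φ U

end EE

end Pool.Agent.H56T
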