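import Pool.Agent.H56T.Stm4

/-!
# Commuting elements in Artin groups (piece LCOM of project LR)
-/

set_option autoImplicit false

namespace Pool.Agent.H56T.LR

namespace LCOM

section words

variable {Γ : Type} [Group Γ]

theorem alt_two_mul (x y : Γ) (k : ℕ) : alt x y (2 * k) = (y * x) ^ k := by
  induction k with
  | zero => simp [alt]
  | succ k ih =>
    have h : 2 * (k + 1) = (2 * k + 1) + 1 := by ring
    rw [h]
    show alt x y (2 * k) * y * x = _
    rw [ih, pow_succ, mul_assoc]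

theorem alt_two_mul_add_one (x y : Γ) (k : ℕ) : alt x y (2 * k + 1) = (x * y) ^ k * x := by
  show alt y x (2 * k) * x = _
  rw [alt_two_mul]

theorem map_alt {Δ : Type} [Group Δ] (f : Γ →* Δ) (x y : Γ) (n : ℕ) :
    f (alt x y n) = alt (f x) (f y) n := by
  induction n generalizing x y with
  | zero => simp [alt]
  | succ n ih =>
    show f (alt y x n * x) = alt (f y) (f x) n * f x
    rw [map_mul, ih]

/-- `(s t)^k s = s (t s)^k` -/
theorem pow_mul_swap (s t : Γ) (k : ℕ) : s * (t * s) ^ k = (s * t) ^ k * s := by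
  induction k with
  | zero => simp
  | succ k ih => rw [pow_succ, ← mul_assoc, ih, pow_succ]; simp only [mul_assoc]

theorem cen (s t : Γ) (m : ℕ) (h : alt s t m = alt t s m) :
    Commute s ((s * t) ^ m) ∧ Commute t ((s * t) ^ m) := by
  rcases Nat.even_or_odd' m with ⟨k, rfl | rfl⟩
  · rw [alt_two_mul, alt_two_mul] at h
    have h1 : Commute s ((s * t) ^ k) := by
      show s * (s * t) ^ k = (s * t) ^ k * s
      rw [← h, pow_mul_swap, h]
    have h2 : Commute t ((s * t) ^ k) := by
      show t * (s * t) ^ k = (s * t) ^ k * t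
      rw [pow_mul_swap, h]
    rw [two_mul, pow_add]
    exact ⟨h1.mul_right h1, h2.mul_right h2⟩
  · rw [alt_two_mul_add_one, alt_two_mul_add_one] at h
    have h1 : s * ((s * t) ^ k * s) = (s * t) ^ k * s * t := by
      calc s * ((s * t) ^ k * s) = s * (t * s) ^ k * t := by rw [h, mul_assoc]
        _ = (s * t) ^ k * s * t := by rw [pow_mul_swap]
    have h2 : t * ((s * t) ^ k * s) = (s * t) ^ k * s * s := by
      calc t * ((s * t) ^ k * s) = t * (s * t) ^ k * s := by rw [mul_assoc]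
        _ = (s * t) ^ k * s * s := by rw [pow_mul_swap, h]
    have h3 : ((s * t) ^ k * s) * ((s * t) ^ k * s) = (s * t) ^ (2 * k + 1) := by
      calc ((s * t) ^ k * s) * ((s * t) ^ k * s) = ((s * t) ^ k * s) * ((t * s) ^ k * t) := by rw [h]
        _ = (s * t) ^ k * (s * (t * s) ^ k) * t := by simp only [mul_assoc]
        _ = (s * t) ^ (2 * k + 1) := by
          rw [pow_mul_swap, two_mul, pow_succ, pow_add]; simp only [mul_assoc]
    rw [← h3]
    constructor
    · show s * (((s * t) ^ k * s) * ((s * t) ^ k * s)) = ((s * t) ^ k * s) * ((s * t) ^ k * s) * s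
      rw [← mul_assoc s, h1, mul_assoc _ t, h2, ← mul_assoc]
    · show t * (((s * t) ^ k * s) * ((s * t) ^ k * s)) = ((s * t) ^ k * s) * ((s * t) ^ k * s) * t
      rw [← mul_assoc t, h2, mul_assoc _ s, h1, ← mul_assoc]

end words

variable {V : Type} (M : CoxeterMatrix V)

theorem rel (u v : V) : alt (sig M u) (sig M v) (M u v) = alt (sig M v) (sig M u) (M u v) := by
  have h : PresentedGroup.mk (artRel M)
      (alt (FreeGroup.of u) (FreeGroup.of v) (M u v) *
        (alt (FreeGroup.of v) (FreeGroup.of u) (M u v))⁻¹) = 1 :=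
    PresentedGroup.one_of_mem ⟨u, v, rfl⟩
  rw [map_mul, map_inv, mul_inv_eq_one, map_alt, map_alt] at h
  exact h

theorem com (u v : V) (h : M u v = 2) : Commute (sig M u) (sig M v) := by
  have h1 := rel M u v
  rw [h] at h1
  have h2 : sig M v * sig M u = sig M u * sig M v := by
    simpa [alt] using h1
  exact h2.symm

end LCOM

open LCOM in
theorem t_LCOM : S_LCOM := by
  intro V _ M x y h
  rcases x with v | e <;> rcases y with w | f
  · have h : M v w = 2 := h
    exact (com M v w h).pow_pow 2 2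
  · have h : v = f.1.1 ∨ v = f.1.2 ∨ (M v f.1.1 = 2 ∧ M v f.1.2 = 2) := h
    have hc := cen _ _ _ (rel M f.1.1 f.1.2)
    show Commute (sig M v ^ 2) ((sig M f.1.1 * sig M f.1.2) ^ (M f.1.1 f.1.2))
    rcases h with h | h | ⟨h, h'⟩
    · rw [h]; exact hc.1.pow_left 2
    · rw [h]; exact hc.2.pow_left 2
    · exact ((com M _ _ h).mul_right (com M _ _ h')).pow_pow _ _
  · have h : w = e.1.1 ∨ w = e.1.2 ∨ (M w e.1.1 = 2 ∧ M w e.1.2 = 2) := h
    have hc := cen _ _ _ (rel M e.1.1 e.1.2)
    show Commute ((sig M e.1.1 * sig M e.1.2) ^ (M e.1.1 e.1.2)) (sig M w ^ 2)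
    symm
    rcases h with h | h | ⟨h, h'⟩
    · rw [h]; exact hc.1.pow_left 2
    · rw [h]; exact hc.2.pow_left 2
    · exact ((com M _ _ h).mul_right (com M _ _ h')).pow_pow _ _
  · obtain ⟨h1, h2, h3, h4⟩ : M e.1.1 f.1.1 = 2 ∧ M e.1.1 f.1.2 = 2 ∧ M e.1.2 f.1.1 = 2 ∧
      M e.1.2 f.1.2 = 2 := h
    show Commute ((sig M e.1.1 * sig M e.1.2) ^ (M e.1.1 e.1.2))
      ((sig M f.1.1 * sig M f.1.2) ^ (M f.1.1 f.1.2))
    exact (((com M _ _ h1).mul_right (com M _ _ h2)).mul_left
      ((com M _ _ h3).mul_right (com M _ _ h4))).pow_pow _ _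

end Pool.Agent.H56T.LR
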