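import Pool.Agent.H56T.Stm4

set_option autoImplicit false
set_option linter.unusedSectionVars false

/-!
# Subdivision of the nerve over `F_2` (piece LSUB of project LR)
-/

namespace Pool.Agent.H56T.LR

open Finset Pool.Agent.W907.SG

namespace LSUB

section push

variable {V W : Type} [Fintype V] [DecidableEq V] [Fintype W] [DecidableEq W]

/-- push forward -/
def pf (r : W → V) (y : Finset W → ZMod 2) (T : Finset V) : ZMod 2 :=
  ∑ C ∈ univ.filter (fun C : Finset W => C.image r = T ∧ C.card = T.card), y C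

omit [Fintype W] in
theorem par (r : W → V) (T : Finset V) (C : Finset W) :
    ((Tᶜ.filter (fun v => C.image r = insert v T ∧ C.card = (insert v T).card)).card : ZMod 2) =
      ((C.filter (fun w => (C.erase w).image r = T ∧ (C.erase w).card = T.card)).card : ZMod 2) := by
  by_cases hc : C.card = T.card + 1
  swap
  · rw [filter_eq_empty_iff.mpr, filter_eq_empty_iff.mpr]
    · simp
    · rintro w hw ⟨-, h⟩
      rw [card_erase_of_mem hw] at h
      have := card_pos.mpr ⟨w, hw⟩
      omega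
    · rintro v hv ⟨-, h⟩
      rw [card_insert_of_notMem (mem_compl.mp hv)] at h
      exact hc h
  have he : ∀ w ∈ C, (C.erase w).card = T.card := fun w hw => by
    rw [card_erase_of_mem hw, hc]; rfl
  -- criterion for the image to be `T`
  have hT : ∀ w ∈ C, (∀ t ∈ T, ∃ c ∈ C, c ≠ w ∧ r c = t) → (C.erase w).image r = T := by
    intro w hw h
    symm
    refine eq_of_subset_of_card_le (fun t ht => ?_) ?_
    · obtain ⟨c, hc, hcw, rfl⟩ := h t ht
      exact mem_image_of_mem r (mem_erase.mpr ⟨hcw, hc⟩)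
    · rw [← he w hw]; exact card_image_le
  by_cases hi : (C.image r).card = C.card
  · refine congrArg _ (card_nbij (i := r) ?_ ?_ ?_).symm
    · intro w hw
      rw [mem_coe, mem_filter] at hw
      obtain ⟨hw, h, -⟩ := hw
      have h1 : C.image r = insert (r w) T := by
        rw [← h, ← image_insert, insert_erase hw]
      have h2 : r w ∉ T := by
        intro h'
        rw [insert_eq_of_mem h'] at h1
        rw [h1] at hi
        omega
      rw [mem_coe, mem_filter, mem_compl]
      exact ⟨h2, h1, by rw [card_insert_of_notMem h2, hc]⟩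
    · intro a ha b hb hab
      have h1 := card_image_iff.mp hi
      simp only [coe_filter, Set.mem_ofPred_eq] at ha hb
      exact h1 ha.1 hb.1 hab
    · intro v hv
      simp only [coe_filter, mem_compl, Set.mem_ofPred_eq] at hv
      obtain ⟨hv, h, h'⟩ := hv
      have h1 : v ∈ C.image r := by rw [h]; exact mem_insert_self _ _
      obtain ⟨w, hw, rfl⟩ := mem_image.mp h1
      refine ⟨w, ?_, rfl⟩
      simp only [coe_filter, Set.mem_ofPred_eq]
      refine ⟨hw, hT w hw fun t ht => ?_, he w hw⟩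
      have h2 : t ∈ C.image r := by rw [h]; exact mem_insert_of_mem ht
      obtain ⟨c, hc', rfl⟩ := mem_image.mp h2
      exact ⟨c, hc', fun h => hv (h ▸ ht), rfl⟩
  · have h9 : Tᶜ.filter (fun v => C.image r = insert v T ∧ C.card = (insert v T).card) = ∅ := by
      rw [filter_eq_empty_iff]
      rintro v hv ⟨h, h'⟩
      exact hi (by rw [h, ← h'])
    rw [h9]
    by_cases h0 : ∃ w ∈ C, (C.erase w).image r = T
    swap
    · have h10 : C.filter (fun w => (C.erase w).image r = T ∧ (C.erase w).card = T.card) = ∅ := by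
        rw [filter_eq_empty_iff]
        rintro w hw ⟨h, -⟩
        exact h0 ⟨w, hw, h⟩
      rw [h10]
      simp
    obtain ⟨w, hw, h⟩ := h0
    have hinj : Set.InjOn r (C.erase w : Finset W) := by
      rw [← card_image_iff, h, he w hw]
    have h1 : C.image r = insert (r w) T := by
      rw [← h, ← image_insert, insert_erase hw]
    have h2 : r w ∈ T := by
      by_contra h'
      rw [h1, card_insert_of_notMem h', hc] at hi
      exact hi rfl
    rw [← h] at h2
    obtain ⟨w', hw', hww⟩ := mem_image.mp h2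
    have hne : w' ≠ w := (mem_erase.mp hw').1
    have hw'C : w' ∈ C := (mem_erase.mp hw').2
    have h3 : C.filter (fun w => (C.erase w).image r = T ∧ (C.erase w).card = T.card) = {w, w'} := by
      ext u
      rw [mem_filter, mem_insert, mem_singleton]
      constructor
      · rintro ⟨hu, h4, -⟩
        by_contra h5
        rw [not_or] at h5
        have h6 : r u ∈ T := by
          rw [← h]; exact mem_image_of_mem r (mem_erase.mpr ⟨h5.1, hu⟩)
        rw [← h4] at h6
        obtain ⟨u', hu', huu⟩ := mem_image.mp h6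
        by_cases h7 : u' = w
        · rw [h7, ← hww] at huu
          exact h5.2 (hinj hw' (mem_coe.mpr (mem_erase.mpr ⟨h5.1, hu⟩)) huu).symm
        · exact (mem_erase.mp hu').1 (hinj (mem_coe.mpr (mem_erase.mpr ⟨h7, (mem_erase.mp hu').2⟩))
            (mem_coe.mpr (mem_erase.mpr ⟨h5.1, hu⟩)) huu)
      · rintro (rfl | rfl)
        · exact ⟨hw, h, he _ hw⟩
        · refine ⟨hw'C, hT _ hw'C fun t ht => ?_, he _ hw'C⟩
          rw [← h] at ht
          obtain ⟨c, hc', rfl⟩ := mem_image.mp ht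
          by_cases h8 : c = u
          · exact ⟨w, hw, hne.symm, by rw [h8]; exact hww.symm⟩
          · exact ⟨c, (mem_erase.mp hc').2, h8, rfl⟩
    rw [h3, card_pair hne.symm, card_empty]
    decide

theorem bb_pf (r : W → V) (y : Finset W → ZMod 2) : bb (pf r y) = pf r (bb y) := by
  funext T
  have h1 : bb (pf r y) T = ∑ C : Finset W,
      ((Tᶜ.filter (fun v => C.image r = insert v T ∧ C.card = (insert v T).card)).card : ZMod 2) * y C := by
    unfold bb pf
    simp_rw [Finset.sum_filter]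
    rw [Finset.sum_comm]
    refine sum_congr rfl fun C _ => ?_
    rw [← Finset.sum_filter, Finset.sum_const, nsmul_eq_mul]
  have h2 : pf r (bb y) T = ∑ C : Finset W,
      ((C.filter (fun w => (C.erase w).image r = T ∧ (C.erase w).card = T.card)).card : ZMod 2) * y C := by
    have h3 : ∀ C : Finset W,
        ((C.filter (fun w => (C.erase w).image r = T ∧ (C.erase w).card = T.card)).card : ZMod 2) * y C =
        ∑ w ∈ C.filter (fun w => (C.erase w).image r = T ∧ (C.erase w).card = T.card), y C := fun C => by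
      rw [sum_const, nsmul_eq_mul]
    simp_rw [h3]
    unfold pf bb
    rw [Finset.sum_sigma', Finset.sum_sigma']
    refine sum_nbij' (fun p => ⟨insert p.2 p.1, p.2⟩) (fun p => ⟨p.1.erase p.2, p.2⟩) ?_ ?_ ?_ ?_ ?_
    · rintro ⟨D, w⟩ h
      simp only [mem_sigma, mem_filter, mem_univ, true_and, mem_compl] at h ⊢
      rw [erase_insert h.2]
      exact ⟨mem_insert_self _ _, h.1⟩
    · rintro ⟨C, w⟩ h
      simp only [mem_sigma, mem_filter, mem_univ, true_and, mem_compl] at h ⊢
      exact ⟨h.2, notMem_erase _ _⟩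
    · rintro ⟨D, w⟩ h
      simp only [mem_sigma, mem_filter, mem_univ, true_and, mem_compl] at h ⊢
      rw [erase_insert h.2]
    · rintro ⟨C, w⟩ h
      simp only [mem_sigma, mem_filter, mem_univ, true_and] at h ⊢
      rw [insert_erase h.1]
    · rintro ⟨D, w⟩ h
      rfl
  rw [h1, h2]
  exact sum_congr rfl fun C _ => by rw [par]

end push

section edges

variable {V : Type} [LinearOrder V] {M : CoxeterMatrix V}

/-- `v` and `p` are the ends of the edge `e` -/
def Ends (e : EE M) (v p : V) : Prop := (v = e.1.1 ∧ p = e.1.2) ∨ (v = e.1.2 ∧ p = e.1.1)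

theorem Ends.symm {e : EE M} {v p : V} (h : Ends e v p) : Ends e p v := by
  rcases h with ⟨h1, h2⟩ | ⟨h1, h2⟩
  · exact Or.inr ⟨h2, h1⟩
  · exact Or.inl ⟨h2, h1⟩

theorem ends (e : EE M) : Ends e e.1.1 e.1.2 := Or.inl ⟨rfl, rfl⟩

theorem Ends.ne {e : EE M} {v p : V} (h : Ends e v p) : v ≠ p := by
  rcases h with ⟨rfl, rfl⟩ | ⟨rfl, rfl⟩
  · exact e.2.1.ne
  · exact e.2.1.ne'

theorem Ends.le {e : EE M} {v p : V} (h : Ends e v p) : 3 ≤ M v p := by
  rcases h with ⟨rfl, rfl⟩ | ⟨rfl, rfl⟩
  · exact e.2.2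
  · rw [M.symmetric]; exact e.2.2

theorem Ends.eq {e f : EE M} {v p : V} (h : Ends e v p) (h' : Ends f v p) : e = f := by
  rcases h with ⟨h1, h2⟩ | ⟨h1, h2⟩ <;> rcases h' with ⟨h3, h4⟩ | ⟨h3, h4⟩
  · exact Subtype.ext (Prod.ext (h1.symm.trans h3) (h2.symm.trans h4))
  · have := e.2.1; have h5 := f.2.1
    rw [← h1, ← h2] at this; rw [← h3, ← h4] at h5
    exact absurd this (not_lt.mpr h5.le)
  · have := e.2.1; have h5 := f.2.1
    rw [← h1, ← h2] at this; rw [← h3, ← h4] at h5
    exact absurd this (not_lt.mpr h5.le)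
  · exact Subtype.ext (Prod.ext (h2.symm.trans h4) (h1.symm.trans h3))

theorem Ends.cases {e : EE M} {v p v' p' : V} (h : Ends e v p) (h' : Ends e v' p') :
    (v' = v ∧ p' = p) ∨ (v' = p ∧ p' = v) := by
  rcases h with ⟨h1, h2⟩ | ⟨h1, h2⟩ <;> rcases h' with ⟨h3, h4⟩ | ⟨h3, h4⟩
  · exact Or.inl ⟨h3.trans h1.symm, h4.trans h2.symm⟩
  · exact Or.inr ⟨h3.trans h2.symm, h4.trans h1.symm⟩
  · exact Or.inr ⟨h3.trans h2.symm, h4.trans h1.symm⟩
  · exact Or.inl ⟨h3.trans h1.symm, h4.trans h2.symm⟩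

theorem exists_ends {v p : V} (h : 3 ≤ M v p) : ∃ e : EE M, Ends e v p := by
  rcases lt_trichotomy v p with h1 | h1 | h1
  · exact ⟨⟨(v, p), h1, h⟩, Or.inl ⟨rfl, rfl⟩⟩
  · rw [h1, M.diagonal] at h; omega
  · exact ⟨⟨(p, v), h1, by rw [M.symmetric]; exact h⟩, Or.inr ⟨rfl, rfl⟩⟩

theorem sph_mono {T T' : Finset V} (h : Sph M T) (h' : T' ⊆ T) : Sph M T' :=
  ⟨fun u hu v hv => h.1 u (h' hu) v (h' hv), fun u hu v hv w hw => h.2 u (h' hu) v (h' hv) w (h' hw)⟩

/-- the edges in a set of the nerve are disjoint -/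
theorem uniq {T : Finset V} (h : Sph M T) {e f : EE M} {v p q : V} (he : Ends e v p) (hf : Ends f v q)
    (hv : v ∈ T) (hp : p ∈ T) (hq : q ∈ T) : e = f ∧ p = q := by
  have h1 := h.2 v hv p hp q hq he.le hf.le
  subst h1
  exact ⟨he.eq hf, rfl⟩

theorem eq_two {T : Finset V} (h : Sph M T) {v w : V} (hv : v ∈ T) (hw : w ∈ T) (hne : v ≠ w)
    (h3 : ∀ e : EE M, ¬ Ends e v w) : M v w = 2 := by
  have h1 := h.1 v hv w hw
  have h2 := M.off_diagonal v w hne
  by_contra h4
  obtain ⟨e, he⟩ := exists_ends (M := M) (v := v) (p := w) (by omega)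
  exact h3 e he

end edges

section sup

variable {V : Type} [Fintype V] [LinearOrder V] {M : CoxeterMatrix V}

/-- the support of a set of vertices of the subdivision -/
noncomputable def sp (C : Finset (V ⊕ EE M)) : Finset V :=
  by classical exact univ.filter fun v => Sum.inl v ∈ C ∨ ∃ (e : EE M) (p : V), Sum.inr e ∈ C ∧ Ends e v p

theorem mem_sp {C : Finset (V ⊕ EE M)} {v : V} :
    v ∈ sp C ↔ Sum.inl v ∈ C ∨ ∃ (e : EE M) (p : V), Sum.inr e ∈ C ∧ Ends e v p := by
  unfold sp
  simp only [mem_filter, mem_univ, true_and]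

theorem mem_sp_inl {C : Finset (V ⊕ EE M)} {v : V} (h : Sum.inl v ∈ C) : v ∈ sp C := mem_sp.mpr (Or.inl h)

theorem mem_sp_inr {C : Finset (V ⊕ EE M)} {e : EE M} {v p : V} (he : Ends e v p) (h : Sum.inr e ∈ C) :
    v ∈ sp C := mem_sp.mpr (Or.inr ⟨e, p, h, he⟩)

theorem sp_mono {C D : Finset (V ⊕ EE M)} (h : C ⊆ D) : sp C ⊆ sp D := by
  intro v hv
  rcases mem_sp.mp hv with h1 | ⟨e, p, h1, h2⟩
  · exact mem_sp_inl (h h1)
  · exact mem_sp_inr h2 (h h1)

variable [DecidableEq (V ⊕ EE M)]

theorem sp_inl (C : Finset (V ⊕ EE M)) (v : V) : sp (insert (Sum.inl v) C) = insert v (sp C) := by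
  ext u
  rw [mem_insert, mem_sp, mem_sp]
  simp only [mem_insert, Sum.inl.injEq, reduceCtorEq, false_or, or_assoc]

theorem sp_inr (C : Finset (V ⊕ EE M)) (e : EE M) {v p : V} (he : Ends e v p) :
    sp (insert (Sum.inr e) C) = insert v (insert p (sp C)) := by
  ext u
  rw [mem_insert, mem_insert, mem_sp, mem_sp]
  simp only [mem_insert, Sum.inr.injEq, reduceCtorEq, false_or]
  constructor
  · rintro (h | ⟨f, q, rfl | h, h'⟩)
    · exact Or.inr (Or.inr (Or.inl h))
    · rcases he.cases h' with h1 | h1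
      · exact Or.inl h1.1
      · exact Or.inr (Or.inl h1.1)
    · exact Or.inr (Or.inr (Or.inr ⟨f, q, h, h'⟩))
  · rintro (rfl | rfl | h | ⟨f, q, h, h'⟩)
    · exact Or.inr ⟨e, p, Or.inl rfl, he⟩
    · exact Or.inr ⟨e, v, Or.inl rfl, he.symm⟩
    · exact Or.inl h
    · exact Or.inr ⟨f, q, Or.inr h, h'⟩

/-- the cliques in the subdivision of their support -/
def Good (C : Finset (V ⊕ EE M)) : Prop :=
  Sph M (sp C) ∧ ∀ (e : EE M) (v p : V), Ends e v p → v ∈ sp C → p ∈ sp C →
    Sum.inr e ∈ C ∧ (Sum.inl v ∈ C ↔ Sum.inl p ∉ C)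

omit [DecidableEq (V ⊕ EE M)] in
theorem good_card {C : Finset (V ⊕ EE M)} (h : Good C) : C.card = (sp C).card := by
  classical
  refine card_nbij (i := fun w => match w with
    | Sum.inl v => v
    | Sum.inr e => if Sum.inl e.1.1 ∈ C then e.1.2 else e.1.1) ?_ ?_ ?_
  · rintro (v | e) hw
    · exact mem_sp_inl hw
    · show (if Sum.inl e.1.1 ∈ C then e.1.2 else e.1.1) ∈ sp C
      split_ifs
      · exact mem_sp_inr (ends e).symm hw
      · exact mem_sp_inr (ends e) hw
  · have key : ∀ e : EE M, Sum.inr e ∈ C → ∃ p, Ends e (if Sum.inl e.1.1 ∈ C then e.1.2 else e.1.1) p ∧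
        Sum.inl (if Sum.inl e.1.1 ∈ C then e.1.2 else e.1.1) ∉ C := by
      intro e he
      have h1 := h.2 e _ _ (ends e) (mem_sp_inr (ends e) he) (mem_sp_inr (ends e).symm he)
      split_ifs with h2
      · exact ⟨_, (ends e).symm, h1.2.mp h2⟩
      · exact ⟨_, ends e, h2⟩
    rintro (v | e) hw (v' | e') hw' hh
    · exact congrArg _ hh
    · obtain ⟨p, h1, h2⟩ := key e' hw'
      have hh : v = (if Sum.inl e'.1.1 ∈ C then e'.1.2 else e'.1.1) := hh
      rw [← hh] at h2
      exact absurd hw h2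
    · obtain ⟨p, h1, h2⟩ := key e hw
      have hh : (if Sum.inl e.1.1 ∈ C then e.1.2 else e.1.1) = v' := hh
      rw [hh] at h2
      exact absurd hw' h2
    · obtain ⟨p, h1, h2⟩ := key e hw
      obtain ⟨p', h1', h2'⟩ := key e' hw'
      have hh : (if Sum.inl e.1.1 ∈ C then e.1.2 else e.1.1) =
        (if Sum.inl e'.1.1 ∈ C then e'.1.2 else e'.1.1) := hh
      rw [hh] at h1
      exact congrArg _ (uniq h.1 h1 h1' (mem_sp_inr h1 hw) (mem_sp_inr h1.symm hw)
        (mem_sp_inr h1'.symm hw')).1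
  · intro v hv
    by_cases h1 : Sum.inl v ∈ C
    · exact ⟨Sum.inl v, h1, rfl⟩
    · rcases mem_sp.mp hv with h2 | ⟨e, p, h2, h3⟩
      · exact absurd h2 h1
      · refine ⟨Sum.inr e, h2, ?_⟩
        show (if Sum.inl e.1.1 ∈ C then e.1.2 else e.1.1) = v
        have h4 := h.2 e _ _ h3 (mem_sp_inr h3 h2) (mem_sp_inr h3.symm h2)
        rcases h3 with ⟨h5, h6⟩ | ⟨h5, h6⟩
        · rw [if_neg (by rw [← h5]; exact h1), h5]
        · rw [if_pos (by rw [← h6]; by_contra h7; exact h1 (h4.2.mpr h7)), h5]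

omit [DecidableEq (V ⊕ EE M)] in
theorem good_clique {C : Finset (V ⊕ EE M)} (h : Good C) : (LG M).IsClique (C : Set (V ⊕ EE M)) := by
  have two : ∀ (e : EE M) (v : V), Sum.inr e ∈ C → v ∈ sp C → v ≠ e.1.1 → v ≠ e.1.2 →
      M v e.1.1 = 2 ∧ M v e.1.2 = 2 := by
    intro e v he hv h1 h2
    refine ⟨eq_two h.1 hv (mem_sp_inr (ends e) he) h1 fun f hf => ?_,
      eq_two h.1 hv (mem_sp_inr (ends e).symm he) h2 fun f hf => ?_⟩
    · exact h2 (uniq h.1 hf.symm (ends e) (mem_sp_inr (ends e) he) hv (mem_sp_inr (ends e).symm he)).2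
    · exact h1 (uniq h.1 hf.symm (ends e).symm (mem_sp_inr (ends e).symm he) hv (mem_sp_inr (ends e) he)).2
  have mix : ∀ (e : EE M) (v : V), Sum.inr e ∈ C → v ∈ sp C →
      v = e.1.1 ∨ v = e.1.2 ∨ (M v e.1.1 = 2 ∧ M v e.1.2 = 2) := by
    intro e v he hv
    by_cases h1 : v = e.1.1
    · exact Or.inl h1
    · by_cases h2 : v = e.1.2
      · exact Or.inr (Or.inl h2)
      · exact Or.inr (Or.inr (two e v he hv h1 h2))
  rintro (v | e) hx (w | f) hy hne
  · show M v w = 2
    refine eq_two h.1 (mem_sp_inl hx) (mem_sp_inl hy) (fun h1 => hne (by rw [h1])) fun e he => ?_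
    exact (h.2 e _ _ he (mem_sp_inl hx) (mem_sp_inl hy)).2.mp hx hy
  · exact mix f v hy (mem_sp_inl hx)
  · exact mix e w hx (mem_sp_inl hy)
  · show M e.1.1 f.1.1 = 2 ∧ M e.1.1 f.1.2 = 2 ∧ M e.1.2 f.1.1 = 2 ∧ M e.1.2 f.1.2 = 2
    have hd : ∀ v p q : V, Ends e v p → Ends f v q → False := by
      intro v p q h1 h2
      exact hne (congrArg _ (uniq h.1 h1 h2 (mem_sp_inr h1 hx) (mem_sp_inr h1.symm hx)
        (mem_sp_inr h2.symm hy)).1)
    have h1 := two f e.1.1 hy (mem_sp_inr (ends e) hx)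
      (fun h1 => hd _ _ _ (ends e) (by rw [h1]; exact ends f))
      (fun h1 => hd _ _ _ (ends e) (by rw [h1]; exact (ends f).symm))
    have h2 := two f e.1.2 hy (mem_sp_inr (ends e).symm hx)
      (fun h1 => hd _ _ _ (ends e).symm (by rw [h1]; exact ends f))
      (fun h1 => hd _ _ _ (ends e).symm (by rw [h1]; exact (ends f).symm))
    exact ⟨h1.1, h1.2, h2.1, h2.2⟩

end sup

section main

variable {V : Type} [Fintype V] [LinearOrder V] {M : CoxeterMatrix V} [DecidableEq (V ⊕ EE M)]

open Classical in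
/-- the subdivision of a chain -/
noncomputable def sd (z : Finset V → ZMod 2) (C : Finset (V ⊕ EE M)) : ZMod 2 :=
  if Good C then z (sp C) else 0

theorem sd_ne {z : Finset V → ZMod 2} {C : Finset (V ⊕ EE M)} (h : sd z C ≠ 0) :
    Good C ∧ sd z C = z (sp C) ∧ z (sp C) ≠ 0 := by
  unfold sd at h ⊢
  split_ifs at h ⊢ with h1
  · exact ⟨h1, rfl, h⟩
  · exact absurd rfl h

theorem sd_good {z : Finset V → ZMod 2} {C : Finset (V ⊕ EE M)} (h : Good C) : sd z C = z (sp C) := by
  unfold sd
  rw [if_pos h]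

theorem sd_zero {z : Finset V → ZMod 2} {C : Finset (V ⊕ EE M)} (h : ¬ Good C) : sd z C = 0 := by
  unfold sd
  rw [if_neg h]

/-- the two choices at an edge -/
theorem good_swap {D : Finset (V ⊕ EE M)} {e : EE M} {v p : V} (he : Ends e v p) (h1 : Sum.inr e ∈ D)
    (h2 : Sum.inl v ∉ D) (h3 : Sum.inl p ∉ D) (h : Good (insert (Sum.inl v) D)) :
    Good (insert (Sum.inl p) D) := by
  have hv : v ∈ sp D := mem_sp_inr he h1
  have hp : p ∈ sp D := mem_sp_inr he.symm h1
  have e1 : sp (insert (Sum.inl v) D) = sp D := by rw [sp_inl, insert_eq_of_mem hv]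
  have e2 : sp (insert (Sum.inl p) D) = sp D := by rw [sp_inl, insert_eq_of_mem hp]
  refine ⟨by rw [e2, ← e1]; exact h.1, fun f u q hf hu hq => ?_⟩
  rw [e2, ← e1] at hu hq
  have h4 := h.2 f u q hf hu hq
  have hS := h.1
  rw [e1] at hS hu hq
  simp only [mem_insert, reduceCtorEq, Sum.inl.injEq, false_or] at h4 ⊢
  refine ⟨h4.1, ?_⟩
  by_cases h5 : e = f
  · subst h5
    rcases he.cases hf with ⟨rfl, rfl⟩ | ⟨rfl, rfl⟩
    · have := he.ne
      tauto
    · have := he.ne
      tauto
  · have h6 : u ≠ v := fun h6 => h5 (uniq hS he (h6 ▸ hf) hv hp hq).1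
    have h7 : u ≠ p := fun h6 => h5 (uniq hS he.symm (h6 ▸ hf) hp hv hq).1
    have h8 : q ≠ v := fun h6 => h5 (uniq hS he (h6 ▸ hf.symm) hv hp hu).1
    have h9 : q ≠ p := fun h6 => h5 (uniq hS he.symm (h6 ▸ hf.symm) hp hv hu).1
    simp only [h6, h7, h8, h9, false_or] at h4 ⊢
    exact h4.2

theorem bb_sd {z : Finset V → ZMod 2} (hz : ∀ T, ¬ Sph M T → z T = 0) (h0 : bb z = 0) :
    bb (sd (M := M) z) = 0 := by
  classical
  funext D
  show ∑ w ∈ Dᶜ, sd z (insert w D) = 0
  by_cases hA : ∃ e : EE M, Sum.inr e ∈ D ∧ Sum.inl e.1.1 ∉ D ∧ Sum.inl e.1.2 ∉ D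
  · obtain ⟨e, h1, h2, h3⟩ := hA
    have hne : (Sum.inl e.1.1 : V ⊕ EE M) ≠ Sum.inl e.1.2 := fun h => (ends e).ne (Sum.inl.inj h)
    have hs : ({Sum.inl e.1.1, Sum.inl e.1.2} : Finset (V ⊕ EE M)) ⊆ Dᶜ := by
      intro x hx
      rw [mem_insert, mem_singleton] at hx
      rw [mem_compl]
      rcases hx with rfl | rfl
      · exact h2
      · exact h3
    rw [← sum_subset hs, sum_pair hne]
    · have hq : sd z (insert (Sum.inl e.1.1) D) = sd z (insert (Sum.inl e.1.2) D) := by
        have e1 : sp (insert (Sum.inl e.1.1) D) = sp D := by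
          rw [sp_inl, insert_eq_of_mem (mem_sp_inr (ends e) h1)]
        have e2 : sp (insert (Sum.inl e.1.2) D) = sp D := by
          rw [sp_inl, insert_eq_of_mem (mem_sp_inr (ends e).symm h1)]
        by_cases hg : Good (insert (Sum.inl e.1.1) D)
        · rw [sd_good hg, sd_good (good_swap (ends e) h1 h2 h3 hg), e1, e2]
        · rw [sd_zero hg, sd_zero fun hg' => hg (good_swap (ends e).symm h1 h3 h2 hg')]
      rw [hq]
      exact CharTwo.add_self_eq_zero _
    · intro w hw hw'
      rw [mem_compl] at hw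
      rw [mem_insert, mem_singleton, not_or] at hw'
      refine sd_zero fun hg => ?_
      have h4 := hg.2 e _ _ (ends e) (sp_mono (subset_insert _ _) (mem_sp_inr (ends e) h1))
        (sp_mono (subset_insert _ _) (mem_sp_inr (ends e).symm h1))
      simp only [mem_insert] at h4
      have h5 := h4.2
      simp only [h2, h3, or_false] at h5
      tauto
  · have hA' : ∀ (e : EE M) (v p : V), Ends e v p → Sum.inr e ∈ D → Sum.inl v ∉ D → Sum.inl p ∈ D := by
      intro e v p he h1 h2
      by_contra h3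
      refine hA ⟨e, h1, ?_⟩
      rcases he with ⟨rfl, rfl⟩ | ⟨rfl, rfl⟩
      · exact ⟨h2, h3⟩
      · exact ⟨h3, h2⟩
    by_cases hD : Good D
    · have hb : ∑ v ∈ (sp D)ᶜ, z (insert v (sp D)) = 0 := congrFun h0 (sp D)
      rw [← hb]
      -- a good extension by an edge
      have kE : ∀ e : EE M, Sum.inr e ∉ D → Good (insert (Sum.inr e) D) →
          ∃ p, Ends e (if e.1.1 ∈ sp D then e.1.2 else e.1.1) p ∧
            (if e.1.1 ∈ sp D then e.1.2 else e.1.1) ∉ sp D ∧ Sum.inl p ∈ D := by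
        intro e he hg
        have h1 := hg.2 e _ _ (ends e) (mem_sp_inr (ends e) (mem_insert_self _ _))
          (mem_sp_inr (ends e).symm (mem_insert_self _ _))
        simp only [mem_insert, reduceCtorEq, false_or, true_or, true_and] at h1
        split_ifs with h2
        · have h3 : e.1.2 ∉ sp D := fun h3 => he (hD.2 e _ _ (ends e) h2 h3).1
          refine ⟨_, (ends e).symm, h3, ?_⟩
          exact h1.mpr fun h4 => h3 (mem_sp_inl h4)
        · refine ⟨_, ends e, h2, ?_⟩
          by_contra h4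
          exact h2 (mem_sp_inl (h1.mpr h4))
      have kL : ∀ v : V, Sum.inl v ∉ D → Good (insert (Sum.inl v) D) → v ∉ sp D := by
        intro v hv hg hv'
        rcases mem_sp.mp hv' with h1 | ⟨e, p, h1, h2⟩
        · exact hv h1
        · have h3 := hg.2 e _ _ h2 (mem_sp_inl (mem_insert_self _ _))
            (sp_mono (subset_insert _ _) (mem_sp_inr h2.symm h1))
          have h4 := h3.2.mp (mem_insert_self _ _)
          exact h4 (mem_insert_of_mem (hA' e v p h2 h1 hv))
      refine sum_bij_ne_zero (fun w _ _ => match w with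
        | Sum.inl v => v
        | Sum.inr e => if e.1.1 ∈ sp D then e.1.2 else e.1.1) ?_ ?_ ?_ ?_
      · rintro (v | e) hw hne
        · exact mem_compl.mpr (kL v (mem_compl.mp hw) (sd_ne hne).1)
        · obtain ⟨p, -, h2, -⟩ := kE e (mem_compl.mp hw) (sd_ne hne).1
          exact mem_compl.mpr h2
      · -- injectivity
        have mixed : ∀ (v : V) (e : EE M), Sum.inl v ∉ D → Good (insert (Sum.inl v) D) →
            Sum.inr e ∉ D → Good (insert (Sum.inr e) D) →
            v = (if e.1.1 ∈ sp D then e.1.2 else e.1.1) → False := by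
          intro v e hv hg he hg' hh
          obtain ⟨p, h1, h2, h3⟩ := kE e he hg'
          rw [← hh] at h1 h2
          have h4 := hg.2 e _ _ h1 (mem_sp_inl (mem_insert_self _ _))
            (mem_sp_inl (mem_insert_of_mem h3))
          rcases mem_insert.mp h4.1 with h5 | h5
          · exact absurd h5 (by simp)
          · exact he h5
        rintro (v | e) hw hne (v' | e') hw' hne' hh
        · exact congrArg _ hh
        · exact (mixed v e' (mem_compl.mp hw) (sd_ne hne).1 (mem_compl.mp hw') (sd_ne hne').1 hh).elim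
        · exact (mixed v' e (mem_compl.mp hw') (sd_ne hne').1 (mem_compl.mp hw) (sd_ne hne).1
            hh.symm).elim
        · obtain ⟨p, h1, h2, h3⟩ := kE e (mem_compl.mp hw) (sd_ne hne).1
          obtain ⟨p', h1', h2', h3'⟩ := kE e' (mem_compl.mp hw') (sd_ne hne').1
          have hh : (if e.1.1 ∈ sp D then e.1.2 else e.1.1) =
            (if e'.1.1 ∈ sp D then e'.1.2 else e'.1.1) := hh
          rw [hh] at h1
          exact congrArg _ (uniq (sd_ne hne).1.1 h1 h1' (mem_sp_inr h1 (mem_insert_self _ _))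
            (mem_sp_inl (mem_insert_of_mem h3)) (mem_sp_inl (mem_insert_of_mem h3'))).1
      · intro v hv hne
        rw [mem_compl] at hv
        have hS : Sph M (insert v (sp D)) := by
          by_contra h
          exact hne (hz _ h)
        by_cases hp : ∃ (e : EE M) (p : V), Ends e v p ∧ p ∈ sp D
        · obtain ⟨e, p, he, hp⟩ := hp
          have h1 : Sum.inr e ∉ D := fun h1 => hv (mem_sp_inr he h1)
          have h2 : sp (insert (Sum.inr e) D) = insert v (sp D) := by
            rw [sp_inr _ _ he, insert_eq_of_mem hp]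
          have h3 : Sum.inl p ∈ D := by
            by_contra h3
            rcases mem_sp.mp hp with h4 | ⟨f, q, h4, h5⟩
            · exact h3 h4
            · refine h1 ?_
              rw [(uniq hS he.symm h5 (mem_insert_of_mem hp) (mem_insert_self _ _)
                (mem_insert_of_mem (mem_sp_inr h5.symm h4))).1]
              exact h4
          have h4 : Good (insert (Sum.inr e) D) := by
            refine ⟨by rw [h2]; exact hS, fun f u q hf hu hq => ?_⟩
            simp only [mem_insert, reduceCtorEq, Sum.inr.injEq, false_or]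
            by_cases h5 : f = e
            · subst h5
              refine ⟨Or.inl rfl, ?_⟩
              have h6 : Sum.inl v ∉ D := fun h6 => hv (mem_sp_inl h6)
              rcases he.cases hf with ⟨rfl, rfl⟩ | ⟨rfl, rfl⟩
              · tauto
              · tauto
            · rw [h2] at hu hq
              have h6 : u ∈ sp D := by
                rcases mem_insert.mp hu with h6 | h6
                · subst h6
                  exact absurd (uniq hS he hf hu (mem_insert_of_mem hp) hq).1 (Ne.symm h5)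
                · exact h6
              have h7 : q ∈ sp D := by
                rcases mem_insert.mp hq with h7 | h7
                · subst h7
                  exact absurd (uniq hS he hf.symm hq (mem_insert_of_mem hp) hu).1 (Ne.symm h5)
                · exact h7
              have h8 := hD.2 f u q hf h6 h7
              exact ⟨Or.inr h8.1, h8.2⟩
          refine ⟨Sum.inr e, mem_compl.mpr h1, ?_, ?_⟩
          · rw [sd_good h4, h2]; exact hne
          · show (if e.1.1 ∈ sp D then e.1.2 else e.1.1) = v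
            rcases he with ⟨h5, h6⟩ | ⟨h5, h6⟩
            · rw [if_neg (by rw [← h5]; exact hv), h5]
            · rw [if_pos (by rw [← h6]; exact hp), h5]
        · have h2 : sp (insert (Sum.inl v) D) = insert v (sp D) := sp_inl _ _
          have h4 : Good (insert (Sum.inl v) D) := by
            refine ⟨by rw [h2]; exact hS, fun f u q hf hu hq => ?_⟩
            rw [h2] at hu hq
            have h5 : u ≠ v := by
              rintro rfl
              rcases mem_insert.mp hq with h6 | h6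
              · exact hf.ne h6.symm
              · exact hp ⟨f, q, hf, h6⟩
            have h6 : q ≠ v := by
              rintro rfl
              rcases mem_insert.mp hu with h6 | h6
              · exact hf.ne h6
              · exact hp ⟨f, u, hf.symm, h6⟩
            have h8 := hD.2 f u q hf (mem_of_mem_insert_of_ne hu h5) (mem_of_mem_insert_of_ne hq h6)
            simp only [mem_insert, reduceCtorEq, Sum.inl.injEq, h5, h6, false_or]
            exact h8
          refine ⟨Sum.inl v, mem_compl.mpr fun h => hv (mem_sp_inl h), ?_, rfl⟩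
          rw [sd_good h4, h2]; exact hne
      · rintro (v | e) hw hne
        · rw [(sd_ne hne).2.1, sp_inl]
        · obtain ⟨p, h1, h2, h3⟩ := kE e (mem_compl.mp hw) (sd_ne hne).1
          rw [(sd_ne hne).2.1, sp_inr _ _ h1, insert_eq_of_mem (mem_sp_inl h3)]
    · refine sum_eq_zero fun w hw => sd_zero fun hg => hD ?_
      rw [mem_compl] at hw
      have hsub : sp D ⊆ sp (insert w D) := sp_mono (subset_insert _ _)
      refine ⟨sph_mono hg.1 hsub, fun f u q hf hu hq => ?_⟩
      have h1 := hg.2 f u q hf (hsub hu) (hsub hq)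
      rcases w with v | e
      · simp only [mem_insert, reduceCtorEq, Sum.inl.injEq, false_or] at h1
        refine ⟨h1.1, ?_⟩
        by_cases h2 : u = v
        · subst h2
          have h3 := hA' f _ _ hf h1.1 hw
          have h4 := h1.2.mp (Or.inl rfl)
          tauto
        · by_cases h3 : q = v
          · subst h3
            have h3 := hA' f _ _ hf.symm h1.1 hw
            tauto
          · simpa only [h2, h3, false_or] using h1.2
      · simp only [mem_insert, reduceCtorEq, Sum.inr.injEq, false_or] at h1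
        refine ⟨?_, h1.2⟩
        rcases h1.1 with h2 | h2
        · exfalso
          subst h2
          have key : ∀ u q : V, Ends f u q → u ∈ sp D → q ∈ sp D → Sum.inl u ∉ D → False := by
            intro u q hf hu hq hn
            rcases mem_sp.mp hu with h3 | ⟨g, p, h3, h4⟩
            · exact hn h3
            · refine hw ?_
              rw [(uniq hg.1 hf h4 (hsub hu) (hsub hq) (hsub (mem_sp_inr h4.symm h3))).1]
              exact h3
          by_cases h3 : Sum.inl u ∈ D
          · exact key q u hf.symm hq hu (h1.2.mp h3)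
          · exact key u q hf hu hq h3
        · exact h2

end main

section retr

variable {V : Type} [Fintype V] [LinearOrder V] (M : CoxeterMatrix V) [DecidableEq (V ⊕ EE M)]

/-- the simplicial map to the nerve -/
def rr (w : V ⊕ EE M) : V := match w with
  | Sum.inl v => v
  | Sum.inr e => e.1.1

variable {M}

theorem rr_adj {a b : V ⊕ EE M} (h : (LG M).Adj a b) : M (rr M a) (rr M b) ≠ 0 := by
  rcases a with v | e <;> rcases b with w | f
  · have h : M v w = 2 := h
    show M v w ≠ 0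
    omega
  · have h : v = f.1.1 ∨ v = f.1.2 ∨ (M v f.1.1 = 2 ∧ M v f.1.2 = 2) := h
    show M v f.1.1 ≠ 0
    rcases h with h | h | h
    · rw [h, M.diagonal]; omega
    · have := (ends f).symm.le; rw [h]; omega
    · omega
  · have h : w = e.1.1 ∨ w = e.1.2 ∨ (M w e.1.1 = 2 ∧ M w e.1.2 = 2) := h
    show M e.1.1 w ≠ 0
    rw [M.symmetric]
    rcases h with h | h | h
    · rw [h, M.diagonal]; omega
    · have := (ends e).symm.le; rw [h]; omega
    · omega
  · obtain ⟨h1, -⟩ : M e.1.1 f.1.1 = 2 ∧ M e.1.1 f.1.2 = 2 ∧ M e.1.2 f.1.1 = 2 ∧ M e.1.2 f.1.2 = 2 := h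
    show M e.1.1 f.1.1 ≠ 0
    omega

/-- a pair with a large entry comes from an edge and its larger end point -/
theorem rr_large {a b : V ⊕ EE M} (h : (LG M).Adj a b) (h3 : 3 ≤ M (rr M a) (rr M b)) :
    ∃ e : EE M, (a = Sum.inr e ∧ b = Sum.inl e.1.2) ∨ (a = Sum.inl e.1.2 ∧ b = Sum.inr e) := by
  rcases a with v | e <;> rcases b with w | f
  · have h : M v w = 2 := h
    have h3 : 3 ≤ M v w := h3
    omega
  · have h : v = f.1.1 ∨ v = f.1.2 ∨ (M v f.1.1 = 2 ∧ M v f.1.2 = 2) := h
    have h3 : 3 ≤ M v f.1.1 := h3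
    rcases h with h | h | h
    · rw [h, M.diagonal] at h3; omega
    · exact ⟨f, Or.inr ⟨congrArg _ h, rfl⟩⟩
    · omega
  · have h : w = e.1.1 ∨ w = e.1.2 ∨ (M w e.1.1 = 2 ∧ M w e.1.2 = 2) := h
    have h3 : 3 ≤ M e.1.1 w := h3
    rw [M.symmetric] at h3
    rcases h with h | h | h
    · rw [h, M.diagonal] at h3; omega
    · exact ⟨e, Or.inl ⟨rfl, congrArg _ h⟩⟩
    · omega
  · obtain ⟨h1, -⟩ : M e.1.1 f.1.1 = 2 ∧ M e.1.1 f.1.2 = 2 ∧ M e.1.2 f.1.1 = 2 ∧ M e.1.2 f.1.2 = 2 := h
    have h3 : 3 ≤ M e.1.1 f.1.1 := h3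
    omega

theorem rr_sph {C : Finset (V ⊕ EE M)} (hC : (LG M).IsClique (C : Set (V ⊕ EE M))) :
    Sph M (C.image (rr M)) := by
  have hadj : ∀ a ∈ C, ∀ b ∈ C, rr M a ≠ rr M b → (LG M).Adj a b := fun a ha b hb h =>
    hC (mem_coe.mpr ha) (mem_coe.mpr hb) fun h' => h (by rw [h'])
  constructor
  · intro u hu v hv
    obtain ⟨a, ha, rfl⟩ := mem_image.mp hu
    obtain ⟨b, hb, rfl⟩ := mem_image.mp hv
    by_cases h : rr M a = rr M b
    · rw [h, M.diagonal]; exact one_ne_zero
    · exact rr_adj (hadj a ha b hb h)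
  · intro u hu v hv w hw h1 h2
    obtain ⟨a, ha, rfl⟩ := mem_image.mp hu
    obtain ⟨b, hb, rfl⟩ := mem_image.mp hv
    obtain ⟨c, hc, rfl⟩ := mem_image.mp hw
    have n1 : rr M a ≠ rr M b := fun h => by rw [h, M.diagonal] at h1; omega
    have n2 : rr M a ≠ rr M c := fun h => by rw [h, M.diagonal] at h2; omega
    obtain ⟨e, ⟨h3, h4⟩ | ⟨h3, h4⟩⟩ := rr_large (hadj a ha b hb n1) h1
    · obtain ⟨f, ⟨h5, h6⟩ | ⟨h5, h6⟩⟩ := rr_large (hadj a ha c hc n2) h2
      · have : e = f := Sum.inr.inj (h3.symm.trans h5)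
        subst this
        rw [h4, h6]
      · exact absurd (h3.symm.trans h5) (by simp)
    · obtain ⟨f, ⟨h5, h6⟩ | ⟨h5, h6⟩⟩ := rr_large (hadj a ha c hc n2) h2
      · exact absurd (h3.symm.trans h5) (by simp)
      · have h7 : e.1.2 = f.1.2 := Sum.inl.inj (h3.symm.trans h5)
        by_cases h8 : e = f
        · subst h8
          rw [h4, h6]
        · exfalso
          have h9 : (LG M).Adj (Sum.inr e) (Sum.inr f) := by
            rw [← h4, ← h6]
            exact hC (mem_coe.mpr hb) (mem_coe.mpr hc) fun h => h8 (Sum.inr.inj (h4.symm.trans (h.trans h6)))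
          obtain ⟨-, -, -, h10⟩ : M e.1.1 f.1.1 = 2 ∧ M e.1.1 f.1.2 = 2 ∧ M e.1.2 f.1.1 = 2 ∧
            M e.1.2 f.1.2 = 2 := h9
          rw [h7, M.diagonal] at h10
          omega

theorem sp_eq {C : Finset (V ⊕ EE M)} {T : Finset V} (hg : Good C) (h1 : C.image (rr M) = T)
    (h2 : C.card = T.card) : sp C = T := by
  symm
  refine eq_of_subset_of_card_le ?_ (by rw [← good_card hg, h2])
  rw [← h1]
  intro v hv
  obtain ⟨w, hw, rfl⟩ := mem_image.mp hv
  rcases w with v | e
  · exact mem_sp_inl hw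
  · exact mem_sp_inr (ends e) hw

open Classical in
/-- the clique which is mapped to `T` -/
noncomputable def C0 (M : CoxeterMatrix V) (T : Finset V) : Finset (V ⊕ EE M) :=
  univ.filter fun w => match w with
    | Sum.inl v => v ∈ T ∧ ∀ (e : EE M) (p : V), Ends e v p → p ∈ T → v = e.1.2
    | Sum.inr e => e.1.1 ∈ T ∧ e.1.2 ∈ T

theorem mem_C0_inl {T : Finset V} {v : V} :
    Sum.inl v ∈ C0 M T ↔ v ∈ T ∧ ∀ (e : EE M) (p : V), Ends e v p → p ∈ T → v = e.1.2 := by
  classical
  unfold C0
  exact mem_filter.trans ⟨fun h => h.2, fun h => ⟨mem_univ _, h⟩⟩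

theorem mem_C0_inr {T : Finset V} {e : EE M} :
    Sum.inr e ∈ C0 M T ↔ e.1.1 ∈ T ∧ e.1.2 ∈ T := by
  classical
  unfold C0
  exact mem_filter.trans ⟨fun h => h.2, fun h => ⟨mem_univ _, h⟩⟩

theorem sp_C0 (T : Finset V) : sp (C0 M T) = T := by
  ext v
  constructor
  · intro h
    rcases mem_sp.mp h with h1 | ⟨e, p, h1, h2⟩
    · exact (mem_C0_inl.mp h1).1
    · rcases h2 with ⟨rfl, rfl⟩ | ⟨rfl, rfl⟩
      · exact (mem_C0_inr.mp h1).1
      · exact (mem_C0_inr.mp h1).2
  · intro hv
    by_cases h : ∃ (e : EE M) (p : V), Ends e v p ∧ p ∈ T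
    · obtain ⟨e, p, h1, h2⟩ := h
      refine mem_sp_inr h1 (mem_C0_inr.mpr ?_)
      rcases h1 with ⟨rfl, rfl⟩ | ⟨rfl, rfl⟩
      · exact ⟨hv, h2⟩
      · exact ⟨h2, hv⟩
    · exact mem_sp_inl (mem_C0_inl.mpr ⟨hv, fun e p h1 h2 => absurd ⟨e, p, h1, h2⟩ h⟩)

theorem good_C0 {T : Finset V} (hT : Sph M T) : Good (C0 M T) := by
  have key : ∀ (e : EE M) (v p : V), Ends e v p → v ∈ T → p ∈ T → (Sum.inl v ∈ C0 M T ↔ v = e.1.2) := by
    intro e v p he hv hp
    rw [mem_C0_inl]
    refine ⟨fun h => h.2 e p he hp, fun h => ⟨hv, fun f q hf hq => ?_⟩⟩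
    rw [← (uniq hT he hf hv hp hq).1]
    exact h
  refine ⟨by rw [sp_C0]; exact hT, fun e v p he hv hp => ?_⟩
  rw [sp_C0] at hv hp
  rw [key e v p he hv hp, key e p v he.symm hp hv, mem_C0_inr]
  have := e.2.1.ne
  rcases he with ⟨rfl, rfl⟩ | ⟨rfl, rfl⟩
  · exact ⟨⟨hv, hp⟩, by tauto⟩
  · exact ⟨⟨hp, hv⟩, by tauto⟩

theorem image_C0 (T : Finset V) : (C0 M T).image (rr M) = T := by
  ext v
  rw [mem_image]
  constructor
  · rintro ⟨w | e, hw, rfl⟩
    · exact (mem_C0_inl.mp hw).1
    · exact (mem_C0_inr.mp hw).1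
  · intro hv
    by_cases h : Sum.inl v ∈ C0 M T
    · exact ⟨_, h, rfl⟩
    · rw [mem_C0_inl] at h
      push Not at h
      obtain ⟨e, p, h1, h2, h3⟩ := h hv
      rcases h1 with ⟨rfl, rfl⟩ | ⟨rfl, rfl⟩
      · exact ⟨Sum.inr e, mem_C0_inr.mpr ⟨hv, h2⟩, rfl⟩
      · exact absurd rfl h3

theorem uniq_C0 {C : Finset (V ⊕ EE M)} {T : Finset V} (hg : Good C) (h1 : C.image (rr M) = T)
    (h2 : C.card = T.card) : C = C0 M T := by
  have hs := sp_eq hg h1 h2
  have hinj : Set.InjOn (rr M) (C : Set (V ⊕ EE M)) := by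
    rw [← card_image_iff, h1, h2]
  have hno : ∀ e : EE M, Sum.inr e ∈ C → Sum.inl e.1.1 ∉ C := by
    intro e he he'
    have := hinj (mem_coe.mpr he) (mem_coe.mpr he') rfl
    exact absurd this (by simp)
  have hR : ∀ e : EE M, Sum.inr e ∈ C ↔ Sum.inr e ∈ C0 M T := by
    intro e
    rw [mem_C0_inr, ← hs]
    exact ⟨fun h => ⟨mem_sp_inr (ends e) h, mem_sp_inr (ends e).symm h⟩,
      fun h => (hg.2 e _ _ (ends e) h.1 h.2).1⟩
  ext w
  rcases w with v | e
  · rw [mem_C0_inl, ← hs]
    constructor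
    · intro h
      refine ⟨mem_sp_inl h, fun e p he hp => ?_⟩
      have h3 := (hg.2 e v p he (mem_sp_inl h) hp).1
      rcases he with ⟨rfl, rfl⟩ | ⟨rfl, rfl⟩
      · exact absurd h (hno e h3)
      · rfl
    · rintro ⟨h, h'⟩
      rcases mem_sp.mp h with h3 | ⟨e, p, h3, h4⟩
      · exact h3
      · have hp := mem_sp_inr h4.symm h3
        have h5 := h' e p h4 hp
        rw [(hg.2 e v p h4 h hp).2]
        have h6 : p = e.1.1 := by
          rcases h4 with ⟨h6, h7⟩ | ⟨h6, h7⟩
          · exact absurd (h6.symm.trans h5) e.2.1.ne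
          · exact h7
        rw [h6]
        exact hno e h3
  · exact hR e

theorem pf_sd {z : Finset V → ZMod 2} (hz : ∀ T, ¬ Sph M T → z T = 0) : pf (rr M) (sd (M := M) z) = z := by
  funext T
  unfold pf
  by_cases hT : z T = 0
  · rw [hT]
    refine sum_eq_zero fun C hC => ?_
    rw [mem_filter] at hC
    by_contra hne
    have h1 := sd_ne hne
    rw [sp_eq h1.1 hC.2.1 hC.2.2] at h1
    exact h1.2.2 hT
  · have hS : Sph M T := by
      by_contra h
      exact hT (hz T h)
    rw [sum_eq_single (C0 M T)]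
    · rw [sd_good (good_C0 hS), sp_C0]
    · intro C hC hne
      rw [mem_filter] at hC
      by_contra hne'
      exact hne (uniq_C0 (sd_ne hne').1 hC.2.1 hC.2.2)
    · intro h
      exfalso
      refine h (mem_filter.mpr ⟨mem_univ _, image_C0 T, ?_⟩)
      rw [good_card (good_C0 hS), sp_C0]

end retr

end LSUB

open LSUB in
theorem t_LSUB : S_LSUB := by
  intro V _ _ M _ i hE z hz h0
  have hz' : ∀ T, ¬ Sph M T → z T = 0 := fun T hT => hz T fun h => hT h.1
  obtain ⟨y, hy, hyz⟩ := hE (sd (M := M) z) (fun C hC => by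
    by_contra hne
    obtain ⟨h1, h2, h3⟩ := sd_ne hne
    refine hC ⟨good_clique h1, ?_⟩
    rw [good_card h1]
    by_contra h4
    exact h3 (hz _ fun h => h4 h.2)) (bb_sd hz' h0)
  refine ⟨pf (rr M) y, fun T hT => ?_, ?_⟩
  · refine sum_eq_zero fun C hC => ?_
    rw [mem_filter] at hC
    refine hy C fun h => hT ⟨?_, ?_⟩
    · rw [← hC.2.1]
      exact rr_sph h.1
    · rw [← hC.2.2]
      exact h.2
  · rw [bb_pf, hyz, pf_sd hz']

end Pool.Agent.H56T.LR
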