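import Pool.Agent.H56T.Stm4

/-!
# TITS: the Tits representation of an Artin group and the root counting cocycle
-/

set_option autoImplicit false

namespace Pool.Agent.H56T.LR.TITS

open Finset

variable {V : Type} [Fintype V] [DecidableEq V] (M : CoxeterMatrix V)

/-- the entries of the form -/
noncomputable def bf (u v : V) : ℝ := if M u v = 0 then -1 else - Real.cos (Real.pi / M u v)

lemma bf_self (v : V) : bf M v v = 1 := by
  unfold bf
  rw [M.diagonal]
  simp

lemma bf_symm (u v : V) : bf M u v = bf M v u := by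
  unfold bf
  rw [M.symmetric u v]

/-- the linear form `B(·, e_v)` -/
noncomputable def Bf (v : V) : (V → ℝ) →ₗ[ℝ] ℝ where
  toFun x := ∑ u, x u * bf M u v
  map_add' x y := by simp only [Pi.add_apply, add_mul, sum_add_distrib]
  map_smul' a x := by simp only [Pi.smul_apply, smul_eq_mul, mul_assoc, mul_sum, RingHom.id_apply]

lemma Bf_single (u v : V) : Bf M v (Pi.single u 1) = bf M u v := by
  change ∑ w, (Pi.single u 1 : V → ℝ) w * bf M w v = _
  rw [sum_eq_single u]
  · simp
  · intro b _ hb
    rw [Pi.single_eq_of_ne hb, zero_mul]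
  · intro h
    exact absurd (mem_univ u) h

/-- the reflection as a linear map -/
noncomputable def rl (v : V) : (V → ℝ) →ₗ[ℝ] (V → ℝ) :=
  LinearMap.id - ((2 : ℝ) • Bf M v).smulRight (Pi.single v 1)

lemma rl_apply (v : V) (x : V → ℝ) : rl M v x = x - (2 * Bf M v x) • Pi.single v 1 := by
  simp [rl]

lemma rl_inv (v : V) : Function.Involutive (rl M v) := by
  intro x
  rw [rl_apply, rl_apply, map_sub, map_smul, Bf_single, bf_self]
  simp only [smul_eq_mul, mul_one]
  module

/-- the reflection -/
noncomputable def rr (v : V) : (V → ℝ) ≃ₗ[ℝ] (V → ℝ) := LinearEquiv.ofInvolutive (rl M v) (rl_inv M v)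

lemma rr_apply (v : V) (x : V → ℝ) : rr M v x = x - (2 * Bf M v x) • Pi.single v 1 := rl_apply M v x

/-- the action of the linear group on the integer functions -/
def act : ((V → ℝ) ≃ₗ[ℝ] (V → ℝ)) →* MulAut (Multiplicative ((V → ℝ) → ℤ)) where
  toFun g :=
    { toFun := fun F => Multiplicative.ofAdd fun x => (Multiplicative.toAdd F) (g.symm x)
      invFun := fun F => Multiplicative.ofAdd fun x => (Multiplicative.toAdd F) (g x)
      left_inv := fun F => by
        apply Multiplicative.toAdd.injective
        funext x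
        simp
      right_inv := fun F => by
        apply Multiplicative.toAdd.injective
        funext x
        simp
      map_mul' := fun F G => rfl }
  map_one' := rfl
  map_mul' g h := rfl

lemma act_apply (g : (V → ℝ) ≃ₗ[ℝ] (V → ℝ)) (F : Multiplicative ((V → ℝ) → ℤ)) (x : V → ℝ) :
    Multiplicative.toAdd (act g F) x = Multiplicative.toAdd F (g⁻¹ x) := rfl

open Classical in
/-- the indicator function of `± y` -/
noncomputable def ind (y : V → ℝ) : (V → ℝ) → ℤ := fun x => if x = y ∨ x = -y then 1 else 0

lemma ind_neg (y : V → ℝ) : ind (-y) = ind y := by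
  funext x
  unfold ind
  rw [neg_neg]
  congr 1
  exact propext or_comm

lemma ind_smul (y : V → ℝ) (n : ℕ) : ind ((-1 : ℝ) ^ n • y) = ind y := by
  rcases neg_one_pow_eq_or ℝ n with h | h
  · rw [h, one_smul]
  · rw [h, neg_one_smul, ind_neg]

lemma ind_act (g : (V → ℝ) ≃ₗ[ℝ] (V → ℝ)) (y x : V → ℝ) : ind y (g⁻¹ x) = ind (g y) x := by
  unfold ind
  have h1 : ∀ z : V → ℝ, g⁻¹ x = z ↔ x = g z := fun z => by
    change g.symm x = z ↔ _
    exact LinearEquiv.symm_apply_eq g
  simp only [h1, map_neg]

/-- the group -/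
abbrev GG (V : Type) [Fintype V] : Type :=
  Multiplicative ((V → ℝ) → ℤ) ⋊[act] ((V → ℝ) ≃ₗ[ℝ] (V → ℝ))

/-- the images of the generators -/
noncomputable def aa (v : V) : GG V := ⟨Multiplicative.ofAdd (ind (Pi.single v 1)), rr M v⟩

section plane

variable (s t : V) (θ : ℝ)

/-- the roots of the plane -/
noncomputable def be (k : ℤ) : V → ℝ :=
  (Real.sin θ)⁻¹ • (Real.sin ((k + 1) * θ) • Pi.single s 1 + Real.sin (k * θ) • Pi.single t 1)

variable {s t θ}

lemma be_zero (h : Real.sin θ ≠ 0) : be s t θ 0 = Pi.single s 1 := by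
  unfold be
  simp only [Int.cast_zero, zero_add, one_mul, zero_mul, Real.sin_zero, zero_smul, add_zero]
  rw [smul_smul, inv_mul_cancel₀ h, one_smul]

lemma be_neg_one (h : Real.sin θ ≠ 0) : be s t θ (-1) = - Pi.single t 1 := by
  unfold be
  simp only [Int.cast_neg, Int.cast_one, neg_add_cancel, zero_mul, Real.sin_zero, zero_smul, zero_add, neg_mul,
    one_mul, Real.sin_neg, neg_smul, smul_neg]
  rw [smul_smul, inv_mul_cancel₀ h, one_smul]

lemma be_add (m : ℕ) (hm : m * θ = Real.pi) (k : ℤ) : be s t θ (k + m) = - be s t θ k := by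
  unfold be
  have h1 : (((k + m : ℤ) : ℝ) + 1) * θ = (k + 1) * θ + Real.pi := by
    push_cast
    rw [← hm]
    ring
  have h2 : ((k + m : ℤ) : ℝ) * θ = k * θ + Real.pi := by
    push_cast
    rw [← hm]
    ring
  rw [h1, h2, Real.sin_add_pi, Real.sin_add_pi, neg_smul, neg_smul, ← neg_add, smul_neg]

lemma be_sub (m : ℕ) (hm : m * θ = Real.pi) (k : ℤ) : be s t θ (k - m) = - be s t θ k := by
  have := be_add (s := s) (t := t) m hm (k - m)
  rw [sub_add_cancel] at this
  rw [this, neg_neg]

variable {M}

lemma rs_be (hst : bf M s t = - Real.cos θ) (h : Real.sin θ ≠ 0) (k : ℤ) :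
    rr M s (be s t θ k) = - be s t θ (-k) := by
  rw [rr_apply]
  unfold be
  rw [map_smul, map_add, map_smul, map_smul, Bf_single, Bf_single, bf_self, bf_symm, hst]
  have h1 : Real.sin (((-k : ℤ) + 1 : ℝ) * θ) = Real.sin ((k + 1) * θ) - 2 * Real.cos θ * Real.sin (k * θ) := by
    have e1 : ((-k : ℤ) + 1 : ℝ) * θ = θ - k * θ := by push_cast; ring
    have e2 : ((k : ℝ) + 1) * θ = k * θ + θ := by ring
    rw [e1, e2, Real.sin_sub, Real.sin_add]
    ring
  have h2 : Real.sin (((-k : ℤ) : ℝ) * θ) = - Real.sin (k * θ) := by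
    push_cast
    rw [neg_mul, Real.sin_neg]
  rw [h1, h2]
  simp only [smul_eq_mul]
  module

lemma rt_be (hst : bf M s t = - Real.cos θ) (h : Real.sin θ ≠ 0) (k : ℤ) :
    rr M t (be s t θ k) = - be s t θ (-k - 2) := by
  rw [rr_apply]
  unfold be
  rw [map_smul, map_add, map_smul, map_smul, Bf_single, Bf_single, bf_self, hst]
  have h1 : Real.sin (((-k - 2 : ℤ) + 1 : ℝ) * θ) = - Real.sin ((k + 1) * θ) := by
    rw [← Real.sin_neg]
    congr 1
    push_cast
    ring
  have h2 : Real.sin (((-k - 2 : ℤ) : ℝ) * θ) = Real.sin (k * θ) - 2 * Real.cos θ * Real.sin ((k + 1) * θ) := by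
    have e1 : ((-k - 2 : ℤ) : ℝ) * θ = - ((k + 1) * θ + θ) := by push_cast; ring
    have e2 : (k : ℝ) * θ = (k + 1) * θ - θ := by ring
    rw [e1, Real.sin_neg, Real.sin_add, e2, Real.sin_sub]
    have e3 : ((k : ℝ) + 1) * θ = (k + 1) * θ := rfl
    ring
  rw [h1, h2]
  simp only [smul_eq_mul]
  module

/-- the action of the alternating products on the roots -/
lemma alt_right (hst : bf M s t = - Real.cos θ) (h : Real.sin θ ≠ 0) (n : ℕ) :
    (∀ k : ℤ, (alt (aa M t) (aa M s) n).right (be s t θ k) =
      (-1 : ℝ) ^ n • be s t θ (if Even n then k + n else -k - (n + 1))) ∧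
    (∀ k : ℤ, (alt (aa M s) (aa M t) n).right (be s t θ k) =
      (-1 : ℝ) ^ n • be s t θ (if Even n then k - n else -k + (n - 1))) := by
  induction n with
  | zero =>
    refine ⟨fun k => ?_, fun k => ?_⟩
    · simp [alt]
    · simp [alt]
  | succ n ih =>
    refine ⟨fun k => ?_, fun k => ?_⟩
    · have h1 : (alt (aa M t) (aa M s) (n + 1)).right (be s t θ k) =
          (alt (aa M s) (aa M t) n).right (rr M t (be s t θ k)) := rfl
      rw [h1, rt_be hst h, map_neg, ih.2, pow_succ, mul_neg_one, neg_smul]
      congr 3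
      by_cases hn : Even n
      · have hn' : ¬ Even (n + 1) := by rwa [Nat.even_add_one, not_not]
        rw [if_pos hn, if_neg hn']
        push_cast
        ring
      · have hn' : Even (n + 1) := by rwa [Nat.even_add_one]
        rw [if_neg hn, if_pos hn']
        push_cast
        ring
    · have h1 : (alt (aa M s) (aa M t) (n + 1)).right (be s t θ k) =
          (alt (aa M t) (aa M s) n).right (rr M s (be s t θ k)) := rfl
      rw [h1, rs_be hst h, map_neg, ih.1, pow_succ, mul_neg_one, neg_smul]
      congr 3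
      by_cases hn : Even n
      · have hn' : ¬ Even (n + 1) := by rwa [Nat.even_add_one, not_not]
        rw [if_pos hn, if_neg hn']
        push_cast
        ring
      · have hn' : Even (n + 1) := by rwa [Nat.even_add_one]
        rw [if_neg hn, if_pos hn']
        push_cast
        ring

/-- the root counting functions of the alternating products -/
lemma alt_left (hst : bf M s t = - Real.cos θ) (h : Real.sin θ ≠ 0) (n : ℕ) :
    (∀ x, Multiplicative.toAdd (alt (aa M s) (aa M t) n).left x =
      ∑ k ∈ range n, ind (be s t θ (if Even n then -1 - k else k)) x) ∧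
    (∀ x, Multiplicative.toAdd (alt (aa M t) (aa M s) n).left x =
      ∑ k ∈ range n, ind (be s t θ (if Even n then k else -1 - k)) x) := by
  induction n with
  | zero =>
    refine ⟨fun x => ?_, fun x => ?_⟩
    · simp [alt]
    · simp [alt]
  | succ n ih =>
    refine ⟨fun x => ?_, fun x => ?_⟩
    · have h1 : Multiplicative.toAdd (alt (aa M s) (aa M t) (n + 1)).left x =
          Multiplicative.toAdd (alt (aa M t) (aa M s) n).left x +
            ind (Pi.single s 1) ((alt (aa M t) (aa M s) n).right⁻¹ x) := rfl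
      rw [h1, ih.2, ind_act, ← be_zero (s := s) (t := t) h, (alt_right hst h n).1, ind_smul, sum_range_succ]
      by_cases hn : Even n
      · have hn' : ¬ Even (n + 1) := by rwa [Nat.even_add_one, not_not]
        simp only [if_pos hn, if_neg hn', zero_add]
      · have hn' : Even (n + 1) := by rwa [Nat.even_add_one]
        simp only [if_neg hn, if_pos hn']
        congr 3
        ring
    · have h1 : Multiplicative.toAdd (alt (aa M t) (aa M s) (n + 1)).left x =
          Multiplicative.toAdd (alt (aa M s) (aa M t) n).left x +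
            ind (Pi.single t 1) ((alt (aa M s) (aa M t) n).right⁻¹ x) := rfl
      have h2 : (Pi.single t 1 : V → ℝ) = - be s t θ (-1) := by rw [be_neg_one h, neg_neg]
      rw [h1, ih.1, ind_act, h2, map_neg, (alt_right hst h n).2, ind_neg, ind_smul, sum_range_succ]
      by_cases hn : Even n
      · have hn' : ¬ Even (n + 1) := by rwa [Nat.even_add_one, not_not]
        simp only [if_pos hn, if_neg hn']
      · have hn' : Even (n + 1) := by rwa [Nat.even_add_one]
        simp only [if_neg hn, if_pos hn']
        congr 3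
        ring

lemma ind_be_add (m : ℕ) (hm : m * θ = Real.pi) (k : ℤ) : ind (be s t θ (k + m)) = ind (be s t θ k) := by
  rw [be_add m hm, ind_neg]

lemma sum_eq (m : ℕ) (hm : m * θ = Real.pi) (x : V → ℝ) :
    ∑ k ∈ range m, ind (be s t θ (-1 - k)) x = ∑ k ∈ range m, ind (be s t θ k) x := by
  rw [← sum_range_reflect (fun k : ℕ => ind (be s t θ k) x) m]
  refine sum_congr rfl fun k hk => ?_
  have hk' : k < m := mem_range.1 hk
  have h1 : ((m - 1 - k : ℕ) : ℤ) = -1 - k + m := by omega
  rw [h1, ind_be_add m hm]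

lemma alt_fix (x : V → ℝ) (hs : Bf M s x = 0) (ht : Bf M t x = 0) (n : ℕ) :
    (alt (aa M s) (aa M t) n).right x = x ∧ (alt (aa M t) (aa M s) n).right x = x := by
  induction n with
  | zero => exact ⟨rfl, rfl⟩
  | succ n ih =>
    constructor
    · have h1 : (alt (aa M s) (aa M t) (n + 1)).right x = (alt (aa M t) (aa M s) n).right (rr M s x) := rfl
      rw [h1, rr_apply, hs, mul_zero, zero_smul, sub_zero, ih.2]
    · have h1 : (alt (aa M t) (aa M s) (n + 1)).right x = (alt (aa M s) (aa M t) n).right (rr M t x) := rfl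
      rw [h1, rr_apply, ht, mul_zero, zero_smul, sub_zero, ih.1]

lemma alt_be (hst : bf M s t = - Real.cos θ) (h : Real.sin θ ≠ 0) (m : ℕ) (hm : m * θ = Real.pi) (k : ℤ) :
    (alt (aa M s) (aa M t) m).right (be s t θ k) = (alt (aa M t) (aa M s) m).right (be s t θ k) := by
  rw [(alt_right hst h m).1, (alt_right hst h m).2]
  congr 1
  split_ifs with hn
  · rw [be_add m hm, be_sub m hm]
  · have h1 : -k + ((m : ℤ) - 1) = (-k - 1) + m := by ring
    have h2 : -k - ((m : ℤ) + 1) = (-k - 1) - m := by ring
    rw [h1, h2, be_add m hm, be_sub m hm]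

lemma braid (hst : bf M s t = - Real.cos θ) (h : Real.sin θ ≠ 0) (m : ℕ) (hm : m * θ = Real.pi) :
    alt (aa M s) (aa M t) m = alt (aa M t) (aa M s) m := by
  apply SemidirectProduct.ext
  · apply Multiplicative.toAdd.injective
    funext x
    rw [(alt_left hst h m).1, (alt_left hst h m).2]
    split_ifs with hn
    · exact sum_eq m hm x
    · exact (sum_eq m hm x).symm
  · ext1 x
    have hsin : Real.sin θ ^ 2 ≠ 0 := pow_ne_zero 2 h
    have h2 : Real.sin θ ^ 2 = 1 - Real.cos θ ^ 2 := Real.sin_sq θ
    set a : ℝ := (Bf M s x + Real.cos θ * Bf M t x) / Real.sin θ ^ 2 with ha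
    set b : ℝ := (Bf M t x + Real.cos θ * Bf M s x) / Real.sin θ ^ 2 with hb
    set y : V → ℝ := x - a • Pi.single s 1 - b • Pi.single t 1 with hy
    have hys : Bf M s y = 0 := by
      rw [hy, map_sub, map_sub, map_smul, map_smul, Bf_single, Bf_single, bf_self, bf_symm M t s, hst, ha, hb]
      simp only [smul_eq_mul]
      field_simp
      rw [h2]
      ring
    have hyt : Bf M t y = 0 := by
      rw [hy, map_sub, map_sub, map_smul, map_smul, Bf_single, Bf_single, bf_self, hst, ha, hb]
      simp only [smul_eq_mul]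
      field_simp
      rw [h2]
      ring
    have hx : x = y + a • be s t θ 0 - b • be s t θ (-1) := by
      rw [be_zero h, be_neg_one h, hy]
      module
    clear hy
    clear_value y
    rw [hx, map_sub, map_add, map_smul, map_smul, map_sub, map_add, map_smul, map_smul, alt_be hst h m hm,
      alt_be hst h m hm, (alt_fix y hys hyt m).1, (alt_fix y hys hyt m).2]

end plane

lemma alt_map {G H : Type} [Monoid G] [Monoid H] (f : G →* H) (x y : G) (n : ℕ) :
    f (alt x y n) = alt (f x) (f y) n := by
  induction n generalizing x y with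
  | zero => exact map_one f
  | succ n ih =>
    change f (alt y x n * x) = alt (f y) (f x) n * f x
    rw [map_mul, ih]

lemma rels (u v : V) : alt (aa M u) (aa M v) (M u v) = alt (aa M v) (aa M u) (M u v) := by
  by_cases huv : u = v
  · rw [huv]
  by_cases h0 : M u v = 0
  · rw [h0]
    rfl
  have h1 : M u v ≠ 1 := M.off_diagonal u v huv
  have h2 : 2 ≤ M u v := by omega
  have h2' : (2 : ℝ) ≤ M u v := by exact_mod_cast h2
  have hpi := Real.pi_pos
  have hm : (M u v : ℝ) * (Real.pi / M u v) = Real.pi := by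
    field_simp
  refine braid (θ := Real.pi / M u v) ?_ ?_ (M u v) hm
  · unfold bf
    rw [if_neg h0]
  · apply ne_of_gt
    apply Real.sin_pos_of_pos_of_lt_pi
    · positivity
    · rw [div_lt_iff₀ (by linarith)]
      nlinarith

/-- the homomorphism to the semidirect product -/
noncomputable def psi : ArtG M →* GG V :=
  PresentedGroup.toGroup (f := aa M) (by
    rintro r ⟨u, v, rfl⟩
    rw [map_mul, map_inv, alt_map, alt_map, FreeGroup.lift_apply_of, FreeGroup.lift_apply_of, rels, mul_inv_cancel])

lemma psi_sig (v : V) : psi M (sig M v) = aa M v := PresentedGroup.toGroup.of _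

end Pool.Agent.H56T.LR.TITS

namespace Pool.Agent.H56T.LR

open TITS in
theorem t_TITS : S_TITS := by
  intro V _ _ M
  refine ⟨SemidirectProduct.rightHom.comp (psi M), fun g => Multiplicative.toAdd (psi M g).left, ?_, ?_, ?_⟩
  · intro v x
    rw [MonoidHom.comp_apply, psi_sig]
    exact rr_apply M v x
  · intro g h x
    rw [MonoidHom.map_inv]
    simp only [map_mul]
    rfl
  · intro v x
    rw [psi_sig]
    change ind (Pi.single v 1) x = _
    unfold ind
    congr

end Pool.Agent.H56T.LR
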