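import Pool.Agent.H56T.Stm4
import Pool.Agent.H56T.KER
import Pool.Agent.N496.CV.P_FINAL

/-!
# Project LR, assembly: locally reducible Artin groups
-/

set_option autoImplicit false
set_option linter.unusedSectionVars false

noncomputable section

namespace Pool.Agent.H56T.LR.ASM

open Finset Pool.Agent.W907.SG Pool.Agent.N496.LT Pool.Agent.Helper655.VN Pool.Agent.RK Pool.Agent.N496.CV

variable {V : Type} [Fintype V] [LinearOrder V] (M : CoxeterMatrix V)

theorem sph_mono {T T' : Finset V} (h : T' ⊆ T) (hT : Sph M T) : Sph M T' :=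
  ⟨fun u hu v hv => hT.1 u (h hu) v (h hv), fun u hu v hv w hw => hT.2 u (h hu) v (h hv) w (h hw)⟩

/-- the obstructor theorem for the finite index subgroups of the Artin group -/
theorem lr_exa (hC : S_LCOM) (hT : S_TITS) (hL : S_LHOM) {n : ℕ} {X : Type} [TopologicalSpace X]
    [ContractibleSpace X] (hX : StInj n X) (H : Subgroup (ArtG M)) [MulAction H X] (hH : H.FiniteIndex)
    (hP : PropAct H X) {i : ℕ} (hi : n < 2 * i) [DecidableEq (V ⊕ EE M)] : Exa (LG M) i := by
  obtain ⟨ρ, c, ht⟩ := hT V M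
  obtain ⟨hz, E, hE⟩ := hL V M ρ c ht
  obtain ⟨N, hN, hNK⟩ : ∃ N : ℕ, 0 < N ∧ ∀ x : ArtG M, x ^ N ∈ H := by
    have h1 : H.relIndex ⊤ ≠ 0 := by rw [Subgroup.relIndex_top_right]; exact hH.index_ne_zero
    obtain ⟨N, h, h'⟩ := PAT.exists_exp h1
    exact ⟨N, h, fun x => h' x trivial⟩
  let Q : Subgroup H := ρ.ker.subgroupOf H
  let y : V ⊕ EE M → Q := fun x => ⟨⟨zz M x ^ N, hNK _⟩, by
    rw [Subgroup.mem_subgroupOf]
    exact ρ.ker.pow_mem (hz x) N⟩
  have hy : ∀ x, ((y x : H) : ArtG M) = zz M x ^ N := fun x => rfl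
  let g : (V ⊕ EE M) × Bool → Q := fun x => if x.2 = true then (y x.1)⁻¹ else y x.1
  let j : Q →* ρ.ker := ((Subgroup.subtype H).comp Q.subtype).codRestrict ρ.ker fun q => q.2
  have hj : ∀ x z, Multiplicative.toAdd (((E x).comp j) (y z)) = if z = x then 2 * (N : ℤ) else 0 := by
    intro x z
    have h1 : j (y z) = (⟨zz M z, hz z⟩ : ρ.ker) ^ N := Subtype.ext (by
      rw [SubgroupClass.coe_pow]
      exact hy z)
    rw [MonoidHom.comp_apply, h1, map_pow, toAdd_pow, hE]
    split_ifs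
    · simp [mul_comm]
    · simp
  have hyc : ∀ x z, (LG M).Adj x z → Commute (y x) (y z) := by
    intro x z h
    have h1 : Commute (zz M x ^ N) (zz M z ^ N) := (hC V M x z h).pow_pow N N
    exact Subtype.ext (Subtype.ext h1.eq)
  refine CTR.exa_of_action (Q := Q) (g := g) hX ⟨fun q => hP.1 q, fun K hK => ?_⟩ ?_ ?_ hi
  · have h1 := hP.2 K hK
    exact (h1.preimage (Subtype.val_injective.injOn)).subset fun q hq => hq
  · rintro ⟨x, b⟩ ⟨z, b'⟩ h
    have h1 := hyc x z h
    show Commute (if b = true then (y x)⁻¹ else y x) (if b' = true then (y z)⁻¹ else y z)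
    split_ifs
    · exact h1.inv_inv
    · exact h1.inv_left
    · exact h1.inv_right
    · exact h1
  · intro q
    refine PAT.pairs_fin g (fun x => (E x).comp j) (fun _ => 2 * (N : ℤ)) (fun _ => by omega) (fun v x => ?_) q
    obtain ⟨z, b⟩ := x
    show Multiplicative.toAdd (((E v).comp j) (if b = true then (y z)⁻¹ else y z)) = _
    cases b
    · simp only [Bool.false_eq_true, if_false]
      exact hj v z
    · simp only [if_true]
      rw [map_inv, toAdd_inv, hj]
      split_ifs <;> simp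

theorem ev_comp {R U : Type} [Ring R] [Ring U] (ι : R →+* U) (c : ArtG M →* R) (b : MonoidAlgebra ℤ (ArtG M)) :
    V7N.evM ((ι : R →* U).comp c) b = ι (V7N.evM c b) := by
  have h1 : (MonoidAlgebra.lift ℤ U (ArtG M) ((ι : R →* U).comp c)) =
      ((ι.toIntAlgHom).comp (MonoidAlgebra.lift ℤ R (ArtG M) c)) := by
    ext g
    simp
  exact congrArg (fun f => f b) h1

/-- the vanishing of the `L²`-Betti numbers from the rational acyclicity of the nerve -/
theorem sal_l2 (hU : S_LUNI) {i : ℕ}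
    (hex : ∀ (X : Type) [AddCommGroup X] [Module ℚ X] (x : Finset V → X), ChS (Sph M) i x → (∀ T, sb x T = 0) →
      ∃ y : Finset V → X, ChS (Sph M) (i + 1) y ∧ ∀ T, sb y T = x T) : HasL2BettiSal M i 0 := by
  classical
  refine HasL2BettiSal.mk (NG (ArtG M)) (EllTwo (ArtG M)) canL (fun x => (tr x).re) dl _ (isVN_NG (ArtG M)) ?_
  refine FinAux.luck_zero fun m => ?_
  obtain ⟨⟨a, ha⟩, rfl⟩ := Submodule.Quotient.mk_surjective _ m
  obtain ⟨U, hUr, ι, hloc⟩ := Pool.Agent.RK.LocEx.loc_exists (vn_NG (G := ArtG M))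
  obtain ⟨u, hu⟩ : ∃ u : ArtG M →* U, u = (ι : NG (ArtG M) →* U).comp canL := ⟨_, rfl⟩
  have hev : ∀ b, V7N.evM u b = ι (V7N.evM canL b) := fun b => by rw [hu, ev_comp]
  have hunit : ∀ g : ArtG M, (∃ d : ArtG M →* Multiplicative ℤ, d g ≠ 1) → IsUnit (1 - u g) := by
    intro g ⟨d, hd⟩
    have h1 : ι (1 - canL g) = 1 - u g := by rw [map_sub, map_one, hu]; rfl
    rw [← h1]
    refine hloc.unit _ (Pool.Agent.N496.CV.P_RU_nz g fun k l hkl => ?_)
    have h2 := congrArg (fun x => Multiplicative.toAdd (d x)) hkl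
    simp only [map_pow, toAdd_pow] at h2
    have h3 : Multiplicative.toAdd (d g) ≠ 0 := fun h => hd (Multiplicative.toAdd.injective h)
    rw [nsmul_eq_mul, nsmul_eq_mul] at h2
    exact_mod_cast mul_right_cancel₀ h3 h2
  obtain ⟨α, hα1, hα2⟩ := hU V M U u hunit
  -- inverses
  obtain ⟨γ, hγ1, hγ2⟩ : ∃ γ : Finset V → U, (∀ T, Sph M T → α T * γ T = 1) ∧ ∀ T, Sph M T → γ T * α T = 1 := by
    refine ⟨fun T => if h : Sph M T then ((hα1 T h).unit⁻¹ : Uˣ) else 0, fun T h => ?_, fun T h => ?_⟩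
    · simp only [dif_pos h]
      exact (hα1 T h).mul_val_inv
    · simp only [dif_pos h]
      exact (hα1 T h).val_inv_mul
  have hsub : ∀ (T : Finset V) (v : V), Sph M (insert v T) → Sph M T := fun T v h =>
    sph_mono M (Finset.subset_insert v T) h
  -- the rational structure
  let f : ℚ →+* U := ι.comp ((algebraMap ℂ (NG (ArtG M))).comp (algebraMap ℚ ℂ))
  have hfc : ∀ q x, f q * x = x * f q := fun q x =>
    KER.central hloc (fun y => Algebra.commutes (algebraMap ℚ ℂ q) y) x
  let _ : Algebra ℚ U := f.toAlgebra' hfc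
  obtain ⟨hc1, hc2⟩ := ha
  obtain ⟨b, hb1, hb2⟩ := hex U (fun T => ι (a T) * α T) (fun T hT => by
    show ι (a T) * α T = 0
    rw [hc1 T hT, map_zero, zero_mul]) (fun T => by
    have h1 : ι (bdS M canL a T) * α T = 0 := by rw [hc2 T, map_zero, zero_mul]
    rw [← h1]
    unfold sb bdS
    rw [map_sum, Finset.sum_mul]
    refine Finset.sum_congr rfl fun v hv => ?_
    rw [Finset.mem_compl] at hv
    rw [map_zsmul, map_mul, ← hev, smul_mul_assoc, mul_assoc]
    beta_reduce
    by_cases hS : Sph M (insert v T)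
    · rw [hα2 T v hv hS]
    · rw [hc1 _ fun h => hS h.1, map_zero, zero_mul, zero_mul])
  obtain ⟨s, hs, hx⟩ := KER.common_den hloc (fun a b ha hb => Pool.Agent.RK.Nz.nz_mul a b ha hb)
    (Finset.univ : Finset (Finset V)) (fun T => b T * γ T)
  choose e he using fun T => hx T (Finset.mem_univ T)
  refine ⟨s, hs, ?_⟩
  rw [← Submodule.Quotient.mk_smul, Submodule.Quotient.mk_eq_zero]
  show (s • (⟨a, ⟨hc1, hc2⟩⟩ : cycS M canL i)).1 ∈ bouS M canL i
  refine ⟨e, fun T hT => ?_, fun T => ?_⟩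
  · apply hloc.inj
    rw [← he, hb1 T hT, zero_mul, mul_zero, map_zero]
  · apply hloc.inj
    show ι (bdS M canL e T) = ι (s * a T)
    rw [map_mul]
    unfold bdS
    rw [map_sum]
    have h1 : ∀ v ∈ Tᶜ, ι (sg v T • (e (insert v T) * V7N.evM canL (bet M (insert v T) v))) =
        ι s * (sg v T • b (insert v T)) * γ T := by
      intro v hv
      rw [Finset.mem_compl] at hv
      rw [map_zsmul, map_mul, ← he, ← hev, mul_smul_comm, smul_mul_assoc, mul_assoc, mul_assoc, mul_assoc]
      by_cases hS : Sph M (insert v T)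
      · have h2 : γ (insert v T) * V7N.evM u (bet M (insert v T) v) = γ T := by
          have h3 := hα2 T v hv hS
          calc γ (insert v T) * V7N.evM u (bet M (insert v T) v)
              = γ (insert v T) * V7N.evM u (bet M (insert v T) v) * (α T * γ T) := by
                rw [hγ1 T (hsub T v hS), mul_one]
            _ = γ (insert v T) * (V7N.evM u (bet M (insert v T) v) * α T) * γ T := by simp only [mul_assoc]
            _ = γ T := by rw [h3, hγ2 _ hS, one_mul]
        rw [h2]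
      · rw [hb1 _ fun h => hS h.1, zero_mul, zero_mul]
    rw [Finset.sum_congr rfl h1, ← Finset.sum_mul, ← Finset.mul_sum]
    have h4 := hb2 T
    unfold sb at h4
    rw [h4, mul_assoc, mul_assoc]
    by_cases hS : Sph M T
    · rw [hγ1 T hS, mul_one]
    · rw [hc1 T fun h => hS h.1, map_zero, zero_mul]

/-- **Theorem.** -/
theorem lr (hC : S_LCOM) (hT : S_TITS) (hL : S_LHOM) (hS : S_LSUB) (hR : S_LRAT) (hU : S_LUNI) {n : ℕ} {X : Type}
    [TopologicalSpace X] [ContractibleSpace X] (hX : StInj n X) (H : Subgroup (ArtG M)) [MulAction H X]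
    (hH : H.FiniteIndex) (hP : PropAct H X) {i : ℕ} (hi : n < 2 * i) : HasL2BettiSal M i 0 := by
  classical
  refine sal_l2 M hU fun Y _ _ x hx hb => ?_
  exact hR V (Sph M) i (fun T T' h h' => sph_mono M h h')
    (hS V M i (lr_exa M hC hT hL hX H hH hP hi)) Y x hx hb

end Pool.Agent.H56T.LR.ASM
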