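import Pool.Agent.H56T.Stm5
import Pool.Agent.H56T.LRAsm

/-!
# Project GA, assembly: all Artin groups
-/

set_option autoImplicit false
set_option linter.unusedSectionVars false

noncomputable section

namespace Pool.Agent.H56T.GA.ASM

open Finset Pool.Agent.W907.SG Pool.Agent.N496.LT Pool.Agent.Helper655.VN Pool.Agent.RK Pool.Agent.N496.CV
  Pool.Agent.H56T.LR

variable {V : Type} [Fintype V] [LinearOrder V] (M : CoxeterMatrix V)

theorem par_mono {T T' : Finset V} (h : T' ⊆ T) : par M T' ≤ par M T :=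
  Subgroup.closure_mono (Set.image_mono (by exact_mod_cast h))

theorem sphl_mono {T T' : Finset V} (h : T' ⊆ T) (hT : Sphl M T) : Sphl M T' :=
  Set.Finite.subset hT (par_mono M h)

/-- the obstructor theorem for the finite index subgroups of the Artin group -/
theorem ga_exa (hC : ∀ S T : Finset V, Sphl M S → Sphl M T →
      (S ⊆ T ∨ T ⊆ S ∨ ∀ a ∈ S, ∀ b ∈ T, M a b = 2) → Commute (zzG M S) (zzG M T))
    (π : ArtG M →* M.Group) [DecidableEq (II M)] (hz : ∀ x : II M, zzG M x.1 ∈ π.ker)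
    (E : II M → (π.ker →* Multiplicative ℤ))
    (hE : ∀ x y : II M, Multiplicative.toAdd (E x ⟨zzG M y.1, hz y⟩) = if y = x then 2 else 0)
    {n : ℕ} {X : Type} [TopologicalSpace X]
    [ContractibleSpace X] (hX : StInj n X) (H : Subgroup (ArtG M)) [MulAction H X] (hH : H.FiniteIndex)
    (hP : PropAct H X) {i : ℕ} (hi : n < 2 * i) : Exa (LGG M) i := by
  obtain ⟨N, hN, hNK⟩ : ∃ N : ℕ, 0 < N ∧ ∀ x : ArtG M, x ^ N ∈ H := by
    have h1 : H.relIndex ⊤ ≠ 0 := by rw [Subgroup.relIndex_top_right]; exact hH.index_ne_zero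
    obtain ⟨N, h, h'⟩ := PAT.exists_exp h1
    exact ⟨N, h, fun x => h' x trivial⟩
  let Q : Subgroup H := π.ker.subgroupOf H
  let y : II M → Q := fun x => ⟨⟨zzG M x.1 ^ N, hNK _⟩, by
    rw [Subgroup.mem_subgroupOf]
    exact π.ker.pow_mem (hz x) N⟩
  have hy : ∀ x, ((y x : H) : ArtG M) = zzG M x.1 ^ N := fun x => rfl
  let g : II M × Bool → Q := fun x => if x.2 = true then (y x.1)⁻¹ else y x.1
  let j : Q →* π.ker := ((Subgroup.subtype H).comp Q.subtype).codRestrict π.ker fun q => q.2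
  have hj : ∀ x z, Multiplicative.toAdd (((E x).comp j) (y z)) = if z = x then 2 * (N : ℤ) else 0 := by
    intro x z
    have h1 : j (y z) = (⟨zzG M z.1, hz z⟩ : π.ker) ^ N := Subtype.ext (by
      rw [SubgroupClass.coe_pow]
      exact hy z)
    rw [MonoidHom.comp_apply, h1, map_pow, toAdd_pow, hE]
    split_ifs
    · simp [mul_comm]
    · simp
  have hyc : ∀ x z, (LGG M).Adj x z → Commute (y x) (y z) := by
    intro x z h
    have h1 : Commute (zzG M x.1 ^ N) (zzG M z.1 ^ N) := (hC x.1 z.1 x.2.1 z.2.1 h.2).pow_pow N N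
    exact Subtype.ext (Subtype.ext h1.eq)
  refine CTR.exa_of_action (Q := Q) (g := g) hX ⟨fun q => hP.1 q, fun K hK => ?_⟩ ?_ ?_ hi
  · have h1 := hP.2 K hK
    exact (h1.preimage (Subtype.val_injective.injOn)).subset fun q hq => hq
  · rintro ⟨x, b⟩ ⟨z, b'⟩ h
    have h1 := hyc x z h
    show Commute (if b = true then (y x)⁻¹ else y x) (if b' = true then (y z)⁻¹ else y z)
    split_ifs
    · exact h1.inv_inv
    · exact h1.inv_left
    · exact h1.inv_right
    · exact h1
  · intro q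
    refine PAT.pairs_fin g (fun x => (E x).comp j) (fun _ => 2 * (N : ℤ)) (fun _ => by omega) (fun v x => ?_) q
    obtain ⟨z, b⟩ := x
    show Multiplicative.toAdd (((E v).comp j) (if b = true then (y z)⁻¹ else y z)) = _
    cases b
    · simp only [Bool.false_eq_true, if_false]
      exact hj v z
    · simp only [if_true]
      rw [map_inv, toAdd_inv, hj]
      split_ifs <;> simp

/-- the vanishing of the `L²`-Betti numbers from the rational acyclicity of the nerve -/
theorem sal_l2 (hU : ∀ (R : Type) [Ring R] (c : ArtG M →* R),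
      (∀ g : ArtG M, (∃ d : ArtG M →* Multiplicative ℤ, d g ≠ 1) → IsUnit (1 - c g)) →
      ∃ α : Finset V → R, (∀ T, Sphl M T → IsUnit (α T)) ∧ ∀ (T : Finset V) (v : V), v ∉ T → Sphl M (insert v T) →
        V7N.evM c (tht M (insert v T) T) * α T = α (insert v T)) {i : ℕ}
    (hex : ∀ (X : Type) [AddCommGroup X] [Module ℚ X] (x : Finset V → X), ChS (Sphl M) i x → (∀ T, sb x T = 0) →
      ∃ y : Finset V → X, ChS (Sphl M) (i + 1) y ∧ ∀ T, sb y T = x T) : HasL2BettiSalG M i 0 := by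
  classical
  refine HasL2BettiSalG.mk (NG (ArtG M)) (EllTwo (ArtG M)) canL (fun x => (tr x).re) dl _ (isVN_NG (ArtG M)) ?_
  refine FinAux.luck_zero fun m => ?_
  obtain ⟨⟨a, ha⟩, rfl⟩ := Submodule.Quotient.mk_surjective _ m
  obtain ⟨U, hUr, ι, hloc⟩ := Pool.Agent.RK.LocEx.loc_exists (vn_NG (G := ArtG M))
  obtain ⟨u, hu⟩ : ∃ u : ArtG M →* U, u = (ι : NG (ArtG M) →* U).comp canL := ⟨_, rfl⟩
  have hev : ∀ b, V7N.evM u b = ι (V7N.evM canL b) := fun b => by rw [hu, LR.ASM.ev_comp]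
  have hunit : ∀ g : ArtG M, (∃ d : ArtG M →* Multiplicative ℤ, d g ≠ 1) → IsUnit (1 - u g) := by
    intro g ⟨d, hd⟩
    have h1 : ι (1 - canL g) = 1 - u g := by rw [map_sub, map_one, hu]; rfl
    rw [← h1]
    refine hloc.unit _ (Pool.Agent.N496.CV.P_RU_nz g fun k l hkl => ?_)
    have h2 := congrArg (fun x => Multiplicative.toAdd (d x)) hkl
    simp only [map_pow, toAdd_pow] at h2
    have h3 : Multiplicative.toAdd (d g) ≠ 0 := fun h => hd (Multiplicative.toAdd.injective h)
    rw [nsmul_eq_mul, nsmul_eq_mul] at h2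
    exact_mod_cast mul_right_cancel₀ h3 h2
  obtain ⟨α, hα1, hα2⟩ := hU U u hunit
  -- inverses
  obtain ⟨γ, hγ1, hγ2⟩ : ∃ γ : Finset V → U, (∀ T, Sphl M T → α T * γ T = 1) ∧ ∀ T, Sphl M T → γ T * α T = 1 := by
    refine ⟨fun T => if h : Sphl M T then ((hα1 T h).unit⁻¹ : Uˣ) else 0, fun T h => ?_, fun T h => ?_⟩
    · simp only [dif_pos h]
      exact (hα1 T h).mul_val_inv
    · simp only [dif_pos h]
      exact (hα1 T h).val_inv_mul
  have hsub : ∀ (T : Finset V) (v : V), Sphl M (insert v T) → Sphl M T := fun T v h =>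
    sphl_mono M (Finset.subset_insert v T) h
  -- the rational structure
  let f : ℚ →+* U := ι.comp ((algebraMap ℂ (NG (ArtG M))).comp (algebraMap ℚ ℂ))
  have hfc : ∀ q x, f q * x = x * f q := fun q x =>
    KER.central hloc (fun y => Algebra.commutes (algebraMap ℚ ℂ q) y) x
  let _ : Algebra ℚ U := f.toAlgebra' hfc
  obtain ⟨hc1, hc2⟩ := ha
  obtain ⟨b, hb1, hb2⟩ := hex U (fun T => ι (a T) * α T) (fun T hT => by
    show ι (a T) * α T = 0
    rw [hc1 T hT, map_zero, zero_mul]) (fun T => by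
    have h1 : ι (bdG M canL a T) * α T = 0 := by rw [hc2 T, map_zero, zero_mul]
    rw [← h1]
    unfold sb bdG
    rw [map_sum, Finset.sum_mul]
    refine Finset.sum_congr rfl fun v hv => ?_
    rw [Finset.mem_compl] at hv
    rw [map_zsmul, map_mul, ← hev, smul_mul_assoc, mul_assoc]
    beta_reduce
    by_cases hS : Sphl M (insert v T)
    · rw [hα2 T v hv hS]
    · rw [hc1 _ fun h => hS h.1, map_zero, zero_mul, zero_mul])
  obtain ⟨s, hs, hx⟩ := KER.common_den hloc (fun a b ha hb => Pool.Agent.RK.Nz.nz_mul a b ha hb)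
    (Finset.univ : Finset (Finset V)) (fun T => b T * γ T)
  choose e he using fun T => hx T (Finset.mem_univ T)
  refine ⟨s, hs, ?_⟩
  rw [← Submodule.Quotient.mk_smul, Submodule.Quotient.mk_eq_zero]
  show (s • (⟨a, ⟨hc1, hc2⟩⟩ : cycG M canL i)).1 ∈ bouG M canL i
  refine ⟨e, fun T hT => ?_, fun T => ?_⟩
  · apply hloc.inj
    rw [← he, hb1 T hT, zero_mul, mul_zero, map_zero]
  · apply hloc.inj
    show ι (bdG M canL e T) = ι (s * a T)
    rw [map_mul]
    unfold bdG
    rw [map_sum]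
    have h1 : ∀ v ∈ Tᶜ, ι (sg v T • (e (insert v T) * V7N.evM canL (tht M (insert v T) T))) =
        ι s * (sg v T • b (insert v T)) * γ T := by
      intro v hv
      rw [Finset.mem_compl] at hv
      rw [map_zsmul, map_mul, ← he, ← hev, mul_smul_comm, smul_mul_assoc, mul_assoc, mul_assoc, mul_assoc]
      by_cases hS : Sphl M (insert v T)
      · have h2 : γ (insert v T) * V7N.evM u (tht M (insert v T) T) = γ T := by
          have h3 := hα2 T v hv hS
          calc γ (insert v T) * V7N.evM u (tht M (insert v T) T)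
              = γ (insert v T) * V7N.evM u (tht M (insert v T) T) * (α T * γ T) := by
                rw [hγ1 T (hsub T v hS), mul_one]
            _ = γ (insert v T) * (V7N.evM u (tht M (insert v T) T) * α T) * γ T := by simp only [mul_assoc]
            _ = γ T := by rw [h3, hγ2 _ hS, one_mul]
        rw [h2]
      · rw [hb1 _ fun h => hS h.1, zero_mul, zero_mul]
    rw [Finset.sum_congr rfl h1, ← Finset.sum_mul, ← Finset.mul_sum]
    have h4 := hb2 T
    unfold sb at h4
    rw [h4, mul_assoc, mul_assoc]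
    by_cases hS : Sphl M T
    · rw [hγ1 T hS, mul_one]
    · rw [hc1 T fun h => hS h.1, map_zero, zero_mul]

/-- **Theorem.** -/
theorem ga (hPAR : S_PAR) (hLNG : S_LNG) (hWRP : S_WRP) (hORD : S_ORD) (hMAT : S_MAT) (hLFT : S_LFT) (hCOC : S_COC)
    (hCRD : S_CRD) (hFSR : S_FSR) (hGCM : S_GCM) (hMOB : S_MOB) (hGHM : S_GHM) (hNST : S_NST) (hNSG : S_NSG)
    (hTHT : S_THT) (hGUN : S_GUN) (hR : S_LRAT) {n : ℕ} {X : Type}
    [TopologicalSpace X] [ContractibleSpace X] (hX : StInj n X) (H : Subgroup (ArtG M)) [MulAction H X]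
    (hH : H.FiniteIndex) (hP : PropAct H X) {i : ℕ} (hi : n < 2 * i) : HasL2BettiSalG M i 0 := by
  classical
  have hL : Lngs := hLNG hPAR
  have hO : Ords := hORD hWRP
  have hM : Mats := hMAT hPAR hO
  have hF : Lfts := hLFT hPAR hM
  have hT : Thts := hTHT hPAR hL hF
  obtain ⟨π, hπ⟩ := (hF V M).ex
  obtain ⟨hz, E, hE⟩ := hGHM hPAR hL hF hCOC hCRD hWRP hFSR hMOB V M π hπ
  refine sal_l2 M (fun R _ c hc => hGUN hL hF hT V M R c hc) fun Y _ _ x hx hb => ?_
  exact hR V (Sphl M) i (fun T T' h h' => sphl_mono M h h')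
    (hNSG hNST V M i (ga_exa M (hGCM hPAR hL hF V M) π hz E hE hX H hH hP hi)) Y x hx hb

end Pool.Agent.H56T.GA.ASM
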