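import Pool.Agent.H56T.LRDef

/-!
# Artin groups and the `L²`-Betti numbers of their Salvetti complexes

`M` is a Coxeter matrix on the finite set `V` (`M u v = 0` stands for `∞`), `M.Group` is the Coxeter group and
`ArtG M` is the Artin group. The chain complex of the universal cover of the Salvetti complex has, as a
`ℤ[ArtG M]`-module, the basis `e_T`, `T ⊆ V` with `W_T` finite, and the boundary
`∂ e_T = ∑_{v ∈ T} ± ∑_w (-1)^(ℓ w) w' e_(T - v)`, `w` runs through the shortest representatives of the left cosets of
`W_(T - v)` in `W_T` and `w'` is the lift of `w` to the Artin group (Salvetti; De Concini and Salvetti).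
-/

set_option autoImplicit false

open scoped ENNReal

namespace Pool.Agent.H56T.GA

open Pool.Agent.W907.SG Pool.Agent.H56T.LR

section artin

variable {V : Type} (M : CoxeterMatrix V)

/-- the standard parabolic subgroup `W_T` of the Coxeter group -/
def par (T : Finset V) : Subgroup M.Group := Subgroup.closure (M.toCoxeterSystem.simple '' (T : Set V))

/-- `W_T` is finite -/
def Sphl (T : Finset V) : Prop := (par M T : Set M.Group).Finite

/-- the lift of `w` to the Artin group: the product of the generators in a shortest word for `w`; by Matsumoto's theorem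
it does not depend on the choice of this word -/
noncomputable def lft (w : M.Group) : ArtG M := ((M.toCoxeterSystem.exists_isReduced w).choose.map (sig M)).prod

/-- the elements `w` of `W_T` without right descents in `S`; for `S ⊆ T` these are the shortest representatives of the
left cosets of `W_S` in `W_T` -/
def reps (T S : Finset V) : Set M.Group := {w | w ∈ par M T ∧ ∀ s ∈ S, ¬ M.toCoxeterSystem.IsRightDescent w s}

/-- the alternating sum of the lifts of these representatives -/
noncomputable def tht (T S : Finset V) : MonoidAlgebra ℤ (ArtG M) :=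
  ∑ᶠ w ∈ reps M T S, ((-1 : ℤ) ^ M.toCoxeterSystem.length w) • MonoidAlgebra.single (lft M w) (1 : ℤ)

end artin

section hom

variable {V : Type} [Fintype V] [LinearOrder V] (M : CoxeterMatrix V) {R : Type} [Ring R] (c : ArtG M →* R)

/-- the boundary of a chain with coefficients in the ring `R` -/
noncomputable def bdG (x : Finset V → R) (T : Finset V) : R :=
  ∑ v ∈ Tᶜ, sg v T • (x (insert v T) * V7N.evM c (tht M (insert v T) T))

/-- the `i`-cycles -/
noncomputable def cycG (i : ℕ) : Submodule R (Finset V → R) where
  carrier := {x | (∀ T, ¬ (Sphl M T ∧ T.card = i) → x T = 0) ∧ ∀ T, bdG M c x T = 0}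
  add_mem' := by
    rintro x y ⟨h1, h2⟩ ⟨h3, h4⟩
    refine ⟨fun T hT => by rw [Pi.add_apply, h1 T hT, h3 T hT, add_zero], fun T => ?_⟩
    have : bdG M c (x + y) T = bdG M c x T + bdG M c y T := by
      unfold bdG
      rw [← Finset.sum_add_distrib]
      exact Finset.sum_congr rfl fun v _ => by rw [Pi.add_apply, add_mul, smul_add]
    rw [this, h2, h4, add_zero]
  zero_mem' := ⟨fun T _ => rfl, fun T => by simp [bdG]⟩
  smul_mem' := by
    rintro a x ⟨h1, h2⟩
    refine ⟨fun T hT => by rw [Pi.smul_apply, h1 T hT, smul_zero], fun T => ?_⟩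
    have : bdG M c (a • x) T = a * bdG M c x T := by
      unfold bdG
      rw [Finset.mul_sum]
      exact Finset.sum_congr rfl fun v _ => by rw [Pi.smul_apply, smul_eq_mul, mul_assoc, mul_smul_comm]
    rw [this, h2, mul_zero]

/-- the boundaries of the `(i + 1)`-chains -/
noncomputable def bouG (i : ℕ) : Submodule R (Finset V → R) where
  carrier := {x | ∃ y : Finset V → R, (∀ T, ¬ (Sphl M T ∧ T.card = i + 1) → y T = 0) ∧ ∀ T, bdG M c y T = x T}
  add_mem' := by
    rintro x y ⟨x', h1, h2⟩ ⟨y', h3, h4⟩
    refine ⟨x' + y', fun T hT => by rw [Pi.add_apply, h1 T hT, h3 T hT, add_zero], fun T => ?_⟩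
    have : bdG M c (x' + y') T = bdG M c x' T + bdG M c y' T := by
      unfold bdG
      rw [← Finset.sum_add_distrib]
      exact Finset.sum_congr rfl fun v _ => by rw [Pi.add_apply, add_mul, smul_add]
    rw [this, h2, h4, Pi.add_apply]
  zero_mem' := ⟨0, fun T _ => rfl, fun T => by simp [bdG]⟩
  smul_mem' := by
    rintro a x ⟨x', h1, h2⟩
    refine ⟨a • x', fun T hT => by rw [Pi.smul_apply, h1 T hT, smul_zero], fun T => ?_⟩
    have : bdG M c (a • x') T = a * bdG M c x' T := by
      unfold bdG
      rw [Finset.mul_sum]
      exact Finset.sum_congr rfl fun v _ => by rw [Pi.smul_apply, smul_eq_mul, mul_assoc, mul_smul_comm]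
    rw [this, h2, Pi.smul_apply, smul_eq_mul]

/-- the `i`-th homology of the complex with coefficients in `R` -/
abbrev SalG (i : ℕ) : Type := (cycG M c i) ⧸ (bouG M c i).submoduleOf (cycG M c i)

end hom

/-- The `i`-th `L²`-Betti number of the universal cover of the Salvetti complex of the Artin group `ArtG M` is `b`:
Lueck's dimension of the homology of its cellular chain complex with coefficients in the group von Neumann algebra `N`
of `ArtG M`. -/
inductive HasL2BettiSalG {V : Type} [Fintype V] [LinearOrder V] (M : CoxeterMatrix V) (i : ℕ) (b : ℝ≥0∞) : Prop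
  | mk (N H : Type) [Ring N] [NormedAddCommGroup H] [InnerProductSpace ℂ H] [CompleteSpace H] (c : ArtG M →* N)
      (tr : N → ℝ) (e : ArtG M → H) (π : N →+* (H →L[ℂ] H)) (h : Pool.Agent.N496.CV.IsVN c tr e π)
      (hb : Pool.Agent.N496.CV.dimL tr (SalG M c i) = b) : HasL2BettiSalG M i b

end Pool.Agent.H56T.GA
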