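import Pool.Agent.H56T.Stm

/-!
# Project TW, piece GRP: products of powers of the translations given by twins
-/

set_option autoImplicit false

namespace Pool.Agent.H56T

open Pool.Agent.W907.SG

/-- the reflection of `ℤ` at `p` -/
def rfz (p : ℤ) : Equiv.Perm ℤ where
  toFun x := 2 * p - x
  invFun x := 2 * p - x
  left_inv x := by ring
  right_inv x := by ring

lemma rfz_apply (p x : ℤ) : rfz p x = 2 * p - x := rfl

lemma rfz_sq (p : ℤ) : rfz p * rfz p = 1 := by
  ext x
  show 2 * p - (2 * p - x) = x
  ring

/-- the translation of `ℤ` by `t` -/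
def trz (t : ℤ) : Equiv.Perm ℤ where
  toFun x := x + t
  invFun x := x - t
  left_inv x := by ring
  right_inv x := by ring

lemma trz_apply (t x : ℤ) : trz t x = x + t := rfl

lemma trz_zero : trz 0 = 1 := by
  ext x
  show x + 0 = x
  ring

lemma trz_add (s t : ℤ) : trz s * trz t = trz (s + t) := by
  ext x
  show x + t + s = x + (s + t)
  ring

lemma trz_pow (t : ℤ) (k : ℕ) : trz t ^ k = trz (k * t) := by
  induction k with
  | zero => simp [trz_zero]
  | succ k ih =>
    rw [pow_succ, ih, trz_add]
    congr 1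
    push_cast
    ring

lemma rfz_mul (p q : ℤ) : rfz p * rfz q = trz (2 * (p - q)) := by
  ext x
  show 2 * p - (2 * q - x) = x + 2 * (p - q)
  ring

section grp

variable {V : Type} (G : SimpleGraph V)

/-- `c` is closed under twins and contains no edge -/
structure Cls (c : V → Prop) : Prop where
  indep : ∀ u v, c u → c v → ¬ G.Adj u v

open Classical in
/-- the action on `ℤ` on the generators -/
noncomputable def gen (c : V → Prop) (p : V → ℤ) (w : V) : Equiv.Perm ℤ :=
  if c w then rfz (p w) else 1

lemma gen_sq (c : V → Prop) (p : V → ℤ) (w : V) : gen c p w * gen c p w = 1 := by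
  unfold gen
  split_ifs
  · exact rfz_sq _
  · exact one_mul _

lemma liftable {c : V → Prop} (hc : Cls G c) (p : V → ℤ) :
    (cox G).IsLiftable (gen c p) := by
  intro u v
  by_cases h1 : u = v
  · subst h1
    rw [gen_sq, one_pow]
  · by_cases h2 : G.Adj u v
    · have h3 : (cox G) u v = 2 := by
        show (cox G).M u v = 2
        unfold cox
        simp [h1, h2]
      rw [h3]
      by_cases hu : c u
      · have hv : ¬ c v := fun hv => hc.indep u v hu hv h2
        have h4 : gen c p v = 1 := by unfold gen; rw [if_neg hv]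
        rw [h4, mul_one, pow_two, gen_sq]
      · have h4 : gen c p u = 1 := by unfold gen; rw [if_neg hu]
        rw [h4, one_mul, pow_two, gen_sq]
    · have h3 : (cox G) u v = 0 := by
        show (cox G).M u v = 0
        unfold cox
        simp [h1, h2]
      rw [h3, pow_zero]

/-- the action of `W G` on `ℤ` -/
noncomputable def actz {c : V → Prop} (hc : Cls G c) (p : V → ℤ) : W G →* Equiv.Perm ℤ :=
  (cox G).toCoxeterSystem.lift ⟨gen c p, liftable G hc p⟩

lemma actz_simple {c : V → Prop} (hc : Cls G c) (p : V → ℤ) (w : V) :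
    actz G hc p ((cox G).simple w) = gen c p w := by
  have h := (cox G).toCoxeterSystem.lift_apply_simple (liftable G hc p) w
  rw [CoxeterMatrix.toCoxeterSystem_simple] at h
  exact h

lemma simple_sq (v : V) : (cox G).simple v * (cox G).simple v = 1 := by
  have h := (cox G).toCoxeterSystem.simple_mul_simple_self v
  rwa [CoxeterMatrix.toCoxeterSystem_simple] at h

lemma simple_comm {u v : V} (h : G.Adj u v) : Commute ((cox G).simple u) ((cox G).simple v) := by
  have h1 := (cox G).toCoxeterSystem.simple_mul_simple_pow u v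
  rw [CoxeterMatrix.toCoxeterSystem_simple] at h1
  have h3 : (cox G) u v = 2 := by
    show (cox G).M u v = 2
    unfold cox
    simp [h.ne, h]
  rw [h3, pow_two] at h1
  have hu := simple_sq G u
  have hv := simple_sq G v
  show (cox G).simple u * (cox G).simple v = (cox G).simple v * (cox G).simple u
  have h4 : ((cox G).simple u * (cox G).simple v)⁻¹ = (cox G).simple v * (cox G).simple u := by
    rw [mul_inv_rev, inv_eq_of_mul_eq_one_left hu, inv_eq_of_mul_eq_one_left hv]
  rw [← h4]
  exact eq_inv_of_mul_eq_one_left h1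

end grp

section main

variable {V : Type} [Fintype V] {G : SimpleGraph V} {f : V → V}

/-- the twins of `v`, including `v` -/
def tw (G : SimpleGraph V) (v : V) : V → Prop := fun w => ∀ u, G.Adj w u ↔ G.Adj v u

omit [Fintype V] in
lemma tw_cls (v : V) : Cls G (tw G v) where
  indep := fun a b ha hb hab => by
    have h1 : G.Adj v b := (ha b).1 hab
    have h2 : G.Adj b b := (hb b).2 h1
    exact G.loopless.irrefl b h2

omit [Fintype V] in
lemma tw_f (hf : ∀ v, f v ≠ v ∧ ∀ u, G.Adj (f v) u ↔ G.Adj v u) (v w : V) :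
    tw G v (f w) ↔ tw G v w := by
  unfold tw
  refine forall_congr' fun u => ?_
  rw [(hf w).2 u]

/-- the translation by which a power of `r w` acts -/
lemma act_pow (hf : ∀ v, f v ≠ v ∧ ∀ u, G.Adj (f v) u ↔ G.Adj v u) (v : V) (p : V → ℤ) (w : V)
    (k : ℕ) : actz G (tw_cls v) p (((cox G).simple w * (cox G).simple (f w)) ^ k) =
      trz (open Classical in if tw G v w then 2 * (k * (p w - p (f w))) else 0) := by
  classical
  rw [map_pow, map_mul, actz_simple, actz_simple]
  unfold gen
  by_cases h : tw G v w
  · rw [if_pos h, if_pos ((tw_f hf v w).2 h), if_pos h, rfz_mul, trz_pow]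
    congr 1
    ring
  · rw [if_neg h, if_neg (fun h2 => h ((tw_f hf v w).1 h2)), if_neg h, one_mul, one_pow, trz_zero]

/-- the translation by which `gp` acts -/
lemma act_gp (hf : ∀ v, f v ≠ v ∧ ∀ u, G.Adj (f v) u ↔ G.Adj v u) (v : V) (p : V → ℤ) (N : ℕ)
    {H : Subgroup (W G)} (g : V → H)
    (hg : ∀ w, ((g w : H) : W G) = ((cox G).simple w * (cox G).simple (f w)) ^ N) (a : V → ℕ) :
    actz G (tw_cls v) p ((gp g a : H) : W G) =
      trz (2 * N * ∑ w, (open Classical in if tw G v w then (a w : ℤ) * (p w - p (f w)) else 0)) := by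
  classical
  have key : ∀ l : List V, actz G (tw_cls v) p (((l.map (fun v => g v ^ a v)).prod : H) : W G) =
      trz ((l.map (fun w => 2 * (N : ℤ) *
        (if tw G v w then (a w : ℤ) * (p w - p (f w)) else 0))).sum) := by
    intro l
    induction l with
    | nil => simp [trz_zero]
    | cons w l ih =>
      rw [List.map_cons, List.prod_cons, List.map_cons, List.sum_cons, Subgroup.coe_mul, map_mul, ih,
        ← trz_add]
      congr 1
      rw [Subgroup.coe_pow, hg, ← pow_mul, act_pow hf]
      congr 1
      split_ifs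
      · push_cast
        ring
      · ring
  unfold gp
  rw [key]
  congr 1
  rw [Finset.mul_sum]
  exact Finset.sum_map_toList _ _

open Classical in
/-- the positions of the reflections -/
noncomputable def pos (v u w : V) : ℤ := if w = v then 0 else if w = u then 2 else 1

/-- the bound -/
lemma bound_a (hf : ∀ v, f v ≠ v ∧ ∀ u, G.Adj (f v) u ↔ G.Adj v u) (N : ℕ) (hN : 0 < N)
    {H : Subgroup (W G)} (g : V → H)
    (hg : ∀ w, ((g w : H) : W G) = ((cox G).simple w * (cox G).simple (f w)) ^ N) (q : H) :
    ∃ B : ℕ, ∀ p ∈ Pairs G g q, ∀ v, p.1 v ≤ B := by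
  classical
  let F : V × V → ℕ := fun x => (actz G (tw_cls x.1) (pos x.1 x.2) (q : W G) 0).natAbs
  refine ⟨∑ x, F x, ?_⟩
  rintro ⟨a, b⟩ ⟨ha, hb, hdis, heq⟩ v
  show a v ≤ _
  by_cases hav : a v = 0
  · rw [hav]; exact Nat.zero_le _
  have hbv : b v = 0 := (hdis v).resolve_left hav
  -- the element of the class in the support of b
  obtain ⟨u, huv, hu⟩ : ∃ u, u ≠ v ∧ ∀ w, tw G v w → b w ≠ 0 → w = u := by
    by_cases hex : ∃ w, tw G v w ∧ b w ≠ 0
    · obtain ⟨u, hu1, hu2⟩ := hex
      refine ⟨u, fun h => hu2 (by rw [h]; exact hbv), fun w hw hbw => ?_⟩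
      by_contra hne
      exact (tw_cls v).indep w u hw hu1 (hb hbw hu2 hne)
    · push Not at hex
      exact ⟨f v, (hf v).1, fun w hw hbw => absurd (hex w hw) hbw⟩
  have ha' : ∀ w, tw G v w → a w ≠ 0 → w = v := by
    intro w hw haw
    by_contra hne
    exact (tw_cls v).indep w v hw (fun _ => Iff.rfl) (ha haw hav hne)
  have h1 := congrArg (fun x : H => actz G (tw_cls v) (pos v u) (x : W G) 0) heq
  simp only [Subgroup.coe_mul, map_mul, Equiv.Perm.mul_apply, act_gp hf v (pos v u) N g hg,
    trz_apply] at h1
  -- the two sums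
  have h2 : ∑ w, (if tw G v w then (a w : ℤ) * (pos v u w - pos v u (f w)) else 0) ≤ -(a v : ℤ) := by
    rw [Finset.sum_eq_single v]
    · rw [if_pos (show tw G v v from fun _ => Iff.rfl)]
      have h3 : pos v u v = 0 := by unfold pos; rw [if_pos rfl]
      have h4 : 1 ≤ pos v u (f v) := by
        unfold pos
        rw [if_neg (hf v).1]
        split_ifs <;> norm_num
      rw [h3]
      nlinarith
    · intro w _ hw
      by_cases h3 : tw G v w
      · rw [if_pos h3]
        have : a w = 0 := by
          by_contra h4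
          exact hw (ha' w h3 h4)
        rw [this]; simp
      · rw [if_neg h3]
    · intro h
      exact absurd (Finset.mem_univ _) h
  have h5 : 0 ≤ ∑ w, (if tw G v w then (b w : ℤ) * (pos v u w - pos v u (f w)) else 0) := by
    apply Finset.sum_nonneg
    intro w _
    split_ifs with h3
    · by_cases h4 : b w = 0
      · rw [h4]; simp
      · have h6 := hu w h3 h4
        subst h6
        have h7 : pos v w w = 2 := by unfold pos; rw [if_neg huv, if_pos rfl]
        have h8 : pos v w (f w) ≤ 2 := by unfold pos; split_ifs <;> norm_num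
        rw [h7]
        have : (0 : ℤ) ≤ b w := by positivity
        nlinarith
    · exact le_rfl
  have h9 : (a v : ℤ) ≤ actz G (tw_cls v) (pos v u) (q : W G) 0 := by
    have hN' : (1 : ℤ) ≤ N := by exact_mod_cast hN
    have hav' : (0 : ℤ) ≤ a v := by positivity
    nlinarith
  have h10 : a v ≤ F (v, u) := by
    show a v ≤ (actz G (tw_cls v) (pos v u) (q : W G) 0).natAbs
    omega
  exact h10.trans (Finset.single_le_sum (f := F) (fun _ _ => Nat.zero_le _) (Finset.mem_univ (v, u)))

end main

theorem t_GRP : S_GRP := by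
  classical
  intro V _ G hT H hH
  choose f hf using hT
  have hidx : H.index ≠ 0 := hH.index_ne_zero
  let N := H.index.factorial
  have hN : 0 < N := Nat.factorial_pos _
  have hmem : ∀ x : W G, x ^ N ∈ H := by
    intro x
    obtain ⟨k, hk0, hk1, hk⟩ := H.exists_pow_mem_of_index_ne_zero hidx x
    obtain ⟨t, ht⟩ := Nat.dvd_factorial hk0 hk1
    show x ^ H.index.factorial ∈ H
    rw [ht, pow_mul]
    exact H.pow_mem hk t
  let g : V → H := fun v => ⟨((cox G).simple v * (cox G).simple (f v)) ^ N, hmem _⟩
  have hg : ∀ w, ((g w : H) : W G) = ((cox G).simple w * (cox G).simple (f w)) ^ N := fun _ => rfl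
  refine ⟨g, fun u v huv => ?_, fun q => ?_⟩
  · have h1 : G.Adj (f u) v := ((hf u).2 v).2 huv
    have h2 : G.Adj u (f v) := (((hf v).2 u).2 huv.symm).symm
    have h3 : G.Adj (f u) (f v) := ((hf u).2 (f v)).2 h2
    have c1 : Commute ((cox G).simple u * (cox G).simple (f u))
        ((cox G).simple v * (cox G).simple (f v)) :=
      ((simple_comm G huv).mul_right (simple_comm G h2)).mul_left
        ((simple_comm G h1).mul_right (simple_comm G h3))
    have c2 := c1.pow_pow N N
    apply Subtype.ext
    exact c2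
  · obtain ⟨B1, hB1⟩ := bound_a hf N hN g hg q
    obtain ⟨B2, hB2⟩ := bound_a hf N hN g hg q⁻¹
    have hfin : (Set.univ.pi fun _ : V => Set.Iic (max B1 B2)).Finite :=
      Set.Finite.pi' (fun _ => Set.finite_Iic _) |>.subset (fun x hx v => hx v trivial)
    refine (hfin.prod hfin).subset ?_
    rintro ⟨a, b⟩ hp
    refine ⟨fun v _ => ?_, fun v _ => ?_⟩
    · exact (hB1 _ hp v).trans (le_max_left _ _)
    · have hp' : ((b, a) : (V → ℕ) × (V → ℕ)) ∈ Pairs G g q⁻¹ := by
        obtain ⟨h1, h2, h3, h4⟩ := hp
        exact ⟨h2, h1, fun v => (h3 v).symm, by rw [← h4, mul_inv_cancel_right]⟩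
      exact (hB2 _ hp' v).trans (le_max_right _ _)

end Pool.Agent.H56T
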