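import Pool.Agent.H56T.Stm

/-!
# The square of a cycle
-/

set_option autoImplicit false
set_option linter.unusedSectionVars false

namespace Pool.Agent.H56T

open Finset Pool.Agent.W555.KS Pool.Agent.Y131.KS Pool.Agent.R782.Bal
open Pool.Agent.TH652.Join (join)

namespace PR

section PP

variable {n : ℕ}

/-- first part -/
def p1 (U : Finset (Fin (n + n))) : Finset (Fin n) := univ.filter (fun a => Fin.castAdd n a ∈ U)

/-- second part -/
def p2 (U : Finset (Fin (n + n))) : Finset (Fin n) := univ.filter (fun a => Fin.natAdd n a ∈ U)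

theorem mem_p1 {U : Finset (Fin (n + n))} {a : Fin n} : a ∈ p1 U ↔ Fin.castAdd n a ∈ U := by simp [p1]
theorem mem_p2 {U : Finset (Fin (n + n))} {a : Fin n} : a ∈ p2 U ↔ Fin.natAdd n a ∈ U := by simp [p2]

/-- the union -/
def jn (A B : Finset (Fin n)) : Finset (Fin (n + n)) :=
  A.map (Fin.castAddEmb n) ∪ B.map (Fin.natAddEmb n)

theorem cast_ne_nat (a b : Fin n) : Fin.castAdd n a ≠ Fin.natAdd n b := by
  intro h
  have := congrArg Fin.val h
  simp at this
  have := a.2
  omega

theorem mem_jn1 {A B : Finset (Fin n)} {a : Fin n} : Fin.castAdd n a ∈ jn A B ↔ a ∈ A := by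
  unfold jn
  rw [mem_union, mem_map, mem_map]
  constructor
  · rintro (⟨b, hb, h⟩ | ⟨b, hb, h⟩)
    · have : b = a := Fin.castAdd_injective n n h
      exact this ▸ hb
    · exact absurd h.symm (cast_ne_nat _ _)
  · intro h
    exact Or.inl ⟨a, h, rfl⟩

theorem mem_jn2 {A B : Finset (Fin n)} {a : Fin n} : Fin.natAdd n a ∈ jn A B ↔ a ∈ B := by
  unfold jn
  rw [mem_union, mem_map, mem_map]
  constructor
  · rintro (⟨b, hb, h⟩ | ⟨b, hb, h⟩)
    · exact absurd h (cast_ne_nat _ _)
    · have : b = a := Fin.natAdd_injective n n h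
      exact this ▸ hb
  · intro h
    exact Or.inr ⟨a, h, rfl⟩

theorem p1_jn (A B : Finset (Fin n)) : p1 (jn A B) = A := by
  ext a; rw [mem_p1, mem_jn1]

theorem p2_jn (A B : Finset (Fin n)) : p2 (jn A B) = B := by
  ext a; rw [mem_p2, mem_jn2]

theorem forall_fin {p : Fin (n + n) → Prop} : (∀ x, p x) ↔ (∀ a : Fin n, p (Fin.castAdd n a)) ∧
    ∀ a : Fin n, p (Fin.natAdd n a) := by
  constructor
  · exact fun h => ⟨fun a => h _, fun a => h _⟩
  · rintro ⟨h1, h2⟩ x
    exact Fin.addCases (motive := p) h1 h2 x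

theorem jn_p (U : Finset (Fin (n + n))) : jn (p1 U) (p2 U) = U := by
  rw [Finset.ext_iff, forall_fin]
  refine ⟨fun a => ?_, fun a => ?_⟩
  · rw [mem_jn1, mem_p1]
  · rw [mem_jn2, mem_p2]

theorem card_jn (A B : Finset (Fin n)) : (jn A B).card = A.card + B.card := by
  unfold jn
  rw [card_union_of_disjoint, card_map, card_map]
  rw [disjoint_left]
  intro x hx hx'
  obtain ⟨a, _, rfl⟩ := mem_map.1 hx
  obtain ⟨b, _, h⟩ := mem_map.1 hx'
  exact cast_ne_nat _ _ h.symm

theorem card_p (U : Finset (Fin (n + n))) : (p1 U).card + (p2 U).card = U.card := by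
  rw [← card_jn, jn_p]

theorem rk1 (U : Finset (Fin (n + n))) (a : Fin n) :
    (U.filter (fun w => w < Fin.castAdd n a)).card = ((p1 U).filter (fun w => w < a)).card := by
  have h : U.filter (fun w => w < Fin.castAdd n a) = jn ((p1 U).filter (fun w => w < a)) ∅ := by
    rw [Finset.ext_iff, forall_fin]
    refine ⟨fun b => ?_, fun b => ?_⟩
    · rw [mem_jn1, mem_filter, mem_filter, mem_p1]
      rw [Fin.lt_def, Fin.lt_def]
      rfl
    · rw [mem_jn2, mem_filter]
      constructor
      · rintro ⟨_, h⟩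
        exfalso
        rw [Fin.lt_def] at h
        simp at h
        have := a.2
        omega
      · intro h
        exact absurd h (notMem_empty _)
  rw [h, card_jn, card_empty, add_zero]

theorem rk2 (U : Finset (Fin (n + n))) (a : Fin n) :
    (U.filter (fun w => w < Fin.natAdd n a)).card = (p1 U).card + ((p2 U).filter (fun w => w < a)).card := by
  have h : U.filter (fun w => w < Fin.natAdd n a) = jn (p1 U) ((p2 U).filter (fun w => w < a)) := by
    rw [Finset.ext_iff, forall_fin]
    refine ⟨fun b => ?_, fun b => ?_⟩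
    · rw [mem_jn1, mem_filter, mem_p1]
      constructor
      · exact fun h => h.1
      · intro h
        refine ⟨h, ?_⟩
        rw [Fin.lt_def]
        simp
        have := b.2
        omega
    · rw [mem_jn2, mem_filter, mem_filter, mem_p2]
      rw [Fin.lt_def, Fin.lt_def]
      simp
  rw [h, card_jn]

theorem p1_even (U : Finset (Fin (n + n))) : p1 (evenPart U) = evenPart (p1 U) := by
  ext a
  rw [mem_p1, evenPart, evenPart, mem_filter, mem_filter, rk1, mem_p1]

theorem p1_odd (U : Finset (Fin (n + n))) : p1 (oddPart U) = oddPart (p1 U) := by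
  ext a
  rw [mem_p1, oddPart, oddPart, mem_filter, mem_filter, rk1, mem_p1]

theorem p2_even {U : Finset (Fin (n + n))} (h : Even (p1 U).card) : p2 (evenPart U) = evenPart (p2 U) := by
  ext a
  rw [mem_p2, evenPart, evenPart, mem_filter, mem_filter, rk2, mem_p2, Nat.even_add]
  simp only [h, true_iff]

theorem p2_odd {U : Finset (Fin (n + n))} (h : Even (p1 U).card) : p2 (oddPart U) = oddPart (p2 U) := by
  ext a
  rw [mem_p2, oddPart, oddPart, mem_filter, mem_filter, rk2, mem_p2, Nat.even_add]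
  simp only [h, true_iff]

theorem p1_insert1 (a : Fin n) (U : Finset (Fin (n + n))) : p1 (insert (Fin.castAdd n a) U) = insert a (p1 U) := by
  ext b
  rw [mem_p1, mem_insert, mem_insert, mem_p1]
  constructor
  · rintro (h | h)
    · exact Or.inl (Fin.castAdd_injective n n h)
    · exact Or.inr h
  · rintro (rfl | h)
    · exact Or.inl rfl
    · exact Or.inr h

theorem p2_insert1 (a : Fin n) (U : Finset (Fin (n + n))) : p2 (insert (Fin.castAdd n a) U) = p2 U := by
  ext b
  rw [mem_p2, mem_insert, mem_p2]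
  constructor
  · rintro (h | h)
    · exact absurd h.symm (cast_ne_nat _ _)
    · exact h
  · exact Or.inr

theorem p1_insert2 (a : Fin n) (U : Finset (Fin (n + n))) : p1 (insert (Fin.natAdd n a) U) = p1 U := by
  ext b
  rw [mem_p1, mem_insert, mem_p1]
  constructor
  · rintro (h | h)
    · exact absurd h (cast_ne_nat _ _)
    · exact h
  · exact Or.inr

theorem p2_insert2 (a : Fin n) (U : Finset (Fin (n + n))) : p2 (insert (Fin.natAdd n a) U) = insert a (p2 U) := by
  ext b
  rw [mem_p2, mem_insert, mem_insert, mem_p2]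
  constructor
  · rintro (h | h)
    · exact Or.inl (Fin.natAdd_injective n n h)
    · exact Or.inr h
  · rintro (rfl | h)
    · exact Or.inl rfl
    · exact Or.inr h

theorem sum_compl {M : Type} [AddCommMonoid M] (U : Finset (Fin (n + n))) (f : Fin (n + n) → M) :
    ∑ x ∈ Uᶜ, f x = ∑ a ∈ (p1 U)ᶜ, f (Fin.castAdd n a) + ∑ a ∈ (p2 U)ᶜ, f (Fin.natAdd n a) := by
  have h1 : Uᶜ = univ.filter (fun x => x ∉ U) := by ext x; simp
  have h2 : (p1 U)ᶜ = univ.filter (fun a => Fin.castAdd n a ∉ U) := by ext x; simp [mem_p1]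
  have h3 : (p2 U)ᶜ = univ.filter (fun a => Fin.natAdd n a ∉ U) := by ext x; simp [mem_p2]
  rw [h1, h2, h3, sum_filter, sum_filter, sum_filter, Fin.sum_univ_add]

end PP

end PR

open PR

/-- **PROD** -/
theorem t_PROD : S_PROD := by
  classical
  intro V _ G i hO n e k _ _ Z h1 h2 h3
  -- the truncated cycle
  set Y : Finset (Fin n) → Finset (Fin n) → k := fun σ τ =>
    if Disjoint σ τ ∧ σ.card + τ.card = 2 * i then Z σ τ else 0 with hY
  have y1 : ∀ σ τ, Y σ τ = Y τ σ := by
    intro σ τ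
    simp only [hY]
    by_cases h : Disjoint σ τ ∧ σ.card + τ.card = 2 * i
    · rw [if_pos h, if_pos ⟨h.1.symm, by omega⟩, h1]
    · rw [if_neg h, if_neg (fun h' => h ⟨h'.1.symm, by omega⟩)]
  have y2 : ∀ σ τ, Y σ τ ≠ 0 → σ ∈ clF G e ∧ τ ∈ clF G e := by
    intro σ τ h
    simp only [hY] at h
    split_ifs at h with h'
    · exact h2 σ τ h
    · exact absurd rfl h
  have y3 : ∀ ρ τ : Finset (Fin n), Disjoint ρ τ →
      ∑ v ∈ (ρ ∪ τ)ᶜ, (Y (insert v ρ) τ + Y ρ (insert v τ)) = 0 := by
    intro ρ τ hd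
    by_cases hc : ρ.card + τ.card + 1 = 2 * i
    · rw [← h3 ρ τ hd hc]
      refine sum_congr rfl fun v hv => ?_
      rw [mem_compl, mem_union, not_or] at hv
      simp only [hY]
      rw [if_pos ⟨by rw [disjoint_insert_left]; exact ⟨hv.2, hd⟩, by rw [card_insert_of_notMem hv.1]; omega⟩,
        if_pos ⟨by rw [disjoint_insert_right]; exact ⟨hv.1, hd⟩, by rw [card_insert_of_notMem hv.2]; omega⟩]
    · refine sum_eq_zero fun v hv => ?_
      rw [mem_compl, mem_union, not_or] at hv
      simp only [hY]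
      rw [if_neg, if_neg, add_zero]
      · rintro ⟨_, h⟩
        rw [card_insert_of_notMem hv.2] at h
        omega
      · rintro ⟨_, h⟩
        rw [card_insert_of_notMem hv.1] at h
        omega
  have yc : ∀ σ τ, Y σ τ ≠ 0 → σ.card + τ.card = 2 * i := by
    intro σ τ h
    simp only [hY] at h
    split_ifs at h with h'
    · exact h'.2
    · exact absurd rfl h
  have yd : ∀ U : Finset (Fin n), U.card = 2 * i → Y (evenPart U) (oddPart U) = Z (evenPart U) (oddPart U) := by
    intro U hU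
    simp only [hY]
    rw [if_pos ⟨disj_parts U, by rw [card_parts, hU]⟩]
  set E := ∑ U ∈ powersetCard (2 * i) univ, Z (evenPart U) (oddPart U) with hE
  -- the numbering of the join
  set e' : V ⊕ V ≃ Fin (n + n) := (Equiv.sumCongr e e).trans finSumFinEquiv with he'
  have e1 : ∀ a : Fin n, e'.symm (Fin.castAdd n a) = Sum.inl (e.symm a) := by
    intro a
    rw [Equiv.symm_apply_eq, he']
    simp
  have e2 : ∀ a : Fin n, e'.symm (Fin.natAdd n a) = Sum.inr (e.symm a) := by
    intro a
    rw [Equiv.symm_apply_eq, he']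
    simp
  have hmem : ∀ σ : Finset (Fin (n + n)), p1 σ ∈ clF G e → p2 σ ∈ clF G e → σ ∈ clF (join G G) e' := by
    intro σ ha hb
    rw [mem_clF] at ha hb ⊢
    intro x hx y hy hxy
    obtain ⟨x', hx', rfl⟩ := mem_map.1 (mem_coe.1 hx)
    obtain ⟨y', hy', rfl⟩ := mem_map.1 (mem_coe.1 hy)
    revert hx' hy' hxy
    simp only [Equiv.coe_toEmbedding]
    refine Fin.addCases (fun a => ?_) (fun a => ?_) x' <;> refine Fin.addCases (fun b => ?_) (fun b => ?_) y'
    · intro hx' hy' hxy
      rw [e1, e1] at hxy ⊢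
      exact ha (mem_coe.2 (mem_map_of_mem _ (mem_p1.2 hx'))) (mem_coe.2 (mem_map_of_mem _ (mem_p1.2 hy')))
        (fun h => hxy (by rw [show e.symm a = e.symm b from h]))
    · intro _ _ _
      rw [e1, e2]
      trivial
    · intro _ _ _
      rw [e1, e2]
      trivial
    · intro hx' hy' hxy
      rw [e2, e2] at hxy ⊢
      exact hb (mem_coe.2 (mem_map_of_mem _ (mem_p2.2 hx'))) (mem_coe.2 (mem_map_of_mem _ (mem_p2.2 hy')))
        (fun h => hxy (by rw [show e.symm a = e.symm b from h]))
  have hmain := hO (n + n) e' k (fun σ τ => Y (p1 σ) (p1 τ) * Y (p2 σ) (p2 τ)) (fun σ τ => by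
      rw [y1 (p1 σ), y1 (p2 σ)]) (by
      intro σ τ h
      have ha := y2 _ _ (left_ne_zero_of_mul h)
      have hb := y2 _ _ (right_ne_zero_of_mul h)
      exact ⟨hmem σ ha.1 hb.1, hmem τ ha.2 hb.2⟩) (by
      intro ρ τ hd _
      have d1 : Disjoint (p1 ρ) (p1 τ) := disjoint_left.2 fun a ha hb =>
        disjoint_left.1 hd (mem_p1.1 ha) (mem_p1.1 hb)
      have d2 : Disjoint (p2 ρ) (p2 τ) := disjoint_left.2 fun a ha hb =>
        disjoint_left.1 hd (mem_p2.1 ha) (mem_p2.1 hb)
      have u1 : p1 (ρ ∪ τ) = p1 ρ ∪ p1 τ := by ext a; simp [mem_p1]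
      have u2 : p2 (ρ ∪ τ) = p2 ρ ∪ p2 τ := by ext a; simp [mem_p2]
      rw [sum_compl, u1, u2]
      simp only [p1_insert1, p2_insert1, p1_insert2, p2_insert2]
      rw [sum_congr rfl fun a _ => (add_mul (Y (insert a (p1 ρ)) (p1 τ)) (Y (p1 ρ) (insert a (p1 τ)))
        (Y (p2 ρ) (p2 τ))).symm, ← sum_mul, y3 _ _ d1, zero_mul, zero_add,
        sum_congr rfl fun a _ => (mul_add (Y (p1 ρ) (p1 τ)) (Y (insert a (p2 ρ)) (p2 τ))
        (Y (p2 ρ) (insert a (p2 τ)))).symm, ← mul_sum, y3 _ _ d2, mul_zero])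
  have hsq : ∑ U ∈ powersetCard (4 * i) (univ : Finset (Fin (n + n))),
      Y (p1 (evenPart U)) (p1 (oddPart U)) * Y (p2 (evenPart U)) (p2 (oddPart U)) = E * E := by
    rw [hE, sum_mul_sum, ← sum_product']
    symm
    refine sum_of_injOn (fun p => jn p.1 p.2) ?_ ?_ ?_ ?_
    · intro p _ p' _ h
      have q1 := congrArg p1 h
      have q2 := congrArg p2 h
      simp only [p1_jn, p2_jn] at q1 q2
      exact Prod.ext q1 q2
    · rintro ⟨A, B⟩ h
      rw [mem_coe, mem_product, mem_powersetCard, mem_powersetCard] at h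
      rw [mem_coe, mem_powersetCard]
      refine ⟨subset_univ _, ?_⟩
      rw [card_jn, h.1.2, h.2.2]
      omega
    · intro U hU hU'
      by_contra hne
      have c1 := yc _ _ (left_ne_zero_of_mul hne)
      rw [p1_even, p1_odd, card_parts] at c1
      apply hU'
      refine ⟨(p1 U, p2 U), ?_, jn_p U⟩
      rw [mem_coe, mem_product, mem_powersetCard, mem_powersetCard]
      refine ⟨⟨subset_univ _, c1⟩, subset_univ _, ?_⟩
      have c2 := card_p U
      rw [(mem_powersetCard.1 hU).2] at c2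
      simp only
      omega
    · rintro ⟨A, B⟩ h
      rw [mem_product, mem_powersetCard, mem_powersetCard] at h
      simp only at h
      have hev : Even (p1 (jn A B)).card := by rw [p1_jn, h.1.2]; exact even_two_mul _
      rw [p1_even, p1_odd, p2_even hev, p2_odd hev, p1_jn, p2_jn, yd A h.1.2, yd B h.2.2]
  rw [hsq] at hmain
  exact mul_self_eq_zero.1 hmain

end Pool.Agent.H56T
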