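import Pool.Agent.H56T.Stm

/-!
# Project TW, piece TOP2 (helper78): the odd map on the deleted join
-/

set_option autoImplicit false

namespace Pool.Agent.H56T

open Finset Pool.Agent.W555.KS Pool.Agent.Y131.KS Pool.Agent.W907.SG Pool.Agent.R782.Bal
open Pool.Agent.TH652.Join (join)
open Pool.Agent.W357.KS.Fan (X X_abs pos pos_cont pos_mem neg_mem)

/-- step (4): coincidences of `f` on disjoint supports are bounded -/
theorem bounded_pairs {V Q M : Type} [Fintype V] (G : SimpleGraph V) [TopologicalSpace M] [Group Q]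
    [MulAction Q M] (g : V → Q) (hP : PropAct Q M) (hF : ∀ q : Q, (Pairs G g q).Finite)
    (f : (V → ℝ) → M) (K : Set M) (hK : IsCompact K)
    (hf : ∀ x ∈ Cone G, ∃ k ∈ K, f x = gp g (fun v => ⌊x v⌋₊) • k) :
    ∃ B : ℝ, ∀ x ∈ Cone G, ∀ y ∈ Cone G, (∀ v, x v = 0 ∨ y v = 0) → f x = f y →
      ∀ v, x v < B ∧ y v < B := by
  have hS := hP.2 K hK
  have hT : (⋃ q ∈ {q : Q | ∃ x ∈ K, q • x ∈ K}, Pairs G g q).Finite := hS.biUnion fun q _ => hF q
  obtain ⟨B, hB⟩ := (hT.image fun p => ∑ v, (p.1 v + p.2 v)).bddAbove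
  refine ⟨(B : ℝ) + 1, ?_⟩
  intro x hx y hy hd hxy v
  obtain ⟨k, hk, h1⟩ := hf x hx
  obtain ⟨l, hl, h2⟩ := hf y hy
  have h3 : ((gp g (fun v => ⌊x v⌋₊))⁻¹ * gp g (fun v => ⌊y v⌋₊)) • l = k := by
    rw [mul_smul, ← h2, ← hxy, h1, inv_smul_smul]
  have h4 : ((fun v => ⌊x v⌋₊, fun v => ⌊y v⌋₊) : (V → ℕ) × (V → ℕ)) ∈
      ⋃ q ∈ {q : Q | ∃ x ∈ K, q • x ∈ K}, Pairs G g q := by
    refine Set.mem_biUnion (x := (gp g (fun v => ⌊x v⌋₊))⁻¹ * gp g (fun v => ⌊y v⌋₊)) ?_ ?_
    · exact ⟨l, hl, by rw [h3]; exact hk⟩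
    · refine ⟨hx.2.subset ?_, hy.2.subset ?_, ?_, ?_⟩
      · intro v hv h
        exact hv (by simp [h])
      · intro v hv h
        exact hv (by simp [h])
      · intro v
        rcases hd v with h | h
        · left; simp [h]
        · right; simp [h]
      · simp only
        rw [mul_inv_cancel_left]
  have h5 : (∑ v, (⌊x v⌋₊ + ⌊y v⌋₊)) ≤ B := hB ⟨_, h4, rfl⟩
  have h6 : ⌊x v⌋₊ + ⌊y v⌋₊ ≤ B :=
    (Finset.single_le_sum (f := fun v => ⌊x v⌋₊ + ⌊y v⌋₊) (fun _ _ => Nat.zero_le _) (mem_univ v)).trans h5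
  have h7 : (⌊x v⌋₊ : ℝ) ≤ B := by exact_mod_cast (Nat.le_add_right _ _).trans h6
  have h8 : (⌊y v⌋₊ : ℝ) ≤ B := by exact_mod_cast (Nat.le_add_left _ _).trans h6
  exact ⟨by linarith [Nat.lt_floor_add_one (x v)], by linarith [Nat.lt_floor_add_one (y v)]⟩

theorem top2 : S_TOP2 := by
  intro hC V _ G n M _ hM Q _ _ g hP hg hF N e
  obtain ⟨f, K, hK, hfc, hf⟩ := hC V G (2 * n + 1) M hM Q g hP.1 hg
  obtain ⟨E⟩ := hM
  obtain ⟨B, hB⟩ := bounded_pairs G g hP hF f K hK hf
  apply vk_of_vk2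
  have hcx := clF_cx (join G G) e
  refine vk2_of_odd (d := 2 * n + 1) hcx ?_
  -- the two restrictions
  set R : ℝ := (N : ℝ) * (|B| + 1) with hR
  have hR0 : 0 ≤ R := by positivity
  set a : (Fin N → ℝ) → (V → ℝ) := fun w v => R * w (e (Sum.inl v)) with ha
  set b : (Fin N → ℝ) → (V → ℝ) := fun w v => R * w (e (Sum.inr v)) with hb
  have hac : Continuous a := by rw [ha]; fun_prop
  have hbc : Continuous b := by rw [hb]; fun_prop
  have hCa : ∀ w ∈ coneSet (clF (join G G) e), a w ∈ Cone G := by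
    rintro w ⟨h1, σ, h2, h3⟩
    rw [mem_clF] at h2
    refine ⟨fun v => mul_nonneg hR0 (h1 _), ?_⟩
    intro u hu v hv huv
    have m : ∀ v : V, a w v ≠ 0 → (Sum.inl v : V ⊕ V) ∈ σ.map e.symm.toEmbedding := by
      intro v hv
      have : e (Sum.inl v) ∈ σ := by
        by_contra h
        exact hv (by rw [ha]; simp only; rw [h3 _ h, mul_zero])
      exact mem_map.mpr ⟨_, this, by simp⟩
    exact h2 (m u hu) (m v hv) (fun h => huv (Sum.inl_injective h))
  have hCb : ∀ w ∈ coneSet (clF (join G G) e), b w ∈ Cone G := by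
    rintro w ⟨h1, σ, h2, h3⟩
    rw [mem_clF] at h2
    refine ⟨fun v => mul_nonneg hR0 (h1 _), ?_⟩
    intro u hu v hv huv
    have m : ∀ v : V, b w v ≠ 0 → (Sum.inr v : V ⊕ V) ∈ σ.map e.symm.toEmbedding := by
      intro v hv
      have : e (Sum.inr v) ∈ σ := by
        by_contra h
        exact hv (by rw [hb]; simp only; rw [h3 _ h, mul_zero])
      exact mem_map.mpr ⟨_, this, by simp⟩
    exact h2 (m u hu) (m v hv) (fun h => huv (Sum.inr_injective h))
  have hF1 : ContinuousOn (fun w => E (f (a w), f (b w), 0)) (coneSet (clF (join G G) e)) := by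
    refine E.continuous.comp_continuousOn ?_
    refine (hfc.comp hac.continuousOn hCa).prodMk ((hfc.comp hbc.continuousOn hCb).prodMk continuousOn_const)
  refine ⟨fun x => E (f (a (pos x)), f (b (pos x)), 0) - E (f (a (pos (-x))), f (b (pos (-x))), 0), ?_, ?_⟩
  · rw [dJoin_eq hcx]
    refine ContinuousOn.sub ?_ ?_
    · exact hF1.comp pos_cont.continuousOn (fun x hx => pos_mem hx)
    · exact hF1.comp (pos_cont.comp continuous_neg).continuousOn (fun x hx => neg_mem hx)
  · intro x hx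
    rw [dJoin_eq hcx] at hx
    refine ⟨by simp only [neg_neg]; abel, ?_⟩
    intro h0
    have h1 := E.injective (sub_eq_zero.mp h0)
    simp only [Prod.mk.injEq, and_true] at h1
    have hz : ∀ i, pos x i = 0 ∨ pos (-x) i = 0 := by
      intro i
      unfold pos
      rcases le_total (x i) 0 with h | h
      · left; exact max_eq_right h
      · right; refine max_eq_right ?_; simpa using h
    have k1 := hB _ (hCa _ (pos_mem hx)) _ (hCa _ (neg_mem hx)) (fun v => by
      rcases hz (e (Sum.inl v)) with h | h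
      · left; rw [ha]; simp only; rw [h, mul_zero]
      · right; rw [ha]; simp only; rw [h, mul_zero]) h1.1
    have k2 := hB _ (hCb _ (pos_mem hx)) _ (hCb _ (neg_mem hx)) (fun v => by
      rcases hz (e (Sum.inr v)) with h | h
      · left; rw [hb]; simp only; rw [h, mul_zero]
      · right; rw [hb]; simp only; rw [h, mul_zero]) h1.2
    have k3 : ∀ i, R * |x i| < |B| + 1 := by
      intro i
      have k : R * pos x i < B ∧ R * pos (-x) i < B := by
        rcases h : e.symm i with v | v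
        · have h2 : i = e (Sum.inl v) := by rw [← h, Equiv.apply_symm_apply]
          rw [h2]
          exact k1 v
        · have h2 : i = e (Sum.inr v) := by rw [← h, Equiv.apply_symm_apply]
          rw [h2]
          exact k2 v
      have h4 := le_abs_self B
      have h5 : R * x i < |B| + 1 := by
        have : R * x i ≤ R * pos x i := mul_le_mul_of_nonneg_left (le_max_left _ _) hR0
        linarith [k.1]
      have h6 : R * (-x i) < |B| + 1 := by
        have : R * (-x i) ≤ R * pos (-x) i := mul_le_mul_of_nonneg_left (le_max_left _ _) hR0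
        linarith [k.2]
      rcases abs_cases (x i) with h7 | h7
      · rw [h7.1]; exact h5
      · rw [h7.1]; exact h6
    have k4 := X_abs hx
    have k5 : ∑ i, R * |x i| = R := by rw [← Finset.mul_sum, k4, mul_one]
    rcases Nat.eq_zero_or_pos N with h | h
    · subst h
      simp at k4
    · have : Nonempty (Fin N) := ⟨⟨0, h⟩⟩
      have k6 : ∑ i, R * |x i| < ∑ _i : Fin N, (|B| + 1) :=
        Finset.sum_lt_sum_of_nonempty Finset.univ_nonempty fun i _ => k3 i
      rw [k5, Finset.sum_const, Finset.card_univ, Fintype.card_fin, nsmul_eq_mul] at k6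
      exact lt_irrefl _ k6

end Pool.Agent.H56T
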