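import Pool.Agent.R782.Bal.Emb

/-!
# The join of a complex with three points and the mod 2 obstruction
-/

set_option autoImplicit false
set_option linter.unusedSectionVars false

namespace Pool.Agent.H56T

open Finset Pool.Agent.W555.KS Pool.Agent.Y131.KS Pool.Agent.R782.Bal

variable {m : ℕ}

/-- the part in the first `m` vertices -/
def lo (σ : Finset (Fin (m + 3))) : Finset (Fin m) := univ.filter (fun i => Fin.castAdd 3 i ∈ σ)

/-- the part in the last three vertices -/
def hi (σ : Finset (Fin (m + 3))) : Finset (Fin 3) := univ.filter (fun j => Fin.natAdd m j ∈ σ)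

/-- the union of the two parts -/
def jn (a : Finset (Fin m)) (b : Finset (Fin 3)) : Finset (Fin (m + 3)) :=
  a.map (Fin.castAddEmb 3) ∪ b.map (Fin.natAddEmb m)

theorem mem_lo {σ : Finset (Fin (m + 3))} {i : Fin m} : i ∈ lo σ ↔ Fin.castAdd 3 i ∈ σ := by
  simp [lo]

theorem mem_hi {σ : Finset (Fin (m + 3))} {j : Fin 3} : j ∈ hi σ ↔ Fin.natAdd m j ∈ σ := by
  simp [hi]

theorem castAdd_mem_jn {a : Finset (Fin m)} {b : Finset (Fin 3)} {i : Fin m} :
    Fin.castAdd 3 i ∈ jn a b ↔ i ∈ a := by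
  unfold jn
  rw [mem_union, mem_map, mem_map]
  constructor
  · rintro (⟨k, hk, h⟩ | ⟨k, hk, h⟩)
    · have := Fin.castAdd_injective m 3 h
      rwa [← this]
    · exfalso
      have h2 := congrArg Fin.val h
      simp at h2
      omega
  · intro h
    exact Or.inl ⟨i, h, rfl⟩

theorem natAdd_mem_jn {a : Finset (Fin m)} {b : Finset (Fin 3)} {j : Fin 3} :
    Fin.natAdd m j ∈ jn a b ↔ j ∈ b := by
  unfold jn
  rw [mem_union, mem_map, mem_map]
  constructor
  · rintro (⟨k, hk, h⟩ | ⟨k, hk, h⟩)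
    · exfalso
      have h2 := congrArg Fin.val h
      simp at h2
      omega
    · have := Fin.natAdd_injective 3 m h
      rwa [← this]
  · intro h
    exact Or.inr ⟨j, h, rfl⟩

theorem lo_jn (a : Finset (Fin m)) (b : Finset (Fin 3)) : lo (jn a b) = a := by
  ext i; rw [mem_lo, castAdd_mem_jn]

theorem hi_jn (a : Finset (Fin m)) (b : Finset (Fin 3)) : hi (jn a b) = b := by
  ext i; rw [mem_hi, natAdd_mem_jn]

theorem jn_lo_hi (σ : Finset (Fin (m + 3))) : jn (lo σ) (hi σ) = σ := by
  ext x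
  refine Fin.addCases (fun i => ?_) (fun j => ?_) x
  · rw [castAdd_mem_jn, mem_lo]
  · rw [natAdd_mem_jn, mem_hi]

/-- decomposition of the finsets -/
def dec : Finset (Fin m) × Finset (Fin 3) ≃ Finset (Fin (m + 3)) where
  toFun p := jn p.1 p.2
  invFun σ := (lo σ, hi σ)
  left_inv _ := Prod.ext (lo_jn _ _) (hi_jn _ _)
  right_inv σ := jn_lo_hi σ

theorem jn_disj (a : Finset (Fin m)) (b : Finset (Fin 3)) :
    Disjoint (a.map (Fin.castAddEmb 3)) (b.map (Fin.natAddEmb m)) := by
  rw [disjoint_left]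
  intro x h1 h2
  rw [mem_map] at h1 h2
  obtain ⟨i, -, rfl⟩ := h1
  obtain ⟨j, -, h⟩ := h2
  have h2 := congrArg Fin.val h
  simp at h2
  omega

theorem card_jn (a : Finset (Fin m)) (b : Finset (Fin 3)) : (jn a b).card = a.card + b.card := by
  unfold jn
  rw [card_union_of_disjoint (jn_disj a b), card_map, card_map]

theorem rank_lo (a : Finset (Fin m)) (b : Finset (Fin 3)) (i : Fin m) :
    ((jn a b).filter (fun w => w < Fin.castAdd 3 i)).card = (a.filter (fun w => w < i)).card := by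
  have h : (jn a b).filter (fun w => w < Fin.castAdd 3 i) = jn (a.filter (fun w => w < i)) ∅ := by
    ext x
    refine Fin.addCases (fun k => ?_) (fun j => ?_) x
    · rw [mem_filter, castAdd_mem_jn, castAdd_mem_jn, mem_filter]
      rfl
    · rw [mem_filter, natAdd_mem_jn, natAdd_mem_jn]
      constructor
      · rintro ⟨-, h⟩
        exfalso
        rw [Fin.lt_def] at h
        simp at h
        omega
      · intro h
        simp at h
  rw [h, card_jn, card_empty, add_zero]

theorem rank_hi (a : Finset (Fin m)) (b : Finset (Fin 3)) (j : Fin 3) :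
    ((jn a b).filter (fun w => w < Fin.natAdd m j)).card = a.card + (b.filter (fun w => w < j)).card := by
  have h : (jn a b).filter (fun w => w < Fin.natAdd m j) = jn a (b.filter (fun w => w < j)) := by
    ext x
    refine Fin.addCases (fun k => ?_) (fun k => ?_) x
    · rw [mem_filter, castAdd_mem_jn, castAdd_mem_jn]
      constructor
      · exact fun h => h.1
      · intro h
        refine ⟨h, ?_⟩
        rw [Fin.lt_def]
        simp
        omega
    · rw [mem_filter, natAdd_mem_jn, natAdd_mem_jn, mem_filter]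
      rw [Fin.lt_def, Fin.lt_def]
      simp
  rw [h, card_jn]

theorem lo_even (a : Finset (Fin m)) (b : Finset (Fin 3)) : lo (evenPart (jn a b)) = evenPart a := by
  ext i
  rw [mem_lo, evenPart, evenPart, mem_filter, mem_filter, castAdd_mem_jn, rank_lo]

theorem lo_odd (a : Finset (Fin m)) (b : Finset (Fin 3)) : lo (oddPart (jn a b)) = oddPart a := by
  ext i
  rw [mem_lo, oddPart, oddPart, mem_filter, mem_filter, castAdd_mem_jn, rank_lo]

theorem hi_even (a : Finset (Fin m)) (b : Finset (Fin 3)) :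
    hi (evenPart (jn a b)) = if Even a.card then evenPart b else oddPart b := by
  split_ifs with h
  · ext j
    rw [mem_hi, evenPart, evenPart, mem_filter, mem_filter, natAdd_mem_jn, rank_hi, Nat.even_add]
    tauto
  · ext j
    rw [mem_hi, evenPart, oddPart, mem_filter, mem_filter, natAdd_mem_jn, rank_hi, Nat.even_add]
    tauto

theorem hi_odd (a : Finset (Fin m)) (b : Finset (Fin 3)) :
    hi (oddPart (jn a b)) = if Even a.card then oddPart b else evenPart b := by
  split_ifs with h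
  · ext j
    rw [mem_hi, oddPart, oddPart, mem_filter, mem_filter, natAdd_mem_jn, rank_hi, Nat.even_add]
    tauto
  · ext j
    rw [mem_hi, oddPart, evenPart, mem_filter, mem_filter, natAdd_mem_jn, rank_hi, Nat.even_add]
    tauto

/-- the symmetric cycle on the deleted join of three points -/
def w3 (a b : Finset (Fin 3)) : ZMod 2 := if a.card = 1 ∧ b.card = 1 ∧ a ≠ b then 1 else 0

theorem w3_symm : ∀ a b : Finset (Fin 3), w3 a b = w3 b a := by decide

theorem w3_cycle : ∀ a b : Finset (Fin 3), Disjoint a b →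
    ∑ j ∈ (a ∪ b)ᶜ, (w3 (insert j a) b + w3 a (insert j b)) = 0 := by decide

theorem w3_card : ∀ b : Finset (Fin 3), w3 (evenPart b) (oddPart b) ≠ 0 → b.card = 2 := by decide

theorem w3_sum : ∑ b : Finset (Fin 3), w3 (evenPart b) (oddPart b) = 1 := by decide

theorem w3_ne {a b : Finset (Fin 3)} (h : w3 a b ≠ 0) : a.card = 1 ∧ b.card = 1 := by
  unfold w3 at h
  by_contra hc
  rw [if_neg (fun h => hc ⟨h.1, h.2.1⟩)] at h
  exact h rfl

/-- the join with three points -/
def tri (L : Finset (Finset (Fin m))) : Finset (Finset (Fin (m + 3))) :=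
  univ.filter (fun σ => lo σ ∈ L ∧ (hi σ).card ≤ 1)

theorem lo_insert_cast (i : Fin m) (σ : Finset (Fin (m + 3))) :
    lo (insert (Fin.castAdd 3 i) σ) = insert i (lo σ) := by
  ext k
  rw [mem_lo, mem_insert, mem_insert, mem_lo, Fin.castAdd_inj]

theorem hi_insert_cast (i : Fin m) (σ : Finset (Fin (m + 3))) :
    hi (insert (Fin.castAdd 3 i) σ) = hi σ := by
  ext k
  rw [mem_hi, mem_insert, mem_hi]
  constructor
  · rintro (h | h)
    · exfalso
      have h2 := congrArg Fin.val h
      simp at h2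
      omega
    · exact h
  · exact Or.inr

theorem lo_insert_nat (j : Fin 3) (σ : Finset (Fin (m + 3))) :
    lo (insert (Fin.natAdd m j) σ) = lo σ := by
  ext k
  rw [mem_lo, mem_insert, mem_lo]
  constructor
  · rintro (h | h)
    · exfalso
      have h2 := congrArg Fin.val h
      simp at h2
      omega
    · exact h
  · exact Or.inr

theorem hi_insert_nat (j : Fin 3) (σ : Finset (Fin (m + 3))) :
    hi (insert (Fin.natAdd m j) σ) = insert j (hi σ) := by
  ext k
  rw [mem_hi, mem_insert, mem_insert, mem_hi, Fin.natAdd_inj]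

theorem sum_compl (ρ τ : Finset (Fin (m + 3))) (F : Fin (m + 3) → ZMod 2) :
    ∑ x ∈ (ρ ∪ τ)ᶜ, F x = ∑ i ∈ (lo ρ ∪ lo τ)ᶜ, F (Fin.castAdd 3 i) +
      ∑ j ∈ (hi ρ ∪ hi τ)ᶜ, F (Fin.natAdd m j) := by
  have h : (ρ ∪ τ)ᶜ = jn (lo ρ ∪ lo τ)ᶜ (hi ρ ∪ hi τ)ᶜ := by
    ext x
    refine Fin.addCases (fun k => ?_) (fun k => ?_) x
    · rw [castAdd_mem_jn, mem_compl, mem_compl, mem_union, mem_union, mem_lo, mem_lo]
    · rw [natAdd_mem_jn, mem_compl, mem_compl, mem_union, mem_union, mem_hi, mem_hi]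
  rw [h, jn, sum_union (jn_disj _ _), sum_map, sum_map]
  rfl

/-- the obstruction of the join with three points -/
theorem vk2_tri {L : Finset (Finset (Fin m))} {D : ℕ} (h : VK2 (tri L) (D + 2)) : VK2 L D := by
  intro Z hs hsupp hcy
  have key := h (fun σ τ => w3 (hi σ) (hi τ) * Z (lo σ) (lo τ)) (fun σ τ => by
    show w3 (hi σ) (hi τ) * Z (lo σ) (lo τ) = w3 (hi τ) (hi σ) * Z (lo τ) (lo σ)
    rw [w3_symm, hs]) (by
    intro σ τ hne
    have h1 : w3 (hi σ) (hi τ) ≠ 0 := left_ne_zero_of_mul hne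
    have h2 : Z (lo σ) (lo τ) ≠ 0 := right_ne_zero_of_mul hne
    obtain ⟨h3, h4⟩ := w3_ne h1
    obtain ⟨h5, h6⟩ := hsupp _ _ h2
    exact ⟨mem_filter.mpr ⟨mem_univ _, h5, h3.le⟩, mem_filter.mpr ⟨mem_univ _, h6, h4.le⟩⟩) (by
    intro ρ τ hd hc
    rw [sum_compl]
    have e2 : ∑ j ∈ (hi ρ ∪ hi τ)ᶜ,
        (w3 (hi (insert (Fin.natAdd m j) ρ)) (hi τ) * Z (lo (insert (Fin.natAdd m j) ρ)) (lo τ) +
          w3 (hi ρ) (hi (insert (Fin.natAdd m j) τ)) * Z (lo ρ) (lo (insert (Fin.natAdd m j) τ))) = 0 := by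
      have e3 : ∀ j ∈ (hi ρ ∪ hi τ)ᶜ,
        (w3 (hi (insert (Fin.natAdd m j) ρ)) (hi τ) * Z (lo (insert (Fin.natAdd m j) ρ)) (lo τ) +
          w3 (hi ρ) (hi (insert (Fin.natAdd m j) τ)) * Z (lo ρ) (lo (insert (Fin.natAdd m j) τ))) =
        (w3 (insert j (hi ρ)) (hi τ) + w3 (hi ρ) (insert j (hi τ))) * Z (lo ρ) (lo τ) := by
        intro j _
        rw [hi_insert_nat, hi_insert_nat, lo_insert_nat, lo_insert_nat, add_mul]
      rw [sum_congr rfl e3, ← sum_mul, w3_cycle, zero_mul]
      rw [disjoint_left] at hd ⊢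
      intro j h1 h2
      exact hd (mem_hi.mp h1) (mem_hi.mp h2)
    rw [e2, add_zero]
    have e4 : ∀ i ∈ (lo ρ ∪ lo τ)ᶜ,
        (w3 (hi (insert (Fin.castAdd 3 i) ρ)) (hi τ) * Z (lo (insert (Fin.castAdd 3 i) ρ)) (lo τ) +
          w3 (hi ρ) (hi (insert (Fin.castAdd 3 i) τ)) * Z (lo ρ) (lo (insert (Fin.castAdd 3 i) τ))) =
        w3 (hi ρ) (hi τ) * (Z (insert i (lo ρ)) (lo τ) + Z (lo ρ) (insert i (lo τ))) := by
      intro i _
      rw [hi_insert_cast, hi_insert_cast, lo_insert_cast, lo_insert_cast, mul_add]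
    rw [sum_congr rfl e4, ← mul_sum]
    by_cases hw : w3 (hi ρ) (hi τ) = 0
    · rw [hw, zero_mul]
    · obtain ⟨h3, h4⟩ := w3_ne hw
      rw [hcy, mul_zero]
      · rw [disjoint_left] at hd ⊢
        intro j h1 h2
        exact hd (mem_lo.mp h1) (mem_lo.mp h2)
      · have h5 := card_jn (lo ρ) (hi ρ)
        have h6 := card_jn (lo τ) (hi τ)
        rw [jn_lo_hi] at h5 h6
        omega)
  have e6 : ∀ (k n : ℕ) (F : Finset (Fin n) → ZMod 2),
      ∑ U ∈ powersetCard k (univ : Finset (Fin n)), F U = ∑ U : Finset (Fin n), if U.card = k then F U else 0 := by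
    intro k n F
    rw [← sum_filter]
    refine sum_congr ?_ fun _ _ => rfl
    ext U
    rw [mem_powersetCard, mem_filter]
    exact ⟨fun h => ⟨mem_univ _, h.2⟩, fun h => ⟨subset_univ _, h.2⟩⟩
  rw [e6, ← Equiv.sum_comp dec, Fintype.sum_prod_type] at key
  rw [e6]
  refine Eq.trans (sum_congr rfl fun a _ => ?_) key
  have e7 : ∀ b : Finset (Fin 3), (if (dec (a, b)).card = D + 2 then
      w3 (hi (evenPart (dec (a, b)))) (hi (oddPart (dec (a, b)))) *
        Z (lo (evenPart (dec (a, b)))) (lo (oddPart (dec (a, b)))) else 0) =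
      w3 (evenPart b) (oddPart b) * (if a.card = D then Z (evenPart a) (oddPart a) else 0) := by
    intro b
    change (if (jn a b).card = D + 2 then w3 (hi (evenPart (jn a b))) (hi (oddPart (jn a b))) *
        Z (lo (evenPart (jn a b))) (lo (oddPart (jn a b))) else 0) = _
    rw [card_jn, lo_even, lo_odd, hi_even, hi_odd]
    have e8 : w3 (if Even a.card then evenPart b else oddPart b) (if Even a.card then oddPart b else evenPart b) =
        w3 (evenPart b) (oddPart b) := by
      split_ifs with h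
      · rfl
      · exact w3_symm _ _
    rw [e8]
    by_cases hw : w3 (evenPart b) (oddPart b) = 0
    · rw [hw, zero_mul, zero_mul, ite_self]
    · rw [w3_card b hw]
      by_cases ha : a.card = D
      · rw [if_pos (by omega), if_pos ha]
      · rw [if_neg (by omega), if_neg ha, mul_zero]
  rw [sum_congr rfl fun b _ => e7 b, ← sum_mul, w3_sum, one_mul]

end Pool.Agent.H56T
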