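import Pool.Agent.H56T.Stm
import Pool.Agent.H56T.TRI
import Pool.Agent.W907.SG.All

/-!
# TWIN: induction on the number of twins
-/

set_option autoImplicit false
set_option linter.unusedSectionVars false

namespace Pool.Agent.H56T

open Finset Pool.Agent.W555.KS Pool.Agent.Y131.KS Pool.Agent.W907.SG Pool.Agent.R782.Bal

variable {V U : Type}

/-- an injective map from `Fin m` is the beginning of a numbering -/
theorem exists_ext [Fintype V] {m : ℕ} (g : Fin m ↪ V) :
    ∃ (k : ℕ) (e : V ≃ Fin (m + k)), ∀ i, e (g i) = Fin.castAdd k i := by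
  classical
  refine ⟨Fintype.card ↥(Set.range g)ᶜ, (Equiv.Set.sumCompl (Set.range g)).symm.trans
    ((Equiv.sumCongr (Equiv.ofInjective g g.injective).symm (Fintype.equivFin ↥(Set.range g)ᶜ)).trans
      finSumFinEquiv), fun i => ?_⟩
  have h : (Equiv.Set.sumCompl (Set.range g)).symm (g i) = Sum.inl ⟨g i, Set.mem_range_self i⟩ :=
    Equiv.Set.sumCompl_symm_apply_of_mem _
  rw [Equiv.trans_apply, Equiv.trans_apply, h]
  have h2 : (Equiv.ofInjective g g.injective).symm ⟨g i, Set.mem_range_self i⟩ = i :=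
    Equiv.ofInjective_symm_apply g.injective i
  rw [Equiv.sumCongr_apply, Sum.map_inl, h2, finSumFinEquiv_apply_left]

/-- the obstruction of a complex which is mapped injectively to the flag complex of `G` -/
theorem obs_pull [Fintype V] {G : SimpleGraph V} {D : ℕ} (h : Obs G D) {m : ℕ} (g : Fin m ↪ V)
    {L : Finset (Finset (Fin m))} (hL : ∀ σ ∈ L, G.IsClique ((σ.map g : Finset V) : Set V)) : VK2 L D := by
  obtain ⟨k, e, he⟩ := exists_ext g
  refine vk2_mono (f := Fin.castAddEmb k) ?_ ?_ (K := clF G e) ?_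
  · intro a b hab
    rw [Fin.lt_def] at hab ⊢
    exact hab
  · intro σ hσ
    rw [mem_clF, map_map]
    have e1 : (Fin.castAddEmb k).trans e.symm.toEmbedding = g := by
      ext i
      show e.symm (Fin.castAdd k i) = g i
      rw [← he, e.symm_apply_apply]
    rw [e1]
    exact hL σ hσ
  · exact h _ e (ZMod 2)

theorem obs_hom [Fintype V] {H : SimpleGraph U} {G : SimpleGraph V} (φ : U ↪ V)
    (hφ : ∀ u w, H.Adj u w → G.Adj (φ u) (φ w)) {D : ℕ} (h : Obs G D) : Obs H D := by
  intro n e
  refine vk_of_vk2 (obs_pull h (e.symm.toEmbedding.trans φ) fun σ hσ => ?_)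
  have h1 := mem_clF.mp hσ
  rw [← map_map]
  intro a ha b hb hab
  rw [mem_coe, mem_map] at ha hb
  obtain ⟨a', ha', rfl⟩ := ha
  obtain ⟨b', hb', rfl⟩ := hb
  exact hφ _ _ (h1 ha' hb' fun e => hab (by rw [e]))

theorem obs_le [Fintype V] {G : SimpleGraph V} {D D' : ℕ} (hD : D ≤ D') (h : Obs G D) : Obs G D' := by
  intro n e
  exact vk_of_vk2 (vk2_le (clF_cx G e) hD (h n e (ZMod 2)))

/-- `w` is a twin of `v` -/
def Tw (G : SimpleGraph V) (v w : V) : Prop := w ≠ v ∧ ∀ u, G.Adj w u ↔ G.Adj v u

/-- the link of a vertex with two more twins -/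
theorem obs_link [Fintype V] {G : SimpleGraph V} {D : ℕ} (h : Obs G D) {v v' v'' : V} (h1 : Tw G v v')
    (h2 : Tw G v v'') (h3 : v' ≠ v'') : Obs (G.induce (G.neighborSet v)) (D - 2) := by
  intro n e
  refine vk_of_vk2 (vk2_tri ?_)
  have hT : ∀ j : Fin 3, ∀ u, G.Adj ((![v, v', v''] : Fin 3 → V) j) u ↔ G.Adj v u := by
    intro j u
    fin_cases j
    · exact Iff.rfl
    · exact h1.2 u
    · exact h2.2 u
  have hinj3 : Function.Injective (![v, v', v''] : Fin 3 → V) := by
    intro i j hij
    have a1 := h1.1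
    have a2 := h2.1
    fin_cases i <;> fin_cases j <;> simp_all
  have hn : ∀ x : G.neighborSet v, ∀ j : Fin 3, (x : V) ≠ (![v, v', v''] : Fin 3 → V) j := by
    intro x j hx
    have h4 : G.Adj v x := x.2
    rw [hx] at h4
    have h5 := (hT j v).mp h4.symm
    exact G.loopless.irrefl v h5
  let gf : Fin (n + 3) → V := Fin.addCases (fun i => ((e.symm i : G.neighborSet v) : V)) (![v, v', v''])
  have g1 : ∀ i : Fin n, gf (Fin.castAdd 3 i) = ((e.symm i : G.neighborSet v) : V) := fun i =>
    Fin.addCases_left i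
  have g2 : ∀ j : Fin 3, gf (Fin.natAdd n j) = (![v, v', v''] : Fin 3 → V) j := fun j =>
    Fin.addCases_right j
  have ginj : Function.Injective gf := by
    intro x y
    refine Fin.addCases (fun i => ?_) (fun j => ?_) x
    · refine Fin.addCases (fun i' => ?_) (fun j' => ?_) y
      · intro hxy
        rw [g1, g1] at hxy
        rw [e.symm.injective (Subtype.ext hxy)]
      · intro hxy
        rw [g1, g2] at hxy
        exact absurd hxy (hn _ _)
    · refine Fin.addCases (fun i' => ?_) (fun j' => ?_) y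
      · intro hxy
        rw [g1, g2] at hxy
        exact absurd hxy.symm (hn _ _)
      · intro hxy
        rw [g2, g2] at hxy
        rw [hinj3 hxy]
  refine obs_pull (obs_le (D' := D - 2 + 2) (by omega) h) ⟨gf, ginj⟩ fun σ hσ => ?_
  obtain ⟨-, hσ1, hσ2⟩ := mem_filter.mp hσ
  have hc := mem_clF.mp hσ1
  intro a ha b hb hab
  rw [mem_coe, mem_map] at ha hb
  obtain ⟨x, hx, rfl⟩ := ha
  obtain ⟨y, hy, rfl⟩ := hb
  change G.Adj (gf x) (gf y)
  change gf x ≠ gf y at hab
  revert hx hy hab
  refine Fin.addCases (fun i => ?_) (fun j => ?_) x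
  · refine Fin.addCases (fun i' => ?_) (fun j' => ?_) y
    · intro hx hy hab
      rw [g1, g1] at hab ⊢
      have h6 : e.symm i ∈ (((lo σ).map e.symm.toEmbedding : Finset _) : Set (G.neighborSet v)) := by
        rw [mem_coe, mem_map]
        exact ⟨i, mem_lo.mpr hx, rfl⟩
      have h7 : e.symm i' ∈ (((lo σ).map e.symm.toEmbedding : Finset _) : Set (G.neighborSet v)) := by
        rw [mem_coe, mem_map]
        exact ⟨i', mem_lo.mpr hy, rfl⟩
      exact hc h6 h7 fun h => hab (congrArg Subtype.val h)
    · intro hx hy hab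
      rw [g1, g2]
      exact ((hT j' _).mpr (e.symm i).2).symm
  · refine Fin.addCases (fun i' => ?_) (fun j' => ?_) y
    · intro hx hy hab
      rw [g1, g2]
      exact (hT j _).mpr (e.symm i').2
    · intro hx hy hab
      exfalso
      rw [g2, g2] at hab
      have h8 := card_le_one.mp hσ2 j (mem_hi.mpr hx) j' (mem_hi.mpr hy)
      exact hab (by rw [h8])

theorem Tw.symm {G : SimpleGraph V} {v w : V} (h : Tw G v w) : Tw G w v :=
  ⟨h.1.symm, fun u => (h.2 u).symm⟩

theorem Tw.trans {G : SimpleGraph V} {u v w : V} (h : Tw G u v) (h' : Tw G v w) (hne : w ≠ u) : Tw G u w :=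
  ⟨hne, fun x => (h'.2 x).trans (h.2 x)⟩

/-- the case of classes with two elements -/
theorem twin_two (hD : S_DBL) [Fintype V] [LinearOrder V] (G : SimpleGraph V) (hT : Twins G)
    (hu : ∀ v w w', Tw G v w → Tw G v w' → w = w') (D : ℕ) (hO : Obs G D) (i : ℕ) (hi : D ≤ 2 * i) :
    L2Van G i := by
  classical
  choose tw htw using hT
  have htw1 : ∀ v, Tw G v (tw v) := htw
  have h2 : ∀ v, tw (tw v) = v := fun v => hu (tw v) _ _ (htw1 (tw v)) (htw1 v).symm
  let S : Set V := {v | v < tw v}
  have hnot : ∀ v, ¬ v < tw v → tw v < tw (tw v) := by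
    intro v hv
    rw [h2]
    exact lt_of_le_of_ne (not_lt.mp hv) (htw1 v).1
  let φ : dbl (G.induce S) ≃g G :=
    { toFun := fun x => if x.2 then tw x.1 else x.1
      invFun := fun v => if h : v < tw v then (⟨v, h⟩, false) else (⟨tw v, hnot v h⟩, true)
      left_inv := by
        rintro ⟨⟨v, hv⟩, b⟩
        have hv' : v < tw v := hv
        cases b
        · simp [hv']
        · have h3 : ¬ tw v < v := not_lt.mpr hv'.le
          simp [h2, h3]
      right_inv := by
        intro v
        by_cases h : v < tw v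
        · simp [h]
        · simp [h, h2]
      map_rel_iff' := by
        rintro ⟨⟨v, hv⟩, b⟩ ⟨⟨w, hw⟩, c⟩
        have e1 : ∀ x y, G.Adj (tw x) y ↔ G.Adj x y := fun x y => (htw1 x).2 y
        have e2 : ∀ x y, G.Adj x (tw y) ↔ G.Adj x y := fun x y => by
          rw [G.adj_comm, e1, G.adj_comm]
        cases b <;> cases c <;> simp [dbl, e1, e2] }
  have hO' : Obs (dbl (G.induce S)) D :=
    obs_hom φ.toEquiv.toEmbedding (fun u w huw => φ.map_rel_iff'.mpr huw) hO
  let _ : LinearOrder (↥S × Bool) := LinearOrder.lift' (Fintype.equivFin (↥S × Bool)) (Equiv.injective _)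
  exact ord _ _ _ _ _ _ _ _ i ⟨φ⟩ (hD ↥S (G.induce S) D hO' i hi)

theorem twin_aux (hD : S_DBL) (N : ℕ) : ∀ (V : Type) [Fintype V] [LinearOrder V] (G : SimpleGraph V),
    Fintype.card V = N → Twins G → ∀ D : ℕ, Obs G D → ∀ i : ℕ, D ≤ 2 * i → L2Van G i := by
  induction N using Nat.strong_induction_on with
  | _ N ih =>
    intro V _ _ G hN hT D hO i hi
    classical
    by_cases hu : ∀ v w w', Tw G v w → Tw G v w' → w = w'
    · exact twin_two hD G hT hu D hO i hi
    · push Not at hu
      obtain ⟨v, v', v'', h1, h2, h3⟩ := hu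
      refine l2add V G v i ?_ ?_
      · refine ih _ ?_ _ (G.induce {v}ᶜ) rfl ?_ D ?_ i hi
        · rw [← hN]
          exact Fintype.card_subtype_lt (x := v) (by simp)
        · rintro ⟨x, hx⟩
          have hx' : x ≠ v := hx
          obtain ⟨w, hw⟩ := hT x
          by_cases hwv : w = v
          · have h4 : Tw G x v := hwv ▸ hw
            by_cases h5 : v' = x
            · refine ⟨⟨v'', h2.1⟩, ?_, ?_⟩
              · intro h6
                exact h3 (h5.trans (congrArg Subtype.val h6).symm)
              · rintro ⟨u, hu⟩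
                exact (h4.trans h2 (by rw [← h5]; exact h3.symm)).2 u
            · refine ⟨⟨v', h1.1⟩, ?_, ?_⟩
              · intro h6
                exact h5 (congrArg Subtype.val h6)
              · rintro ⟨u, hu⟩
                exact (h4.trans h1 h5).2 u
          · refine ⟨⟨w, hwv⟩, ?_, ?_⟩
            · intro h6
              exact hw.1 (congrArg Subtype.val h6)
            · rintro ⟨u, hu⟩
              exact hw.2 u
        · exact obs_hom (Function.Embedding.subtype _) (fun u w h => h) hO
      · intro j hj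
        refine ih _ ?_ _ (G.induce (G.neighborSet v)) rfl ?_ (D - 2) (obs_link hO h1 h2 h3) j (by omega)
        · rw [← hN]
          exact Fintype.card_subtype_lt (x := v) (by
            intro h
            exact G.loopless.irrefl v h)
        · rintro ⟨x, hx⟩
          have hx' : G.Adj v x := hx
          obtain ⟨w, hw⟩ := hT x
          have hw' : G.Adj v w := ((hw.2 v).mpr hx'.symm).symm
          refine ⟨⟨w, hw'⟩, ?_, ?_⟩
          · intro h6
            exact hw.1 (congrArg Subtype.val h6)
          · rintro ⟨u, hu⟩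
            exact hw.2 u

theorem twin : S_TWIN := fun hD V _ _ G hT D hO i hi => twin_aux hD _ V G rfl hT D hO i hi

end Pool.Agent.H56T
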