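import Pool.Agent.H56T.CONE
import Pool.Agent.H56T.TOP2
import Pool.Agent.H56T.GRP
import Pool.Agent.H56T.TWIN
import Pool.Agent.H56T.PROD
import Pool.Agent.H56T.Dbl

/-!
# Proper actions on absolute extensors which embed stably in Euclidean spaces
-/

set_option autoImplicit false
set_option linter.unusedSectionVars false

namespace Pool.Agent.H56T

open Finset Pool.Agent.W555.KS Pool.Agent.Y131.KS Pool.Agent.W907.SG Pool.Agent.R782.Bal
open Pool.Agent.TH652.Join (join)
open Pool.Agent.W357.KS.Fan (X X_abs pos pos_cont pos_mem neg_mem)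

/-- for some `k` there is a continuous injective map `M × ℝ^k → ℝ^n × ℝ^k` -/
def StInj (n : ℕ) (M : Type) [TopologicalSpace M] : Prop :=
  ∃ (k : ℕ) (h : M × (Fin k → ℝ) → (Fin n → ℝ) × (Fin k → ℝ)), Continuous h ∧ Function.Injective h

/-- a map on the cone of the flag complex, such that points with disjoint supports and the same image are
bounded -/
def FE {V : Type} (G : SimpleGraph V) (M : Type) [TopologicalSpace M] : Prop :=
  ∃ f : (V → ℝ) → M, ContinuousOn f (Cone G) ∧ ∃ B : ℝ, ∀ x ∈ Cone G, ∀ y ∈ Cone G,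
    (∀ v, x v = 0 ∨ y v = 0) → f x = f y → ∀ v, x v < B ∧ y v < B

theorem fe_map {V : Type} {G : SimpleGraph V} {M N : Type} [TopologicalSpace M] [TopologicalSpace N]
    (h : FE G M) {j : M → N} (hj : Continuous j) (hi : Function.Injective j) : FE G N := by
  obtain ⟨f, hf, B, hB⟩ := h
  exact ⟨fun x => j (f x), hj.comp_continuousOn hf, B, fun x hx y hy hd hxy => hB x hx y hy hd (hi hxy)⟩

theorem cone_join {V U : Type} {G : SimpleGraph V} {H : SimpleGraph U} {x : V ⊕ U → ℝ}
    (hx : x ∈ Cone (join G H)) : (fun v => x (Sum.inl v)) ∈ Cone G ∧ (fun v => x (Sum.inr v)) ∈ Cone H := by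
  refine ⟨⟨fun v => hx.1 _, ?_⟩, ⟨fun v => hx.1 _, ?_⟩⟩
  · intro u hu v hv huv
    exact hx.2 hu hv (fun h => huv (Sum.inl_injective h))
  · intro u hu v hv huv
    exact hx.2 hu hv (fun h => huv (Sum.inr_injective h))

theorem fe_join {V U : Type} {G : SimpleGraph V} {H : SimpleGraph U} {M N : Type} [TopologicalSpace M]
    [TopologicalSpace N] (h : FE G M) (h' : FE H N) : FE (join G H) (M × N) := by
  obtain ⟨f, hf, B, hB⟩ := h
  obtain ⟨f', hf', B', hB'⟩ := h'
  refine ⟨fun x => (f fun v => x (Sum.inl v), f' fun v => x (Sum.inr v)), ?_, max B B', ?_⟩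
  · refine ContinuousOn.prodMk ?_ ?_
    · refine hf.comp (Continuous.continuousOn ?_) fun x hx => (cone_join hx).1
      exact continuous_pi fun v => continuous_apply _
    · refine hf'.comp (Continuous.continuousOn ?_) fun x hx => (cone_join hx).2
      exact continuous_pi fun v => continuous_apply _
  · intro x hx y hy hd hxy v
    rw [Prod.mk.injEq] at hxy
    rcases v with v | v
    · have h1 := hB _ (cone_join hx).1 _ (cone_join hy).1 (fun v => hd _) hxy.1 v
      exact ⟨lt_max_of_lt_left h1.1, lt_max_of_lt_left h1.2⟩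
    · have h1 := hB' _ (cone_join hx).2 _ (cone_join hy).2 (fun v => hd _) hxy.2 v
      exact ⟨lt_max_of_lt_right h1.1, lt_max_of_lt_right h1.2⟩

/-- the obstruction -/
theorem fe_obs {V : Type} {G : SimpleGraph V} {m : ℕ} (h : FE G (Fin m → ℝ)) : Obs G (m + 1) := by
  intro N e
  obtain ⟨f, hfc, B, hB⟩ := h
  apply vk_of_vk2
  have hcx := clF_cx G e
  refine vk2_of_odd (d := m) hcx ?_
  set R : ℝ := (N : ℝ) * (|B| + 1) with hR
  have hR0 : 0 ≤ R := by positivity
  set a : (Fin N → ℝ) → (V → ℝ) := fun w v => R * w (e v) with ha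
  have hac : Continuous a := by rw [ha]; fun_prop
  have hCa : ∀ w ∈ coneSet (clF G e), a w ∈ Cone G := by
    rintro w ⟨h1, σ, h2, h3⟩
    rw [mem_clF] at h2
    refine ⟨fun v => mul_nonneg hR0 (h1 _), ?_⟩
    intro u hu v hv huv
    have m : ∀ v : V, a w v ≠ 0 → v ∈ σ.map e.symm.toEmbedding := by
      intro v hv
      have : e v ∈ σ := by
        by_contra h
        exact hv (by rw [ha]; simp only; rw [h3 _ h, mul_zero])
      exact mem_map.mpr ⟨_, this, by simp⟩
    exact h2 (m u hu) (m v hv) huv
  have hF1 : ContinuousOn (fun w => f (a w)) (coneSet (clF G e)) := hfc.comp hac.continuousOn hCa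
  refine ⟨fun x => f (a (Pool.Agent.W357.KS.Fan.pos x)) - f (a (Pool.Agent.W357.KS.Fan.pos (-x))), ?_, ?_⟩
  · rw [dJoin_eq hcx]
    refine ContinuousOn.sub ?_ ?_
    · exact hF1.comp pos_cont.continuousOn (fun x hx => pos_mem hx)
    · exact hF1.comp (pos_cont.comp continuous_neg).continuousOn (fun x hx => neg_mem hx)
  · intro x hx
    rw [dJoin_eq hcx] at hx
    refine ⟨by simp only [neg_neg]; abel, ?_⟩
    intro h0
    have h1 := sub_eq_zero.mp h0
    have hz : ∀ i, Pool.Agent.W357.KS.Fan.pos x i = 0 ∨ Pool.Agent.W357.KS.Fan.pos (-x) i = 0 := by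
      intro i
      unfold Pool.Agent.W357.KS.Fan.pos
      rcases le_total (x i) 0 with h | h
      · left; exact max_eq_right h
      · right; refine max_eq_right ?_; simpa using h
    have k1 := hB _ (hCa _ (pos_mem hx)) _ (hCa _ (neg_mem hx)) (fun v => by
      rcases hz (e v) with h | h
      · left; rw [ha]; simp only; rw [h, mul_zero]
      · right; rw [ha]; simp only; rw [h, mul_zero]) h1
    have k3 : ∀ i, R * |x i| < |B| + 1 := by
      intro i
      have k : R * Pool.Agent.W357.KS.Fan.pos x i < B ∧ R * Pool.Agent.W357.KS.Fan.pos (-x) i < B := by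
        have h2 : i = e (e.symm i) := by rw [Equiv.apply_symm_apply]
        rw [h2]
        exact k1 _
      have h4 := le_abs_self B
      have h5 : R * x i < |B| + 1 := by
        have : R * x i ≤ R * Pool.Agent.W357.KS.Fan.pos x i := mul_le_mul_of_nonneg_left (le_max_left _ _) hR0
        linarith [k.1]
      have h6 : R * (-x i) < |B| + 1 := by
        have : R * (-x i) ≤ R * Pool.Agent.W357.KS.Fan.pos (-x) i := mul_le_mul_of_nonneg_left (le_max_left _ _) hR0
        linarith [k.2]
      rcases abs_cases (x i) with h7 | h7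
      · rw [h7.1]; exact h5
      · rw [h7.1]; exact h6
    have k4 := X_abs hx
    have k5 : ∑ i, R * |x i| = R := by rw [← Finset.mul_sum, k4, mul_one]
    rcases Nat.eq_zero_or_pos N with h | h
    · subst h
      simp at k4
    · have : Nonempty (Fin N) := ⟨⟨0, h⟩⟩
      have k6 : ∑ i, R * |x i| < ∑ _i : Fin N, (|B| + 1) :=
        Finset.sum_lt_sum_of_nonempty Finset.univ_nonempty fun i _ => k3 i
      rw [k5, Finset.sum_const, Finset.card_univ, Fintype.card_fin, nsmul_eq_mul] at k6
      exact lt_irrefl _ k6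

open CONE in
/-- the map on the cone given by a proper action -/
theorem fe_act {V : Type} [Fintype V] {G : SimpleGraph V} {M : Type} [TopologicalSpace M]
    [TietzeExtension.{0, 0} M] {Q : Type} [Group Q] [MulAction Q M] (hP : PropAct Q M) {g : V → Q}
    (hg : ∀ u v, G.Adj u v → Commute (g u) (g v)) (hF : ∀ q : Q, (Pairs G g q).Finite) : FE G M := by
  have : Nonempty M := by
    obtain ⟨F, _⟩ := ContinuousMap.exists_restrict_eq (X := Unit) (Y := M) (s := ∅) isClosed_empty
      ⟨fun x => absurd x.2 (Set.notMem_empty _), by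
        rw [continuous_iff_continuousAt]
        exact fun x => absurd x.2 (Set.notMem_empty _)⟩
    exact ⟨F ()⟩
  obtain ⟨φ, hφc, hφ⟩ := CONE.exists_phi (M := M) hP.1 hg (Fintype.card V)
  set f : (V → ℝ) → M := fun x => gp g (fun v => ⌊x v⌋₊) • φ (fun v => x v - ⌊x v⌋₊) with hfdef
  have hfc : ContinuousOn f (Cone G) := by
    have h1 : Cone G ⊆ ⋃ a : V → ℕ, (Cone G ∩ {x : V → ℝ | ∀ v, (a v : ℝ) ≤ x v ∧ x v ≤ a v + 1}) := by
      intro x hx
      refine Set.mem_iUnion.2 ⟨fun v => ⌊x v⌋₊, hx, fun v => ⟨Nat.floor_le (hx.1 v), ?_⟩⟩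
      exact (Nat.lt_floor_add_one (x v)).le
    have hcone : IsClosed (Cone G) := by
      refine IsClosed.inter ?_ (isClosed_clique G)
      have h : {x : V → ℝ | ∀ v, 0 ≤ x v} = ⋂ v, {x : V → ℝ | 0 ≤ x v} := by
        ext x
        simp
      change IsClosed {x : V → ℝ | ∀ v, 0 ≤ x v}
      rw [h]
      exact isClosed_iInter fun v => isClosed_le continuous_const (continuous_apply v)
    refine ContinuousOn.mono ?_ h1
    refine LocallyFinite.continuousOn_iUnion ((locFin V).subset fun a => Set.inter_subset_right) ?_ ?_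
    · intro a
      refine hcone.inter ?_
      have h : {x : V → ℝ | ∀ v, (a v : ℝ) ≤ x v ∧ x v ≤ a v + 1} =
          ⋂ v, ({x : V → ℝ | (a v : ℝ) ≤ x v} ∩ {x | x v ≤ a v + 1}) := by
        ext x
        simp
      rw [h]
      exact isClosed_iInter fun v => (isClosed_le continuous_const (continuous_apply v)).inter
        (isClosed_le (continuous_apply v) continuous_const)
    · intro a
      have h2 : Continuous fun x : V → ℝ => gp g a • φ (fun v => x v - a v) := by
        refine (hP.1 _).comp (hφc.comp ?_)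
        exact continuous_pi fun u => (continuous_apply u).sub continuous_const
      exact h2.continuousOn.congr fun x hx => floor_piece hg hφ a hx.1 hx.2
  have hf : ∀ x ∈ Cone G, ∃ k ∈ φ '' (Set.Icc 0 1), f x = gp g (fun v => ⌊x v⌋₊) • k := by
    intro x hx
    refine ⟨φ (fun v => x v - ⌊x v⌋₊), ⟨_, ⟨fun v => ?_, fun v => ?_⟩, rfl⟩, rfl⟩
    · have := Nat.floor_le (hx.1 v)
      simpa using this
    · have := Nat.lt_floor_add_one (x v)
      show x v - ⌊x v⌋₊ ≤ 1
      linarith
  obtain ⟨B, hB⟩ := bounded_pairs G g hP hF f _ (isCompact_Icc.image hφc) hf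
  exact ⟨f, hfc, B, hB⟩

/-- iterated squares -/
theorem fe_st (r : ℕ) : ∀ (V : Type) [Fintype V] (G : SimpleGraph V) (M : Type) [TopologicalSpace M] (n k i : ℕ)
    (h : M × (Fin k → ℝ) → (Fin n → ℝ) × (Fin k → ℝ)), Continuous h → Function.Injective h → FE G M →
      2 ^ r * n + k + 1 ≤ 2 ^ r * (2 * i) → Obs G (2 * i) := by
  induction r with
  | zero =>
    intro V _ G M _ n k i h hc hi hF hr
    rw [pow_zero, one_mul, one_mul] at hr
    refine obs_le (D := n + k + 1) hr ?_
    refine fe_obs (fe_map hF (j := fun x => Fin.append (h (x, 0)).1 (h (x, 0)).2) ?_ ?_)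
    · refine continuous_pi fun a => ?_
      refine Fin.addCases (fun a => ?_) (fun a => ?_) a
      · simp only [Fin.append_left]
        fun_prop
      · simp only [Fin.append_right]
        fun_prop
    · intro x y hxy
      have h1 : (h (x, 0)).1 = (h (y, 0)).1 := by
        funext a
        have := congrFun hxy (Fin.castAdd k a)
        simpa only [Fin.append_left] using this
      have h2 : (h (x, 0)).2 = (h (y, 0)).2 := by
        funext a
        have := congrFun hxy (Fin.natAdd n a)
        simpa only [Fin.append_right] using this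
      exact congrArg Prod.fst (hi (Prod.ext h1 h2))
  | succ r ih =>
    intro V _ G M _ n k i h hc hi hF hr
    refine t_PROD V G i ?_
    have h4 : 4 * i = 2 * (2 * i) := by omega
    rw [h4]
    refine ih (V ⊕ V) (join G G) (M × M) (n + n) k (2 * i) (fun x =>
      (Fin.append (h (x.1.2, x.2)).1 (h (x.1.1, (h (x.1.2, x.2)).2)).1, (h (x.1.1, (h (x.1.2, x.2)).2)).2))
      ?_ ?_ (fe_join hF hF) ?_
    · refine Continuous.prodMk ?_ ?_
      · refine continuous_pi fun a => ?_
        refine Fin.addCases (fun a => ?_) (fun a => ?_) a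
        · simp only [Fin.append_left]
          fun_prop
        · simp only [Fin.append_right]
          fun_prop
      · fun_prop
    · rintro ⟨⟨a, b⟩, t⟩ ⟨⟨a', b'⟩, t'⟩ hx
      simp only [Prod.mk.injEq] at hx
      obtain ⟨hx1, hx2⟩ := hx
      have e1 : (h (b, t)).1 = (h (b', t')).1 := by
        funext c
        have := congrFun hx1 (Fin.castAdd n c)
        simpa only [Fin.append_left] using this
      have e2 : (h (a, (h (b, t)).2)).1 = (h (a', (h (b', t')).2)).1 := by
        funext c
        have := congrFun hx1 (Fin.natAdd n c)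
        simpa only [Fin.append_right] using this
      have e3 := hi (Prod.ext e2 hx2)
      rw [Prod.mk.injEq] at e3
      have e4 := hi (Prod.ext e1 e3.2)
      rw [Prod.mk.injEq] at e4
      rw [e3.1, e4.1, e4.2]
    · rw [pow_succ] at hr
      nlinarith

/-- **Theorem.** A proper action on a space of stable embedding dimension `n`. -/
theorem obs_of_action {V : Type} [Fintype V] {G : SimpleGraph V} {n : ℕ} {M : Type} [TopologicalSpace M]
    [TietzeExtension.{0, 0} M] (hM : StInj n M) {Q : Type} [Group Q] [MulAction Q M] (hP : PropAct Q M)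
    {g : V → Q} (hg : ∀ u v, G.Adj u v → Commute (g u) (g v)) (hF : ∀ q : Q, (Pairs G g q).Finite)
    {i : ℕ} (hi : n < 2 * i) : Obs G (2 * i) := by
  obtain ⟨k, h, hc, hinj⟩ := hM
  refine fe_st k V G M n k i h hc hinj (fe_act hP hg hF) ?_
  have h1 : k < 2 ^ k := Nat.lt_two_pow_self
  have h2 : 2 ^ k * (n + 1) ≤ 2 ^ k * (2 * i) := Nat.mul_le_mul_left _ hi
  rw [Nat.mul_add, Nat.mul_one] at h2
  omega

/-- **Theorem.** Right-angled Coxeter groups with twins. -/
theorem twins_l2 {V : Type} [Fintype V] [LinearOrder V] {G : SimpleGraph V} (hT : Twins G) {n : ℕ} {M : Type}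
    [TopologicalSpace M] [TietzeExtension.{0, 0} M] (hM : StInj n M) {H : Subgroup (W G)} (hH : H.FiniteIndex)
    [MulAction H M] (hP : PropAct H M) {i : ℕ} (hi : n < 2 * i) : L2Van G i := by
  obtain ⟨g, hg, hF⟩ := t_GRP V G hT H hH
  exact twin dbl_l2 V G hT (2 * i) (obs_of_action hM hP hg hF hi) i le_rfl

end Pool.Agent.H56T
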