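import Pool.Agent.H56T.Stm3

/-!
# KIN: the operators `1 - (· x)` on the coefficients
-/

set_option autoImplicit false

namespace Pool.Agent.H56T.KIN

open Pool.Agent.H56T

section fk

variable {Γ R : Type} [Group Γ] [Ring R] {K : Subgroup Γ} {u : K →* R}

theorem FK_zero : FK K u (fun _ => 0) where
  eq h g := by rw [zero_mul]
  fin := ⟨∅, fun g hg => absurd rfl hg⟩

theorem FK_add {f f' : Γ → R} (hf : FK K u f) (hf' : FK K u f') : FK K u (fun g => f g + f' g) where
  eq h g := by rw [hf.eq, hf'.eq, add_mul]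
  fin := by
    classical
    obtain ⟨S, hS⟩ := hf.fin
    obtain ⟨S', hS'⟩ := hf'.fin
    refine ⟨S ∪ S', fun g hg => ?_⟩
    by_cases h0 : f g = 0
    · have h1 : f' g ≠ 0 := fun h1 => hg (by rw [h0, h1, add_zero])
      obtain ⟨h, x, hx, e⟩ := hS' g h1
      exact ⟨h, x, Finset.mem_union_right _ hx, e⟩
    · obtain ⟨h, x, hx, e⟩ := hS g h0
      exact ⟨h, x, Finset.mem_union_left _ hx, e⟩

theorem FK_shift {f : Γ → R} (hf : FK K u f) (y : Γ) : FK K u (fun g => f (g * y)) where
  eq h g := by rw [mul_assoc, hf.eq]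
  fin := by
    classical
    obtain ⟨S, hS⟩ := hf.fin
    refine ⟨S.image (fun s => s * y⁻¹), fun g hg => ?_⟩
    obtain ⟨h, x, hx, e⟩ := hS _ hg
    refine ⟨h, x * y⁻¹, Finset.mem_image.2 ⟨x, hx, rfl⟩, ?_⟩
    rw [← mul_assoc, ← e, mul_inv_cancel_right]

theorem FK_sum {f : Γ → R} (hf : FK K u f) (x : Γ) (N : ℕ) :
    FK K u (fun g => ∑ i ∈ Finset.range N, f (g * (x ^ i)⁻¹)) := by
  induction N with
  | zero => simpa using FK_zero (K := K) (u := u)
  | succ N ih =>
    have h1 := FK_add ih (FK_shift hf (x ^ N)⁻¹)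
    simpa [Finset.sum_range_succ] using h1

theorem sum_tele (k : Γ → R) (x g : Γ) (N : ℕ) :
    (∑ i ∈ Finset.range N, k (g * (x ^ i)⁻¹)) - ∑ i ∈ Finset.range N, k (g * x⁻¹ * (x ^ i)⁻¹) =
      k g - k (g * (x ^ N)⁻¹) := by
  induction N with
  | zero => simp
  | succ N ih =>
    rw [Finset.sum_range_succ, Finset.sum_range_succ]
    have e : g * x⁻¹ * (x ^ N)⁻¹ = g * (x ^ (N + 1))⁻¹ := by
      rw [mul_assoc, ← mul_inv_rev, ← pow_succ]
    rw [e]
    have h2 := ih
    rw [sub_eq_iff_eq_add] at h2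
    rw [h2]
    abel

theorem const_pow {f : Γ → R} {x : Γ} (h : ∀ g, f g - f (g * x⁻¹) = 0) (n : ℕ) (g : Γ) :
    f (g * (x ^ n)⁻¹) = f g := by
  induction n generalizing g with
  | zero => simp
  | succ n ih =>
    have e : g * (x ^ (n + 1))⁻¹ = g * x⁻¹ * (x ^ n)⁻¹ := by
      rw [mul_assoc, ← mul_inv_rev, ← pow_succ]
    rw [e, ih]
    exact (sub_eq_zero.1 (h g)).symm

end fk

theorem t_KIN : S_KIN := by
  intro V _ G χ K R _ u hK hidx hunit
  have hpow : ∀ y : AG G, χ y = 1 → y ^ ((K.relIndex χ.ker).factorial) ∈ K := by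
    intro y hy
    have hy' : y ∈ χ.ker := MonoidHom.mem_ker.2 hy
    obtain ⟨k, hk0, hk1, hk⟩ := (K.subgroupOf χ.ker).exists_pow_mem_of_index_ne_zero hidx ⟨y, hy'⟩
    obtain ⟨t, ht⟩ := Nat.dvd_factorial hk0 hk1
    have h1 : y ^ k ∈ K := by
      have := Subgroup.mem_subgroupOf.1 hk
      simpa using this
    have h2 : (K.relIndex χ.ker).factorial = k * t := ht
    rw [h2, pow_mul]
    exact K.pow_mem h1 t
  set N := (K.relIndex χ.ker).factorial with hN
  have hNpos : N ≠ 0 := (Nat.factorial_pos _).ne'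
  refine ⟨fun x hx hw => ?_, fun x hx f hf h0 => ?_⟩
  · obtain ⟨w, hw⟩ := hw
    have hmem : ∀ g : AG G, g * x ^ N * g⁻¹ ∈ K := by
      intro g
      have h1 := hpow (g * x * g⁻¹) (by rw [map_mul, map_mul, hx, mul_one, map_inv, mul_inv_cancel])
      rwa [conj_pow] at h1
    let c : AG G → K := fun g => ⟨g * x ^ N * g⁻¹, hmem g⟩
    have hc : ∀ g, ((c g : K) : AG G) = g * x ^ N * g⁻¹ := fun _ => rfl
    have hu : ∀ g, IsUnit (1 - u (c g)) := by
      intro g
      refine hunit _ ⟨w, ?_⟩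
      rw [hc, map_mul, map_mul, map_inv, mul_comm (ex G w g), mul_inv_cancel_right, map_pow]
      intro h1
      apply hw
      have h2 : (N : ℤ) * Multiplicative.toAdd (ex G w x) = 0 := by
        have := congrArg Multiplicative.toAdd h1
        rw [toAdd_pow, nsmul_eq_mul] at this
        simpa using this
      rcases mul_eq_zero.1 h2 with h3 | h3
      · exact absurd (by exact_mod_cast h3) hNpos
      · exact Multiplicative.toAdd.injective (by rw [h3]; rfl)
    have hcg : ∀ (h : K) (g : AG G), c (h * g) = h * c g * h⁻¹ := by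
      intro h g
      apply Subtype.ext
      rw [hc, Subgroup.coe_mul, Subgroup.coe_mul, hc, Subgroup.coe_inv]
      group
    have hshift : ∀ f, FK K u f → ∀ g, f (g * (x ^ N)⁻¹) = f g * u (c g) := by
      intro f hf g
      have h1 := hf.eq (c g)⁻¹ g
      rw [inv_inv, Subgroup.coe_inv, hc] at h1
      rw [← h1]
      congr 1
      group
    refine ⟨fun f hf => ?_, fun f hf h0 => ?_⟩
    · choose e he using fun g => hu g
      have hk : FK K u (fun g => f g * ((e g)⁻¹ : Rˣ)) := by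
        refine ⟨fun h g => ?_, ?_⟩
        · rw [hf.eq]
          have h2 : u h⁻¹ * u h = 1 := by rw [← map_mul, inv_mul_cancel, map_one]
          have h3 : u h * u h⁻¹ = 1 := by rw [← map_mul, mul_inv_cancel, map_one]
          have h1 : (e (h * g) : R) = u h * e g * u h⁻¹ := by
            rw [he, he, hcg, map_mul, map_mul, mul_sub, sub_mul, mul_one, h3]
          have h4 : ((e (h * g))⁻¹ : Rˣ) = (u h * ((e g)⁻¹ : Rˣ) * u h⁻¹ : R) := by
            refine Units.inv_eq_of_mul_eq_one_right ?_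
            rw [h1]
            calc u h * (e g : R) * u h⁻¹ * (u h * ((e g)⁻¹ : Rˣ) * u h⁻¹)
                = u h * (e g : R) * (u h⁻¹ * u h) * ((e g)⁻¹ : Rˣ) * u h⁻¹ := by
                  simp only [mul_assoc]
              _ = 1 := by rw [h2, mul_one, Units.mul_inv_cancel_right, h3]
          rw [h4]
          calc f g * u h⁻¹ * (u h * ((e g)⁻¹ : Rˣ) * u h⁻¹)
              = f g * (u h⁻¹ * u h) * ((e g)⁻¹ : Rˣ) * u h⁻¹ := by simp only [mul_assoc]
            _ = f g * ((e g)⁻¹ : Rˣ) * u h⁻¹ := by rw [h2, mul_one]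
        · obtain ⟨S, hS⟩ := hf.fin
          refine ⟨S, fun g hg => hS g fun h1 => hg ?_⟩
          rw [h1, zero_mul]
      refine ⟨_, FK_sum hk x N, fun g => ?_⟩
      refine (sum_tele (fun g => f g * ((e g)⁻¹ : Rˣ)) x g N).trans ?_
      rw [hshift _ hk g]
      have h1 : u (c g) = 1 - e g := by rw [he, sub_sub_cancel]
      rw [h1, mul_sub, mul_one, sub_sub_cancel, Units.inv_mul_cancel_right]
    · funext g
      have h1 := hshift f hf g
      rw [const_pow h0] at h1
      have h2 : f g * (1 - u (c g)) = 0 := by rw [mul_sub, mul_one, ← h1, sub_self]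
      exact (hu g).mul_left_eq_zero.1 h2
  · funext g
    by_contra hg
    obtain ⟨S, hS⟩ := hf.fin
    have h1 : ∀ n : ℕ, χ (g * (x ^ n)⁻¹) ∈ χ '' (S : Set (AG G)) := by
      intro n
      obtain ⟨h, s, hs, e⟩ := hS (g * (x ^ n)⁻¹) (by rw [const_pow h0]; exact hg)
      refine ⟨s, hs, ?_⟩
      rw [e, map_mul, MonoidHom.mem_ker.1 (hK h.2), one_mul]
    have hfin : (χ '' (S : Set (AG G))).Finite := S.finite_toSet.image _
    have hfin' : Finite (χ '' (S : Set (AG G))) := hfin.to_subtype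
    obtain ⟨n, m, hnm, e⟩ := Finite.exists_ne_map_eq_of_infinite
      (fun n : ℕ => (⟨χ (g * (x ^ n)⁻¹), h1 n⟩ : (χ '' (S : Set (AG G)))))
    have e1 : χ (g * (x ^ n)⁻¹) = χ (g * (x ^ m)⁻¹) := congrArg Subtype.val e
    rw [map_mul, map_mul, mul_right_inj, map_inv, map_inv, inv_inj, map_pow, map_pow] at e1
    have e2 : (n : ℤ) * Multiplicative.toAdd (χ x) = (m : ℤ) * Multiplicative.toAdd (χ x) := by
      have := congrArg Multiplicative.toAdd e1
      rwa [toAdd_pow, toAdd_pow, nsmul_eq_mul, nsmul_eq_mul] at this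
    have e3 : ((n : ℤ) - m) * Multiplicative.toAdd (χ x) = 0 := by rw [sub_mul, e2, sub_self]
    rcases mul_eq_zero.1 e3 with h3 | h3
    · apply hnm
      have : (n : ℤ) = m := by linarith
      exact_mod_cast this
    · exact hx (Multiplicative.toAdd.injective (by rw [h3]; rfl))

end Pool.Agent.H56T.KIN
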