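import Pool.Agent.H56T.Stm4

/-!
# Homomorphisms which separate the commuting elements (piece LHOM of project LR)
-/

set_option autoImplicit false
set_option linter.unusedSectionVars false

namespace Pool.Agent.H56T.LR

open Pool.Agent.W907.SG Finset

namespace LHOM

/-! ### groups -/

section grp

variable {A B : Type} [Monoid A] [Monoid B]

theorem alt_two (x y : A) (j : ℕ) : alt x y (j + 2) = alt x y j * (y * x) := by
  change alt x y j * y * x = _
  rw [mul_assoc]

theorem alt_even (x y : A) (k : ℕ) : alt x y (2 * k) = (y * x) ^ k := by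
  induction k with
  | zero =>
    rw [mul_zero, pow_zero]
    rfl
  | succ k ih => rw [Nat.mul_succ, alt_two, ih, pow_succ]

theorem alt_odd (x y : A) (k : ℕ) : alt x y (2 * k + 1) = x * (y * x) ^ k := by
  induction k with
  | zero =>
    change 1 * x = _
    rw [pow_zero, one_mul, mul_one]
  | succ k ih =>
    rw [show 2 * (k + 1) + 1 = 2 * k + 1 + 2 by ring, alt_two, ih, pow_succ, mul_assoc]

theorem map_alt (f : A →* B) (x y : A) :
    ∀ j : ℕ, f (alt x y j) = alt (f x) (f y) j ∧ f (alt y x j) = alt (f y) (f x) j := by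
  intro j
  induction j with
  | zero => exact ⟨map_one f, map_one f⟩
  | succ j ih =>
    constructor
    · change f (alt y x j * x) = alt (f y) (f x) j * f x
      rw [map_mul, ih.2]
    · change f (alt x y j * y) = alt (f x) (f y) j * f y
      rw [map_mul, ih.1]

/-- involutions with the braid relation -/
theorem pow_eq_one {G : Type} [Group G] {s t : G} (hs : s * s = 1) (ht : t * t = 1) {m : ℕ}
    (h : alt s t m = alt t s m) : (s * t) ^ m = 1 := by
  have hinv : t * s = (s * t)⁻¹ := by
    rw [mul_inv_rev, inv_eq_of_mul_eq_one_left hs, inv_eq_of_mul_eq_one_left ht]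
  rcases Nat.even_or_odd' m with ⟨k, hk | hk⟩
  · rw [hk, alt_even, alt_even, hinv, inv_pow] at h
    rw [hk, two_mul, pow_add]
    nth_rewrite 1 [← h]
    exact inv_mul_cancel _
  · rw [hk, alt_odd, alt_odd] at h
    have h1 : (t * s) ^ (k + 1) = (s * t) ^ k := by
      rw [pow_succ', mul_assoc, h, ← mul_assoc, ht, one_mul]
    rw [hinv, inv_pow] at h1
    rw [hk, show 2 * k + 1 = k + (k + 1) by ring, pow_add, ← h1]
    exact inv_mul_cancel _

end grp

/-! ### the plane of two roots -/

section plane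

variable {V : Type} [Fintype V] [DecidableEq V]

/-- the form -/
noncomputable def bl (M : CoxeterMatrix V) (u v : V) : ℝ :=
  if M u v = 0 then -1 else - Real.cos (Real.pi / M u v)

theorem bl_self (M : CoxeterMatrix V) (v : V) : bl M v v = 1 := by
  unfold bl
  rw [M.diagonal, if_neg one_ne_zero, Nat.cast_one, div_one, Real.cos_pi, neg_neg]

/-- a vector in the plane -/
noncomputable def vec (s t : V) (a b : ℝ) : V → ℝ := a • Pi.single s 1 + b • Pi.single t 1

theorem vec_apply_left {s t : V} (hst : s ≠ t) (a b : ℝ) : vec s t a b s = a := by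
  simp [vec, hst]

theorem vec_apply_right {s t : V} (hst : s ≠ t) (a b : ℝ) : vec s t a b t = b := by
  simp [vec, hst.symm]

theorem vec_apply_other {s t u : V} (hs : u ≠ s) (ht : u ≠ t) (a b : ℝ) : vec s t a b u = 0 := by
  simp [vec, hs, ht]

theorem sum_single (v : V) (f : V → ℝ) : ∑ u, (Pi.single v 1 : V → ℝ) u * f u = f v := by
  rw [Finset.sum_eq_single v]
  · simp
  · intro u _ hu
    simp [hu]
  · intro h
    exact absurd (Finset.mem_univ v) h

theorem sum_vec (s t : V) (a b : ℝ) (f : V → ℝ) : ∑ u, vec s t a b u * f u = a * f s + b * f t := by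
  unfold vec
  simp only [Pi.add_apply, Pi.smul_apply, smul_eq_mul, add_mul, Finset.sum_add_distrib, mul_assoc]
  rw [← Finset.mul_sum, ← Finset.mul_sum, sum_single, sum_single]

/-- `x = ± y` -/
noncomputable def chi (x y : V → ℝ) : ℤ := if x = y ∨ x = - y then 1 else 0

theorem chi_map (f : (V → ℝ) ≃ₗ[ℝ] (V → ℝ)) (x y z : V → ℝ) (h : f z = x) :
    chi z y = chi x (f y) := by
  unfold chi
  have h1 : z = y ↔ x = f y := by
    rw [← h]
    exact f.injective.eq_iff.symm
  have h2 : z = - y ↔ x = - f y := by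
    rw [← h, ← map_neg]
    exact f.injective.eq_iff.symm
  simp only [h1, h2]

theorem chi_neg (x y : V → ℝ) : chi x (-y) = chi x y := by
  unfold chi
  have h : (x = -y ∨ x = - -y) ↔ (x = y ∨ x = -y) := by
    rw [neg_neg, or_comm]
  simp only [h]

end plane

/-! ### sines -/

/-- `sin (k θ) / sin θ` -/
noncomputable def sn (θ : ℝ) (k : ℕ) : ℝ := Real.sin (k * θ) / Real.sin θ

theorem sn_zero (θ : ℝ) : sn θ 0 = 0 := by simp [sn]

theorem sn_one {θ : ℝ} (h : Real.sin θ ≠ 0) : sn θ 1 = 1 := by
  unfold sn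
  rw [Nat.cast_one, one_mul, div_self h]

theorem sn_two {θ : ℝ} (h : Real.sin θ ≠ 0) : sn θ 2 = 2 * Real.cos θ := by
  unfold sn
  rw [Nat.cast_ofNat, Real.sin_two_mul]
  field_simp

theorem sn_rec (θ : ℝ) (k : ℕ) : sn θ (k + 2) = 2 * Real.cos θ * sn θ (k + 1) - sn θ k := by
  unfold sn
  have h1 : Real.sin (((k + 2 : ℕ) : ℝ) * θ) =
      2 * Real.cos θ * Real.sin (((k + 1 : ℕ) : ℝ) * θ) - Real.sin ((k : ℝ) * θ) := by
    have e1 : ((k + 2 : ℕ) : ℝ) * θ = ((k + 1 : ℕ) : ℝ) * θ + θ := by push_cast; ring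
    have e2 : (k : ℝ) * θ = ((k + 1 : ℕ) : ℝ) * θ - θ := by push_cast; ring
    rw [e1, e2, Real.sin_add, Real.sin_sub]
    ring
  rw [h1]
  ring

theorem sn_add_m {m : ℕ} (hm : 0 < m) (k : ℕ) : sn (Real.pi / m) (k + m) = - sn (Real.pi / m) k := by
  unfold sn
  have h0 : (m : ℝ) ≠ 0 := by exact_mod_cast hm.ne'
  have h1 : ((k + m : ℕ) : ℝ) * (Real.pi / m) = (k : ℝ) * (Real.pi / m) + Real.pi := by
    push_cast
    field_simp
  rw [h1, Real.sin_add_pi, neg_div]

theorem sin_pos {m : ℕ} (hm : 2 ≤ m) : 0 < Real.sin (Real.pi / m) := by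
  have h0 : (2 : ℝ) ≤ m := by exact_mod_cast hm
  apply Real.sin_pos_of_pos_of_lt_pi
  · positivity
  · rw [div_lt_iff₀ (by positivity)]
    nlinarith [Real.pi_pos]

/-- the roots `β_k`, `k < m`, are different up to sign -/
theorem distinct {m : ℕ} (hm : 2 ≤ m) {k l : ℕ} (hk : k < m) (hl : l < m)
    (h : (sn (Real.pi / m) k = sn (Real.pi / m) l ∧
        sn (Real.pi / m) (k + 1) = sn (Real.pi / m) (l + 1)) ∨
      (sn (Real.pi / m) k = - sn (Real.pi / m) l ∧
        sn (Real.pi / m) (k + 1) = - sn (Real.pi / m) (l + 1))) : k = l := by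
  have hs := sin_pos hm
  obtain ⟨θ, hθ⟩ : ∃ θ, θ = Real.pi / (m : ℝ) := ⟨_, rfl⟩
  rw [← hθ] at hs h
  have hm0 : (0 : ℝ) < m := by
    have : 0 < m := by omega
    exact_mod_cast this
  have hθ0 : 0 < θ := by rw [hθ]; positivity
  have hang : ∀ j : ℕ, j < m → 0 ≤ (j : ℝ) * θ ∧ (j : ℝ) * θ < Real.pi := by
    intro j hj
    refine ⟨by positivity, ?_⟩
    rw [hθ, ← mul_div_assoc, div_lt_iff₀ hm0, mul_comm]
    have : (j : ℝ) < m := by exact_mod_cast hj
    exact mul_lt_mul_of_pos_left this Real.pi_pos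
  have hexp : ∀ j : ℕ, sn θ (j + 1) = sn θ j * Real.cos θ + Real.cos (j * θ) := by
    intro j
    unfold sn
    have e1 : ((j + 1 : ℕ) : ℝ) * θ = (j : ℝ) * θ + θ := by push_cast; ring
    rw [e1, Real.sin_add]
    field_simp
  have hinj : ∀ j j' : ℕ, j < m → j' < m → Real.cos (j * θ) = Real.cos (j' * θ) → j = j' := by
    intro j j' hj hj' hc
    have h1 := Real.injOn_cos ⟨(hang j hj).1, (hang j hj).2.le⟩ ⟨(hang j' hj').1, (hang j' hj').2.le⟩ hc
    have h2 := mul_right_cancel₀ hθ0.ne' h1
    exact_mod_cast h2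
  rcases h with ⟨h1, h2⟩ | ⟨h1, h2⟩
  · rw [hexp, hexp, h1] at h2
    exact hinj k l hk hl (add_left_cancel h2)
  · rw [hexp, hexp, h1] at h2
    have h3 : Real.cos (k * θ) = - Real.cos (l * θ) := by linarith
    have hpos : ∀ j : ℕ, j < m → 0 ≤ sn θ j := fun j hj =>
      div_nonneg (Real.sin_nonneg_of_nonneg_of_le_pi (hang j hj).1 (hang j hj).2.le) hs.le
    have h4 : sn θ l = 0 := by
      have := hpos k hk
      have := hpos l hl
      linarith
    have h5 : sn θ k = 0 := by rw [h1, h4, neg_zero]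
    have hz : ∀ j : ℕ, j < m → sn θ j = 0 → j = 0 := by
      intro j hj h6
      by_contra hne
      have hj0 : (0 : ℝ) < j := by exact_mod_cast Nat.pos_of_ne_zero hne
      have h7 : 0 < Real.sin (j * θ) :=
        Real.sin_pos_of_pos_of_lt_pi (by positivity) (hang j hj).2
      have h8 : 0 < sn θ j := div_pos h7 hs
      exact h8.ne' h6
    rw [hz k hk h5, hz l hl h4]

/-! ### the cocycle -/

section cocycle

variable {V : Type} [Fintype V] [LinearOrder V] {M : CoxeterMatrix V}
  {ρ : ArtG M →* ((V → ℝ) ≃ₗ[ℝ] (V → ℝ))} {c : ArtG M → (V → ℝ) → ℤ} (h : IsTits M ρ c)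

theorem rel (u v : V) : alt (sig M u) (sig M v) (M u v) = alt (sig M v) (sig M u) (M u v) := by
  have h1 : PresentedGroup.mk (artRel M) (alt (FreeGroup.of u) (FreeGroup.of v) (M u v) *
      (alt (FreeGroup.of v) (FreeGroup.of u) (M u v))⁻¹) = 1 := by
    apply PresentedGroup.one_of_mem
    exact ⟨u, v, rfl⟩
  rw [map_mul, map_inv, mul_inv_eq_one] at h1
  rw [(map_alt (PresentedGroup.mk (artRel M)) (FreeGroup.of u) (FreeGroup.of v) (M u v)).1,
    (map_alt (PresentedGroup.mk (artRel M)) (FreeGroup.of u) (FreeGroup.of v) (M u v)).2] at h1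
  exact h1

include h

theorem refl' (v : V) (x : V → ℝ) : ρ (sig M v) x =
    x - (2 * ∑ u, x u * bl M u v) • Pi.single v 1 := h.refl v x

theorem gen' (v : V) (x : V → ℝ) : c (sig M v) x = chi x (Pi.single v 1) := by
  rw [h.gen v x]
  rfl

theorem refl_single (v : V) : ρ (sig M v) (Pi.single v 1) = - Pi.single v 1 := by
  rw [refl' h, sum_single, bl_self]
  module

theorem refl_sq (v : V) : ρ (sig M v) * ρ (sig M v) = 1 := by
  apply LinearEquiv.ext
  intro x
  change ρ (sig M v) (ρ (sig M v) x) = x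
  have h1 := refl' h v x
  rw [h1, map_sub, map_smul, refl_single h, h1]
  module

theorem inv_eq (v : V) : ρ (sig M v)⁻¹ = ρ (sig M v) := by
  rw [map_inv]
  exact inv_eq_of_mul_eq_one_left (refl_sq h v)

theorem cocycle_inv (g : ArtG M) (x y : V → ℝ) : chi (ρ g⁻¹ x) y = chi x (ρ g y) := by
  apply chi_map (ρ g)
  have h1 : ρ g * ρ g⁻¹ = 1 := by rw [← map_mul, mul_inv_cancel, map_one]
  exact LinearEquiv.congr_fun h1 x

theorem c_one (x : V → ℝ) : c 1 x = 0 := by
  have h1 := h.mul 1 1 x
  rw [one_mul, inv_one, map_one] at h1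
  have h2 : (1 : (V → ℝ) ≃ₗ[ℝ] (V → ℝ)) x = x := rfl
  rw [h2] at h1
  omega

theorem c_sq (v : V) (x : V → ℝ) : c (sig M v ^ 2) x = 2 * chi x (Pi.single v 1) := by
  rw [pow_two, h.mul, gen' h, gen' h, cocycle_inv h, refl_single h, chi_neg]
  ring

variable {s t : V} (hst : s ≠ t) (hm : 3 ≤ M s t)

theorem bl_st (hm : 3 ≤ M s t) : bl M s t = - Real.cos (Real.pi / M s t) := by
  unfold bl
  rw [if_neg (by omega)]

theorem refl_t (hm : 3 ≤ M s t) (a b : ℝ) : ρ (sig M t) (vec s t a b) =
    vec s t a (2 * Real.cos (Real.pi / M s t) * a - b) := by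
  rw [refl' h, sum_vec, bl_self, bl_st h hm]
  unfold vec
  module

theorem refl_s (hm : 3 ≤ M s t) (a b : ℝ) : ρ (sig M s) (vec s t a b) =
    vec s t (2 * Real.cos (Real.pi / M s t) * b - a) b := by
  have h1 : bl M t s = - Real.cos (Real.pi / M s t) := by
    unfold bl
    rw [M.symmetric t s, if_neg (by omega)]
  rw [refl' h, sum_vec, bl_self, h1]
  unfold vec
  module

/-- the roots -/
noncomputable def bta (M : CoxeterMatrix V) (s t : V) (k : ℕ) : V → ℝ :=
  vec s t (sn (Real.pi / M s t) (k + 1)) (sn (Real.pi / M s t) k)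

omit h in
theorem be_zero (hm : 3 ≤ M s t) : bta M s t 0 = Pi.single s 1 := by
  unfold bta vec
  rw [sn_zero, zero_add, sn_one (sin_pos (by omega)).ne', one_smul, zero_smul, add_zero]

theorem be_one (hm : 3 ≤ M s t) : bta M s t 1 = ρ (sig M s) (Pi.single t 1) := by
  have h1 : (Pi.single t 1 : V → ℝ) = vec s t 0 1 := by
    unfold vec
    rw [zero_smul, one_smul, zero_add]
  rw [h1, refl_s h hm]
  unfold bta
  rw [sn_one (sin_pos (by omega)).ne', sn_two (sin_pos (by omega)).ne']
  congr 1
  ring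

theorem rot_be (hm : 3 ≤ M s t) (k : ℕ) : ρ (sig M s * sig M t) (bta M s t k) = bta M s t (k + 2) := by
  rw [map_mul]
  change ρ (sig M s) (ρ (sig M t) (bta M s t k)) = _
  unfold bta
  rw [refl_t h hm, refl_s h hm, ← sn_rec, ← sn_rec]

theorem rot_pow (hm : 3 ≤ M s t) (n k : ℕ) :
    ρ ((sig M s * sig M t) ^ n) (bta M s t k) = bta M s t (k + 2 * n) := by
  induction n with
  | zero =>
    rw [pow_zero, map_one, mul_zero, add_zero]
    rfl
  | succ n ih =>
    rw [pow_succ', map_mul]
    change ρ (sig M s * sig M t) (ρ ((sig M s * sig M t) ^ n) (bta M s t k)) = _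
    rw [ih, rot_be h hm]
    congr 1

theorem c_pow (hm : 3 ≤ M s t) (x : V → ℝ) (n : ℕ) :
    c ((sig M s * sig M t) ^ n) x = ∑ j ∈ Finset.range (2 * n), chi x (bta M s t j) := by
  induction n with
  | zero => rw [pow_zero, mul_zero, Finset.sum_range_zero, c_one h]
  | succ n ih =>
    rw [pow_succ, h.mul, ih, h.mul, gen' h, gen' h, ← be_zero hm, cocycle_inv h, cocycle_inv h,
      ← be_one h hm, cocycle_inv h, rot_pow h hm, rot_pow h hm,
      show 2 * (n + 1) = 2 * n + 1 + 1 by ring, Finset.sum_range_succ, Finset.sum_range_succ,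
      zero_add, add_comm 1 (2 * n)]
    ring

theorem c_full (hm : 3 ≤ M s t) (x : V → ℝ) :
    c ((sig M s * sig M t) ^ (M s t)) x = 2 * ∑ j ∈ Finset.range (M s t), chi x (bta M s t j) := by
  rw [c_pow h hm, two_mul (M s t), Finset.sum_range_add]
  have h1 : ∀ j, chi x (bta M s t (M s t + j)) = chi x (bta M s t j) := by
    intro j
    have h2 : bta M s t (M s t + j) = - bta M s t j := by
      unfold bta vec
      rw [add_comm (M s t) j, show j + M s t + 1 = (j + 1) + M s t by ring,
        sn_add_m (by omega), sn_add_m (by omega)]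
      module
    rw [h2, chi_neg]
  simp only [h1]
  ring

omit h in
theorem sum_be (hst : s ≠ t) (hm : 3 ≤ M s t) {l : ℕ} (hl : l < M s t) :
    ∑ j ∈ Finset.range (M s t), chi (bta M s t l) (bta M s t j) = 1 := by
  rw [Finset.sum_eq_single l]
  · unfold chi
    rw [if_pos (Or.inl rfl)]
  · intro j hj hne
    unfold chi
    rw [if_neg]
    intro hor
    apply hne
    apply distinct (by omega) (Finset.mem_range.mp hj) hl
    rcases hor with h1 | h1
    · left
      have h2 := congrFun h1 t
      have h3 := congrFun h1 s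
      unfold bta at h2 h3
      rw [vec_apply_right hst, vec_apply_right hst] at h2
      rw [vec_apply_left hst, vec_apply_left hst] at h3
      exact ⟨h2.symm, h3.symm⟩
    · right
      have h2 := congrFun h1 t
      have h3 := congrFun h1 s
      rw [Pi.neg_apply] at h2 h3
      unfold bta at h2 h3
      rw [vec_apply_right hst, vec_apply_right hst] at h2
      rw [vec_apply_left hst, vec_apply_left hst] at h3
      constructor <;> linarith
  · intro h1
    exact absurd (Finset.mem_range.mpr hl) h1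

omit h in
theorem be_last (hm : 3 ≤ M s t) : bta M s t (M s t - 1) = Pi.single t 1 := by
  obtain ⟨n, hn⟩ : ∃ n, M s t = n + 2 := ⟨M s t - 2, by omega⟩
  have hs := sin_pos (m := M s t) (by omega)
  have h1 : sn (Real.pi / M s t) (M s t) = 0 := by
    have := sn_add_m (m := M s t) (by omega) 0
    rw [zero_add, sn_zero, neg_zero] at this
    exact this
  have h2 : sn (Real.pi / M s t) (M s t - 1) = 1 := by
    have h3 := sn_add_m (m := M s t) (by omega) 1
    rw [sn_one hs.ne'] at h3
    have h4 := sn_rec (Real.pi / M s t) (M s t - 1)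
    rw [show M s t - 1 + 2 = 1 + M s t by omega, show M s t - 1 + 1 = M s t by omega, h3, h1] at h4
    linarith
  unfold bta vec
  rw [show M s t - 1 + 1 = M s t by omega, h1, h2, zero_smul, zero_add, one_smul]

omit h in
/-- vectors with different supports -/
theorem chi_zero_of {x y : V → ℝ} (u : V) (hx : x u ≠ 0) (hy : y u = 0) : chi x y = 0 := by
  unfold chi
  rw [if_neg]
  rintro (h1 | h1)
  · exact hx (by rw [h1, hy])
  · exact hx (by rw [h1, Pi.neg_apply, hy, neg_zero])

omit h in
theorem chi_single (u v : V) : chi (Pi.single u 1 : V → ℝ) (Pi.single v 1) = if u = v then 1 else 0 := by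
  by_cases huv : u = v
  · rw [if_pos huv, huv]
    unfold chi
    rw [if_pos (Or.inl rfl)]
  · rw [if_neg huv]
    apply chi_zero_of u
    · simp
    · simp [huv]

omit h in
theorem cos_pos' (hm : 3 ≤ M s t) : 0 < Real.cos (Real.pi / M s t) := by
  have h0 : (3 : ℝ) ≤ M s t := by exact_mod_cast hm
  apply Real.cos_pos_of_mem_Ioo
  constructor
  · have : 0 < Real.pi / M s t := by positivity
    linarith [Real.pi_pos]
  · rw [div_lt_div_iff₀ (by positivity) (by norm_num)]
    nlinarith [Real.pi_pos]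

omit h in
theorem be_one_left (hst : s ≠ t) (hm : 3 ≤ M s t) : bta M s t 1 s ≠ 0 := by
  unfold bta
  rw [vec_apply_left hst, sn_two (sin_pos (by omega)).ne']
  have := cos_pos' hm
  positivity

omit h in
theorem be_one_right (hst : s ≠ t) (hm : 3 ≤ M s t) : bta M s t 1 t ≠ 0 := by
  unfold bta
  rw [vec_apply_right hst, sn_one (sin_pos (by omega)).ne']
  exact one_ne_zero

omit h in
theorem be_other {u : V} (hs : u ≠ s) (ht : u ≠ t) (k : ℕ) : bta M s t k u = 0 := by
  unfold bta
  exact vec_apply_other hs ht _ _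

/-- the homomorphism attached to a vector -/
noncomputable def L (x : V → ℝ) : ρ.ker →* Multiplicative ℤ where
  toFun g := Multiplicative.ofAdd (c g.1 x)
  map_one' := by
    change Multiplicative.ofAdd (c 1 x) = 1
    rw [c_one h]
    rfl
  map_mul' g g' := by
    change Multiplicative.ofAdd (c (g.1 * g'.1) x) = _
    have h1 : ρ g.1⁻¹ = 1 := by
      rw [map_inv, MonoidHom.mem_ker.mp g.2, inv_one]
    rw [h.mul, h1]
    rfl

theorem L_apply (x : V → ℝ) (g : ρ.ker) : Multiplicative.toAdd (L h x g) = c g.1 x := rfl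

theorem zz_mem (x : V ⊕ EE M) : zz M x ∈ ρ.ker := by
  rw [MonoidHom.mem_ker]
  rcases x with v | e
  · change ρ (sig M v ^ 2) = 1
    rw [pow_two, map_mul, refl_sq h]
  · change ρ ((sig M e.1.1 * sig M e.1.2) ^ (M e.1.1 e.1.2)) = 1
    rw [map_pow, map_mul]
    apply pow_eq_one (refl_sq h _) (refl_sq h _)
    have h1 := congrArg ρ (rel (M := M) e.1.1 e.1.2)
    rw [(map_alt ρ _ _ _).1, (map_alt ρ _ _ _).2] at h1
    exact h1

/-- values at the vector `e_v` -/
theorem L_v (v : V) (y : V ⊕ EE M) : c (zz M y) (Pi.single v 1) =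
    match y with
    | Sum.inl u => if v = u then 2 else 0
    | Sum.inr f => if v = f.1.1 ∨ v = f.1.2 then 2 else 0 := by
  rcases y with u | f
  · change c (sig M u ^ 2) (Pi.single v 1) = if v = u then 2 else 0
    rw [c_sq h, chi_single]
    split_ifs <;> rfl
  · have hst : f.1.1 ≠ f.1.2 := f.2.1.ne
    have hm := f.2.2
    change c ((sig M f.1.1 * sig M f.1.2) ^ (M f.1.1 f.1.2)) (Pi.single v 1) =
      if v = f.1.1 ∨ v = f.1.2 then 2 else 0
    rw [c_full h hm]
    by_cases h1 : v = f.1.1
    · rw [if_pos (Or.inl h1), h1, ← be_zero hm, sum_be hst hm (by omega), mul_one]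
    · by_cases h2 : v = f.1.2
      · rw [if_pos (Or.inr h2), h2, ← be_last hm, sum_be hst hm (by omega), mul_one]
      · rw [if_neg (by tauto), Finset.sum_eq_zero, mul_zero]
        intro j _
        apply chi_zero_of v
        · simp
        · exact be_other h1 h2 j

/-- values at the vector `β_1` of an edge -/
theorem L_e (e : EE M) (y : V ⊕ EE M) : c (zz M y) (bta M e.1.1 e.1.2 1) =
    if y = Sum.inr e then 2 else 0 := by
  have hst : e.1.1 ≠ e.1.2 := e.2.1.ne
  have hm := e.2.2
  rcases y with u | f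
  · change c (sig M u ^ 2) (bta M e.1.1 e.1.2 1) = _
    rw [if_neg (by simp), c_sq h]
    by_cases h1 : u = e.1.1
    · rw [chi_zero_of e.1.2 (be_one_right hst hm), mul_zero]
      rw [Pi.single_apply, if_neg]
      intro h2
      exact hst (h1.symm.trans h2.symm)
    · rw [chi_zero_of e.1.1 (be_one_left hst hm), mul_zero]
      rw [Pi.single_apply, if_neg (fun h2 => h1 h2.symm)]
  · change c ((sig M f.1.1 * sig M f.1.2) ^ (M f.1.1 f.1.2)) (bta M e.1.1 e.1.2 1) = _
    rw [c_full h f.2.2]
    by_cases hef : f = e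
    · rw [if_pos (by rw [hef]), hef, sum_be hst hm (by omega), mul_one]
    · rw [if_neg (fun h1 => hef (Sum.inr_injective h1)), Finset.sum_eq_zero, mul_zero]
      intro j _
      by_cases h1 : e.1.1 = f.1.1 ∨ e.1.1 = f.1.2
      · by_cases h2 : e.1.2 = f.1.1 ∨ e.1.2 = f.1.2
        · exfalso
          apply hef
          have he := e.2.1
          have hf := f.2.1
          apply Subtype.ext
          rcases h1 with h1 | h1 <;> rcases h2 with h2 | h2
          · exact absurd (h1.trans h2.symm) hst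
          · exact Prod.ext h1.symm h2.symm
          · rw [h1, h2] at he
            exact absurd he (lt_asymm hf)
          · exact absurd (h1.trans h2.symm) hst
        · push Not at h2
          exact chi_zero_of e.1.2 (be_one_right hst hm) (be_other h2.1 h2.2 j)
      · push Not at h1
        exact chi_zero_of e.1.1 (be_one_left hst hm) (be_other h1.1 h1.2 j)

end cocycle

end LHOM

open LHOM in
theorem t_LHOM : S_LHOM := by
  classical
  intro V _ _ M ρ c h
  refine ⟨zz_mem h, fun x => match x with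
    | Sum.inl v => L h (Pi.single v 1) *
        ∏ e ∈ Finset.univ.filter (fun e : EE M => v = e.1.1 ∨ v = e.1.2), (L h (bta M e.1.1 e.1.2 1))⁻¹
    | Sum.inr e => L h (bta M e.1.1 e.1.2 1), ?_⟩
  rintro (v | e) y
  · have h1 : Multiplicative.toAdd ((L h (Pi.single v 1) *
        ∏ e ∈ Finset.univ.filter (fun e : EE M => v = e.1.1 ∨ v = e.1.2),
          (L h (bta M e.1.1 e.1.2 1))⁻¹) ⟨zz M y, zz_mem h y⟩) =
        c (zz M y) (Pi.single v 1) -
          ∑ e ∈ Finset.univ.filter (fun e : EE M => v = e.1.1 ∨ v = e.1.2),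
            c (zz M y) (bta M e.1.1 e.1.2 1) := by
      rw [MonoidHom.mul_apply, MonoidHom.finsetProd_apply, toAdd_mul, toAdd_prod, sub_eq_add_neg,
        ← Finset.sum_neg_distrib]
      rfl
    refine h1.trans ?_
    rw [L_v h]
    simp only [L_e h]
    rcases y with u | f
    · have h2 : ∀ e : EE M, (if (Sum.inl u : V ⊕ EE M) = Sum.inr e then (2 : ℤ) else 0) = 0 :=
        fun e => if_neg (by simp)
      simp only [h2, Finset.sum_const_zero, sub_zero]
      by_cases huv : v = u
      · rw [if_pos huv, if_pos (by rw [huv])]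
      · rw [if_neg huv, if_neg (fun h3 => huv (Sum.inl_injective h3).symm)]
    · rw [if_neg (show ¬ ((Sum.inr f : V ⊕ EE M) = Sum.inl v) by simp)]
      have h2 : ∀ e : EE M, (if (Sum.inr f : V ⊕ EE M) = Sum.inr e then (2 : ℤ) else 0) =
          if f = e then 2 else 0 := by
        intro e
        by_cases hfe : f = e
        · rw [if_pos hfe, if_pos (by rw [hfe])]
        · rw [if_neg hfe, if_neg (fun h3 => hfe (Sum.inr_injective h3))]
      have h3 : ∑ e ∈ Finset.univ.filter (fun e : EE M => v = e.1.1 ∨ v = e.1.2),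
          (if (Sum.inr f : V ⊕ EE M) = Sum.inr e then (2 : ℤ) else 0) =
          if v = f.1.1 ∨ v = f.1.2 then 2 else 0 := by
        simp only [h2]
        rw [Finset.sum_ite_eq]
        simp only [Finset.mem_filter, Finset.mem_univ, true_and]
      rw [h3]
      exact sub_self _
  · exact L_e h e y

end Pool.Agent.H56T.LR
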