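import Pool.Agent.H56T.Stm3

/-!
# Project KER, piece LNKT: transport of rational exactness from an induced subgraph
-/

set_option autoImplicit false
set_option linter.unusedSectionVars false

namespace Pool.Agent.H56T.LNKT

open Finset Pool.Agent.W907.SG

section md

variable {V : Type} [Fintype V] [LinearOrder V] {G : SimpleGraph V}

/-- rational exactness for chains with values in a rational vector space -/
theorem rex_mod {E : Type} [AddCommGroup E] [Module ℚ E] {i : ℕ} (hE : Rex G i) (x : Finset V → E)
    (hx : Chn G i x) (hb : ∀ T, sb x T = 0) :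
    ∃ y : Finset V → E, Chn G (i + 1) y ∧ ∀ T, sb y T = x T := by
  classical
  let B := Module.Basis.ofVectorSpace ℚ E
  have hex : ∀ j, ∃ y : Finset V → ℚ, Chn G (i + 1) y ∧ ∀ T, sb y T = B.repr (x T) j := by
    intro j
    refine hE (fun T => B.repr (x T) j) ?_ ?_
    · intro T hT
      beta_reduce
      rw [hx T hT]
      simp
    · intro T
      have h1 := sb_map ((Finsupp.applyAddHom j).comp (B.repr.toLinearMap.toAddMonoidHom)) x T
      rw [hb T, map_zero] at h1
      exact h1
  choose Y hY1 hY2 using hex
  let J := (univ : Finset (Finset V)).biUnion fun T => (B.repr (x T)).support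
  refine ⟨fun T => ∑ j ∈ J, Y j T • B j, ?_, ?_⟩
  · intro T hT
    refine sum_eq_zero fun j _ => ?_
    rw [hY1 j T hT, zero_smul]
  · intro T
    unfold sb
    rw [sum_congr rfl fun v _ => smul_sum, sum_comm]
    have h1 : ∀ j ∈ J, ∑ v ∈ Tᶜ, sg v T • Y j (insert v T) • B j = B.repr (x T) j • B j := by
      intro j _
      rw [← hY2 j T]
      unfold sb
      rw [sum_smul]
      exact sum_congr rfl fun v _ => (smul_assoc _ _ _).symm
    rw [sum_congr rfl h1]
    conv_rhs => rw [← B.linearCombination_repr (x T), Finsupp.linearCombination_apply, Finsupp.sum]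
    symm
    refine sum_subset ?_ ?_
    · intro j hj
      exact mem_biUnion.2 ⟨T, mem_univ _, hj⟩
    · intro j _ hj
      rw [Finsupp.notMem_support_iff.1 hj, zero_smul]

/-- the inclusion of `C` -/
def io (C : Set V) : C ↪ V := Function.Embedding.subtype _

variable (C : Set V) [Fintype C]

theorem map_sub (S : Finset C) : ((S.map (io C) : Finset V) : Set V) ⊆ C := by
  intro v hv
  rw [mem_coe, mem_map] at hv
  obtain ⟨w, -, rfl⟩ := hv
  exact w.2

theorem clique_map (S : Finset C) : G.IsClique ((S.map (io C) : Finset V) : Set V) ↔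
    (G.induce C).IsClique (S : Set C) := by
  constructor
  · intro h a ha b hb hab
    have h1 := h (mem_coe.2 (mem_map_of_mem (io C) ha)) (mem_coe.2 (mem_map_of_mem (io C) hb))
      (fun e => hab ((io C).injective e))
    exact h1
  · intro h a ha b hb hab
    rw [mem_coe, mem_map] at ha hb
    obtain ⟨a', ha', rfl⟩ := ha
    obtain ⟨b', hb', rfl⟩ := hb
    exact h ha' hb' (fun e => hab (congrArg _ e))

theorem sg_map (v : C) (S : Finset C) : sg (io C v) (S.map (io C)) = sg v S := by
  unfold sg
  congr 1
  rw [filter_map, card_map]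
  rfl

theorem sb_restr {A : Type} [AddCommGroup A] (x : Finset V → A)
    (hx : ∀ T : Finset V, ¬ (T : Set V) ⊆ C → x T = 0) (S : Finset C) :
    sb (fun S' : Finset C => x (S'.map (io C))) S = sb x (S.map (io C)) := by
  classical
  unfold sb
  have h1 : ∑ v ∈ Sᶜ, sg v S • x ((insert v S).map (io C)) =
      ∑ w ∈ (Sᶜ).map (io C), sg w (S.map (io C)) • x (insert w (S.map (io C))) := by
    rw [sum_map]
    refine sum_congr rfl fun v _ => ?_
    rw [map_insert, sg_map]
  refine h1.trans ?_
  apply sum_subset
  · intro w hw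
    rw [mem_map] at hw
    obtain ⟨v, hv, rfl⟩ := hw
    rw [mem_compl, mem_map']
    exact mem_compl.1 hv
  · intro w hw hw'
    rw [hx, smul_zero]
    intro hsub
    have hwC : w ∈ C := hsub (mem_coe.2 (mem_insert_self _ _))
    apply hw'
    rw [mem_map]
    refine ⟨⟨w, hwC⟩, ?_, rfl⟩
    rw [mem_compl]
    intro h
    exact (mem_compl.1 hw) (mem_map_of_mem (io C) h)

end md

end Pool.Agent.H56T.LNKT

namespace Pool.Agent.H56T

open Finset Pool.Agent.W907.SG Pool.Agent.H56T.LNKT

theorem lnkt : S_LNKT := by
  classical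
  intro V _ _ G C _ i hR X _ _ z hz hzC hb
  obtain ⟨y', hy1, hy2⟩ := rex_mod hR (fun S => z (S.map (io C)))
    (by
      intro S hS
      apply hz
      rw [clique_map, card_map]
      exact hS)
    (by
      intro S
      rw [sb_restr C z hzC, hb])
  have hsub : ∀ T : Finset V, (T : Set V) ⊆ C → ((T.subtype (· ∈ C)).map (io C)) = T := by
    intro T hT
    exact subtype_map_of_mem fun x hx => hT (mem_coe.2 hx)
  have hsub' : ∀ S : Finset C, (S.map (io C)).subtype (· ∈ C) = S := by
    intro S
    apply map_injective (io C)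
    rw [hsub _ (map_sub C S)]
  set y : Finset V → X := fun T => if (T : Set V) ⊆ C then y' (T.subtype (· ∈ C)) else 0 with hy
  have hyC : ∀ T : Finset V, ¬ (T : Set V) ⊆ C → y T = 0 := fun T hT => if_neg hT
  have hym : ∀ S : Finset C, y (S.map (io C)) = y' S := by
    intro S
    rw [hy]
    beta_reduce
    rw [if_pos (map_sub C S), hsub']
  refine ⟨y, ?_, hyC, ?_⟩
  · intro T hT
    by_cases h : (T : Set V) ⊆ C
    · rw [← hsub T h] at hT ⊢
      rw [hym]
      apply hy1
      rwa [clique_map, card_map] at hT
    · exact hyC T h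
  · intro T
    by_cases h : (T : Set V) ⊆ C
    · rw [← hsub T h, ← sb_restr C y hyC]
      have : (fun S' : Finset C => y (S'.map (io C))) = y' := funext hym
      rw [this, hy2]
    · rw [hzC T h]
      unfold sb
      apply sum_eq_zero
      intro v _
      rw [hyC, smul_zero]
      intro h'
      apply h
      intro w hw
      exact h' (mem_coe.2 (mem_insert_of_mem hw))

end Pool.Agent.H56T
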