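import Pool.Agent.H56T.Stm4

/-!
# Piece LRAT: from exactness over `F_2` to exactness over the rational vector spaces, for a simplicial complex
-/

set_option autoImplicit false
set_option linter.unusedSectionVars false

namespace Pool.Agent.H56T.LR.LRAT

open Finset Pool.Agent.W907.SG Pool.Agent.H56T Pool.Agent.H56T.LR

section Ra

variable {V : Type} [Fintype V] [LinearOrder V] {Q : Finset V → Prop}

theorem sb_chn {A : Type} [AddCommGroup A] (hQ : ∀ T T' : Finset V, T' ⊆ T → Q T → Q T') {i : ℕ} {x : Finset V → A}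
    (h : ChS Q (i + 1) x) : ChS Q i (sb x) := by
  intro T hT
  unfold sb
  refine sum_eq_zero fun v hv => ?_
  rw [mem_compl] at hv
  rw [h (insert v T), smul_zero]
  rintro ⟨h1, h2⟩
  refine hT ⟨hQ _ _ (subset_insert v T) h1, ?_⟩
  rw [card_insert_of_notMem hv] at h2
  omega

/-- division by powers of two -/
theorem divi (hQ : ∀ T T' : Finset V, T' ⊆ T → Q T → Q T') {i : ℕ} (hE : ExF Q i) (m : ℕ) : ∀ z : Finset V → ℤ, ChS Q i z → (∀ T, sb z T = 0) →
    ∃ y w : Finset V → ℤ, ChS Q (i + 1) y ∧ ChS Q i w ∧ ∀ T, z T = sb y T + 2 ^ m * w T := by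
  induction m with
  | zero =>
    intro z hz _
    exact ⟨fun _ => 0, z, fun _ _ => rfl, hz, fun T => by simp [sb]⟩
  | succ m ih =>
    intro z hz hb
    obtain ⟨y0, h1, h2⟩ := hE (fun S => (z S : ZMod 2)) (fun T hT => by
      beta_reduce
      rw [hz T hT]
      simp) (by
      rw [bb_cast]
      funext T
      rw [hb T]
      simp)
    -- lift `y0`
    have hlift : ∀ a : ZMod 2, ∃ b : ℤ, (b : ZMod 2) = a := fun a => ⟨(a.val : ℤ), by simp⟩
    classical
    choose l hl using hlift
    set y1 : Finset V → ℤ := fun T => if Q T ∧ T.card = i + 1 then l (y0 T) else 0 with hy1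
    have hy1c : (fun S => (y1 S : ZMod 2)) = y0 := by
      funext S
      rw [hy1]
      beta_reduce
      split_ifs with h
      · exact hl _
      · rw [h1 S h]
        simp
    have hdiv : ∀ T, ∃ w, z T - sb y1 T = 2 * w := by
      intro T
      have h3 : ((z T - sb y1 T : ℤ) : ZMod 2) = 0 := by
        have h4 := congrFun (bb_cast y1) T
        rw [hy1c, h2] at h4
        push_cast
        rw [← h4, sub_self]
      have h5 := (ZMod.intCast_zmod_eq_zero_iff_dvd _ 2).1 h3
      obtain ⟨w, hw⟩ := h5
      exact ⟨w, by rw [hw]; rfl⟩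
    choose w hw using hdiv
    have hy1s : ChS Q (i + 1) y1 := by
      intro T hT
      rw [hy1]
      exact if_neg hT
    have hws : ChS Q i w := by
      intro T hT
      have h3 := hw T
      rw [hz T hT, sb_chn hQ hy1s T hT] at h3
      omega
    have hwb : ∀ T, sb w T = 0 := by
      intro T
      have h3 : sb (fun S => z S - sb y1 S) T = 0 := by
        rw [sb_sub, hb, sb_sb, sub_zero]
      have h4 : sb (fun S => z S - sb y1 S) T = 2 * sb w T := by
        have h5 : (fun S => z S - sb y1 S) = fun S => (AddMonoidHom.mulLeft (2 : ℤ)) (w S) := by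
          funext S
          exact hw S
        rw [h5, sb_map]
        rfl
      rw [h3] at h4
      omega
    obtain ⟨y2, w2, h6, h7, h8⟩ := ih w hws hwb
    refine ⟨fun T => y1 T + 2 * y2 T, w2, fun T hT => ?_, h7, fun T => ?_⟩
    · beta_reduce
      rw [hy1s T hT, h6 T hT]
      rfl
    · have h9 : sb (fun S => y1 S + 2 * y2 S) T = sb y1 T + 2 * sb y2 T := by
        rw [sb_add y1 (fun S => 2 * y2 S)]
        congr 1
        exact sb_map (AddMonoidHom.mulLeft (2 : ℤ)) y2 T
      rw [h9]
      have h10 := hw T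
      rw [h8 T] at h10
      rw [pow_succ]
      linarith

/-- exactness over the rational numbers -/
theorem exa_rat (hQ : ∀ T T' : Finset V, T' ⊆ T → Q T → Q T') {i : ℕ} (hE : ExF Q i) (z : Finset V → ℚ) (hz : ChS Q i z) (hb : ∀ T, sb z T = 0) :
    ∃ y : Finset V → ℚ, ChS Q (i + 1) y ∧ ∀ T, sb y T = z T := by
  classical
  -- the boundary as a linear map
  let L : (Finset V → ℚ) →ₗ[ℚ] (Finset V → ℚ) :=
    { toFun := fun y => sb (fun T => if Q T ∧ T.card = i + 1 then y T else 0)
      map_add' := by
        intro x y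
        funext T
        rw [Pi.add_apply, ← sb_add]
        congr 1
        funext S
        rw [Pi.add_apply]
        split_ifs
        · rfl
        · rw [add_zero]
      map_smul' := by
        intro a x
        funext T
        rw [RingHom.id_apply, Pi.smul_apply, smul_eq_mul]
        have := sb_map (AddMonoidHom.mulLeft a) (fun T => if Q T ∧ T.card = i + 1 then x T else 0) T
        rw [show a * sb (fun T => if Q T ∧ T.card = i + 1 then x T else 0) T =
          (AddMonoidHom.mulLeft a) (sb (fun T => if Q T ∧ T.card = i + 1 then x T else 0) T) from rfl,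
          ← this]
        congr 1
        funext S
        rw [Pi.smul_apply, smul_eq_mul]
        split_ifs
        · rfl
        · exact (map_zero _).symm }
  have hL : ∀ y, L y = sb (fun T => if Q T ∧ T.card = i + 1 then y T else 0) := fun _ => rfl
  have hLy : ∀ y : Finset V → ℚ, ChS Q (i + 1) y → L y = sb y := by
    intro y hy
    rw [hL]
    congr 1
    funext T
    split_ifs with h
    · rfl
    · exact (hy T h).symm
  by_cases hmem : z ∈ LinearMap.range L
  · obtain ⟨y, hy⟩ := hmem
    refine ⟨fun T => if Q T ∧ T.card = i + 1 then y T else 0, fun T hT => if_neg hT, fun T => ?_⟩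
    rw [← hL, hy]
  exfalso
  obtain ⟨f, hf1, hf2⟩ := Submodule.exists_dual_map_eq_bot_of_notMem hmem inferInstance
  have hfL : ∀ y, f (L y) = 0 := by
    intro y
    have : f (L y) ∈ (LinearMap.range L).map f := Submodule.mem_map_of_mem (LinearMap.mem_range_self L y)
    rw [hf2] at this
    exact (Submodule.mem_bot ℚ).mp this
  have hsum : ∀ x : Finset V → ℚ, f x = ∑ S, x S * f (Pi.single S 1) := by
    intro x
    conv_lhs => rw [← Finset.univ_sum_single x]
    rw [map_sum]
    refine sum_congr rfl fun S _ => ?_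
    rw [← smul_eq_mul, ← map_smul]
    congr 1
    rw [← Pi.single_smul, smul_eq_mul, mul_one]
  -- common denominators
  have hden : ∀ (x : Finset V → ℚ), ∃ N : ℕ, N ≠ 0 ∧ ∀ S, ∃ k : ℤ, (N : ℚ) * x S = k := by
    intro x
    refine ⟨∏ S, (x S).den, Finset.prod_ne_zero_iff.2 fun S _ => (x S).den_nz, fun S => ?_⟩
    obtain ⟨t, ht⟩ := Finset.dvd_prod_of_mem (fun S => (x S).den) (mem_univ S)
    refine ⟨t * (x S).num, ?_⟩
    rw [ht]
    push_cast
    have h1 := Rat.den_mul_eq_num (x S)
    rw [show ((x S).den : ℚ) * t * x S = t * ((x S).den * x S) by ring, h1]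
  obtain ⟨N, hN, hNz⟩ := hden z
  obtain ⟨M, hM, hMf⟩ := hden (fun S => f (Pi.single S 1))
  choose k hk using hNz
  choose c hc using hMf
  -- the integral cycle
  have hkc : ChS Q i k := by
    intro T hT
    have := hk T
    rw [hz T hT, mul_zero] at this
    exact_mod_cast this.symm
  have hkb : ∀ T, sb k T = 0 := by
    intro T
    have h1 := sb_map (Int.castAddHom ℚ) k T
    have h2 : (fun S => (Int.castAddHom ℚ) (k S)) = fun S => (AddMonoidHom.mulLeft (N : ℚ)) (z S) := by
      funext S
      exact (hk S).symm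
    rw [h2, sb_map, hb T, map_zero] at h1
    have h3 : ((sb k T : ℤ) : ℚ) = 0 := h1.symm
    exact_mod_cast h3
  -- the value of the functional
  set F : ℤ := ∑ S, k S * c S with hF
  have hFz : (F : ℚ) = N * M * f z := by
    rw [hsum z, mul_sum, hF]
    push_cast
    refine sum_congr rfl fun S _ => ?_
    rw [← hk, ← hc]
    ring
  have hdvd : ∀ m : ℕ, (2 : ℤ) ^ m ∣ F := by
    intro m
    obtain ⟨y, w, h1, h2, h3⟩ := divi hQ hE m k hkc hkb
    refine ⟨∑ S, w S * c S, ?_⟩
    have h4 : (∑ S, sb y S * c S : ℤ) = 0 := by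
      have h5 : f (L (fun S => (y S : ℚ))) = 0 := hfL _
      rw [hLy _ (fun T hT => by rw [h1 T hT]; simp), hsum] at h5
      have h6 : ((∑ S, sb y S * c S : ℤ) : ℚ) = M * ∑ S, sb (fun S => (y S : ℚ)) S * f (Pi.single S 1) := by
        rw [mul_sum]
        push_cast
        refine sum_congr rfl fun S _ => ?_
        rw [← hc, show sb (fun S => (y S : ℚ)) S = ((sb y S : ℤ) : ℚ) from sb_map (Int.castAddHom ℚ) y S]
        ring
      rw [h5, mul_zero] at h6
      exact_mod_cast h6
    rw [hF, sum_congr rfl fun S _ => by rw [h3 S, add_mul], sum_add_distrib, h4, zero_add, mul_sum]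
    exact sum_congr rfl fun S _ => by ring
  have hF0 : F = 0 := by
    by_contra hne
    have h1 := Int.le_of_dvd (abs_pos.2 hne) ((dvd_abs _ _).2 (hdvd F.natAbs))
    have h2 : (F.natAbs : ℤ) < 2 ^ F.natAbs := by exact_mod_cast Nat.lt_two_pow_self
    rw [Int.abs_eq_natAbs] at h1
    omega
  rw [hF0] at hFz
  have h1 : (N : ℚ) ≠ 0 := by exact_mod_cast hN
  have h2 : (M : ℚ) ≠ 0 := by exact_mod_cast hM
  have h3 : f z = 0 := by
    have h4 : (N : ℚ) * M * f z = 0 := by rw [← hFz]; simp
    rcases mul_eq_zero.1 h4 with h5 | h5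
    · exact absurd h5 (mul_ne_zero h1 h2)
    · exact h5
  exact hf1 h3

/-- exactness over rational vector spaces -/
theorem exa_mod (hQ : ∀ T T' : Finset V, T' ⊆ T → Q T → Q T') {E : Type} [AddCommGroup E] [Module ℚ E] {i : ℕ}
    (hE : ExF Q i) (x : Finset V → E) (hx : ChS Q i x)
    (hb : ∀ T, sb x T = 0) : ∃ y : Finset V → E, ChS Q (i + 1) y ∧ ∀ T, sb y T = x T := by
  classical
  let B := Module.Basis.ofVectorSpace ℚ E
  have hex : ∀ j, ∃ y : Finset V → ℚ, ChS Q (i + 1) y ∧ ∀ T, sb y T = B.repr (x T) j := by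
    intro j
    refine exa_rat hQ hE (fun T => B.repr (x T) j) ?_ ?_
    · intro T hT
      beta_reduce
      rw [hx T hT]
      simp
    · intro T
      have h1 := sb_map ((Finsupp.applyAddHom j).comp (B.repr.toLinearMap.toAddMonoidHom)) x T
      rw [hb T, map_zero] at h1
      exact h1
  choose Y hY1 hY2 using hex
  let J := (univ : Finset (Finset V)).biUnion fun T => (B.repr (x T)).support
  refine ⟨fun T => ∑ j ∈ J, Y j T • B j, ?_, ?_⟩
  · intro T hT
    refine sum_eq_zero fun j _ => ?_
    rw [hY1 j T hT, zero_smul]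
  · intro T
    unfold sb
    rw [sum_congr rfl fun v _ => smul_sum, sum_comm]
    have h1 : ∀ j ∈ J, ∑ v ∈ Tᶜ, sg v T • Y j (insert v T) • B j = B.repr (x T) j • B j := by
      intro j _
      rw [← hY2 j T]
      unfold sb
      rw [sum_smul]
      exact sum_congr rfl fun v _ => (smul_assoc _ _ _).symm
    rw [sum_congr rfl h1]
    conv_rhs => rw [← B.linearCombination_repr (x T), Finsupp.linearCombination_apply, Finsupp.sum]
    symm
    refine sum_subset ?_ ?_
    · intro j hj
      exact mem_biUnion.2 ⟨T, mem_univ _, hj⟩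
    · intro j _ hj
      rw [Finsupp.notMem_support_iff.1 hj, zero_smul]

end Ra

end Pool.Agent.H56T.LR.LRAT

namespace Pool.Agent.H56T.LR

open Pool.Agent.W907.SG Finset

theorem t_LRAT : S_LRAT := by
  intro V _ _ S i hS hE X _ _ x hx hb
  exact LRAT.exa_mod hS hE x hx hb

end Pool.Agent.H56T.LR
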