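import Pool.Agent.N496.CV.L2Def
import Pool.Agent.W907.SG.Defs

/-!
# Artin groups and the `L²`-Betti numbers of their Salvetti complexes

`M` is a Coxeter matrix on the finite set `V` (`M u v = 0` stands for `∞`). `ArtG M` is the Artin group. The complex
has the cells `T ⊆ V` with `Sph M T`: all the entries `M u v`, `u, v ∈ T`, are finite and the pairs in `T` with entry
`≥ 3` are disjoint, so the parabolic subgroup of `T` is a product of infinite cyclic and dihedral Artin groups. If
`M` is locally reducible (no irreducible spherical subset of rank `≥ 3`) these are all the spherical subsets, and the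
complex is the cellular chain complex of the universal cover of the Salvetti complex.
-/

set_option autoImplicit false

open scoped ENNReal

namespace Pool.Agent.H56T.LR

open Pool.Agent.W907.SG

/-- the alternating product `⋯ x y x` of length `n`, with the last factor `x` -/
def alt {Γ : Type} [Monoid Γ] (x y : Γ) : ℕ → Γ
  | 0 => 1
  | n + 1 => alt y x n * x

/-- the braid relators of the Artin group -/
def artRel {V : Type} (M : CoxeterMatrix V) : Set (FreeGroup V) :=
  {r | ∃ u v, r = alt (FreeGroup.of u) (FreeGroup.of v) (M u v) * (alt (FreeGroup.of v) (FreeGroup.of u) (M u v))⁻¹}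

/-- the Artin group of a Coxeter matrix -/
abbrev ArtG {V : Type} (M : CoxeterMatrix V) : Type := PresentedGroup (artRel M)

/-- the generators -/
def sig {V : Type} (M : CoxeterMatrix V) (v : V) : ArtG M := PresentedGroup.of v

/-- the cells: all entries are finite and the pairs with entry `≥ 3` are disjoint -/
def Sph {V : Type} (M : CoxeterMatrix V) (T : Finset V) : Prop :=
  (∀ u ∈ T, ∀ v ∈ T, M u v ≠ 0) ∧ ∀ u ∈ T, ∀ v ∈ T, ∀ w ∈ T, 3 ≤ M u v → 3 ≤ M u w → v = w

open Classical in
/-- The coefficient of the cell `T - t` in the boundary of the cell `T`: the alternating sum of the shortest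
representatives of the cosets of `W_(T - t)` in `W_T`. It is `1 - t` if `t` commutes with the other elements of `T`,
and `1 - t + p t - t p t + ⋯` (`M t p` terms) if `3 ≤ M t p` for the element `p` of `T`. -/
noncomputable def bet {V : Type} (M : CoxeterMatrix V) (T : Finset V) (t : V) : MonoidAlgebra ℤ (ArtG M) :=
  (∑ p ∈ T.filter (fun p => 3 ≤ M t p), ∑ j ∈ Finset.range (M t p),
    ((-1 : ℤ) ^ j) • MonoidAlgebra.single (alt (sig M t) (sig M p) j) (1 : ℤ)) +
  if ∃ p ∈ T, 3 ≤ M t p then 0 else 1 - MonoidAlgebra.single (sig M t) (1 : ℤ)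

section hom

variable {V : Type} [Fintype V] [LinearOrder V] (M : CoxeterMatrix V) {R : Type} [Ring R] (c : ArtG M →* R)

/-- the boundary of a chain with coefficients in the ring `R` -/
noncomputable def bdS (x : Finset V → R) (T : Finset V) : R :=
  ∑ v ∈ Tᶜ, sg v T • (x (insert v T) * V7N.evM c (bet M (insert v T) v))

/-- the `i`-cycles -/
noncomputable def cycS (i : ℕ) : Submodule R (Finset V → R) where
  carrier := {x | (∀ T, ¬ (Sph M T ∧ T.card = i) → x T = 0) ∧ ∀ T, bdS M c x T = 0}
  add_mem' := by
    rintro x y ⟨h1, h2⟩ ⟨h3, h4⟩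
    refine ⟨fun T hT => by rw [Pi.add_apply, h1 T hT, h3 T hT, add_zero], fun T => ?_⟩
    have : bdS M c (x + y) T = bdS M c x T + bdS M c y T := by
      unfold bdS
      rw [← Finset.sum_add_distrib]
      exact Finset.sum_congr rfl fun v _ => by rw [Pi.add_apply, add_mul, smul_add]
    rw [this, h2, h4, add_zero]
  zero_mem' := ⟨fun T _ => rfl, fun T => by simp [bdS]⟩
  smul_mem' := by
    rintro a x ⟨h1, h2⟩
    refine ⟨fun T hT => by rw [Pi.smul_apply, h1 T hT, smul_zero], fun T => ?_⟩
    have : bdS M c (a • x) T = a * bdS M c x T := by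
      unfold bdS
      rw [Finset.mul_sum]
      exact Finset.sum_congr rfl fun v _ => by rw [Pi.smul_apply, smul_eq_mul, mul_assoc, mul_smul_comm]
    rw [this, h2, mul_zero]

/-- the boundaries of the `(i + 1)`-chains -/
noncomputable def bouS (i : ℕ) : Submodule R (Finset V → R) where
  carrier := {x | ∃ y : Finset V → R, (∀ T, ¬ (Sph M T ∧ T.card = i + 1) → y T = 0) ∧ ∀ T, bdS M c y T = x T}
  add_mem' := by
    rintro x y ⟨x', h1, h2⟩ ⟨y', h3, h4⟩
    refine ⟨x' + y', fun T hT => by rw [Pi.add_apply, h1 T hT, h3 T hT, add_zero], fun T => ?_⟩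
    have : bdS M c (x' + y') T = bdS M c x' T + bdS M c y' T := by
      unfold bdS
      rw [← Finset.sum_add_distrib]
      exact Finset.sum_congr rfl fun v _ => by rw [Pi.add_apply, add_mul, smul_add]
    rw [this, h2, h4, Pi.add_apply]
  zero_mem' := ⟨0, fun T _ => rfl, fun T => by simp [bdS]⟩
  smul_mem' := by
    rintro a x ⟨x', h1, h2⟩
    refine ⟨a • x', fun T hT => by rw [Pi.smul_apply, h1 T hT, smul_zero], fun T => ?_⟩
    have : bdS M c (a • x') T = a * bdS M c x' T := by
      unfold bdS
      rw [Finset.mul_sum]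
      exact Finset.sum_congr rfl fun v _ => by rw [Pi.smul_apply, smul_eq_mul, mul_assoc, mul_smul_comm]
    rw [this, h2, Pi.smul_apply, smul_eq_mul]

/-- the `i`-th homology of the complex with coefficients in `R` -/
abbrev SalH (i : ℕ) : Type := (cycS M c i) ⧸ (bouS M c i).submoduleOf (cycS M c i)

end hom

/-- The `i`-th `L²`-Betti number of the universal cover of the Salvetti complex of the (locally reducible) Artin group
`ArtG M` is `b`: Lueck's dimension of the homology of its cellular chain complex with coefficients in the group von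
Neumann algebra `N` of `ArtG M`. -/
inductive HasL2BettiSal {V : Type} [Fintype V] [LinearOrder V] (M : CoxeterMatrix V) (i : ℕ) (b : ℝ≥0∞) : Prop
  | mk (N H : Type) [Ring N] [NormedAddCommGroup H] [InnerProductSpace ℂ H] [CompleteSpace H] (c : ArtG M →* N)
      (tr : N → ℝ) (e : ArtG M → H) (π : N →+* (H →L[ℂ] H)) (h : Pool.Agent.N496.CV.IsVN c tr e π)
      (hb : Pool.Agent.N496.CV.dimL tr (SalH M c i) = b) : HasL2BettiSal M i b

end Pool.Agent.H56T.LR
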