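import Pool.Agent.H56T.Stm4

/-!
# Units attached to the cells of the Salvetti complex (piece LUNI of project LR)
-/

set_option autoImplicit false
set_option linter.unusedSectionVars false

namespace Pool.Agent.H56T.LR

open Pool.Agent.W907.SG Finset

namespace LUNI

section ring

variable {R : Type} [Ring R]

/-- the alternating sum -/
def S (x y : R) (m : ℕ) : R := ∑ j ∈ Finset.range m, ((-1 : ℤ) ^ j) • alt x y j

theorem alt_two (x y : R) (j : ℕ) : alt x y (j + 2) = alt x y j * (y * x) := by
  change alt x y j * y * x = _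
  rw [mul_assoc]

theorem alt_even (x y : R) (k : ℕ) : alt x y (2 * k) = (y * x) ^ k := by
  induction k with
  | zero =>
    rw [mul_zero, pow_zero]
    rfl
  | succ k ih => rw [Nat.mul_succ, alt_two, ih, pow_succ]

theorem alt_odd (x y : R) (k : ℕ) : alt x y (2 * k + 1) = x * (y * x) ^ k := by
  induction k with
  | zero =>
    change alt y x 0 * x = _
    change 1 * x = _
    rw [pow_zero, one_mul, mul_one]
  | succ k ih =>
    rw [show 2 * (k + 1) + 1 = 2 * k + 1 + 2 by ring, alt_two, ih, pow_succ, mul_assoc]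

theorem smul_alt_mul (n : ℤ) (a b : R) : n • a * b = n • (a * b) := smul_mul_assoc n a b

theorem swap {x y : R} {m : ℕ} (h : alt x y m = alt y x m) :
    S x y m * (1 - y) = S y x m * (1 - x) := by
  have key : ∀ a b : R, S a b m * (1 - b) =
      S a b m + (S b a (m + 1) - 1) := by
    intro a b
    have h1 : S b a (m + 1) - 1 = - (S a b m * b) := by
      unfold S
      rw [Finset.sum_range_succ', pow_zero, one_smul, Finset.sum_mul, ← Finset.sum_neg_distrib]
      have h0 : alt b a 0 = 1 := rfl
      rw [h0, add_sub_cancel_right]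
      refine Finset.sum_congr rfl fun j _ => ?_
      rw [smul_mul_assoc, pow_succ, mul_neg_one, neg_smul]
      rfl
    rw [h1, mul_sub, mul_one]
    abel
  rw [key, key]
  have h2 : ∀ a b : R, S a b (m + 1) = S a b m + ((-1 : ℤ) ^ m) • alt a b m := by
    intro a b
    unfold S
    rw [Finset.sum_range_succ]
  rw [h2 y x, h2 x y, h]
  abel

theorem S_mul (x y : R) (m : ℕ) : S x y m * (1 - y * x) =
    1 - x - ((-1 : ℤ) ^ m) • (alt x y m - alt x y (m + 1)) := by
  induction m with
  | zero =>
    have h0 : alt x y 0 = 1 := rfl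
    have h1 : alt x y (0 + 1) = x := by
      change alt y x 0 * x = x
      change 1 * x = x
      rw [one_mul]
    rw [h0, h1]
    simp [S]
  | succ m ih =>
    have h1 : S x y (m + 1) = S x y m + ((-1 : ℤ) ^ m) • alt x y m := by
      unfold S
      rw [Finset.sum_range_succ]
    rw [h1, add_mul, ih, smul_mul_assoc, mul_sub, mul_one, ← alt_two, pow_succ, mul_neg_one,
      neg_smul]
    simp only [smul_sub]
    abel

theorem isUnit_of_mul {a b : R} (hb : IsUnit b) (hab : IsUnit (a * b)) : IsUnit a := by
  obtain ⟨u, hu⟩ := hb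
  obtain ⟨w, hw⟩ := hab
  have : a = w * u⁻¹ := by
    rw [hw, ← hu, Units.mul_inv_cancel_right]
  rw [this]
  exact w.isUnit.mul (Units.isUnit _)

theorem unit_S {x y : R} {m : ℕ} (hm : 1 ≤ m) (h : alt x y m = alt y x m) (hx : IsUnit (1 - x))
    (hyx : ∀ k, 1 ≤ k → IsUnit (1 - (y * x) ^ k)) (ha : IsUnit (1 - alt x y m))
    (ha2 : IsUnit (1 - alt x y m ^ 2)) : IsUnit (S x y m) := by
  have h1 : IsUnit (1 - y * x) := by simpa using hyx 1 le_rfl
  refine isUnit_of_mul h1 ?_
  rw [S_mul]
  rcases Nat.even_or_odd' m with ⟨k, hk | hk⟩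
  · rw [hk, alt_even, alt_odd]
    have h2 : (1 : R) - x - ((-1 : ℤ) ^ (2 * k)) • ((y * x) ^ k - x * (y * x) ^ k) =
        (1 - x) * (1 - (y * x) ^ k) := by
      rw [pow_mul, neg_one_sq, one_pow, one_smul]
      noncomm_ring
    rw [h2]
    exact hx.mul (hyx k (by omega))
  · have h2 : alt x y (m + 1) = alt x y m * x := by
      change alt y x m * x = _
      rw [h]
    have h3 : (-1 : ℤ) ^ m = -1 := by
      rw [hk, pow_succ, pow_mul, neg_one_sq, one_pow, one_mul]
    have h4 : (1 : R) - x - ((-1 : ℤ) ^ m) • (alt x y m - alt x y (m + 1)) =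
        (1 + alt x y m) * (1 - x) := by
      rw [h3, h2, neg_smul, one_smul]
      noncomm_ring
    rw [h4]
    refine IsUnit.mul (isUnit_of_mul ha ?_) hx
    have h5 : (1 + alt x y m) * (1 - alt x y m) = 1 - alt x y m ^ 2 := by
      noncomm_ring
    rw [h5]
    exact ha2

theorem commute_alt {x y z : R} (hx : Commute z x) (hy : Commute z y) :
    ∀ j : ℕ, Commute z (alt x y j) ∧ Commute z (alt y x j) := by
  intro j
  induction j with
  | zero => exact ⟨Commute.one_right z, Commute.one_right z⟩
  | succ j ih => exact ⟨ih.2.mul_right hx, ih.1.mul_right hy⟩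

theorem commute_S {x y z : R} (hx : Commute z x) (hy : Commute z y) (m : ℕ) :
    Commute z (S x y m) := by
  unfold S
  exact Commute.sum_right _ _ _ fun j _ => ((commute_alt hx hy j).1).smul_right _

end ring

theorem map_alt {A B : Type} [Monoid A] [Monoid B] (f : A →* B) (x y : A) :
    ∀ j : ℕ, f (alt x y j) = alt (f x) (f y) j ∧ f (alt y x j) = alt (f y) (f x) j := by
  intro j
  induction j with
  | zero => exact ⟨map_one f, map_one f⟩
  | succ j ih =>
    constructor
    · change f (alt y x j * x) = alt (f y) (f x) j * f x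
      rw [map_mul, ih.2]
    · change f (alt x y j * y) = alt (f x) (f y) j * f y
      rw [map_mul, ih.1]

theorem alt_const {A : Type} [Monoid A] (x : A) : ∀ j : ℕ, alt x x j = x ^ j := by
  intro j
  induction j with
  | zero => rw [pow_zero]; rfl
  | succ j ih =>
    change alt x x j * x = _
    rw [ih, pow_succ]

section group

variable {V : Type} (M : CoxeterMatrix V)

theorem rel (u v : V) : alt (sig M u) (sig M v) (M u v) = alt (sig M v) (sig M u) (M u v) := by
  have h1 : PresentedGroup.mk (artRel M) (alt (FreeGroup.of u) (FreeGroup.of v) (M u v) *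
      (alt (FreeGroup.of v) (FreeGroup.of u) (M u v))⁻¹) = 1 := by
    apply PresentedGroup.one_of_mem
    exact ⟨u, v, rfl⟩
  rw [map_mul, map_inv, mul_inv_eq_one] at h1
  rw [(map_alt (PresentedGroup.mk (artRel M)) (FreeGroup.of u) (FreeGroup.of v) (M u v)).1,
    (map_alt (PresentedGroup.mk (artRel M)) (FreeGroup.of u) (FreeGroup.of v) (M u v)).2] at h1
  exact h1

/-- the length -/
theorem exists_deg : ∃ d : ArtG M →* Multiplicative ℤ, ∀ v, d (sig M v) = Multiplicative.ofAdd 1 := by
  have h : ∀ r ∈ artRel M, FreeGroup.lift (fun _ : V => Multiplicative.ofAdd (1 : ℤ)) r = 1 := by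
    rintro r ⟨u, v, rfl⟩
    rw [map_mul, map_inv, mul_inv_eq_one,
      (map_alt (FreeGroup.lift (fun _ : V => Multiplicative.ofAdd (1 : ℤ))) _ _ _).1,
      (map_alt (FreeGroup.lift (fun _ : V => Multiplicative.ofAdd (1 : ℤ))) _ _ _).2]
    simp
  exact ⟨PresentedGroup.toGroup h, fun v => PresentedGroup.toGroup.of h⟩

theorem deg_alt {d : ArtG M →* Multiplicative ℤ} (hd : ∀ v, d (sig M v) = Multiplicative.ofAdd 1)
    (u v : V) (j : ℕ) : d (alt (sig M u) (sig M v) j) = Multiplicative.ofAdd (j : ℤ) := by
  rw [(map_alt d _ _ j).1, hd, hd, alt_const, ← ofAdd_nsmul]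
  simp

end group

section cells

variable {V : Type} [LinearOrder V] (M : CoxeterMatrix V) {R : Type} [Ring R] (c : ArtG M →* R)

/-- the image of `bet` -/
noncomputable def B (T : Finset V) (t : V) : R := V7N.evM c (bet M T t)

theorem evM_single (g : ArtG M) (n : ℤ) :
    V7N.evM c (MonoidAlgebra.single g n) = n • c g := by
  unfold V7N.evM
  change MonoidAlgebra.lift ℤ R (ArtG M) c (MonoidAlgebra.single g n) = _
  rw [MonoidAlgebra.lift_single]

theorem evM_sum (t p : V) : V7N.evM c (∑ j ∈ Finset.range (M t p),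
    ((-1 : ℤ) ^ j) • MonoidAlgebra.single (alt (sig M t) (sig M p) j) (1 : ℤ)) =
    S (c (sig M t)) (c (sig M p)) (M t p) := by
  unfold S
  rw [map_sum]
  refine Finset.sum_congr rfl fun j _ => ?_
  rw [map_zsmul, evM_single, one_smul, (map_alt c _ _ j).1]

theorem B_partner {T : Finset V} {t p : V} (hS : Sph M T) (ht : t ∈ T) (hp : p ∈ T)
    (h3 : 3 ≤ M t p) : B M c T t = S (c (sig M t)) (c (sig M p)) (M t p) := by
  classical
  unfold B bet
  have h1 : T.filter (fun p => 3 ≤ M t p) = {p} := by
    ext q
    rw [Finset.mem_filter, Finset.mem_singleton]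
    constructor
    · rintro ⟨hq, hq3⟩
      exact hS.2 t ht q hq p hp hq3 h3
    · rintro rfl
      exact ⟨hp, h3⟩
  rw [map_add, if_pos ⟨p, hp, h3⟩, map_zero, add_zero]
  have h2 : ∀ (inst : DecidablePred fun p => 3 ≤ M t p),
      @Finset.filter V (fun p => 3 ≤ M t p) inst T = {p} := by
    intro inst
    rw [← h1]
    congr
  rw [h2, Finset.sum_singleton, evM_sum]

theorem B_alone {T : Finset V} {t : V} (h : ¬ ∃ p ∈ T, 3 ≤ M t p) :
    B M c T t = 1 - c (sig M t) := by
  classical
  unfold B bet
  have h2 : ∀ (inst : DecidablePred fun p => 3 ≤ M t p),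
      @Finset.filter V (fun p => 3 ≤ M t p) inst T = ∅ := by
    intro inst
    rw [Finset.filter_eq_empty_iff]
    intro p hp h3
    exact h ⟨p, hp, h3⟩
  rw [if_neg h, h2, Finset.sum_empty, zero_add, map_sub, map_one, evM_single, one_smul]

/-- the product -/
noncomputable def al : ℕ → Finset V → R
  | 0, _ => 1
  | n + 1, T => if h : T.Nonempty then B M c T (T.max' h) * al n (T.erase (T.max' h)) else 1

/-- the product of all the elements -/
noncomputable def alp (T : Finset V) : R := al M c T.card T

theorem alp_max {T : Finset V} (h : T.Nonempty) :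
    alp M c T = B M c T (T.max' h) * alp M c (T.erase (T.max' h)) := by
  unfold alp
  have h1 : T.card = (T.erase (T.max' h)).card + 1 := by
    rw [Finset.card_erase_of_mem (T.max'_mem h)]
    have := Finset.card_pos.mpr h
    omega
  rw [h1]
  change (if h : T.Nonempty then B M c T (T.max' h) * al M c (T.erase (T.max' _)).card
    (T.erase (T.max' h)) else 1) = _
  rw [dif_pos h]

theorem alp_empty : alp M c ∅ = 1 := rfl

theorem Sph.mono {T T' : Finset V} (h : T' ⊆ T) (hS : Sph M T) : Sph M T' :=
  ⟨fun u hu v hv => hS.1 u (h hu) v (h hv),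
    fun u hu v hv w hw => hS.2 u (h hu) v (h hv) w (h hw)⟩

theorem commute_of_two {u v : V} (h : M u v = 2) : Commute (c (sig M u)) (c (sig M v)) := by
  have h1 := rel M u v
  rw [h] at h1
  have h2 : sig M v * sig M u = sig M u * sig M v := by
    have e : ∀ x y : ArtG M, alt x y 2 = y * x := by
      intro x y
      change 1 * y * x = _
      rw [one_mul]
    rw [e, e] at h1
    exact h1
  change c (sig M u) * c (sig M v) = c (sig M v) * c (sig M u)
  rw [← map_mul, ← map_mul, h2]

/-- the elements of a cell commute if they are not partners -/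
theorem two_of_not {T : Finset V} (hS : Sph M T) {u v : V} (hu : u ∈ T) (hv : v ∈ T) (hne : u ≠ v)
    (h : ¬ 3 ≤ M u v) : M u v = 2 := by
  have h1 := hS.1 u hu v hv
  have h2 := M.off_diagonal u v hne
  omega

theorem B_comm {T : Finset V} (hS : Sph M T) {t v : V} (ht : t ∈ T) (hv : v ∈ T) (hne : t ≠ v)
    (h : ¬ 3 ≤ M t v) : Commute (B M c T t) (B M c T v) := by
  have htv := commute_of_two M c (two_of_not M hS ht hv hne h)
  have h' : ¬ 3 ≤ M v t := by rwa [M.symmetric v t]
  -- `v` commutes with `B t`
  have hgen : ∀ {t v : V}, t ∈ T → v ∈ T → t ≠ v → ¬ 3 ≤ M t v → Commute (c (sig M v)) (B M c T t) := by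
    intro t v ht hv hne h
    by_cases hp : ∃ p ∈ T, 3 ≤ M t p
    · obtain ⟨p, hp, h3⟩ := hp
      rw [B_partner M c hS ht hp h3]
      apply commute_S
      · exact (commute_of_two M c (two_of_not M hS ht hv hne h)).symm
      · have hvp : v ≠ p := by
          rintro rfl
          exact h h3
        have h4 : ¬ 3 ≤ M v p := by
          intro h4
          have h5 : 3 ≤ M p v := by rwa [M.symmetric p v]
          have h6 : 3 ≤ M p t := by rwa [M.symmetric p t]
          exact hne (hS.2 p hp t ht v hv h6 h5)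
        exact commute_of_two M c (two_of_not M hS hv hp hvp h4)
    · rw [B_alone M c hp]
      exact (Commute.one_right _).sub_right (commute_of_two M c (two_of_not M hS ht hv hne h)).symm
  by_cases hp : ∃ p ∈ T, 3 ≤ M t p
  · obtain ⟨p, hp, h3⟩ := hp
    rw [B_partner M c hS ht hp h3]
    have hpt : p ≠ t := by
      rintro rfl
      rw [M.diagonal] at h3
      omega
    have hpv : p ≠ v := by
      rintro rfl
      exact h h3
    have h4 : ¬ 3 ≤ M v p := by
      intro h4
      have h5 : 3 ≤ M p v := by rwa [M.symmetric p v]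
      have h6 : 3 ≤ M p t := by rwa [M.symmetric p t]
      exact hne (hS.2 p hp t ht v hv h6 h5)
    exact (commute_S (hgen hv ht hne.symm h').symm (hgen hv hp hpv.symm h4).symm _).symm
  · rw [B_alone M c hp]
    exact ((Commute.one_right _).sub_right (hgen hv ht hne.symm h').symm).symm

theorem B_erase {T : Finset V} {t v : V} (hS : Sph M T) (ht : t ∈ T) (hne : t ≠ v)
    (h : ¬ 3 ≤ M t v) : B M c (T.erase v) t = B M c T t := by
  by_cases hp : ∃ p ∈ T, 3 ≤ M t p
  · obtain ⟨p, hp, h3⟩ := hp
    have hpv : p ≠ v := by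
      rintro rfl
      exact h h3
    rw [B_partner M c hS ht hp h3, B_partner M c (Sph.mono M (Finset.erase_subset v T) hS)
      (Finset.mem_erase.mpr ⟨hne, ht⟩) (Finset.mem_erase.mpr ⟨hpv, hp⟩) h3]
  · have hp' : ¬ ∃ p ∈ T.erase v, 3 ≤ M t p := by
      rintro ⟨p, hp1, hp2⟩
      exact hp ⟨p, Finset.mem_of_mem_erase hp1, hp2⟩
    rw [B_alone M c hp, B_alone M c hp']

theorem B_erase_partner {T : Finset V} {t v : V} (hS : Sph M T) (ht : t ∈ T) (hv : v ∈ T)
    (h : 3 ≤ M t v) : B M c (T.erase v) t = 1 - c (sig M t) := by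
  apply B_alone
  rintro ⟨p, hp1, hp2⟩
  exact (Finset.ne_of_mem_erase hp1) (hS.2 t ht p (Finset.mem_of_mem_erase hp1) v hv hp2 h)

theorem B_square {T : Finset V} (hS : Sph M T) {t v : V} (ht : t ∈ T) (hv : v ∈ T) (hne : t ≠ v) :
    B M c T t * B M c (T.erase t) v = B M c T v * B M c (T.erase v) t := by
  by_cases h : 3 ≤ M t v
  · have h' : 3 ≤ M v t := by rwa [M.symmetric v t]
    rw [B_partner M c hS ht hv h, B_partner M c hS hv ht h', B_erase_partner M c hS ht hv h,
      B_erase_partner M c hS hv ht h', M.symmetric v t]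
    apply swap
    have h1 := congrArg c (rel M t v)
    rw [(map_alt c _ _ _).1, (map_alt c _ _ _).2] at h1
    exact h1
  · have h' : ¬ 3 ≤ M v t := by rwa [M.symmetric v t]
    rw [B_erase M c hS ht hne h, B_erase M c hS hv hne.symm h']
    exact B_comm M c hS ht hv hne h

theorem alp_erase : ∀ (n : ℕ) (T : Finset V), T.card = n → Sph M T → ∀ t ∈ T,
    B M c T t * alp M c (T.erase t) = alp M c T := by
  intro n
  induction n with
  | zero =>
    intro T hT _ t ht
    rw [Finset.card_eq_zero] at hT
    rw [hT] at ht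
    exact absurd ht (Finset.notMem_empty t)
  | succ n ih =>
    intro T hT hS t ht
    have hne : T.Nonempty := ⟨t, ht⟩
    obtain ⟨v, hv⟩ : ∃ v, v = T.max' hne := ⟨_, rfl⟩
    have hvT : v ∈ T := by rw [hv]; exact T.max'_mem hne
    by_cases htv : t = v
    · rw [htv, hv, ← alp_max M c hne]
    · have hvT' : v ∈ T.erase t := Finset.mem_erase.mpr ⟨fun h => htv h.symm, hvT⟩
      have htT' : t ∈ T.erase v := Finset.mem_erase.mpr ⟨htv, ht⟩
      have hne' : (T.erase t).Nonempty := ⟨v, hvT'⟩
      have hmax : (T.erase t).max' hne' = v := by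
        apply le_antisymm
        · rw [hv]
          exact Finset.max'_subset hne' (Finset.erase_subset t T)
        · exact Finset.le_max' _ _ hvT'
      have h1 := alp_max M c hne'
      rw [hmax] at h1
      have h2 := alp_max M c hne
      rw [← hv] at h2
      have h3 := ih (T.erase v) (by rw [Finset.card_erase_of_mem hvT]; omega)
        (Sph.mono M (Finset.erase_subset v T) hS) t htT'
      rw [h1, h2, ← h3, Finset.erase_right_comm, ← mul_assoc, ← mul_assoc,
        B_square M c hS ht hvT htv]

end cells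

end LUNI

open LUNI in
theorem t_LUNI : S_LUNI := by
  intro V _ _ M R _ c hc
  obtain ⟨d, hd⟩ := exists_deg M
  have hunit : ∀ g : ArtG M, d g ≠ 1 → IsUnit (1 - c g) := fun g hg => hc g ⟨d, hg⟩
  have hofAdd : ∀ n : ℕ, n ≠ 0 → Multiplicative.ofAdd (n : ℤ) ≠ 1 := by
    intro n hn h
    have h1 : ((n : ℕ) : ℤ) = 0 := by
      have := congrArg Multiplicative.toAdd h
      simpa using this
    exact hn (by exact_mod_cast h1)
  have hB : ∀ T : Finset V, Sph M T → ∀ t ∈ T, IsUnit (B M c T t) := by
    intro T hS t ht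
    have h1 : IsUnit (1 - c (sig M t)) := by
      apply hunit
      rw [hd]
      exact hofAdd 1 one_ne_zero
    by_cases hp : ∃ p ∈ T, 3 ≤ M t p
    · obtain ⟨p, hp, h3⟩ := hp
      rw [B_partner M c hS ht hp h3]
      have hr := congrArg c (rel M t p)
      rw [(map_alt c _ _ _).1, (map_alt c _ _ _).2] at hr
      apply unit_S (by omega) hr h1
      · intro k hk
        rw [← map_mul, ← map_pow]
        apply hunit
        rw [map_pow, map_mul, hd, hd, ← ofAdd_add, ← ofAdd_nsmul]
        have h4 : k • ((1 : ℤ) + 1) = ((2 * k : ℕ) : ℤ) := by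
          rw [nsmul_eq_mul]
          push_cast
          ring
        rw [h4]
        exact hofAdd _ (by omega)
      · rw [← (map_alt c _ _ _).1]
        apply hunit
        rw [deg_alt M hd]
        exact hofAdd _ (by omega)
      · rw [← (map_alt c _ _ _).1, ← map_pow]
        apply hunit
        rw [map_pow, deg_alt M hd, ← ofAdd_nsmul]
        have h4 : (2 : ℕ) • ((M t p : ℕ) : ℤ) = ((2 * M t p : ℕ) : ℤ) := by
          rw [nsmul_eq_mul]
          push_cast
          rfl
        rw [h4]
        exact hofAdd _ (by omega)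
    · rw [B_alone M c hp]
      exact h1
  refine ⟨alp M c, ?_, ?_⟩
  · have key : ∀ (n : ℕ) (T : Finset V), T.card = n → Sph M T → IsUnit (alp M c T) := by
      intro n
      induction n with
      | zero =>
        intro T hT _
        rw [Finset.card_eq_zero] at hT
        rw [hT, alp_empty]
        exact isUnit_one
      | succ n ih =>
        intro T hT hS
        have hne : T.Nonempty := by
          rw [← Finset.card_pos]
          omega
        rw [alp_max M c hne]
        refine (hB T hS _ (T.max'_mem hne)).mul (ih _ ?_ (Sph.mono M (Finset.erase_subset _ T) hS))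
        rw [Finset.card_erase_of_mem (T.max'_mem hne)]
        omega
    exact fun T hS => key _ T rfl hS
  · intro T v hv hS
    have h1 := alp_erase M c _ (insert v T) rfl hS v (Finset.mem_insert_self v T)
    rw [Finset.erase_insert hv] at h1
    exact h1

end Pool.Agent.H56T.LR
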