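import Pool.Agent.H56T.LRAsm
import Pool.Agent.H56T.LCOM
import Pool.Agent.H56T.TITS
import Pool.Agent.H56T.LHOM
import Pool.Agent.H56T.LSUB
import Pool.Agent.H56T.LRAT
import Pool.Agent.H56T.LUNI

/-!
# `L²`-Betti numbers above half the dimension, for locally reducible Artin groups

Let `M` be a Coxeter matrix such that all irreducible spherical parabolic subgroups have rank at most two (locally
reducible; this includes the right-angled, the even, the large type and the two-dimensional Artin groups). By Charney the
Salvetti complex is then an aspherical space with the fundamental group `ArtG M`, so the `L²`-Betti numbers of its
universal cover are the `L²`-Betti numbers of the Artin group. We show: if a finite index subgroup of the Artin group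
acts properly on a contractible `n`-manifold then they vanish in the degrees `i > n / 2`.

Ideas of the proof. (1) The squares of the generators and the central elements `(s t)^m` of the dihedral parabolic
subgroups are the vertices of a flag complex `L'`, adjacent if they commute for the obvious reason; `L'` is a
subdivision of the nerve `L` (the complex of the standard abelian subgroups of Davis and Huang). The cocycle of the
Tits representation which counts the reflecting hyperplanes gives homomorphisms of a finite index subgroup to `ℤ` which
are dual to these elements. So the octahedralization of `L'` can be used to obstruct actions, as for right-angled Artin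
groups. (2) The mod 2 van Kampen obstruction of this octahedralization is not zero if `L'` has homology over `F_2` in
the degree `i - 1` (`Phi.lean`, `Ev2.lean`); so `L` has no rational homology in the degree `i - 1`. (3) Over the ring of
fractions of the group von Neumann algebra the chain complex of the Salvetti complex is isomorphic to the augmented
chain complex of `L`: the coefficients of the boundary operator are quotients of units (`LUNI.lean`).
-/

set_option autoImplicit false

namespace Pool.Agent.H56T.LocRed

open Pool.Agent.H56T Pool.Agent.H56T.LR

/-- Let `M` be a Coxeter matrix on a finite set, and let a finite index subgroup `H` of the Artin group `ArtG M` act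
properly on a contractible space `X` such that `X × ℝ^k` can be mapped continuously and injectively to `ℝ^n × ℝ^k` for
some `k` (for example on a contractible `n`-manifold with or without boundary). Then for `i > n / 2` the complex of the
products of cyclic and dihedral parabolic subgroups (the Salvetti complex if `M` is locally reducible) has the `i`-th
`L²`-Betti number zero. -/
theorem locally_reducible : ∀ (V : Type) [Fintype V] [LinearOrder V] (M : CoxeterMatrix V)
    (n : ℕ) (X : Type) [TopologicalSpace X] [ContractibleSpace X], StInj n X →
    ∀ (H : Subgroup (ArtG M)) [MulAction H X], H.FiniteIndex → PropAct H X →
    ∀ i : ℕ, n < 2 * i → HasL2BettiSal M i 0 :=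
  fun _ _ _ M _ _ _ _ hX H _ hH hP _ hi => ASM.lr M t_LCOM t_TITS t_LHOM t_LSUB t_LRAT t_LUNI hX H hH hP hi

end Pool.Agent.H56T.LocRed
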