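import Pool.Agent.H56T.Ev2
import Pool.Agent.R782.Bal.Emb

/-!
# Vanishing of the obstruction for the octahedralization implies exactness over `F_2`
-/

set_option autoImplicit false
set_option linter.unusedSectionVars false

namespace Pool.Agent.H56T

open Finset Pool.Agent.W555.KS Pool.Agent.Y131.KS Pool.Agent.R782.Bal

section OE

variable {V : Type} [Fintype V] [DecidableEq V] {G : SimpleGraph V}

theorem exists_adjc (V : Type) [Fintype V] : ∃ (n : ℕ) (f : (V × Bool) ≃ Fin n) (q : V → ℕ), Adjc f.symm q := by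
  classical
  let e0 := Fintype.equivFin V
  refine ⟨Fintype.card V * 2, (Equiv.prodCongr e0 finTwoEquiv.symm).trans finProdFinEquiv,
    fun v => (e0 v : ℕ), ?_, ?_⟩
  · intro a b hab
    exact e0.injective (Fin.ext hab)
  · intro a b
    set f : (V × Bool) ≃ Fin (Fintype.card V * 2) :=
      (Equiv.prodCongr e0 finTwoEquiv.symm).trans finProdFinEquiv with hf
    have hval : ∀ x : V × Bool, ((f x : Fin _) : ℕ) = (if x.2 = true then 1 else 0) + 2 * (e0 x.1 : ℕ) := by
      rintro ⟨v, b⟩
      rw [hf]
      cases b <;> simp [finProdFinEquiv, finTwoEquiv]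
    obtain ⟨x, rfl⟩ := f.surjective a
    obtain ⟨y, rfl⟩ := f.surjective b
    rw [f.symm_apply_apply, f.symm_apply_apply, Fin.lt_def, hval, hval]
    constructor
    · intro h
      rcases lt_trichotomy (e0 x.1 : ℕ) (e0 y.1 : ℕ) with h1 | h1 | h1
      · exact Or.inl h1
      · right
        refine ⟨e0.injective (Fin.ext h1), ?_⟩
        rw [h1] at h
        cases hx : x.2 <;> cases hy : y.2 <;> simp [hx, hy] at h ⊢
      · exfalso
        split_ifs at h <;> omega
    · rintro (h | ⟨h1, h2, h3⟩)
      · replace h : (e0 x.1 : ℕ) < (e0 y.1 : ℕ) := h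
        split_ifs <;> omega
      · rw [h1, h2, h3]
        simp

/-- **Theorem.** If the obstruction of the octahedralization vanishes in degree `D` then the flag complex is exact over
`F_2` in the degrees `i ≥ D / 2`. -/
theorem exa_of_obs {D : ℕ} (h : Obs (dbl G) D) : ∀ i, D ≤ 2 * i → Exa G i := by
  obtain ⟨n, f, q, hq⟩ := exists_adjc V
  have hV : VK2 (clF (dbl G) f) D := fun Z => h n f (ZMod 2) Z
  suffices hs : ∀ k i : ℕ, Fintype.card V < i + k → D ≤ 2 * i → Exa G i from
    fun i hi => hs (Fintype.card V + 1) i (by omega) hi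
  intro k
  induction k with
  | zero =>
    intro i hi _ z hz _
    refine ⟨fun _ => 0, fun _ _ => rfl, ?_⟩
    funext T
    rw [hz T]
    · simp [bb]
    · rintro ⟨_, hT⟩
      have := card_le_univ T
      omega
  | succ k ih =>
    intro i hi hD
    have hE : ∀ j, i < j → Exa G j := fun j hj => ih j (by omega) (by omega)
    intro z hz hb
    by_contra hn
    obtain ⟨φ, hφ0, hφ, hφ1⟩ := exists_phi hz hn hE
    have h1 := vk2_le (clF_cx (dbl G) f) hD hV (Z0 f.symm G z φ) (Z0_symm hφ) (by
      intro σ τ hst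
      have h2 : CQ f.symm G σ ∧ CQ f.symm G τ ∧ Disjoint σ τ := by
        by_contra h3
        apply hst
        unfold Z0
        rw [if_neg h3]
      exact ⟨mem_clF'.2 h2.1, mem_clF'.2 h2.2.1⟩) (fun ρ τ hd _ => Z0_cyc hz hb hφ ρ τ hd)
    rw [ev_Z0 hq hz hφ0, hφ1] at h1
    exact one_ne_zero h1

end OE

end Pool.Agent.H56T
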