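import Pool.Agent.H56T.Stm

/-!
# Functions on the cliques which are invariant under the zeta transform (characteristic 2)
-/

set_option autoImplicit false
set_option linter.unusedSectionVars false

namespace Pool.Agent.H56T

open Finset

section Phi

variable {V : Type} [Fintype V] [DecidableEq V]

/-- chains: functions on the cliques with `i` elements -/
def Ch (G : SimpleGraph V) (i : ℕ) (x : Finset V → ZMod 2) : Prop :=
  ∀ T : Finset V, ¬ (G.IsClique (T : Set V) ∧ T.card = i) → x T = 0

/-- boundary -/
def bb (x : Finset V → ZMod 2) (T : Finset V) : ZMod 2 := ∑ v ∈ Tᶜ, x (insert v T)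

/-- exactness in degree `i` (reduced homology in degree `i - 1`) -/
def Exa (G : SimpleGraph V) (i : ℕ) : Prop :=
  ∀ z : Finset V → ZMod 2, Ch G i z → bb z = 0 → ∃ y : Finset V → ZMod 2, Ch G (i + 1) y ∧ bb y = z

/-- sum over the proper supersets -/
def Ns (c : Finset V → ZMod 2) (S : Finset V) : ZMod 2 := ∑ A ∈ univ.filter (fun A => S ⊂ A), c A

theorem z2 (a : ZMod 2) : a + a = 0 := CharTwo.add_self_eq_zero a

theorem Ns_Ns (c : Finset V → ZMod 2) : Ns (Ns c) = 0 := by
  funext R
  simp only [Ns, Pi.zero_apply]
  rw [Finset.sum_sigma']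
  rw [← Finset.sum_fiberwise_of_maps_to (s := (univ.filter (fun A => R ⊂ A)).sigma fun S =>
    univ.filter (fun A => S ⊂ A)) (t := univ.filter (fun A => R ⊂ A)) (g := fun p => p.2) (by
      rintro ⟨S, A⟩ h
      simp only [mem_sigma, mem_filter, mem_univ, true_and] at h ⊢
      exact h.1.trans h.2)]
  refine sum_eq_zero fun A hA => ?_
  rw [mem_filter] at hA
  rw [sum_congr rfl (g := fun _ => c A) (fun p hp => by rw [(mem_filter.mp hp).2])]
  rw [sum_const]
  have h1 : (((univ.filter (fun A => R ⊂ A)).sigma fun S => univ.filter (fun A => S ⊂ A)).filter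
      (fun p => p.2 = A)).card = (Ioo R A).card := by
    refine card_nbij' (fun p => p.1) (fun S => ⟨S, A⟩) ?_ ?_ ?_ ?_
    · rintro ⟨S, A'⟩ h
      simp only [coe_filter, mem_sigma, mem_filter, mem_univ, true_and, Set.mem_ofPred_eq] at h
      obtain ⟨⟨h1, h2⟩, rfl⟩ := h
      simp only [coe_Ioo, Set.mem_Ioo]
      exact ⟨h1, h2⟩
    · intro S h
      simp only [coe_Ioo, Set.mem_Ioo] at h
      simp only [coe_filter, mem_sigma, mem_filter, mem_univ, true_and, Set.mem_ofPred_eq]
      exact ⟨h, trivial⟩
    · rintro ⟨S, A'⟩ h
      simp only [coe_filter, mem_sigma, mem_filter, mem_univ, true_and, Set.mem_ofPred_eq] at h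
      obtain ⟨_, rfl⟩ := h
      rfl
    · intro S _
      rfl
  rw [h1, card_Ioo_finset hA.2.subset]
  have h2 := card_lt_card hA.2
  have h3 : ∃ m, 2 ^ (A.card - R.card) - 2 = 2 * m := by
    obtain ⟨k, hk⟩ : ∃ k, A.card - R.card = k + 1 := ⟨A.card - R.card - 1, by omega⟩
    refine ⟨2 ^ k - 1, ?_⟩
    rw [hk, pow_succ]
    omega
  obtain ⟨m, hm⟩ := h3
  rw [hm, mul_comm, mul_smul, two_smul, z2, smul_zero]

theorem sum_card_succ (c : Finset V → ZMod 2) (S : Finset V) :
    ∑ A ∈ univ.filter (fun A => S ⊂ A ∧ A.card = S.card + 1), c A = bb c S := by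
  unfold bb
  refine (sum_nbij (fun v => insert v S) ?_ ?_ ?_ ?_).symm
  · intro v hv
    rw [mem_compl] at hv
    rw [mem_filter]
    exact ⟨mem_univ _, ssubset_insert hv, card_insert_of_notMem hv⟩
  · intro a ha b hb hab
    simp only [coe_compl, Set.mem_compl_iff, mem_coe] at ha hb
    have h1 : a ∈ insert b S := by
      rw [← show insert a S = insert b S from hab]; exact mem_insert_self _ _
    rcases mem_insert.mp h1 with h | h
    · exact h
    · exact absurd h ha
  · intro A hA
    simp only [coe_filter, mem_univ, true_and, Set.mem_ofPred_eq] at hA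
    obtain ⟨h1, h2⟩ := hA
    obtain ⟨v, hv, hvS⟩ := exists_of_ssubset h1
    refine ⟨v, by simpa using hvS, ?_⟩
    refine eq_of_subset_of_card_le (insert_subset hv h1.subset) ?_
    rw [card_insert_of_notMem hvS, h2]
  · intro v _
    rfl

/-- if `c` vanishes above the cardinality `|S| + 1` then `Ns c S` is the boundary -/
theorem Ns_top {c : Finset V → ZMod 2} {S : Finset V} (h : ∀ A : Finset V, S.card + 1 < A.card → c A = 0) :
    Ns c S = bb c S := by
  rw [← sum_card_succ, Ns]
  refine (sum_subset ?_ ?_).symm
  · intro A hA
    simp only [mem_filter, mem_univ, true_and] at hA ⊢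
    exact hA.1
  · intro A hA hA'
    simp only [mem_filter, mem_univ, true_and] at hA hA'
    refine h A ?_
    have := card_lt_card hA
    by_contra h'
    exact hA' ⟨hA, by omega⟩

theorem Ns_add (c d : Finset V → ZMod 2) (S : Finset V) : Ns (fun A => c A + d A) S = Ns c S + Ns d S := by
  unfold Ns
  exact sum_add_distrib

/-- descending induction -/
theorem desc {G : SimpleGraph V} {i : ℕ} {z : Finset V → ZMod 2} (hE : ∀ j, i < j → Exa G j) (m : ℕ) :
    ∀ c : Finset V → ZMod 2, (∀ A : Finset V, c A ≠ 0 → G.IsClique (A : Set V) ∧ A.card ≤ i + 1 + m) →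
      (∀ S : Finset V, i < S.card → Ns c S = 0) → (∀ S : Finset V, S.card = i → Ns c S = z S) →
      ∃ y : Finset V → ZMod 2, Ch G (i + 1) y ∧ ∀ S : Finset V, S.card = i → bb y S = z S := by
  induction m with
  | zero =>
    intro c h1 _ h3
    refine ⟨fun A => if A.card = i + 1 then c A else 0, ?_, ?_⟩
    · intro T hT
      beta_reduce
      by_cases hc : T.card = i + 1
      · rw [if_pos hc]
        by_contra h
        exact hT ⟨(h1 T h).1, hc⟩
      · rw [if_neg hc]
    · intro S hS
      rw [← h3 S hS, Ns_top]
      · unfold bb
        refine sum_congr rfl fun v hv => ?_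
        rw [mem_compl] at hv
        beta_reduce
        rw [if_pos (by rw [card_insert_of_notMem hv, hS])]
      · intro A hA
        by_contra h
        have := (h1 A h).2
        omega
  | succ m ih =>
    intro c h1 h2 h3
    set M := i + 1 + (m + 1) with hM
    set ct : Finset V → ZMod 2 := fun A => if A.card = M then c A else 0 with hct
    have hctC : Ch G M ct := by
      intro T hT
      rw [hct]
      by_cases hc : T.card = M
      · simp only [if_pos hc]
        by_contra h
        exact hT ⟨(h1 T h).1, hc⟩
      · simp only [if_neg hc]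
    have hctB : bb ct = 0 := by
      funext S
      by_cases hS : S.card + 1 = M
      · rw [Pi.zero_apply, ← h2 S (by omega), Ns_top (c := c)]
        · unfold bb
          refine sum_congr rfl fun v hv => ?_
          rw [mem_compl] at hv
          rw [hct]
          simp only
          rw [if_pos (by rw [card_insert_of_notMem hv, hS])]
        · intro A hA
          by_contra h
          have := (h1 A h).2
          omega
      · unfold bb
        refine sum_eq_zero fun v hv => ?_
        rw [mem_compl] at hv
        rw [hct]
        simp only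
        rw [if_neg (by rw [card_insert_of_notMem hv]; exact hS)]
    obtain ⟨b, hb1, hb2⟩ := hE M (by omega) ct hctC hctB
    refine ih (fun A => c A + Ns b A) ?_ ?_ ?_
    · intro A hA
      have hcl : G.IsClique (A : Set V) := by
        by_contra hn
        apply hA
        have e1 : c A = 0 := by
          by_contra h
          exact hn (h1 A h).1
        rw [e1, zero_add]
        unfold Ns
        refine sum_eq_zero fun B hB => ?_
        rw [mem_filter] at hB
        refine hb1 B fun h => hn ?_
        exact h.1.subset (by exact_mod_cast hB.2.subset)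
      refine ⟨hcl, ?_⟩
      by_contra hcard
      apply hA
      by_cases hAM : A.card = M
      · have h4 : Ns b A = bb b A := by
          refine Ns_top fun B hB => hb1 B fun h => ?_
          have := h.2
          omega
        rw [h4, hb2, hct]
        simp only [if_pos hAM]
        exact z2 _
      · have e1 : c A = 0 := by
          by_contra h
          have := (h1 A h).2
          omega
        rw [e1, zero_add]
        unfold Ns
        refine sum_eq_zero fun B hB => ?_
        rw [mem_filter] at hB
        refine hb1 B fun h => ?_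
        have h5 := card_lt_card hB.2
        have h6 := h.2
        omega
    · intro S hS
      rw [Ns_add, Ns_Ns, h2 S hS]
      simp
    · intro S hS
      rw [Ns_add, Ns_Ns, h3 S hS]
      simp

open Classical in
/-- a function invariant under the zeta transform which detects the cycle `z` -/
theorem exists_phi {G : SimpleGraph V} {i : ℕ} {z : Finset V → ZMod 2} (hz : Ch G i z)
    (hn : ¬ ∃ y : Finset V → ZMod 2, Ch G (i + 1) y ∧ bb y = z) (hE : ∀ j, i < j → Exa G j) :
    ∃ φ : Finset V → ZMod 2, (∀ S : Finset V, S.card < i → φ S = 0) ∧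
      (∀ A : Finset V, G.IsClique (A : Set V) → ∑ S ∈ A.powerset, φ S = φ A) ∧ ∑ S, z S * φ S = 1 := by
  let L : ((Finset V → ZMod 2) × (Finset V → ZMod 2)) →ₗ[ZMod 2] (Finset V → ZMod 2) :=
    { toFun := fun p S => (if S.card < i then p.1 S else 0) +
        ∑ A ∈ univ.filter (fun A : Finset V => G.IsClique (A : Set V) ∧ S ⊂ A), p.2 A
      map_add' := by
        intro p q
        funext S
        simp only [Prod.fst_add, Prod.snd_add, Pi.add_apply, sum_add_distrib]
        split_ifs <;> ring
      map_smul' := by
        intro a p
        funext S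
        simp only [Prod.smul_fst, Prod.smul_snd, Pi.smul_apply, smul_eq_mul, RingHom.id_apply, mul_add, mul_sum]
        split_ifs <;> simp }
  have hL : ∀ p S, L p S = (if S.card < i then p.1 S else 0) +
        ∑ A ∈ univ.filter (fun A : Finset V => G.IsClique (A : Set V) ∧ S ⊂ A), p.2 A := fun _ _ => rfl
  have hzL : z ∉ LinearMap.range L := by
    rintro ⟨⟨a, c⟩, hac⟩
    apply hn
    have hN : ∀ S : Finset V, i ≤ S.card →
        Ns (fun A => if G.IsClique (A : Set V) then c A else 0) S = z S := by
      intro S hS
      rw [← hac, hL]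
      simp only
      rw [if_neg (by omega), zero_add]
      unfold Ns
      rw [← sum_filter, filter_filter]
      refine sum_congr ?_ fun _ _ => rfl
      ext A
      simp only [mem_filter, mem_univ, true_and]
      exact and_comm
    obtain ⟨y, hy1, hy2⟩ := desc (z := z) hE (Fintype.card V) (fun A => if G.IsClique (A : Set V) then c A else 0)
      (by
        intro A hA
        by_cases h : G.IsClique (A : Set V)
        · exact ⟨h, by have := card_le_univ A; omega⟩
        · simp only [if_neg h] at hA
          exact absurd rfl hA)
      (by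
        intro S hS
        rw [hN S hS.le]
        exact hz S fun h => by have := h.2; omega)
      (fun S hS => hN S hS.ge)
    refine ⟨y, hy1, ?_⟩
    funext S
    by_cases hS : S.card = i
    · exact hy2 S hS
    · rw [hz S fun h => hS h.2]
      unfold bb
      refine sum_eq_zero fun v hv => ?_
      rw [mem_compl] at hv
      refine hy1 _ fun h => hS ?_
      have := h.2
      rw [card_insert_of_notMem hv] at this
      omega
  obtain ⟨f, hf1, hf2⟩ := Submodule.exists_dual_map_eq_bot_of_notMem hzL inferInstance
  have hfL : ∀ p, f (L p) = 0 := by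
    intro p
    have : f (L p) ∈ (LinearMap.range L).map f := Submodule.mem_map_of_mem (LinearMap.mem_range_self L p)
    rw [hf2] at this
    exact (Submodule.mem_bot (ZMod 2)).mp this
  have hsum : ∀ x : Finset V → ZMod 2, f x = ∑ S, x S * f (Pi.single S 1) := by
    intro x
    conv_lhs => rw [← Finset.univ_sum_single x]
    rw [map_sum]
    refine sum_congr rfl fun S _ => ?_
    rw [← smul_eq_mul, ← map_smul]
    congr 1
    rw [← Pi.single_smul, smul_eq_mul, mul_one]
  refine ⟨fun S => f (Pi.single S 1), ?_, ?_, ?_⟩
  · intro S hS
    suffices h : L (Pi.single S 1, 0) = Pi.single S 1 by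
      have h0 := hfL (Pi.single S 1, 0)
      rw [h] at h0
      exact h0
    funext T
    rw [hL]
    simp only [Pi.zero_apply, sum_const_zero, add_zero]
    by_cases h : T = S
    · subst h
      rw [if_pos hS]
    · rw [Pi.single_eq_of_ne h]
      simp
  · intro A hA
    have h1 := hfL (0, Pi.single A 1)
    rw [hsum] at h1
    have h2 : ∀ S : Finset V, L (0, Pi.single A 1) S = if S ⊂ A then 1 else 0 := by
      intro S
      rw [hL]
      simp only [Pi.zero_apply, ite_self, zero_add]
      by_cases h : S ⊂ A
      · rw [if_pos h, sum_eq_single A]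
        · simp
        · intro B _ hB
          exact Pi.single_eq_of_ne hB _
        · intro h'
          exact absurd (mem_filter.mpr ⟨mem_univ _, hA, h⟩) h'
      · rw [if_neg h]
        refine sum_eq_zero fun B hB => ?_
        rw [mem_filter] at hB
        refine Pi.single_eq_of_ne ?_ _
        rintro rfl
        exact h hB.2.2
    simp only [h2, ite_mul, one_mul, zero_mul] at h1
    rw [← sum_filter] at h1
    have h3 : A.powerset = insert A (univ.filter (fun S => S ⊂ A)) := by
      ext S
      simp only [mem_powerset, mem_insert, mem_filter, mem_univ, true_and]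
      constructor
      · intro h
        exact h.eq_or_ssubset
      · rintro (rfl | h)
        · exact Subset.refl _
        · exact h.subset
    rw [h3, sum_insert (by simp), h1, add_zero]
  · have h1 : f z ≠ 0 := hf1
    rw [hsum] at h1
    have h2 : ∀ a : ZMod 2, a ≠ 0 → a = 1 := by decide
    exact h2 _ h1

end Phi

end Pool.Agent.H56T
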