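import Pool.Agent.H56T.Gen

/-!
# Proper actions of right-angled Artin groups
-/

set_option autoImplicit false
set_option linter.unusedSectionVars false

namespace Pool.Agent.H56T

open Pool.Agent.W907.SG Pool.Agent.R782.Bal

/-- the relators of the right-angled Artin group: the commutators of adjacent generators -/
def ragRel {V : Type} (G : SimpleGraph V) : Set (FreeGroup V) :=
  {r | ∃ u v, G.Adj u v ∧ r = FreeGroup.of u * FreeGroup.of v * (FreeGroup.of u)⁻¹ * (FreeGroup.of v)⁻¹}

/-- the right-angled Artin group of the graph `G` -/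
abbrev AG {V : Type} (G : SimpleGraph V) : Type := PresentedGroup (ragRel G)

section Rg

variable {V : Type} [Fintype V] {G : SimpleGraph V}

/-- the generators -/
def agen (G : SimpleGraph V) (v : V) : AG G := PresentedGroup.of v

theorem agen_comm {u v : V} (h : G.Adj u v) : Commute (agen G u) (agen G v) := by
  have h1 : (PresentedGroup.mk (ragRel G))
      (FreeGroup.of u * FreeGroup.of v * (FreeGroup.of u)⁻¹ * (FreeGroup.of v)⁻¹) = 1 :=
    PresentedGroup.one_of_mem ⟨u, v, h, rfl⟩
  rw [map_mul, map_mul, map_mul, map_inv, map_inv, mul_inv_eq_one, mul_inv_eq_iff_eq_mul] at h1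
  exact h1

open Classical in
/-- the exponent sum of the generator `v` -/
noncomputable def ex (G : SimpleGraph V) (v : V) : AG G →* Multiplicative ℤ :=
  PresentedGroup.toGroup (f := fun w => if w = v then Multiplicative.ofAdd 1 else 1) (by
    rintro r ⟨a, b, _, rfl⟩
    rw [map_mul, map_mul, map_mul, map_inv, map_inv, mul_comm (FreeGroup.lift _ (FreeGroup.of a)), mul_inv_cancel_right,
      mul_inv_cancel])

theorem ex_agen (v w : V) [Decidable (w = v)] : ex G v (agen G w) = if w = v then Multiplicative.ofAdd 1 else 1 := by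
  unfold ex agen
  rw [PresentedGroup.toGroup.of]
  congr

/-- the generators and their inverses -/
noncomputable def sgen (G : SimpleGraph V) (x : V × Bool) : AG G := if x.2 = true then (agen G x.1)⁻¹ else agen G x.1

theorem sgen_comm {x y : V × Bool} (h : (dbl G).Adj x y) : Commute (sgen G x) (sgen G y) := by
  have h1 : Commute (agen G x.1) (agen G y.1) := agen_comm h
  unfold sgen
  split_ifs
  · exact h1.inv_inv
  · exact h1.inv_left
  · exact h1.inv_right
  · exact h1

theorem ex_sgen (v : V) (x : V × Bool) [Decidable (x.1 = v)] :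
    Multiplicative.toAdd (ex G v (sgen G x)) = if x.1 = v then (if x.2 = true then -1 else 1) else 0 := by
  unfold sgen
  split_ifs with h1 h2 h2
  · rw [map_inv, ex_agen, if_pos h2]
    rfl
  · rw [map_inv, ex_agen, if_neg h2]
    rfl
  · rw [ex_agen, if_pos h2]
    rfl
  · rw [ex_agen, if_neg h2]
    rfl

theorem ex_gp (v : V) (N : ℕ) {H : Subgroup (AG G)} (g : V × Bool → H)
    (hg : ∀ x, ((g x : H) : AG G) = sgen G x ^ N) (a : V × Bool → ℕ) :
    Multiplicative.toAdd (ex G v ((gp g a : H) : AG G)) = N * ((a (v, false) : ℤ) - a (v, true)) := by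
  classical
  have key : ∀ l : List (V × Bool), Multiplicative.toAdd (ex G v (((l.map (fun x => g x ^ a x)).prod : H) : AG G)) =
      (l.map (fun x : V × Bool => (N : ℤ) * (a x : ℤ) * (if x.1 = v then (if x.2 = true then -1 else 1) else 0))).sum := by
    intro l
    induction l with
    | nil => simp
    | cons x l ih =>
      rw [List.map_cons, List.prod_cons, List.map_cons, List.sum_cons, Subgroup.coe_mul, map_mul, toAdd_mul, ih]
      congr 1
      rw [Subgroup.coe_pow, hg, ← pow_mul, map_pow, toAdd_pow, ex_sgen, nsmul_eq_mul]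
      push_cast
      rfl
  unfold gp
  rw [key, Finset.sum_map_toList, Fintype.sum_prod_type]
  rw [Finset.sum_eq_single v]
  · simp
    ring
  · intro w _ hw
    simp [hw]
  · intro h
    exact absurd (Finset.mem_univ _) h

/-- powers of the generators in a subgroup of finite index -/
theorem raag_grp (H : Subgroup (AG G)) (hH : H.FiniteIndex) :
    ∃ g : V × Bool → H, (∀ x y, (dbl G).Adj x y → Commute (g x) (g y)) ∧
      ∀ q : H, (Pairs (dbl G) g q).Finite := by
  classical
  have hidx : H.index ≠ 0 := hH.index_ne_zero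
  let N := H.index.factorial
  have hN : 0 < N := Nat.factorial_pos _
  have hmem : ∀ x : AG G, x ^ N ∈ H := by
    intro x
    obtain ⟨k, hk0, hk1, hk⟩ := H.exists_pow_mem_of_index_ne_zero hidx x
    obtain ⟨t, ht⟩ := Nat.dvd_factorial hk0 hk1
    show x ^ H.index.factorial ∈ H
    rw [ht, pow_mul]
    exact H.pow_mem hk t
  let g : V × Bool → H := fun x => ⟨sgen G x ^ N, hmem _⟩
  have hg : ∀ x, ((g x : H) : AG G) = sgen G x ^ N := fun _ => rfl
  refine ⟨g, fun x y hxy => ?_, fun q => ?_⟩
  · apply Subtype.ext
    exact (sgen_comm hxy).pow_pow N N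
  · let B : V → ℕ := fun v => (Multiplicative.toAdd (ex G v (q : AG G))).natAbs
    have hfin : (Set.univ.pi fun x : V × Bool => Set.Iic (B x.1)).Finite :=
      Set.Finite.pi' (fun _ => Set.finite_Iic _) |>.subset (fun x hx v => hx v trivial)
    refine (hfin.prod hfin).subset ?_
    rintro ⟨a, b⟩ ⟨ha, hb, hd, heq⟩
    simp only at ha hb hd heq
    have key : ∀ v : V, ∀ c : Bool, a (v, c) ≤ B v ∧ b (v, c) ≤ B v := by
      intro v
      have h1 := congrArg (fun x : H => Multiplicative.toAdd (ex G v (x : AG G))) heq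
      simp only [Subgroup.coe_mul, map_mul, toAdd_mul, ex_gp v N g hg] at h1
      have hna : ¬ (dbl G).Adj (v, false) (v, true) := fun h => G.loopless.irrefl v h
      have h2 : a (v, false) = 0 ∨ a (v, true) = 0 := by
        by_contra hcon
        rw [not_or] at hcon
        exact hna (ha hcon.1 hcon.2 (by simp))
      have h3 : b (v, false) = 0 ∨ b (v, true) = 0 := by
        by_contra hcon
        rw [not_or] at hcon
        exact hna (hb hcon.1 hcon.2 (by simp))
      have h4 := hd (v, false)
      have h5 := hd (v, true)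
      set t := Multiplicative.toAdd (ex G v (q : AG G)) with ht
      have hN' : (1 : ℤ) ≤ N := by exact_mod_cast hN
      have h6 : t = N * (((b (v, false) : ℤ) - b (v, true)) - (a (v, false) - a (v, true))) := by
        rw [mul_sub, ← h1]
        ring
      set y : ℤ := ((b (v, false) : ℤ) - b (v, true)) - (a (v, false) - a (v, true)) with hy
      have h7 : y.natAbs ≤ B v := by
        show y.natAbs ≤ t.natAbs
        rw [h6, Int.natAbs_mul]
        refine Nat.le_mul_of_pos_left _ ?_
        omega
      have h8 : ∀ c : Bool, a (v, c) ≤ y.natAbs ∧ b (v, c) ≤ y.natAbs := by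
        intro c
        cases c <;> omega
      exact fun c => ⟨(h8 c).1.trans h7, (h8 c).2.trans h7⟩
    exact ⟨fun x _ => (key x.1 x.2).1, fun x _ => (key x.1 x.2).2⟩

/-- **Theorem.** Exactness over `F_2` gives the vanishing for the doubled graph. -/
theorem exa_l2 [DecidableEq V] {i : ℕ} (h : Exa G i) [Fintype (V × Bool)] [LinearOrder (V × Bool)] :
    L2Van (dbl G) i := by
  classical
  have : CharP (MvPolynomial (V × Bool) (ZMod 2)) 2 := inferInstance
  have : CharP (FractionRing (MvPolynomial (V × Bool) (ZMod 2))) 2 := inferInstance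
  refine Pool.Agent.W907.SM.l2_of_ex Pool.Agent.W907.SM.t1 Pool.Agent.W907.SM.t2 Pool.Agent.W907.SM.t3
    Pool.Agent.W907.SM.t4 Pool.Agent.W907.SM.t6 (V × Bool) V (dbl G) Prod.fst i ?_ ?_
  · intro u w h h'
    have h1 : G.Adj u.1 w.1 := h
    rw [h'] at h1
    exact G.loopless.irrefl _ h1
  · refine ex_dbl h fun v h => ?_
    have h1 := IsFractionRing.injective (MvPolynomial (V × Bool) (ZMod 2))
      (FractionRing (MvPolynomial (V × Bool) (ZMod 2))) h
    have h2 := MvPolynomial.X_injective h1
    simp at h2

/-- **Theorem.** The obstructor theorem. -/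
theorem exa_of_action [DecidableEq V] {n : ℕ} {M : Type} [TopologicalSpace M]
    [TietzeExtension.{0, 0} M] (hM : StInj n M) {Q : Type} [Group Q] [MulAction Q M] (hP : PropAct Q M)
    {g : V × Bool → Q} (hg : ∀ x y, (dbl G).Adj x y → Commute (g x) (g y))
    (hF : ∀ q : Q, (Pairs (dbl G) g q).Finite) {i : ℕ} (hi : n < 2 * i) : Exa G i :=
  exa_of_obs (obs_of_action hM hP hg hF hi) i le_rfl

/-- **Theorem.** Right-angled Artin groups. -/
theorem raag_exa [DecidableEq V] {n : ℕ} {M : Type} [TopologicalSpace M]
    [TietzeExtension.{0, 0} M] (hM : StInj n M) {H : Subgroup (AG G)} (hH : H.FiniteIndex) [MulAction H M]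
    (hP : PropAct H M) {i : ℕ} (hi : n < 2 * i) : Exa G i := by
  obtain ⟨g, hg, hF⟩ := raag_grp H hH
  exact exa_of_action hM hP hg hF hi

end Rg

end Pool.Agent.H56T
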