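import Pool.Agent.R782.Bal.Main

/-!
# Project TW (helper56): proper actions of right-angled Coxeter groups with twins

Goal: let `G` be a finite graph in which every vertex has a twin (another vertex with the same neighbours). Let a
subgroup `H` of finite index of `W G` act properly on `M` with `M × ℝ ≃ₜ ℝ^(n+1)` (all contractible `n`-manifolds
without boundary). Then the reduced `ℓ²`-homology of `W G` vanishes in the degrees `i > n / 2`.

`Obs G D` (file `Pool/Agent/R782/Bal/Ex.lean`): the mod 2 van Kampen obstruction of the flag complex of `G` vanishes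
in degree `D`. If the flag complex embeds in the sphere of dimension `n - 1` then `Obs G (n + 1)`.
-/

set_option autoImplicit false

namespace Pool.Agent.H56T

open Pool.Agent.W555.KS Pool.Agent.Y131.KS Pool.Agent.W907.SG Pool.Agent.R782.Bal
open Pool.Agent.TH652.Join (join)

/-- every vertex is replaced by two nonadjacent vertices (octahedralization) -/
def dbl {V : Type} (G : SimpleGraph V) : SimpleGraph (V × Bool) where
  Adj x y := G.Adj x.1 y.1
  symm := ⟨fun _ _ h => G.adj_symm h⟩
  loopless := ⟨fun x h => G.loopless.irrefl x.1 h⟩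

/-- every vertex has a twin: another vertex with the same neighbours -/
def Twins {V : Type} (G : SimpleGraph V) : Prop := ∀ v, ∃ w, w ≠ v ∧ ∀ u, G.Adj w u ↔ G.Adj v u

/-- the product of the powers `g v ^ a v`, in a fixed order of the vertices -/
noncomputable def gp {V Q : Type} [Fintype V] [Group Q] (g : V → Q) (a : V → ℕ) : Q :=
  ((Finset.univ : Finset V).toList.map (fun v => g v ^ a v)).prod

/-- pairs of disjoint nonnegative integer points of the cone of the flag complex of `G` with
`(g^a)⁻¹ g^b = q` -/
def Pairs {V Q : Type} [Fintype V] [Group Q] (G : SimpleGraph V) (g : V → Q) (q : Q) :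
    Set ((V → ℕ) × (V → ℕ)) :=
  {p | G.IsClique {v | p.1 v ≠ 0} ∧ G.IsClique {v | p.2 v ≠ 0} ∧ (∀ v, p.1 v = 0 ∨ p.2 v = 0) ∧
    gp g p.1 * q = gp g p.2}

/-- a proper (properly discontinuous) action: for compact `K` only finitely many `q` satisfy `q K ∩ K ≠ ∅` -/
def PropAct (Q M : Type) [Group Q] [TopologicalSpace M] [MulAction Q M] : Prop :=
  (∀ q : Q, Continuous fun x : M => q • x) ∧
    ∀ K : Set M, IsCompact K → {q : Q | ∃ x ∈ K, q • x ∈ K}.Finite

/-- **TOP.** Paper proof. Let `C ⊆ (V → ℝ)` be the set of the `x` with values in `[0,1]` and with support a clique.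
(1) `M` is a retract of `ℝ^(2n+1)`, so maps to `M` extend from closed subsets of `V → ℝ` (Tietze).
(2) There is a continuous `φ : (V → ℝ) → M` with `φ (x + e_v) = g v • φ x` for all `x ∈ C`, `x v = 0`, with
`supp x ∪ {v}` a clique: induction on `k` for the `x` with at most `k` elements in the support (`C_k`). Step: on the
closed set `C_k ∪ {x ∈ C_(k+1) | ∃ v, x v = 1}` put `β x = gp g 1_B • φ_k (x - 1_B)`, `B = {v | x v = 1}`; it is
continuous since for every `S` it is given by `gp g 1_S • φ_k (x - 1_S)` on the closed set where `x = 1` on `S`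
(finite closed cover); extend `β` by (1).
(3) Put `f x = gp g ⌊x⌋ • φ (fract x)` on the cone `{x ≥ 0, supp x a clique}`. On the closed cube `a ≤ x ≤ a + 1` it is
`gp g a • φ (x - a)`, so it is continuous on bounded parts of the cone (finite closed cover).
(4) `K = φ (C)` is compact. If `f x = f y` with disjoint supports then `(gp g ⌊x⌋)⁻¹ * gp g ⌊y⌋` is in the finite set of
the `q` with `q K ∩ K ≠ ∅`, hence the coordinates of `x` and `y` are bounded by a constant `B`.
(5) The odd map `OddMap (clF (join G G) e) (2 n + 1)` (`Pool/Agent/Y131/KS/Odd.lean`): for `x` in the deleted join with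
positive and negative parts `x⁺`, `x⁻` take `E (F (R x⁺)) - E (F (R x⁻))`, `F y = (f y_1, f y_2, 0)`, `E` the
homeomorphism onto `ℝ^(2n+1)`, `y_1`, `y_2` the two restrictions to the two copies of `V`, `R` large. Then use
`vk2_of_odd` and `vk_of_vk2`. -/
def S_TOP : Prop := ∀ (V : Type) [Fintype V] (G : SimpleGraph V) (n : ℕ) (M : Type) [TopologicalSpace M],
  Nonempty ((M × M × ℝ) ≃ₜ (Fin (2 * n + 1) → ℝ)) → ∀ (Q : Type) [Group Q] [MulAction Q M] (g : V → Q),
    PropAct Q M → (∀ u v, G.Adj u v → Commute (g u) (g v)) → (∀ q : Q, (Pairs G g q).Finite) →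
      Obs (join G G) (2 * n + 2)

/-- the cone of the flag complex: nonnegative vectors whose support is a clique -/
def Cone {V : Type} (G : SimpleGraph V) : Set (V → ℝ) := {x | (∀ v, 0 ≤ x v) ∧ G.IsClique {v | x v ≠ 0}}

/-- **CONE.** Steps (1), (2), (3) of TOP: there is an (on the cone) continuous map `f` and a compact set `K` with
`f x ∈ gp g ⌊x⌋ • K`. -/
def S_CONE : Prop := ∀ (V : Type) [Fintype V] (G : SimpleGraph V) (m : ℕ) (M : Type) [TopologicalSpace M],
  Nonempty ((M × M × ℝ) ≃ₜ (Fin m → ℝ)) → ∀ (Q : Type) [Group Q] [MulAction Q M] (g : V → Q),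
    (∀ q : Q, Continuous fun x : M => q • x) → (∀ u v, G.Adj u v → Commute (g u) (g v)) →
      ∃ (f : (V → ℝ) → M) (K : Set M), IsCompact K ∧ ContinuousOn f (Cone G) ∧
        ∀ x ∈ Cone G, ∃ k ∈ K, f x = gp g (fun v => ⌊x v⌋₊) • k

/-- **TOP2.** Steps (4), (5) of TOP. -/
def S_TOP2 : Prop := S_CONE → S_TOP

/-- **GRP.** Paper proof. Let `f v` be a twin of `v`, `r v = s_v s_(f v)`, `N` a number `≥ 1` with `r v ^ N ∈ H` for all
`v` (for example `N = index!`), `g v = r v ^ N`. They commute for adjacent `u`, `v` (all four generators commute). Let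
`(a, b)` be in `Pairs G g q`. Let `v` be in the support of `a`, `c` the class of the twins of `v` (the vertices with the
same neighbours as `v`, `v` included), and `u` an element of `c` in the support of `b`, if there is one (then `u ≠ v`;
at most one element of `c` is in the support of `a`, and at most one in the support of `b`, because these are
cliques). Let `W G` act on `ℤ`: the generators outside `c` trivially, the generator `w ∈ c` by the reflection
`x ↦ 2 p w - x`, with `p v = 0`, `p u = 2` and `p w = 1` for the other `w ∈ c`. Then `(gp g a)⁻¹ * gp g b` acts by the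
translation by `± 2 N (a v (p (f v) - p v) + b u (p u - p (f u)))`, which is at least `2 N (a v + b u)` in absolute
value. So `a v` is bounded for given `q`. Similarly `b v` is bounded (symmetry `q ↦ q⁻¹`). -/
def S_GRP : Prop := ∀ (V : Type) [Fintype V] (G : SimpleGraph V), Twins G → ∀ (H : Subgroup (W G)), H.FiniteIndex →
  ∃ g : V → H, (∀ u v, G.Adj u v → Commute (g u) (g v)) ∧ ∀ q : H, (Pairs G g q).Finite

/-- **DBL.** (helper56) -/
def S_DBL : Prop := ∀ (V : Type) [Fintype V] (G : SimpleGraph V) (D : ℕ), Obs (dbl G) D →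
  ∀ [Fintype (V × Bool)] [LinearOrder (V × Bool)] (i : ℕ), D ≤ 2 * i → L2Van (dbl G) i

/-- **TWIN.** Paper proof. Strong induction on the number of vertices. If every class of twins has exactly two
elements then `G` is isomorphic to `dbl G'`, `G'` the subgraph induced on one element of each class. Otherwise let
`v`, `v'`, `v''` be three different twins. By `S_L2ADD` (`Pool.Agent.W907.SG.l2add`, see `Pool/Agent/W907/SG/All.lean`)
it suffices that `L2Van (G.induce {v}ᶜ) i` and `L2Van (G.induce (G.neighborSet v)) (i - 1)`; both graphs have twins.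
`Obs` passes to induced subgraphs, and `Obs G D → Obs (G.induce (G.neighborSet v)) (D - 2)`: number the vertices such
that `v, v', v''` come first; for a cycle `Z` of the link take the cycle
`Z' σ τ = [σ ∩ T, τ ∩ T are two different points] * Z (σ \ T) (τ \ T)`, `T = {v, v', v''}`. (If `D ≤ 1` use
`Obs G D → Obs G 2`, see `vk2_le` in `Pool/Agent/R782/Bal/Emb.lean`.) -/
def S_TWIN : Prop := S_DBL → ∀ (V : Type) [Fintype V] [LinearOrder V] (G : SimpleGraph V), Twins G →
  ∀ D : ℕ, Obs G D → ∀ i : ℕ, D ≤ 2 * i → L2Van G i

/-- **PROD.** (helper56) The square of a cycle. -/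
def S_PROD : Prop := ∀ (V : Type) [Fintype V] (G : SimpleGraph V) (i : ℕ), Obs (join G G) (4 * i) → Obs G (2 * i)

end Pool.Agent.H56T
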