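import Pool.Agent.H56T.Raag

/-!
# Project TW, second part: the `ℓ²`-homology of right-angled Artin groups

The universal cover of the Salvetti complex of the right-angled Artin group `AG G` has the vertices `a ∈ AG G` and the
cubes `(a, T)`, `T` a clique of `G`, with the corners `a ∏_{t ∈ S} t`, `S ⊆ T`. The faces of `(a, T)` in the
direction `t ∈ T` are `(a, T \ {t})` and `(a t, T \ {t})`.
-/

set_option autoImplicit false

namespace Pool.Agent.H56T

open Pool.Agent.W907.SG

/-- An `ℓ²` harmonic `i`-chain of the universal cover of the Salvetti complex of `AG G`; `c a T` is the coefficient of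
the cube with the smallest corner `a` and the directions `T`. -/
structure IsHarmA {V : Type} [Fintype V] [LinearOrder V] (G : SimpleGraph V) (i : ℕ)
    (c : AG G → Finset V → ℝ) : Prop where
  supp : ∀ a (T : Finset V), ¬ (G.IsClique (T : Set V) ∧ T.card = i) → c a T = 0
  summable : Summable fun x : AG G × Finset V => (c x.1 x.2) ^ 2
  cycle : ∀ a (T : Finset V),
    ∑ v ∈ Tᶜ, (sg v T : ℝ) * (c (a * (agen G v)⁻¹) (insert v T) - c a (insert v T)) = 0
  cocycle : ∀ a (T : Finset V), G.IsClique (T : Set V) →
    ∑ t ∈ T, (sg t (T.erase t) : ℝ) * (c (a * agen G t) (T.erase t) - c a (T.erase t)) = 0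

/-- the reduced `i`-th `ℓ²`-homology of the right-angled Artin group `AG G` vanishes -/
def L2VanA {V : Type} [Fintype V] [LinearOrder V] (G : SimpleGraph V) (i : ℕ) : Prop :=
  ∀ c : AG G → Finset V → ℝ, IsHarmA G i c → c = 0

/-- **AW.** (`V × Bool` with the lexicographic order below.) Paper proof. The universal cover of the Salvetti complex of
`AG G` and the Davis complex of `W (dbl G)` are the same cube complex. The group `(ℤˣ)^V` acts on `AG G` (inverting the
generators `v` with `ε v = -1`) and on `W (dbl G)` (exchanging `(v, false)` and `(v, true)` for these `v`). There are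
homomorphisms `Φ : W (dbl G) → AG G ⋊ (ℤˣ)^V`, `s_(v, b) ↦ (v^(±1), -1 at v)` (`+1` for `b = false`), and
`Ψ : AG G → W (dbl G) ⋊ (ℤˣ)^V`, `v ↦ (s_(v, false), -1 at v)`. The left components `φ` and `ψ` are inverse
bijections (`φ (w s_(v,b)) = φ w * v^(± 1)`, the sign `(-1)^b * χ_v w`, `χ` the right component of `Φ`).
Given a harmonic chain `c` on `AG G` put, for a clique `T'` of `dbl G` (a section over the clique `T` of `G`) and
`w ∈ W (dbl G)`, `c' w T' = (product of the signs) * c (φ w * ∏ v⁻¹ over the v ∈ T with negative sign) T`, where the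
sign at `v` with `(v, b) ∈ T'` is `(-1)^b * χ_v w`. Then `c'` is an `ℓ²` harmonic `i`-chain of the Davis complex of
`W (dbl G)`, hence zero, hence `c = 0` (`φ` is surjective). -/
def S_AW : Prop := ∀ (V : Type) [Fintype V] [LinearOrder V] (G : SimpleGraph V) (i : ℕ),
  (∀ [LinearOrder (V × Bool)], L2Van (dbl G) i) → L2VanA G i

end Pool.Agent.H56T
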