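import Pool.Agent.H56T.Raag
import Pool.Agent.H56T.Rat
import Pool.Agent.N496.CV.Stm3

/-!
# Project TW, third part: `L²`-Betti numbers of the kernels of characters of right-angled Artin groups

`AG G` acts on functions `AG G → R` from the right, `(f · x) g = f (g x⁻¹)`. The universal cover of the Salvetti complex
of `AG G` has the cubes `(g, T)`, `T` a clique; the chains with coefficients in a right `AG G`-module `X` are families
`c T ∈ X`, `T` a clique, with the boundary `(∂ c) T = ∑_{v ∉ T} sg v T • (c (T ∪ v) - c (T ∪ v) · v)`.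

Everything is in the namespace `Pool.Agent.H56T`. Each piece `P` is to be proved as a theorem of type `S_P` in the file
`Pool/Agent/H56T/P.lean`, auxiliary lemmas in the namespace `Pool.Agent.H56T.P`.
-/

set_option autoImplicit false

namespace Pool.Agent.H56T

open Pool.Agent.W907.SG Pool.Agent.N496.LT Pool.Agent.Helper655.VN Pool.Agent.RK

section defs

variable {V : Type} [Fintype V] [LinearOrder V] (G : SimpleGraph V)

/-- the boundary of a chain of functions on `AG G` -/
noncomputable def bda {R : Type} [AddCommGroup R] (c : Finset V → AG G → R) (T : Finset V) (g : AG G) : R :=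
  ∑ v ∈ Tᶜ, sg v T • (c (insert v T) g - c (insert v T) (g * (agen G v)⁻¹))

/-- the `i`-chains with coefficients in a class `M` of functions on `AG G` -/
structure IsC {R : Type} [Zero R] (M : (AG G → R) → Prop) (i : ℕ) (c : Finset V → AG G → R) : Prop where
  supp : Chn G i c
  mem : ∀ T, M (c T)

end defs

/-- The coefficients: functions on `Γ` which are multiplied by `u h⁻¹` (on the right) under the left translation by
`h ∈ K`, with finite support modulo `K`. -/
structure FK {Γ R : Type} [Group Γ] [Ring R] (K : Subgroup Γ) (u : K →* R) (f : Γ → R) : Prop where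
  eq : ∀ (h : K) (g : Γ), f (h * g) = f g * u h⁻¹
  fin : ∃ S : Finset Γ, ∀ g, f g ≠ 0 → ∃ h : K, ∃ x ∈ S, g = h * x

/-- rational exactness of the flag complex at the simplices with `i` vertices -/
def Rex {V : Type} [Fintype V] [LinearOrder V] (G : SimpleGraph V) (i : ℕ) : Prop :=
  ∀ z : Finset V → ℚ, Chn G i z → (∀ T, sb z T = 0) → ∃ y : Finset V → ℚ, Chn G (i + 1) y ∧ ∀ T, sb y T = z T

/-- **SALV.** The universal cover of the Salvetti complex is acyclic. Paper proof. For `U ⊆ V` let `J U` be the set of
all `λ : AG G → ℤ` of finite support of the form `∑_{u ∈ U} (f_u - f_u · u)`, `f_u` of finite support.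
(HNN) If `v ∉ U` and `λ - λ · v ∈ J U` then `λ ∈ J (U ∩ Lk v)`. Proof: let `N` be the quotient of the finitely supported
functions (the group ring) by `J (U ∩ Lk v)`, a left `AG G`-module, `[g] ∈ N` the class of the delta function at `g`
(so `[g u] = [g]` for `u ∈ U ∩ Lk v`). There is a homomorphism `Θ : AG G → Perm N` with `Θ u n = u n` for `u ∈ U`,
`Θ v n = v n - [1]`, `Θ w n = n` for the other generators (check the commutation relations). For `h` in the subgroup
`Γ'` generated by `U ∪ {v}` one has `Θ h n = h n + Θ h 0`, hence `d h = Θ h 0` satisfies `d (h u) = d h`,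
`d (h v) = d h - [h]` for `h ∈ Γ'`. Choose representatives `t g` of the cosets `g Γ'` (constant on the cosets) and put
`φ g = t g • d ((t g)⁻¹ g)`. Then `φ (g u) = φ g`, `φ (g v) = φ g - [g]` for all `g`. The additive extension of `φ`
kills `J U` and maps `λ - λ · v` to the class of `λ`.
(Induction) By induction on `U`: a cycle `c` with finite supports on the cliques `T ⊆ U`, `|T| = i ≥ 1`, is a boundary
of such a chain on the cliques in `U`. For `U ∪ {v}`, `v ∉ U`: the part `c' R = ± c (R ∪ v)`, `R ⊆ U ∩ Lk v`, is a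
cycle of degree `i - 1`; it is a boundary in `U ∩ Lk v`: for `i ≥ 2` by the induction hypothesis, for `i = 1` by (HNN),
since `∂ c = 0` at `∅` says that `c' ∅ - c' ∅ · v ∈ J U`. So after subtracting a boundary `c` is a cycle on `U`.
For `i = 0`: the delta functions satisfy `δ_g - δ_1 ∈ J V`, so `∑ λ = 0` implies `λ ∈ J V`. -/
def S_SALV : Prop := ∀ (V : Type) [Fintype V] [LinearOrder V] (G : SimpleGraph V) (i : ℕ) (c : Finset V → AG G → ℤ),
  IsC G (fun f => (Function.support f).Finite) i c → bda G c = 0 → (i = 0 → ∑ᶠ g, c ∅ g = 0) →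
  ∃ e, IsC G (fun f => (Function.support f).Finite) (i + 1) e ∧ bda G e = c

/-- The conclusion of FINA: the homology of an arbitrary subgroup from the chains of functions -/
def S_FIN' : Prop := ∀ (V : Type) [Fintype V] [LinearOrder V] (G : SimpleGraph V) (K : Subgroup (AG G)) (n : ℕ),
  (∀ v, IsC G (FK K (canL : K →* NG K)) (n + 1) v → bda G v = 0 → ∃ s : NG K, Nz s ∧
    ∃ e, IsC G (FK K (canL : K →* NG K)) (n + 2) e ∧ bda G e = fun T g => s * v T g) →
  VN831.l2Betti K (n + 1) = 0

/-- **FINA.** Copy of `Pool.Agent.N496.CV` `P_RES.lean` (`res`: acyclic ⇒ free resolution) and `P_FINAL.lean` (`final`)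
for the complex `sal G : GCx (AG G)` with `ι := {T : Finset V // G.IsClique (T : Set V)}`, `deg T = T.card` and
`D T T' = ∑ t ∈ T, if T' = T.erase t then (sg t (T.erase t)) * (1 - single (agen G t) 1) else 0` in place of `davis G`.
It is easier than there: no CONV is needed, `AG G` itself is the group of the resolution, and `K ≤ AG G` is any
subgroup (`i = K.subtype`, `cW = canL : AG G →* NG (AG G)`, `hind = Helper277.VN5.jN_indep K`). The lemmas in
`PRES` (`emb`, `mul_emb`, ...) and `FinAux` (`tors`, `phi`, `luck_zero`, `sum_cell`, ...) are for arbitrary `GCx` and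
can be used. `FK K u` is `FinAux.FF K.subtype u`. -/
def S_FINA : Prop := S_SALV → S_FIN'

/-- **LNKT.** Rational exactness of the induced subgraph on `C`, for chains on `V` supported on the subsets of `C` with
values in any rational vector space. Paper proof: transport along `Finset.map (Function.Embedding.subtype _)`; the signs
`sg` agree as the order of `C` is induced. For values in a vector space use a basis as in `exa_mod` in
`Pool/Agent/H56T/Rat.lean` (whose proof works for `Rex` in place of `Exa`). -/
def S_LNKT : Prop := ∀ (V : Type) [Fintype V] [LinearOrder V] (G : SimpleGraph V) (C : Set V) [Fintype C] (i : ℕ),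
  Rex (G.induce C) i → ∀ (X : Type) [AddCommGroup X] [Module ℚ X] (z : Finset V → X),
    Chn G i z → (∀ T : Finset V, ¬ (T : Set V) ⊆ C → z T = 0) → (∀ T, sb z T = 0) →
    ∃ y : Finset V → X, Chn G (i + 1) y ∧ (∀ T : Finset V, ¬ (T : Set V) ⊆ C → y T = 0) ∧ ∀ T, sb y T = z T

/-- Commuting operators `P v` for each clique, those in `D` pairwise coprime -/
def Cop {V : Type} (G : SimpleGraph V) (D : Set V) {X : Type} [AddCommGroup X] [Module ℚ X]
    (P : V → Module.End ℚ X) : Prop :=
  ∀ T : Finset V, G.IsClique (T : Set V) → ∃ (A : Type) (_ : CommRing A) (φ : A →+* Module.End ℚ X) (p : V → A),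
    (∀ v ∈ T, φ (p v) = P v) ∧ ∀ v ∈ T, ∀ w ∈ T, v ≠ w → v ∈ D → w ∈ D → IsCoprime (p v) (p w)

/-- **ALG.** Paper proof. Let `π T = ∏_{v ∈ T} P v`. For a cycle `z` the chain `a T = π T (z T)` is a cycle for `sb`, so
`a = sb b`. For `v ∈ D` the `v`-part of `b` modulo `P v X` is a cycle on the link of `v` with values in `X / P v X`,
hence a boundary of some `e^v`. By the Chinese remainder theorem there is a chain `e` with `e R ≡ e^v R` modulo `P v X`
for all `v ∈ R ∩ D`. Replace `b` by `b - sb e`. Then `b S ∈ P v X` for all `v ∈ S ∩ D`, hence `b S = π S (y S)` (coprime,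
and the `P v` with `v ∉ D` are bijective), and `∂ y = z` as `π T` is injective. -/
def S_ALG : Prop := ∀ (V : Type) [Fintype V] [LinearOrder V] (G : SimpleGraph V) (D : Set V)
    [∀ v, Fintype (G.neighborSet v)] (X : Type) [AddCommGroup X] [Module ℚ X] (P : V → Module.End ℚ X) (i : ℕ),
  Cop G D P → (∀ v, Function.Injective (P v)) → (∀ v, v ∉ D → Function.Surjective (P v)) →
  Rex G i → (∀ v ∈ D, Rex (G.induce (G.neighborSet v)) i) →
  ∀ z : Finset V → X, Chn G i z → (∀ T, ∑ v ∈ Tᶜ, sg v T • P v (z (insert v T)) = 0) →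
    ∃ y : Finset V → X, Chn G (i + 1) y ∧ ∀ T, ∑ v ∈ Tᶜ, sg v T • P v (y (insert v T)) = z T

/-- **KIN.** The operators `1 - (· x)` on the coefficients. Paper proof. Let `χ x = 1` and `ex G w x ≠ 1`. As `K` has
finite index in `ker χ` there is `N > 0` with `y ^ N ∈ K` for all `y ∈ ker χ`. Then
`(f - f · x^N) g = f g * (1 - u (g x^N g⁻¹))` (with `(f · x) g = f (g x⁻¹)`), and `1 - u h` is a unit for `h ∈ K` with
`ex G w h ≠ 1`. So `1 - (· x^N)` is bijective on the coefficients, hence `1 - (· x)` is, a commuting factor of it.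
If `χ x ≠ 1` then `1 - (· x)` is injective, by the finiteness of the support modulo `K ≤ ker χ`. -/
def S_KIN : Prop := ∀ (V : Type) [Fintype V] (G : SimpleGraph V) (χ : AG G →* Multiplicative ℤ) (K : Subgroup (AG G))
    (R : Type) [Ring R] (u : K →* R), K ≤ χ.ker → K.relIndex χ.ker ≠ 0 →
    (∀ h : K, (∃ w, ex G w h ≠ 1) → IsUnit (1 - u h)) →
    (∀ x : AG G, χ x = 1 → (∃ w, ex G w x ≠ 1) →
      (∀ f, FK K u f → ∃ k, FK K u k ∧ ∀ g, k g - k (g * x⁻¹) = f g) ∧
      (∀ f, FK K u f → (∀ g, f g - f (g * x⁻¹) = 0) → f = 0)) ∧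
    (∀ x : AG G, χ x ≠ 1 → ∀ f, FK K u f → (∀ g, f g - f (g * x⁻¹) = 0) → f = 0)

end Pool.Agent.H56T
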