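import Pool.Agent.H56T.LRDef
import Pool.Agent.H56T.CTR
import Pool.Agent.H56T.Rat

/-!
# Project LR (helper56): locally reducible Artin groups

Goal (MP_ea75ba_gt, hard): if a finite index subgroup of the Artin group `ArtG M` acts properly on a contractible
`n`-manifold then the `L²`-Betti numbers of the universal cover of the Salvetti complex vanish in the degrees
`i > n / 2`, for all locally reducible `M` (right-angled, even, large type, two-dimensional Artin groups, ...).

Definitions: `Pool/Agent/H56T/LRDef.lean` (`alt`, `ArtG`, `sig`, `Sph`, `bet`, `SalH`). Everything is in the namespace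
`Pool.Agent.H56T.LR`. Each piece `P` below is to be proved as a theorem of type `S_P` in the file
`Pool/Agent/H56T/P.lean`, with the name `t_P`, auxiliary lemmas in the namespace `Pool.Agent.H56T.LR.P`.
-/

set_option autoImplicit false

namespace Pool.Agent.H56T.LR

open Pool.Agent.W907.SG Finset

section defs

variable {V : Type} [Fintype V] [LinearOrder V] (M : CoxeterMatrix V)

/-- the edges with entry `≥ 3` -/
abbrev EE : Type := {p : V × V // p.1 < p.2 ∧ 3 ≤ M p.1 p.2}

/-- The flag complex of this graph is the subdivision of the nerve in which the edges with entry `≥ 3` are divided: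
adjacent are commuting generators, an edge and its end points, an edge and the generators commuting with it, edges
commuting with each other. -/
def LG : SimpleGraph (V ⊕ EE M) where
  Adj x y := match x, y with
    | Sum.inl v, Sum.inl w => M v w = 2
    | Sum.inl v, Sum.inr e => v = e.1.1 ∨ v = e.1.2 ∨ (M v e.1.1 = 2 ∧ M v e.1.2 = 2)
    | Sum.inr e, Sum.inl v => v = e.1.1 ∨ v = e.1.2 ∨ (M v e.1.1 = 2 ∧ M v e.1.2 = 2)
    | Sum.inr e, Sum.inr f => M e.1.1 f.1.1 = 2 ∧ M e.1.1 f.1.2 = 2 ∧ M e.1.2 f.1.1 = 2 ∧ M e.1.2 f.1.2 = 2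
  symm := ⟨by
    rintro (v | e) (w | f) h
    · exact (M.symmetric w v).trans h
    · exact h
    · exact h
    · obtain ⟨h1, h2, h3, h4⟩ := h
      exact ⟨(M.symmetric _ _).trans h1, (M.symmetric _ _).trans h3, (M.symmetric _ _).trans h2,
        (M.symmetric _ _).trans h4⟩⟩
  loopless := ⟨by
    rintro (v | e) h
    · have : M v v = 2 := h
      rw [M.diagonal] at this
      omega
    · have : M e.1.1 e.1.1 = 2 := h.1
      rw [M.diagonal] at this
      omega⟩

omit [Fintype V] in
/-- the commuting elements: squares of the generators, and central elements of the dihedral Artin groups -/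
def zz (x : V ⊕ EE M) : ArtG M :=
  match x with
  | Sum.inl v => sig M v ^ 2
  | Sum.inr e => (sig M e.1.1 * sig M e.1.2) ^ (M e.1.1 e.1.2)

/-- chains (coefficients in any group) supported on the sets in `S` with `i` elements -/
def ChS {A : Type} [Zero A] (S : Finset V → Prop) (i : ℕ) (x : Finset V → A) : Prop :=
  ∀ T : Finset V, ¬ (S T ∧ T.card = i) → x T = 0

/-- exactness over `F_2` -/
def ExF (S : Finset V → Prop) (i : ℕ) : Prop :=
  ∀ z : Finset V → ZMod 2, ChS S i z → bb z = 0 → ∃ y : Finset V → ZMod 2, ChS S (i + 1) y ∧ bb y = z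

end defs

/-- **LCOM.** Paper proof. `M u v = 2`: the relator says `v u = u v`. For an edge `(s, t)` with `m = M s t ≥ 3`, the
relation `alt s t m = alt t s m`: `(s t)^m` commutes with `s` and `t`. If `m = 2 k` then `(s t)^k = (t s)^k` and
`s (t s)^k = (s t)^k s`, so `(s t)^k` is central. If `m = 2 k + 1`, let `D = (s t)^k s = t (s t)^k`; then `s D = D t`,
`t D = D s` and `D^2 = (s t)^m`. All the other cases are products of commuting generators. -/
def S_LCOM : Prop := ∀ (V : Type) [LinearOrder V] (M : CoxeterMatrix V) (x y : V ⊕ EE M), (LG M).Adj x y →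
  Commute (zz M x) (zz M y)

/-- The Tits representation and the cocycle: `ρ v` is the reflection `x ↦ x - 2 B(x, e_v) e_v`, where
`B(e_u, e_v) = - cos (π / M u v)` (`= - 1` if `M u v = 0`), and `c g x` is an integer for `x ∈ ℝ^V` with
`c (g h) x = c g x + c h (ρ g⁻¹ x)` and `c (sig v) x = [x = e_v or x = - e_v]`. -/
structure IsTits {V : Type} [Fintype V] [DecidableEq V] (M : CoxeterMatrix V)
    (ρ : ArtG M →* ((V → ℝ) ≃ₗ[ℝ] (V → ℝ))) (c : ArtG M → (V → ℝ) → ℤ) : Prop where
  refl : ∀ (v : V) (x : V → ℝ), ρ (sig M v) x =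
    x - (2 * ∑ u, x u * (if M u v = 0 then -1 else - Real.cos (Real.pi / M u v))) • Pi.single v 1
  mul : ∀ (g h : ArtG M) (x : V → ℝ), c (g * h) x = c g x + c h (ρ g⁻¹ x)
  gen : ∀ (v : V) (x : V → ℝ), c (sig M v) x =
    if x = Pi.single v 1 ∨ x = - Pi.single v 1 then 1 else 0

/-- **TITS.** Paper proof. The reflections `r_v x = x - 2 B(x, e_v) e_v` are involutions as `B(e_v, e_v) = 1`
(`cos π = - 1`, `M v v = 1`). Let `m = M s t ≥ 2`, `θ = π / m`, so `sin θ > 0`. Put
`β_k = (sin ((k+1) θ) e_s + sin (k θ) e_t) / sin θ` for integers `k`. Then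
`r_s e_s = - e_s`, `r_s e_t = e_t + 2 cos θ e_s`, hence (addition theorem) `r_s β_k = - β_(-k)` and
`r_t β_k = - β_(-k-2)`, `r_s r_t β_k = β_(k+2)`; `β_0 = e_s`, `β_(-1) = - e_t`, `β_(m-1) = e_t`, `β_(k+m) = - β_k`.
So `(r_s r_t)^m` is the identity on the plane of `e_s`, `e_t`; it is the identity on the vectors `x` with
`B(x, e_s) = B(x, e_t) = 0`, and every vector is the sum of one of these and one of the plane, as the Gram matrix of
`e_s`, `e_t` is nondegenerate (determinant `sin² θ`). Since `r_s`, `r_t` are involutions, `(r_s r_t)^m = 1` gives the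
braid relation `alt r_s r_t m = alt r_t r_s m`. So `ρ` exists.
The cocycle: on the set of all functions `F : (V → ℝ) → ℤ` let `Θ v` be the permutation
`(Θ v F) x = F (r_v x) + [x = e_v or x = - e_v]`. Claim: the braid relations hold. The alternating product of the `Θ`
(first factor `s`: `Θ_s Θ_t Θ_s ⋯`, `m` factors) maps `F` to `F (w⁻¹ x) + ∑_{k < m} [x = ± β_k]`, because the `k`-th term
is `[x = ± w_k e]` with `w_k` the product of the first `k` reflections and `e` the next vector, `w_k e = ± β_k`; for the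
other order (first factor `t`) one gets the vectors `± β_(m-1-k)`, the same set. So there is a homomorphism `Θ` to the
permutations, `Θ g F = F ∘ ρ g⁻¹ + c g`, `c g = Θ g 0`. -/
def S_TITS : Prop := ∀ (V : Type) [Fintype V] [DecidableEq V] (M : CoxeterMatrix V),
  ∃ (ρ : ArtG M →* ((V → ℝ) ≃ₗ[ℝ] (V → ℝ))) (c : ArtG M → (V → ℝ) → ℤ), IsTits M ρ c

/-- **LHOM.** From TITS. Paper proof. On the subgroup `P = ker ρ` the functions `g ↦ c g x` are homomorphisms to `ℤ`.
`zz M x ∈ P`: `ρ (sig v)^2 = 1`, `ρ (s t)^m = 1` (see TITS). For the edge `e = (s, t)`, `m = M s t ≥ 3`, `θ = π / m`, with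
`β_k` as in TITS: `c (s t) x = [x = ± β_0] + [x = ± β_1]`, and so
`c ((s t)^m) x = ∑_{k < 2 m} [x = ± β_k] = 2 ∑_{k < m} [x = ± β_k]`; `c (v ^ 2) x = 2 [x = ± e_v]`. Let `L_v g = c g e_v`,
`L_e g = c g β_1^e`, `β_1^e = 2 cos θ e_s + e_t` (`2 cos θ > 0`: the support of `β_1^e` is exactly `{s, t}`). Then
`L_v (u^2) = 2 [u = v]`, `L_v (z_e) = 2 [v ∈ e]` (for `v = s` only `k = 0`, for `v = t` only `k = m - 1`; for `v ∉ e` none),
`L_e (u^2) = 0`, `L_e (z_f) = 2 [e = f]` (the support of `β_k^f` is contained in `f`; for `f = e` only `k = 1`: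
`(sin ((k+1) θ), sin (k θ)) = ± (sin 2θ, sin θ)`, `0 ≤ k < m`). So take `E_e = L_e`, `E_v = L_v - ∑_{e ∋ v} L_e`. -/
def S_LHOM : Prop := ∀ (V : Type) [Fintype V] [LinearOrder V] (M : CoxeterMatrix V)
  (ρ : ArtG M →* ((V → ℝ) ≃ₗ[ℝ] (V → ℝ))) (c : ArtG M → (V → ℝ) → ℤ), IsTits M ρ c →
  ∃ (hz : ∀ x, zz M x ∈ ρ.ker) (E : (V ⊕ EE M) → (ρ.ker →* Multiplicative ℤ)),
    ∀ x y, Multiplicative.toAdd (E x ⟨zz M y, hz y⟩) = if y = x then 2 else 0

/-- **LSUB.** Subdivision, over `F_2`. Paper proof. For `T` with `Sph M T` let `sd T` be the sum of the cliques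
`{inl v | v ∈ T not in an edge} ∪ {inr e | e ⊆ T an edge with entry ≥ 3} ∪ {inl x_e | e ⊆ T}` of `LG M`, over all the
choices `x_e ∈ e` for the edges `e ⊆ T` with entry `≥ 3` (these edges are disjoint; all the cliques have `T.card`
elements). `sd` is a chain map over `F_2`: removing `inl x_e` cancels with the other choice, removing `inr e` gives the
terms of `sd (T - x')`, `x'` the other end point of `e`. The map `r`, `inl v ↦ v`, `inr e ↦ e.1` (the smaller end point)
maps cliques of `LG M` to sets `T` with `Sph M T`, and induces a chain map `r_*` (cliques on which `r` is not injective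
go to zero); `r_* (sd T) = T` (only the choice `x_e = e.2` for all `e` is injective). So for a cycle `z` of the nerve
`sd z = ∂ y` and `z = r_* (sd z) = ∂ (r_* y)`. -/
def S_LSUB : Prop := ∀ (V : Type) [Fintype V] [LinearOrder V] (M : CoxeterMatrix V) [DecidableEq (V ⊕ EE M)] (i : ℕ),
  Exa (LG M) i → ExF (Sph M) i

/-- **LRAT.** Copy of `Pool/Agent/H56T/Rat.lean` (`divi`, `exa_rat`, `exa_mod`) with a simplicial complex `S` (a set of
finsets closed under subsets) in place of the cliques of a graph (`Chn G i` becomes `ChS S i`). -/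
def S_LRAT : Prop := ∀ (V : Type) [Fintype V] [LinearOrder V] (S : Finset V → Prop) (i : ℕ),
  (∀ T T' : Finset V, T' ⊆ T → S T → S T') → ExF S i →
  ∀ (X : Type) [AddCommGroup X] [Module ℚ X] (x : Finset V → X), ChS S i x → (∀ T, sb x T = 0) →
    ∃ y : Finset V → X, ChS S (i + 1) y ∧ ∀ T, sb y T = x T

/-- **LUNI.** Let `d : ArtG M → ℤ` be the homomorphism with `d (sig v) = 1`, and let `1 - c g` be a unit whenever
`d g ≠ 0`. Paper proof. Write `g` for `c g` and `β T t` for the image of `bet M T t`. If `t` has no partner in `T` then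
`β T t = 1 - t`, a unit. If `p` is the partner, `m = M t p`, then `β T t = A (t, p) = ∑_{j < m} (-1)^j alt t p j`
(`alt t p j = ⋯ p t` has the last factor `t`). Let `x = p t`. If `m = 2 k` then `A (t, p) (1 - x) = (1 - t) (1 - x^k)`. If
`m = 2 k + 1` then `A (t, p) (1 - x) = (1 + y) (1 - t)` with `y = alt t p m = alt p t m`, and
`(1 + y) (1 - y) = 1 - y^2`. So `A (t, p)` is a unit. Moreover `A (t, p) (1 - p) = A (p, t) (1 - t)`: both sides are the
alternating sum of all `alt t p j`, `alt p t j`, `j ≤ m` (with `alt t p m = alt p t m` and `1` counted once). Define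
`α T` by induction on the number of elements: `α ∅ = 1`, `α T = β T (max T) * α (T - max T)`; show
`β T t * α (T - t) = α T` for all `t ∈ T`, `Sph M T`, by induction: for `t ≠ max T = v` use
`β T t * β (T - t) v = β T v * β (T - v) t` (if `v` is not the partner of `t` then `β (T - v) t = β T t`,
`β (T - t) v = β T v` and they commute, being sums of products of generators which commute; if it is, this is
`A (t, v) (1 - v) = A (v, t) (1 - t)`). -/
def S_LUNI : Prop := ∀ (V : Type) [Fintype V] [LinearOrder V] (M : CoxeterMatrix V) (R : Type) [Ring R]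
  (c : ArtG M →* R), (∀ g : ArtG M, (∃ d : ArtG M →* Multiplicative ℤ, d g ≠ 1) → IsUnit (1 - c g)) →
  ∃ α : Finset V → R, (∀ T, Sph M T → IsUnit (α T)) ∧
    ∀ (T : Finset V) (v : V), v ∉ T → Sph M (insert v T) → V7N.evM c (bet M (insert v T) v) * α T = α (insert v T)

end Pool.Agent.H56T.LR
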