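import Pool.Agent.H56T.GADef
import Pool.Agent.H56T.Stm4
import Pool.Agent.Helper376.LC.Cox

/-!
# Project GA (helper56): ALL Artin groups

Goal (MP_ea75ba_gt, hard): if a finite index subgroup of the Artin group `ArtG M` (any Coxeter matrix `M`) acts properly
on a contractible `n`-manifold then the `L²`-Betti numbers of the universal cover of the Salvetti complex vanish in the
degrees `i > n / 2`.

Definitions: `GADef.lean` (`par`, `Sphl`, `lft`, `reps`, `tht`), `LRDef.lean` (`alt`, `ArtG`, `sig`), `Stm4.lean` (`ExF`,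
`ChS`), `Phi.lean` (`Exa`, `Ch`, `bb`). `Pool/Agent/Helper376/LC/Cox.lean` has the strong exchange property (`eta`,
`eta_wordProd`, `rightInv_iff_eta`) for all Coxeter systems. Everything is in the namespace `Pool.Agent.H56T.GA`. Each
piece `P` below is to be proved as a theorem of type `S_P` in the file `Pool/Agent/H56T/GA/P.lean` (for example
`Pool/Agent/H56T/GA/PAR.lean`), with the name `t_P`, auxiliary lemmas in the namespace `Pool.Agent.H56T.GA.P`.
-/

set_option autoImplicit false

namespace Pool.Agent.H56T.GA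

open Pool.Agent.W907.SG Pool.Agent.H56T.LR Finset

section cox

variable {B W : Type} [Group W] {M : CoxeterMatrix B} (cs : CoxeterSystem M W)

/-- the parabolic subgroup; `par M T` is `parC M.toCoxeterSystem T` (by `rfl`) -/
def parC (J : Set B) : Subgroup W := Subgroup.closure (cs.simple '' J)

/-- `v` is the longest element of `W_J` -/
structure IsLng (J : Set B) (v : W) : Prop where
  mem : v ∈ parC cs J
  desc : ∀ s ∈ J, cs.IsRightDescent v s

/-- The elementary facts on parabolic subgroups -/
structure PARs : Prop where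
  exch : ∀ (ω : List B) (i : B), cs.IsRightDescent (cs.wordProd ω) i →
    ∃ j < ω.length, cs.wordProd ω * cs.simple i = cs.wordProd (ω.eraseIdx j)
  word : ∀ (J : Set B) (w : W), w ∈ parC cs J → ∃ ω : List B, cs.IsReduced ω ∧ (∀ i ∈ ω, i ∈ J) ∧ w = cs.wordProd ω
  dec : ∀ (J : Set B) (w : W), ∃ u v : W, w = u * v ∧ v ∈ parC cs J ∧ ∀ s ∈ J, ¬ cs.IsRightDescent u s
  add : ∀ (J : Set B) (u v : W), (∀ s ∈ J, ¬ cs.IsRightDescent u s) → v ∈ parC cs J →
    cs.length (u * v) = cs.length u + cs.length v

/-- The facts on the longest elements -/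
structure LNGs : Prop where
  len : ∀ (J : Set B) (v x : W), IsLng cs J v → x ∈ parC cs J → cs.length (v * x) + cs.length x = cs.length v
  fin : ∀ J : Set B, J.Finite → ∀ v, IsLng cs J v → (parC cs J : Set W).Finite
  ex : ∀ J : Set B, (parC cs J : Set W).Finite → ∃ v, IsLng cs J v
  sq : ∀ (J : Set B) (v : W), IsLng cs J v → v * v = 1
  uniq : ∀ (J : Set B) (v v' : W), IsLng cs J v → IsLng cs J v' → v = v'

end cox

/-- **PAR.** Paper proof. `exch`: `s_i` is a right inversion of `w = π ω`, so `eta w s_i = 1` (`rightInv_iff_eta`), so `s_i`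
occurs in `rightInvSeq ω` (`eta_wordProd`: parity of the number of the occurrences), and `π ω * (ris ω)[j] = π (ω` without
`j)` (`wordProd_mul_getD_rightInvSeq`). `word`: take a shortest word with letters in `J` for `w` (there is one, the
generators are involutions); if it is not reduced let `ω i` be the shortest prefix which is not reduced; by `exch`
`π (ω i) = π (ω` without `j)` is a shorter word in `J`, contradiction. `dec`: let `u` be an element of minimal length in
`w W_J`. `add`: first assume that `u` has minimal length in `u W_J`; induction on the length of a reduced word with letters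
in `J` for `v`: `v = v' s`, `ℓ (u v') = ℓ u + ℓ v'`; if `s` is a right descent of `u v'`, `exch` for the word `ω_u ω_v'`
deletes a letter of `ω_u` (then `u v' s v'⁻¹ ∈ u W_J` is shorter than `u`) or one of `ω_v'` (then `v = v' s` is shorter than
its reduced word), contradiction. In general write `u = u₀ v₀` with `u₀` of minimal length in `u W_J`; `ℓ u = ℓ u₀ + ℓ v₀`, and
if `v₀ ≠ 1` then the last letter `s ∈ J` of a reduced word in `J` of `v₀` is a right descent of `u`. -/
def S_PAR : Prop := ∀ (B W : Type) [Group W] (M : CoxeterMatrix B) (cs : CoxeterSystem M W), PARs cs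

/-- **LNG.** Paper proof. `len`: show by induction on the length `k` of the reduced word `x = s_1 ⋯ s_k` with letters in `J`
that `v` has a reduced word which ends with `s_k ⋯ s_1` (that is `ℓ (v x) = ℓ v - k`): for `y = s_2 ⋯ s_k` one has `v = a y⁻¹`
with `ℓ v = ℓ a + ℓ y`; `s_1` is a right descent of `v`, apply `exch` to the word `ω_a s_k ⋯ s_2`: if a letter of `s_k ⋯ s_2`
is deleted then `s_k ⋯ s_2 s_1` is equal to a shorter word, contradiction to `x` reduced; so `v s_1 = a' s_k ⋯ s_2` with
`ℓ a' < ℓ a`, `v = a' s_k ⋯ s_2 s_1`. `fin`: the elements of `W_J` have reduced words in `J` of length `≤ ℓ v`. `ex`: take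
`v ∈ W_J` of maximal length. `sq`: `len` with `x = v`. `uniq`: `len` with `x = v⁻¹ v'` and `x = v'⁻¹ v` gives `ℓ x = 0`. -/
def S_LNG : Prop := S_PAR → ∀ (B W : Type) [Group W] (M : CoxeterMatrix B) (cs : CoxeterSystem M W), LNGs cs

section rep

variable {V : Type} [Fintype V] [DecidableEq V] (M : CoxeterMatrix V)

/-- the geometric representation of the Coxeter group -/
def IsRep (ρ : M.Group →* ((V → ℝ) ≃ₗ[ℝ] (V → ℝ))) : Prop :=
  ∀ (v : V) (x : V → ℝ), ρ (M.toCoxeterSystem.simple v) x =
    x - (2 * ∑ u, x u * (if M u v = 0 then -1 else - Real.cos (Real.pi / M u v))) • Pi.single v 1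

end rep

/-- **WRP.** From `t_TITS` (`Pool/Agent/H56T/TITS.lean`). The reflections `r_v` are involutions (`B(e_v, e_v) = 1`), and the
relation `alt r_s r_t m = alt r_t r_s m` of the Artin group gives `(r_s r_t)^m = 1`; use `CoxeterSystem.lift`. -/
def S_WRP : Prop := ∀ (V : Type) [Fintype V] [DecidableEq V] (M : CoxeterMatrix V),
  ∃ ρ : M.Group →* ((V → ℝ) ≃ₗ[ℝ] (V → ℝ)), IsRep M ρ

/-- **ORD.** Paper proof. Let `s ≠ t`. If `m = M s t ≥ 2`, `θ = π / m`, then `(r_s r_t)^k e_s =
(sin ((2 k + 1) θ) e_s + sin (2 k θ) e_t) / sin θ` (induction, addition theorem; compare `TITS.lean`). If this is `e_s`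
then `sin (2 k θ) = 0` and `cos (2 k θ) = 1`, so `m ∣ k`. If `m = 0` then `(r_s r_t)^k e_s = (2 k + 1) e_s + 2 k e_t`. If `s = t` then
`M s t = 1`. -/
def S_ORD : Prop := S_WRP → ∀ (V : Type) [Fintype V] [DecidableEq V] (M : CoxeterMatrix V) (s t : V) (k : ℕ),
  (M.toCoxeterSystem.simple s * M.toCoxeterSystem.simple t) ^ k = 1 → M s t ∣ k

/-- The conclusion of MAT: Matsumoto's theorem -/
def Mats : Prop := ∀ (V : Type) [Fintype V] [DecidableEq V] (M : CoxeterMatrix V) (A : Type) [Monoid A] (f : V → A),
  (∀ u v, alt (f u) (f v) (M u v) = alt (f v) (f u) (M u v)) → ∀ ω ω' : List V,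
  M.toCoxeterSystem.IsReduced ω → M.toCoxeterSystem.IsReduced ω' →
  M.toCoxeterSystem.wordProd ω = M.toCoxeterSystem.wordProd ω' → (ω.map f).prod = (ω'.map f).prod

/-- The conclusion of ORD -/
def Ords : Prop := ∀ (V : Type) [Fintype V] [DecidableEq V] (M : CoxeterMatrix V) (s t : V) (k : ℕ),
  (M.toCoxeterSystem.simple s * M.toCoxeterSystem.simple t) ^ k = 1 → M s t ∣ k

/-- The conclusion of LNG -/
def Lngs : Prop := ∀ (B W : Type) [Group W] (M : CoxeterMatrix B) (cs : CoxeterSystem M W), LNGs cs

/-- **MAT.** Matsumoto's theorem. Paper proof. Induction on the length. If the last letters of `ω` and `ω'` are equal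
remove them. Otherwise let them be `s ≠ t`, `w = π ω`, `J = {s, t}`, `w = u v` as in `PARs.dec`. By `PARs.add` `s` and `t` are
right descents of `v`. A reduced word in `J` for `v` is alternating; let `k = ℓ v`. It ends with `s`, say; `v t` has length
`k - 1`, its reduced word in `J` is alternating and does not end with `t`, so `v` is also the product of the alternating
word of length `k` which ends with `t`. Thus both alternating words of length `k` have the product `v`, so
`(s t)^k = 1`, hence `M s t ∣ k` by ORD, `k ≥ 1`, and `k ≤ M s t` by `CoxeterSystem.not_isReduced_alternatingWord`. So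
`k = M s t`. The word `ω_u` followed by one of the alternating words of length `k` ends with `s`, the other one with `t`;
all are reduced. By the induction hypothesis (same last letters) and the braid relation for `f` we are done.
(`alt (f j) (f i) n` is the product of `(alternatingWord i j n).map f`.) -/
def S_MAT : Prop := S_PAR → Ords → Mats

section lift

variable {V : Type} (M : CoxeterMatrix V)

/-- The facts on the lifts -/
structure LFTs : Prop where
  word : ∀ ω : List V, M.toCoxeterSystem.IsReduced ω → lft M (M.toCoxeterSystem.wordProd ω) = (ω.map (sig M)).prod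
  mul : ∀ u v : M.Group, M.toCoxeterSystem.length (u * v) = M.toCoxeterSystem.length u + M.toCoxeterSystem.length v →
    lft M (u * v) = lft M u * lft M v
  one : lft M 1 = 1
  simple : ∀ v, lft M (M.toCoxeterSystem.simple v) = sig M v
  par : ∀ (T : Finset V) (w : M.Group), w ∈ par M T → lft M w ∈ Subgroup.closure (sig M '' (T : Set V))
  deg : ∃ d : ArtG M →* Multiplicative ℤ, (∀ v, d (sig M v) = Multiplicative.ofAdd 1) ∧
    ∀ w, d (lft M w) = Multiplicative.ofAdd (M.toCoxeterSystem.length w : ℤ)
  ex : ∃ π : ArtG M →* M.Group, ∀ v, π (sig M v) = M.toCoxeterSystem.simple v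
  prj : ∀ π : ArtG M →* M.Group, (∀ v, π (sig M v) = M.toCoxeterSystem.simple v) → ∀ w, π (lft M w) = w

/-- the cocycle -/
structure IsCoc (π : ArtG M →* M.Group) (C : ArtG M → M.Group → ℤ) : Prop where
  mul : ∀ (g h : ArtG M) (t : M.Group), C (g * h) t = C g t + C h ((π g)⁻¹ * t * π g)
  gen : ∀ (v : V), C (sig M v) (M.toCoxeterSystem.simple v) = 1
  gen' : ∀ (v : V) (t : M.Group), t ≠ M.toCoxeterSystem.simple v → C (sig M v) t = 0

open Classical in
/-- the longest element of `W_T` -/
noncomputable def wl (T : Finset V) : M.Group :=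
  if h : ∃ v, IsLng M.toCoxeterSystem (T : Set V) v then h.choose else 1

/-- the square of its lift -/
noncomputable def zzG (T : Finset V) : ArtG M := lft M (wl M T) * lft M (wl M T)

/-- irreducible subsets -/
def Irr [DecidableEq V] (T : Finset V) : Prop :=
  T.Nonempty ∧ ∀ A ⊆ T, A.Nonempty → A ≠ T → ∃ a ∈ A, ∃ b ∈ T \ A, M a b ≠ 2

/-- the irreducible spherical subsets -/
abbrev II [DecidableEq V] : Type := {T : Finset V // Sphl M T ∧ Irr M T}

noncomputable instance [Fintype V] [DecidableEq V] : Fintype (II M) := Fintype.ofFinite _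

/-- nested or orthogonal -/
def LGG [DecidableEq V] : SimpleGraph (II M) where
  Adj S T := S ≠ T ∧ (S.1 ⊆ T.1 ∨ T.1 ⊆ S.1 ∨ ∀ a ∈ S.1, ∀ b ∈ T.1, M a b = 2)
  symm := ⟨by
    rintro S T ⟨h, h' | h' | h'⟩
    · exact ⟨h.symm, Or.inr (Or.inl h')⟩
    · exact ⟨h.symm, Or.inl h'⟩
    · exact ⟨h.symm, Or.inr (Or.inr fun a ha b hb => (M.symmetric a b).trans (h' b hb a ha))⟩⟩
  loopless := ⟨fun _ h => h.1 rfl⟩

end lift

/-- The conclusion of LFT -/
def Lfts : Prop := ∀ (V : Type) [Fintype V] [DecidableEq V] (M : CoxeterMatrix V), LFTs M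

/-- **LFT.** Paper proof. `word`: Matsumoto with `f = sig M`, `A = ArtG M`. `mul`: concatenate reduced words. `par`: the
reduced word in `T` from `PARs.word`. `deg`, `ex`: `PresentedGroup.toGroup`. -/
def S_LFT : Prop := S_PAR → Mats → Lfts

/-- **COC.** Paper proof. On the functions `F : M.Group → ℤ` let `(Θ v F) t = F (s_v t s_v) + [t = s_v]`, a permutation. The
braid relations hold: the product of the alternating word `s t s ⋯` with `m` letters (first factor `s`) maps `F` to
`F (w⁻¹ t w) + ∑_{k < m} [t = (s t)^k s]`, for the other order one gets the elements `(t s)^k t`, `k < m`, and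
`(s t)^k s = (t s)^(m - 1 - k) t` as `(s t)^m = 1`. So there is a homomorphism `Θ` from the Artin group to the permutations,
`(Θ g F) t = F ((π g)⁻¹ t (π g)) + C g t`, `C g = Θ g 0`. (Compare `wf_liftable` in `Helper376/LC/Cox.lean` and `TITS.lean`.) -/
def S_COC : Prop := ∀ (V : Type) (M : CoxeterMatrix V) (π : ArtG M →* M.Group),
  (∀ v, π (sig M v) = M.toCoxeterSystem.simple v) → ∃ C, IsCoc M π C

/-- **CRD.** Paper proof. For a word `ω`, `C ((ω.map (sig M)).prod) t` is the number of the occurrences of `t` in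
`leftInvSeq ω` (induction). If `ω` is reduced then `leftInvSeq ω` has no repetitions and its elements are exactly the left
inversions of `π ω` (`isLeftInversion_of_mem_leftInvSeq`, `eta_wordProd`, `rightInv_iff_eta`, `mem_Ninv_iff`). -/
def S_CRD : Prop := ∀ (V : Type) (M : CoxeterMatrix V) (π : ArtG M →* M.Group) (C : ArtG M → M.Group → ℤ),
  (∀ v, π (sig M v) = M.toCoxeterSystem.simple v) → IsCoc M π C → ∀ (w t : M.Group),
    (M.toCoxeterSystem.IsLeftInversion w t → C (lft M w) t = 1) ∧
    (¬ M.toCoxeterSystem.IsLeftInversion w t → C (lft M w) t = 0)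

/-- **FSR.** A reflection of full support. Paper proof. Let `B(x, y)` be the bilinear form of `IsRep`. Build up `T` from one
element, adding in each step an element `b` with `M a b ≠ 2` for an `a` in the set `A` constructed so far (`Irr`). In each
step we have a reflection `t ∈ W_A` and a vector `β`, `β u > 0` for `u ∈ A`, `β u = 0` for `u ∉ A`, `B(β, β) = 1`, with
`ρ t x = x - 2 B(x, β) β`. Next step: `t' = s_b t s_b`, `β' = ρ s_b β = β - 2 B(β, e_b) e_b`, and `B(β, e_b) < 0` since
`B(e_u, e_b) ≤ 0` for `u ≠ b` and `B(e_a, e_b) < 0`. At the end `A = T`. If `t ∈ W_S` then `ρ t x - x` is supported in `S` for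
all `x`; with `x = β` this gives `T ⊆ S`. -/
def S_FSR : Prop := S_WRP → ∀ (V : Type) [Fintype V] [DecidableEq V] (M : CoxeterMatrix V) (T : Finset V), Irr M T →
  ∃ t : M.Group, M.toCoxeterSystem.IsReflection t ∧ t ∈ par M T ∧ ∀ S : Finset V, t ∈ par M S → T ⊆ S

/-- **GCM.** Paper proof. Let `w = wl M T`, `D = lft M w` (`IsLng` by `LNGs.ex` and the definition of `wl`), `s ∈ T`. By
`LNGs.len` (and inverses, `w² = 1`) `ℓ (s w) = ℓ w - 1` and `ℓ (w s w) = 1`, so `w s w = s'` with `s' ∈ T` (`PARs.word`).
`D = lft (w s) * sig s` and `D = sig s' * lft (w s)` (as `s' w = w s`), hence `D * sig s = sig s' * D`. Applied twice (and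
`sig = lft ∘ simple`): `D²` commutes with `sig s`. `D² ∈ closure (sig '' T)` by `LFTs.par`. So if `S ⊆ T` then `zzG M S`
commutes with `zzG M T`. If `M a b = 2` for all `a ∈ S`, `b ∈ T` then `sig a`, `sig b` commute. -/
def S_GCM : Prop := S_PAR → Lngs → Lfts → ∀ (V : Type) [Fintype V] [DecidableEq V] (M : CoxeterMatrix V)
  (S T : Finset V), Sphl M S → Sphl M T → (S ⊆ T ∨ T ⊆ S ∨ ∀ a ∈ S, ∀ b ∈ T, M a b = 2) →
  Commute (zzG M S) (zzG M T)

open Classical in
/-- **MOB.** Möbius inversion: the integer matrix `[b ≤ c]` of a finite partial order is invertible (for example by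
induction along a linear extension, or with the Möbius function of mathlib, `IncidenceAlgebra`). -/
def S_MOB : Prop := ∀ (P : Type) [Fintype P] [PartialOrder P], ∃ m : P → P → ℤ,
  ∀ a c : P, ∑ b, m a b * (if b ≤ c then 1 else 0) = if a = c then 1 else 0

/-- **GHM.** Paper proof. Let `C` be as in COC. On `π.ker` the functions `g ↦ C g t` are homomorphisms to `ℤ`. Let
`T ∈ II M`, `w = wl M T`, `IsLng`. `π (lft M w) = w`, `w² = 1`, so `zzG M T ∈ π.ker`. A reflection `t` is a left inversion
of `w` if and only if `t ∈ W_T`: if `t ∈ W_T` then `ℓ (t w) = ℓ (w t) = ℓ w - ℓ t`; if `ℓ (t w) < ℓ w` then by the strong exchange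
property (`eta`) `t w` is the product of the reduced word in `T` for `w` with one letter deleted, so `t ∈ W_T`. So for a
reflection `t`: `C (zzG M T) t = C (lft w) t + C (lft w) (w⁻¹ t w) = 2 [t ∈ W_T]` (CRD). With the reflection `t_S` of FSR for
`S ∈ II M`: `C (zzG M T) t_S = 2 [S ⊆ T]`. Let `E S g = ∑_{R ∈ II M} m S R * C g t_R`, `m` as in MOB for the order by inclusion. -/
def S_GHM : Prop := S_PAR → Lngs → Lfts → S_COC → S_CRD → S_WRP → S_FSR → S_MOB →
  ∀ (V : Type) [Fintype V] [DecidableEq V] (M : CoxeterMatrix V) [DecidableEq (II M)]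
    (π : ArtG M →* M.Group), (∀ v, π (sig M v) = M.toCoxeterSystem.simple v) →
  ∃ (hz : ∀ x : II M, zzG M x.1 ∈ π.ker) (E : II M → (π.ker →* Multiplicative ℤ)),
    ∀ x y : II M, Multiplicative.toAdd (E x ⟨zzG M y.1, hz y⟩) = if y = x then 2 else 0

/-- **NST.** Abstract subdivision over `F_2`. Paper proof. For an element `a` of `N` and a chain `x` on `N` let
`cone a x Σ = if a ∈ Σ then x (Σ - a) else 0`. Then `bb (cone a x) = x + cone a (bb x)`. Define `sd T`, a chain on `N`, by
recursion on the number of elements: `sd ∅ = [∅]`, `sd T = cone (a T) (∑_{t ∈ T} sd (T - t))`, `a T ∈ K T` as in the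
hypothesis. Then `bb (sd T) = ∑_{t ∈ T} sd (T - t)` for all `T` with `S T` (induction; the double sum vanishes over `F_2`),
and `sd T` is supported on the cliques in `K T` with `T.card` elements. Let `sdL z = ∑_T z T • sd T`, so
`bb (sdL z) = sdL (bb z)`. Let `r_* x T = ∑_{Σ, Σ.image r = T, Σ.card = T.card} x Σ`; `bb (r_* x) = r_* (bb x)` (if exactly one
pair of elements of `Σ` is identified by `r` the two terms of the boundary cancel). `r_* (sd T) = [T]` for `S T`: it is
supported on `T` only, so `r_* (sd T) = λ [T]`; apply `bb` and use induction: `λ = 1` (`T = ∅`: clear). If `z` is a cycle of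
`S` then `sdL z` is a cycle on the cliques, `= bb y`, and `z = r_* (sdL z) = bb (r_* y)`. -/
def S_NST : Prop := ∀ (V N : Type) [Fintype V] [LinearOrder V] [Fintype N] [DecidableEq N] (G : SimpleGraph N)
  (S : Finset V → Prop) (K : Finset V → Set N) (r : N → V) (i : ℕ),
  (∀ T T' : Finset V, T' ⊆ T → S T → S T') → (∀ T T' : Finset V, T' ⊆ T → K T' ⊆ K T) →
  (∀ T : Finset V, S T → T.Nonempty → ∃ a ∈ K T, ∀ x ∈ K T, x = a ∨ G.Adj x a) →
  (∀ T : Finset V, ∀ x ∈ K T, r x ∈ T) → (∀ Q : Finset N, G.IsClique (Q : Set N) → S (Q.image r)) →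
  Exa G i → ExF S i

/-- **NSG.** Paper proof. Apply NST with `N = II M`, `S = Sphl M`, `K T = {B | B ⊆ T}`, `r B ∈ B` arbitrary. For `T` nonempty
and spherical let `B` be a minimal nonempty subset of `T` with `M a b = 2` for all `a ∈ B`, `b ∈ T \ B`; `B` is irreducible,
and every irreducible `C ⊆ T` satisfies `C ⊆ B` or `C ∩ B = ∅` (consider `C ∩ B` and `C \ B`), in the second case it is
orthogonal to `B`. Cliques `Q` of `LGG M` have a spherical union, by induction on the number of elements: let `B ∈ Q` be of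
maximal cardinality; the other elements are contained in `B` or orthogonal to `B`; let `C` be the union of those
orthogonal to `B`, it is spherical by induction, `⋃ Q = B ∪ C`, `W_(B ∪ C) = W_B W_C` is finite as the generators commute.
Subsets of spherical sets are spherical. -/
def S_NSG : Prop := S_NST → ∀ (V : Type) [Fintype V] [LinearOrder V] (M : CoxeterMatrix V) [DecidableEq (II M)] (i : ℕ),
  Exa (LGG M) i → ExF (Sphl M) i

section tht

variable {V : Type} [DecidableEq V] (M : CoxeterMatrix V)

/-- The identities for the alternating sums -/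
structure THTs : Prop where
  right : ∀ S T : Finset V, S ⊆ T → Sphl M T → tht M T ∅ = tht M T S * tht M S ∅
  one : ∀ T : Finset V, Sphl M T → tht M T T = 1
  sum : ∀ T : Finset V, Sphl M T → ∑ S ∈ T.powerset, ((-1 : ℤ) ^ S.card) • tht M T S =
    ((-1 : ℤ) ^ M.toCoxeterSystem.length (wl M T)) • MonoidAlgebra.single (lft M (wl M T)) (1 : ℤ)
  left : ∃ q : Finset V → Finset V → MonoidAlgebra ℤ (ArtG M),
    (∀ S T : Finset V, S ⊆ T → Sphl M T → tht M T ∅ = tht M S ∅ * q T S) ∧ (∀ T, Sphl M T → q T T = 1) ∧
    ∀ T : Finset V, Sphl M T → ∑ S ∈ T.powerset, ((-1 : ℤ) ^ S.card) • q T S =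
      ((-1 : ℤ) ^ M.toCoxeterSystem.length (wl M T)) • MonoidAlgebra.single (lft M (wl M T)) (1 : ℤ)

end tht

/-- The conclusion of THT -/
def Thts : Prop := ∀ (V : Type) [Fintype V] [DecidableEq V] (M : CoxeterMatrix V), THTs M

/-- **THT.** Paper proof. `right`: every `w ∈ W_T` is uniquely `w = u v` with `v ∈ W_S` and `u ∈ W_T` without right descents in
`S` (`PARs.dec`, `PARs.add`: if `u v = u' v'` then `ℓ u' = ℓ u + ℓ (v v'⁻¹)`, `ℓ u = ℓ u' + ℓ (v' v⁻¹)`), `ℓ w = ℓ u + ℓ v` and
`lft w = lft u * lft v`. `one`: an element of `W_T` without right descents in `T` is `1`. `sum`: the coefficient of the lift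
of `w ∈ W_T` is `(-1)^(ℓ w)` times the sum of `(-1)^|S|` over the subsets `S` of the set of the `s ∈ T` which are not right
descents of `w`; it is zero unless all `s ∈ T` are right descents, `w = wl M T` (`LNGs.uniq`). `left`: the same with the
elements without left descents in `S` and `w = v u` (take inverses; `lft` is multiplicative there too). -/
def S_THT : Prop := S_PAR → Lngs → Lfts → Thts

/-- **GUN.** Paper proof. Let `α T` be the image of `tht M T ∅`. The second statement is `THTs.right` with `S = T`,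
`insert v T`. First statement: induction on the number of elements of `T`. `α ∅ = 1` (`THTs.one`). Let `T` be nonempty,
`w = wl M T`, `Δ` the image of `lft M w`, `ℓ w ≥ 1` (`IsLng` with `LNGs.ex`). The images of `tht M T S`, `S ⊊ T`, are
`α T * (α S)⁻¹`, so `THTs.sum` gives `α T * Q = ± Δ - (± 1)` where `Q = ∑_{S ⊊ T} (-1)^|S| (α S)⁻¹`. The elements `1 - Δ` and
`1 - Δ²` are units (degree `ℓ w`, `2 ℓ w` by `LFTs.deg`), hence `1 + Δ` is a unit. So `α T` has a right inverse, and in the
same way (`THTs.left`) a left inverse. Subsets of spherical sets are spherical (`par` is monotone). -/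
def S_GUN : Prop := Lngs → Lfts → Thts → ∀ (V : Type) [Fintype V] [DecidableEq V] (M : CoxeterMatrix V) (R : Type)
  [Ring R] (c : ArtG M →* R), (∀ g : ArtG M, (∃ d : ArtG M →* Multiplicative ℤ, d g ≠ 1) → IsUnit (1 - c g)) →
  ∃ α : Finset V → R, (∀ T, Sphl M T → IsUnit (α T)) ∧
    ∀ (T : Finset V) (v : V), v ∉ T → Sphl M (insert v T) →
      V7N.evM c (tht M (insert v T) T) * α T = α (insert v T)

end Pool.Agent.H56T.GA
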